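import Pool.Agent.H66.CY.DivB

/-!
# Many good fibres make the total space good

Row text. Let `T` be the finite set of parameters and choose for every `t ∈ T` the witnesses of
`FibGood D k t A B`; index type `Σ t : T, ι t` (finite), curves `lft t (f t j)`. If `G` (degree `k`)
vanishes on all of them then `restr t G` (degree `k`, `isHomogeneous_restr`) vanishes on the `f t j`
(`aeval_lft`), so `fib t A B ∣ restr t G`; `div_of_fibres`.
-/

noncomputable section

namespace Pool.Agent.H66.CY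

variable {M D k : ℕ}

theorem good_of_fibGood {A B : MvPolynomial (Fin (M + 2)) ℂ} (hA : A.IsHomogeneous D)
    (hB : B.IsHomogeneous D) (hq : ∀ t, fib t A B ≠ 0) (hA1 : ¬ MvPolynomial.X 1 ∣ A)
    (T : Finset ℂ)
    (hT : Module.finrank ℂ (MvPolynomial.homogeneousSubmodule (Fin (M + 2)) ℂ k) < T.card)
    (h : ∀ t ∈ T, FibGood D k t A B) : Good (D + 1) k (tot A B) := by
  choose ι hι e f h1 h2 using fun t : {t // t ∈ T} => h t.1 t.2
  refine ⟨Σ t : {t // t ∈ T}, ι t, inferInstance, fun j => e j.1 j.2, fun j => lft j.1.1 (f j.1 j.2),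
    fun j => (h1 j.1 j.2).2, ?_⟩
  intro G hG hv
  refine div_of_fibres hA hB hq hA1 hG T hT fun t ht => ?_
  refine h2 ⟨t, ht⟩ (restr t G) (isHomogeneous_restr hG) fun j => ?_
  rw [← aeval_lft]
  exact hv ⟨⟨t, ht⟩, j⟩

/-- A variant for curves that lie one in each fibre. -/
theorem good_of_curves {A B : MvPolynomial (Fin (M + 2)) ℂ} (hA : A.IsHomogeneous D)
    (hB : B.IsHomogeneous D) (hq : ∀ t, fib t A B ≠ 0) (hA1 : ¬ MvPolynomial.X 1 ∣ A)
    {ι : Type} [Fintype ι] (t : ι → ℂ) (ht : Function.Injective t)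
    (hT : Module.finrank ℂ (MvPolynomial.homogeneousSubmodule (Fin (M + 2)) ℂ k) < Fintype.card ι)
    (e : ι → ℕ) (f : ι → Fin (M + 1) → Polynomial ℂ)
    (hf : ∀ j, Unobst (D + 1) (e j) (tot A B) (lft (t j) (f j)))
    (hd : ∀ j, ∀ G : MvPolynomial (Fin (M + 1)) ℂ, G.IsHomogeneous k →
      MvPolynomial.aeval (f j) G = 0 → fib (t j) A B ∣ G) : Good (D + 1) k (tot A B) := by
  classical
  refine ⟨ι, inferInstance, e, fun j => lft (t j) (f j), hf, ?_⟩
  intro G hG hv
  refine div_of_fibres hA hB hq hA1 hG (Finset.univ.image t) ?_ fun s hs => ?_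
  · rwa [Finset.card_image_of_injective _ ht, Finset.card_univ]
  · obtain ⟨j, -, rfl⟩ := Finset.mem_image.1 hs
    refine hd j (restr (t j) G) (isHomogeneous_restr hG) ?_
    rw [← aeval_lft]
    exact hv j

end Pool.Agent.H66.CY
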