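import Pool.Agent.H66.CY.Defs
import Pool.Agent.H72.SB.Aut

/-!
# Automorphisms of the complex numbers

Row text. Two finite families of complex numbers, algebraically independent over `ℚ`, are conjugate
under an automorphism of `ℂ`. Proof: extend the range of `x` to a transcendence basis `s ⊇ range x` of
`ℂ` over `ℚ` (`exists_isTranscendenceBasis_superset` or `AlgebraicIndependent.exists_...`; look in
`Mathlib/RingTheory/AlgebraicIndependent/TranscendenceBasis.lean`), the same for `y`. `s` and `t` have
cardinality continuum (a transcendence basis of `ℂ` over the countable field `ℚ` has the cardinality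
of `ℂ`: `Mathlib.FieldTheory.IsAlgClosed.Classification`,
`IsAlgClosed.cardinal_eq_cardinal_transcendence_basis_of_aleph0_lt`; see also
`Pool/Agent/H72/SB/Aut.lean`, `Pool/Agent/H62/Chain/GenSpace.lean`), so `s \ range x` and
`t \ range y` have the same cardinality (`Cardinal.mk_diff_eq_of_lt` or similar: removing finitely many
elements from an infinite set), choose a bijection. The families `Sum.elim x (subtype of s \ range x)`
and `Sum.elim y (...)` on `ι ⊕ (s \ range x)` are transcendence bases
(`isTranscendenceBasis_equiv`). Apply `Pool.Agent.H72.SB.exists_aut`.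
-/

noncomputable section

namespace Pool.Agent.H66.CY

open Cardinal in
theorem exists_aut {ι : Type} [Finite ι] {x y : ι → ℂ} (hx : AlgebraicIndependent ℚ x)
    (hy : AlgebraicIndependent ℚ y) : ∃ σ : ℂ ≃+* ℂ, ∀ i, σ (x i) = y i := by
  obtain ⟨s, hxs, hs⟩ := exists_isTranscendenceBasis_superset (s := Set.range x) hx.to_subtype_range
  obtain ⟨t, hyt, ht⟩ := exists_isTranscendenceBasis_superset (s := Set.range y) hy.to_subtype_range
  have hC : ℵ₀ < #ℂ := by
    rw [Cardinal.mk_complex]
    exact Cardinal.aleph0_lt_continuum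
  have hQ : #ℚ ≤ ℵ₀ := Cardinal.mk_le_aleph0
  have hcs := IsAlgClosed.cardinal_eq_cardinal_transcendence_basis_of_aleph0_lt' _ hs hQ hC
  have hct := IsAlgClosed.cardinal_eq_cardinal_transcendence_basis_of_aleph0_lt' _ ht hQ hC
  have hst : Nonempty (s ≃ t) := Cardinal.eq.1 (hcs.symm.trans hct)
  let x' : ι → s := fun i => ⟨x i, hxs ⟨i, rfl⟩⟩
  let y' : ι → t := fun i => ⟨y i, hyt ⟨i, rfl⟩⟩
  have hx' : Function.Injective x' := fun a b hab => hx.injective (Subtype.ext_iff.1 hab)
  have hy' : Function.Injective y' := fun a b hab => hy.injective (Subtype.ext_iff.1 hab)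
  let f : Set.range x' ↪ t :=
    ⟨fun a => y' ((Equiv.ofInjective x' hx').symm a), hy'.comp (Equiv.injective _)⟩
  have hlt : #(Set.range x') < #s := by
    have h1 : #(Set.range x') < ℵ₀ := Cardinal.lt_aleph0_of_finite _
    refine h1.trans ?_
    rw [← hcs]
    exact hC
  obtain ⟨g, hg⟩ := Cardinal.extend_function_of_lt f hlt hst
  have hgx : ∀ i, g (x' i) = y' i := by
    intro i
    have h1 := hg ⟨x' i, ⟨i, rfl⟩⟩
    have h2 : (Equiv.ofInjective x' hx').symm ⟨x' i, ⟨i, rfl⟩⟩ = i :=
      Equiv.ofInjective_symm_apply hx' i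
    have h3 : f ⟨x' i, ⟨i, rfl⟩⟩ = y' i := by
      show y' ((Equiv.ofInjective x' hx').symm ⟨x' i, ⟨i, rfl⟩⟩) = y' i
      rw [h2]
    rw [← h3]
    exact h1
  have ht' : IsTranscendenceBasis ℚ (fun a : s => (g a : ℂ)) :=
    (isTranscendenceBasis_equiv g (f := ((↑) : t → ℂ))).2 ht
  obtain ⟨σ, hσ⟩ := Pool.Agent.H72.SB.exists_aut hs ht'
  refine ⟨σ.toRingEquiv, fun i => ?_⟩
  have h1 := hσ (x' i)
  rw [hgx i] at h1
  exact h1

end Pool.Agent.H66.CY
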