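import Pool.Agent.H66.CY.Coord

/-!
# Choices that avoid finitely many conditions

Row text. `exists_small`: a finite set of complex numbers does not contain all small `η ≠ 0`.
`exists_linear`: finitely many nonzero vectors `v` in `ℂ^N`: there is `l` with `∑ l i * v i ≠ 0` for all
of them (the product of the nonzero linear polynomials is a nonzero polynomial in `l`:
`MvPolynomial.funext`/`MvPolynomial.exists_eval_ne_zero`-type lemma over an infinite field, or a
vector space over an infinite field is not a finite union of proper subspaces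
(`Subspace.biUnion_ne_univ_of_top_notMem` or similar)).

`no_zero`: an unobstructed curve has no zero: if all `f i` vanish at `z` then, `D ≥ 2`, all
`aeval f (pderiv i F)` vanish at `z` (forms of degree `D - 1 ≥ 1`), so `dsub F f g` does, contradiction
to `Onto` for `h = 1`. `no_zero_infty`: if all coefficients of `t^e` are zero, then `f` has degree
`≤ e - 1`, `dsub F f g` has degree `≤ (D - 1) (e - 1) + e < D e`, contradiction for `h = t^(D e)`.
-/

noncomputable section

namespace Pool.Agent.H66.CY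

theorem exists_small (s : Set ℂ) (hs : s.Finite) {δ : ℝ} (hδ : 0 < δ) :
    ∃ η : ℂ, η ≠ 0 ∧ ‖η‖ < δ ∧ η ∉ s := by
  have h1 : (Metric.ball (0 : ℂ) δ).Infinite :=
    infinite_of_mem_nhds (0 : ℂ) (Metric.ball_mem_nhds _ hδ)
  have h2 : (Metric.ball (0 : ℂ) δ \ (insert 0 s)).Infinite := h1.sdiff (hs.insert 0)
  obtain ⟨η, h3, h4⟩ := h2.nonempty
  rw [Set.mem_insert_iff, not_or] at h4
  refine ⟨η, h4.1, ?_, h4.2⟩
  rwa [Metric.mem_ball, dist_zero_right] at h3

theorem exists_linear {N : ℕ} {ι : Type} [Finite ι] (v : ι → Fin N → ℂ) (hv : ∀ j, v j ≠ 0) :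
    ∃ l : Fin N → ℂ, ∀ j, ∑ i, l i * v j i ≠ 0 := by
  classical
  obtain ⟨f, hf⟩ := Module.exists_dual_forall_apply_ne_zero (K := ℂ) v hv
  refine ⟨fun i => f (Pi.single i 1), fun j => ?_⟩
  have h1 : ∑ i, f (Pi.single i 1) * v j i = f (v j) := by
    conv_rhs => rw [LinearMap.pi_apply_eq_sum_univ f (v j)]
    refine Finset.sum_congr rfl fun i _ => ?_
    rw [smul_eq_mul, mul_comm]
    congr 2
    funext k
    rw [Pi.single_apply]
    simp [eq_comm]
  rw [h1]
  exact hf j

theorem no_zero {N D e : ℕ} (hD : 2 ≤ D) {F : MvPolynomial (Fin N) ℂ} (hF : F.IsHomogeneous D)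
    {f : Fin N → Polynomial ℂ} (h : Unobst D e F f) (z : ℂ) : (fun i => (f i).eval z) ≠ 0 := by
  intro hz
  obtain ⟨g, hg, hg'⟩ := h.onto 1 (by simp)
  have h1 := congrArg (Polynomial.eval z) hg'
  rw [Polynomial.eval_one] at h1
  unfold dsub at h1
  rw [Polynomial.eval_finsetSum] at h1
  have h2 : ∀ i ∈ Finset.univ, Polynomial.eval z
      (MvPolynomial.aeval f (MvPolynomial.pderiv i F) * g i) = 0 := by
    intro i _
    have h3 : (MvPolynomial.pderiv i F).IsHomogeneous (D - 1) := hF.pderiv
    have h4 : MvPolynomial.eval (0 : Fin N → ℂ) (MvPolynomial.pderiv i F) = 0 := by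
      rw [MvPolynomial.eval_zero]
      show MvPolynomial.constantCoeff (MvPolynomial.pderiv i F) = 0
      rw [MvPolynomial.constantCoeff_eq]
      apply h3.coeff_eq_zero
      rw [map_zero]
      omega
    rw [Polynomial.eval_mul, eval_aeval, hz, h4, zero_mul]
  rw [Finset.sum_eq_zero h2] at h1
  exact zero_ne_one h1

theorem no_zero_infty {N D e : ℕ} (hD : 2 ≤ D) {F : MvPolynomial (Fin N) ℂ}
    (hF : F.IsHomogeneous D) {f : Fin N → Polynomial ℂ} (h : Unobst D e F f) :
    (fun i => (f i).coeff e) ≠ 0 := by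
  intro hz
  have he := h.one_le
  have hf : DegLE (e - 1) f := by
    intro i
    have h1 := h.deg i
    rcases Nat.lt_or_ge (f i).natDegree e with h2 | h2
    · omega
    · have h3 : (f i).natDegree = e := le_antisymm h1 h2
      have h4 : (f i).coeff e = 0 := congrFun hz i
      rw [← h3] at h4
      have h5 : f i = 0 := Polynomial.leadingCoeff_eq_zero.1 h4
      rw [h5, Polynomial.natDegree_zero]
      exact Nat.zero_le _
  obtain ⟨g, hg, hg'⟩ := h.onto (Polynomial.X ^ (D * e)) (by rw [Polynomial.natDegree_X_pow])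
  have h2 : (dsub F f g).natDegree ≤ (D - 1) * (e - 1) + e := by
    unfold dsub
    refine Polynomial.natDegree_sum_le_of_forall_le _ _ fun i _ => ?_
    have h3 : (MvPolynomial.pderiv i F).IsHomogeneous (D - 1) := hF.pderiv
    exact (Polynomial.natDegree_mul_le).trans (Nat.add_le_add (natDegree_aeval_le h3 hf) (hg i))
  rw [hg', Polynomial.natDegree_X_pow] at h2
  obtain ⟨D', rfl⟩ := Nat.exists_eq_add_of_le hD
  obtain ⟨e', rfl⟩ := Nat.exists_eq_add_of_le he
  have h6 : 2 + D' - 1 = D' + 1 := by omega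
  have h7 : 1 + e' - 1 = e' := by omega
  rw [h6, h7] at h2
  nlinarith

end Pool.Agent.H66.CY
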