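import Pool.Agent.H66.CY.E0

/-!
# The choice of `A₁` and `B₁`

Row text. `V` = quartic forms in three variables. A vector space over an infinite field is not a
finite union of proper subspaces: `Module.Dual.exists_forall_mem_ne_zero_of_forall_exists` (or
`Subspace.biUnion_ne_univ_of_top_notMem`). For `a`: the functionals `mu r : a ↦ lam r (a(f_r))`
(`r ∈ I`) and `a ↦ a(f_r(z))`, `z` a root of `f_r 0` (finitely many; nonzero because `f_r(z)` has a
coordinate `x i ≠ 0`, use `X i ^ 4`). For `b`: the functionals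
`b ↦ mu r b * mu r' a - mu r' b * mu r a`, `r ≠ r'` in `I`; it is not zero since `mu r ≠ c * mu r'`
with `c = mu r a / mu r' a` for some form. Then the quotients `mu r b / mu r a` are distinct.
-/

noncomputable section

namespace Pool.Agent.H66.CY

theorem select (f : ℕ → Fin 4 → Polynomial ℂ) (lam : ℕ → Polynomial ℂ →ₗ[ℂ] ℂ)
    (hf0 : ∀ r, f r 0 ≠ 0) (hc : ∀ r z, ∃ i : Fin 3, (f r i.castSucc).eval z ≠ 0)
    (h1 : ∀ r, ∃ A : MvPolynomial (Fin 3) ℂ, A.IsHomogeneous 4 ∧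
      lam r (MvPolynomial.aeval (fun i => f r i.castSucc) A) ≠ 0)
    (h2 : ∀ r r', r ≠ r' → ∀ c : ℂ, ∃ A : MvPolynomial (Fin 3) ℂ, A.IsHomogeneous 4 ∧
      lam r (MvPolynomial.aeval (fun i => f r i.castSucc) A) ≠
        c * lam r' (MvPolynomial.aeval (fun i => f r' i.castSucc) A))
    (I : Finset ℕ) :
    ∃ a b : MvPolynomial (Fin 3) ℂ, a.IsHomogeneous 4 ∧ b.IsHomogeneous 4 ∧
      (∀ r ∈ I, lam r (MvPolynomial.aeval (fun i => f r i.castSucc) a) ≠ 0) ∧
      (∀ r ∈ I, ∀ z, (f r 0).eval z = 0 →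
        MvPolynomial.eval (fun i => (f r i.castSucc).eval z) a ≠ 0) ∧
      ∀ r ∈ I, ∀ r' ∈ I, r ≠ r' →
        lam r (MvPolynomial.aeval (fun i => f r i.castSucc) b) /
            lam r (MvPolynomial.aeval (fun i => f r i.castSucc) a) ≠
          lam r' (MvPolynomial.aeval (fun i => f r' i.castSucc) b) /
            lam r' (MvPolynomial.aeval (fun i => f r' i.castSucc) a) := by
  classical
  let mu : ℕ → Module.Dual ℂ (MvPolynomial (Fin 3) ℂ) := fun r =>
    (lam r).comp (MvPolynomial.aeval (fun i : Fin 3 => f r i.castSucc)).toLinearMap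
  have hmu : ∀ r A, mu r A = lam r (MvPolynomial.aeval (fun i : Fin 3 => f r i.castSucc) A) :=
    fun r A => rfl
  let ev : ℕ → ℂ → Module.Dual ℂ (MvPolynomial (Fin 3) ℂ) := fun r z =>
    (MvPolynomial.aeval (fun i : Fin 3 => (f r i.castSucc).eval z)).toLinearMap
  have hev : ∀ r z A, ev r z A = MvPolynomial.eval (fun i : Fin 3 => (f r i.castSucc).eval z) A := by
    intro r z A
    show MvPolynomial.aeval (fun i : Fin 3 => (f r i.castSucc).eval z) A = _
    rw [MvPolynomial.aeval_eq_eval]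
  obtain ⟨a, ha, ha'⟩ := Module.Dual.exists_forall_mem_ne_zero_of_forall_exists
    (MvPolynomial.homogeneousSubmodule (Fin 3) ℂ 4)
    (Sum.elim (fun r : I => mu r)
      (fun x : (Σ r : I, {z // z ∈ (f r 0).roots.toFinset}) => ev x.1 x.2.1))
    (by
      rintro (r | ⟨r, z⟩)
      · obtain ⟨A, hA, hA'⟩ := h1 r
        exact ⟨A, (MvPolynomial.mem_homogeneousSubmodule _ _).2 hA, hA'⟩
      · obtain ⟨i, hi⟩ := hc r z
        refine ⟨MvPolynomial.X i ^ 4, (MvPolynomial.mem_homogeneousSubmodule _ _).2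
          (MvPolynomial.isHomogeneous_X_pow i 4), ?_⟩
        show ev r z (MvPolynomial.X i ^ 4) ≠ 0
        rw [hev, map_pow, MvPolynomial.eval_X]
        exact pow_ne_zero _ hi)
  have ha1 : ∀ r ∈ I, mu r a ≠ 0 := fun r hr => ha' (Sum.inl ⟨r, hr⟩)
  have ha2 : ∀ r ∈ I, ∀ z, (f r 0).eval z = 0 →
      MvPolynomial.eval (fun i : Fin 3 => (f r i.castSucc).eval z) a ≠ 0 := by
    intro r hr z hz
    rw [← hev]
    exact ha' (Sum.inr ⟨⟨r, hr⟩, ⟨z, by
      rw [Multiset.mem_toFinset, Polynomial.mem_roots (hf0 r)]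
      exact hz⟩⟩)
  obtain ⟨b, hb, hb'⟩ := Module.Dual.exists_forall_mem_ne_zero_of_forall_exists
    (MvPolynomial.homogeneousSubmodule (Fin 3) ℂ 4)
    (fun x : {x : I × I // (x.1 : ℕ) ≠ x.2} => (mu x.1.2 a) • mu x.1.1 - (mu x.1.1 a) • mu x.1.2)
    (by
      rintro ⟨⟨⟨r, hr⟩, ⟨r', hr'⟩⟩, hne⟩
      obtain ⟨A, hA, hA'⟩ := h2 r r' hne (mu r a / mu r' a)
      refine ⟨A, (MvPolynomial.mem_homogeneousSubmodule _ _).2 hA, ?_⟩
      show mu r' a * mu r A - mu r a * mu r' A ≠ 0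
      rw [← hmu, ← hmu] at hA'
      intro h0
      apply hA'
      have h3 := ha1 r' hr'
      field_simp
      linear_combination h0)
  refine ⟨a, b, (MvPolynomial.mem_homogeneousSubmodule _ _).1 ha,
    (MvPolynomial.mem_homogeneousSubmodule _ _).1 hb, ha1, ha2, ?_⟩
  intro r hr r' hr' hne
  rw [← hmu, ← hmu, ← hmu, ← hmu]
  have h3 := hb' ⟨(⟨r, hr⟩, ⟨r', hr'⟩), hne⟩
  have h4 : mu r' a * mu r b - mu r a * mu r' b ≠ 0 := h3
  intro h5
  rw [div_eq_div_iff (ha1 r hr) (ha1 r' hr')] at h5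
  apply h4
  linear_combination h5

end Pool.Agent.H66.CY
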