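import Pool.Agent.H66.CY.BaseB
import Pool.Agent.H66.CY.Select
import Pool.Agent.H66.CY.Assemble

/-!
# The quintic threefold: `Good 5 k`

Row text. Take more than `finrank` numbers `r` with `4 k < 1 + 6 r²` (a finite set `I`), `a`, `b` from
`select`. The numbers `ρ_r = - mu r b / mu r a`, `r ∈ I`, are distinct; let `δ` be less than half of
their mutual distances. `perturb` for each `r ∈ I`, take one `ε ≠ 0` smaller than all `η_r`. The
`t_r = ε θ_r` are distinct. `good_of_curves` with index type `I`.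
-/

noncomputable section

namespace Pool.Agent.H66.CY

theorem base_good {q : MvPolynomial (Fin 4) ℂ} (hq : q.IsHomogeneous 4)
    (hw : ∃ m : Fin 4 →₀ ℕ, m 3 ≠ 0 ∧ q.coeff m ≠ 0) (f : ℕ → Fin 4 → Polynomial ℂ)
    (lam : ℕ → Polynomial ℂ →ₗ[ℂ] ℂ) (hf : ∀ r, CurveData q (1 + 6 * r ^ 2) (f r) (lam r))
    (h1 : ∀ r, ∃ A : MvPolynomial (Fin 3) ℂ, A.IsHomogeneous 4 ∧
      lam r (MvPolynomial.aeval (fun i => f r i.castSucc) A) ≠ 0)
    (h2 : ∀ r r', r ≠ r' → ∀ c : ℂ, ∃ A : MvPolynomial (Fin 3) ℂ, A.IsHomogeneous 4 ∧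
      lam r (MvPolynomial.aeval (fun i => f r i.castSucc) A) ≠
        c * lam r' (MvPolynomial.aeval (fun i => f r' i.castSucc) A)) (k : ℕ) :
    ∃ F : MvPolynomial (Fin 5) ℂ, F.IsHomogeneous 5 ∧ F ≠ 0 ∧ Good 5 k F := by
  classical
  set n := Module.finrank ℂ (MvPolynomial.homogeneousSubmodule (Fin 5) ℂ k) with hn
  let I : Finset ℕ := Finset.Icc (k + 1) (k + 1 + n)
  have hI : ∀ r ∈ I, 4 * k < 1 + 6 * r ^ 2 := by
    intro r hr
    have h3 := (Finset.mem_Icc.1 hr).1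
    have h4 : (k + 1) ^ 2 ≤ r ^ 2 := Nat.pow_le_pow_left h3 2
    nlinarith
  have hcard : Fintype.card I = n + 1 := by
    rw [Fintype.card_coe]
    show (Finset.Icc (k + 1) (k + 1 + n)).card = n + 1
    rw [Nat.card_Icc]
    omega
  have hq0 : q ≠ 0 := by
    obtain ⟨m, _, hm⟩ := hw
    rintro rfl
    exact hm (MvPolynomial.coeff_zero _)
  obtain ⟨a, b, ha, hb, ha1, ha0, hab⟩ := select f lam
    (fun r h => (hf r).lead (by rw [h, Polynomial.coeff_zero])) (fun r => (hf r).copr) h1 h2 I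
  set ρ : ℕ → ℂ := fun r => lam r (MvPolynomial.aeval (fun i => f r i.castSucc) b) /
    lam r (MvPolynomial.aeval (fun i => f r i.castSucc) a) with hρ
  obtain ⟨δ, hδ, hsep⟩ : ∃ δ > 0, ∀ r : I, ∀ r' : I, r ≠ r' → 2 * δ < ‖ρ r - ρ r'‖ := by
    have h3 : ∀ᶠ x in nhdsWithin (0 : ℝ) (Set.Ioi 0), ∀ r : I, ∀ r' : I, r ≠ r' →
        2 * x < ‖ρ r - ρ r'‖ := by
      rw [Filter.eventually_all]
      intro r
      rw [Filter.eventually_all]
      intro r'
      by_cases hr : r = r'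
      · exact Filter.Eventually.of_forall fun x h => absurd hr h
      · have h4 : ρ r - ρ r' ≠ 0 :=
          sub_ne_zero.2 (hab r r.2 r' r'.2 fun h => hr (Subtype.ext h))
        have h5 : 0 < ‖ρ r - ρ r'‖ / 2 := half_pos (norm_pos_iff.2 h4)
        filter_upwards [Ioo_mem_nhdsGT h5] with x hx _
        have := hx.2
        linarith
    obtain ⟨x, hx, hx0⟩ := (h3.and self_mem_nhdsWithin).exists
    exact ⟨x, hx0, hx⟩
  choose η hη H using fun r : I =>
    perturb hq hq0 ha hb (hf r) (ha1 r r.2) (ha0 r r.2) (hI r r.2) hδ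
  obtain ⟨x, hx0, hx⟩ : ∃ x : ℝ, 0 < x ∧ ∀ r, x < η r := by
    have h3 : ∀ᶠ x in nhdsWithin (0 : ℝ) (Set.Ioi 0), ∀ r : I, x < η r := by
      rw [Filter.eventually_all]
      intro r
      filter_upwards [Ioo_mem_nhdsGT (hη r)] with x hx
      exact hx.2
    obtain ⟨x, hx, hx0⟩ := (h3.and self_mem_nhdsWithin).exists
    exact ⟨x, hx0, hx⟩
  have hε : (x : ℂ) ≠ 0 := by exact_mod_cast hx0.ne'
  have hεn : ‖(x : ℂ)‖ = x := by rw [Complex.norm_real, Real.norm_of_nonneg hx0.le]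
  choose θ f' hθ hun hdet using fun r : I => H r (x : ℂ) hε (by rw [hεn]; exact hx r)
  have hinj : Function.Injective (fun r : I => (x : ℂ) * θ r) := by
    intro r r' h
    by_contra hne
    have h3 : θ r = θ r' := mul_left_cancel₀ hε h
    have h4 := hsep r r' hne
    have h5 : ρ r - ρ r' = (θ r + ρ r) - (θ r' + ρ r') := by rw [h3]; ring
    have h6 : ‖ρ r - ρ r'‖ ≤ ‖θ r + ρ r‖ + ‖θ r' + ρ r'‖ := by
      rw [h5]
      exact norm_sub_le _ _
    have h7 : ‖θ r + ρ r‖ < δ := hθ r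
    have h8 : ‖θ r' + ρ r'‖ < δ := hθ r'
    linarith
  have hfib := fib_ne_zero (a := a) (b := b) hw
  have hr₀ : k + 1 ∈ I := Finset.mem_Icc.2 ⟨le_rfl, by omega⟩
  refine ⟨tot (bA a) (bB q b x), isHomogeneous_tot (hom_bA ha) (hom_bB hq hb _), ?_, ?_⟩
  · intro h
    have h3 := restr_tot 0 (bA a) (bB q b x)
    rw [h] at h3
    have h4 : restr (M := 3) 0 0 = 0 := by
      unfold restr
      exact map_zero _
    rw [h4] at h3
    rcases mul_eq_zero.1 h3.symm with h5 | h5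
    · exact MvPolynomial.X_ne_zero _ h5
    · exact hfib 0 x h5
  · exact good_of_curves (D := 4) (hom_bA ha) (hom_bB hq hb _) (fun t => hfib t x)
      (not_dvd (hf (k + 1)) (ha0 _ hr₀)) (fun r : I => (x : ℂ) * θ r) hinj
      (by rw [hcard]; exact Nat.lt_succ_self _) (fun r => 1 + 6 * (r : ℕ) ^ 2) f' hun hdet

end Pool.Agent.H66.CY
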