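import Pool.Agent.H66.CY.Defs

/-!
# Bezout for binary forms

Row text. `a`, `b` of formal degrees `p`, `q` without common zero, infinity included. Every `h` of
degree `≤ p + q` is `u b + v a` with `deg u ≤ p`, `deg v ≤ q`. Write `h = u₀ b + v₀ a` (`IsCoprime`).
Case `a.coeff p ≠ 0` (so `natDegree a = p`): divide `u₀ = a w + u`, `u = 0` or `deg u < deg a`
(`Polynomial.div`/`mod`, if `p = 0` then `a` is a nonzero constant and `u = 0`), `v = v₀ + w b`. Then
`v a = h - u b` has degree `≤ p + q`, so `deg v ≤ q` (`natDegree_mul`). Case `b.coeff q ≠ 0`: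
symmetric.
-/

noncomputable section

namespace Pool.Agent.H66.CY

private theorem Bez_aux {p q : ℕ} {a b : Polynomial ℂ} (ha : a.natDegree ≤ p)
    (hb : b.natDegree ≤ q) (hc : IsCoprime a b) (hp : a.coeff p ≠ 0) {h : Polynomial ℂ}
    (hh : h.natDegree ≤ p + q) :
    ∃ u v : Polynomial ℂ, u.natDegree ≤ p ∧ v.natDegree ≤ q ∧ h = u * b + v * a := by
  obtain ⟨s, t, hst⟩ := hc
  have ha0 : a ≠ 0 := by
    rintro rfl
    exact hp (Polynomial.coeff_zero p)
  have hda : a.natDegree = p := le_antisymm ha (Polynomial.le_natDegree_of_ne_zero hp)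
  have h1 : a * (h * t / a) + h * t % a = h * t := EuclideanDomain.div_add_mod _ _
  have hu : (h * t % a).natDegree ≤ p := by
    rw [← hda]
    exact Polynomial.natDegree_le_natDegree (EuclideanDomain.mod_lt _ ha0).le
  have h2 : h = (h * t % a) * b + (h * s + (h * t / a) * b) * a := by
    linear_combination (-h) * hst + b * (-h1)
  refine ⟨h * t % a, h * s + (h * t / a) * b, hu, ?_, h2⟩
  by_cases hv : h * s + (h * t / a) * b = 0
  · rw [hv]
    simp
  have h3 : (h * s + (h * t / a) * b) * a = h - (h * t % a) * b := by linear_combination -h2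
  have h4 : ((h * s + (h * t / a) * b) * a).natDegree ≤ p + q := by
    rw [h3]
    refine (Polynomial.natDegree_sub_le _ _).trans (max_le hh ?_)
    exact Polynomial.natDegree_mul_le.trans (Nat.add_le_add hu hb)
  rw [Polynomial.natDegree_mul hv ha0, hda] at h4
  omega

theorem bez {p q : ℕ} {a b : Polynomial ℂ} (ha : a.natDegree ≤ p) (hb : b.natDegree ≤ q)
    (hc : CoprimeForms p q a b) {h : Polynomial ℂ} (hh : h.natDegree ≤ p + q) :
    ∃ u v : Polynomial ℂ, u.natDegree ≤ p ∧ v.natDegree ≤ q ∧ h = u * b + v * a := by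
  obtain ⟨h1, h2 | h2⟩ := hc
  · exact Bez_aux ha hb h1 h2 hh
  · obtain ⟨u, v, hu, hv, huv⟩ := Bez_aux hb ha h1.symm h2 (h := h) (by omega)
    exact ⟨v, u, hv, hu, by rw [huv]; ring⟩

end Pool.Agent.H66.CY
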