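import Pool.Agent.H66.CY.FibAlg
import Pool.Agent.H66.CY.Bez

/-!
# Criterion (b): codimension one in the fibre

Row text. As in `CritA`, with one more parameter: `h = u A(lft) + v f₀` by `bez`; for every constant
`c` also `h = (u + c f₀) A(lft) + (v - c A(lft)) f₀`. With `δ₀ = aeval (lft t f) (pderiv 0 (t A - B))`
put `w_c = (v - c A(lft)) - (u + c f₀) δ₀ = (v - u δ₀) - c (A(lft) + f₀ δ₀)`; choose `c` with
`lam w_c = 0` (`hl`). Then `g'` with `dsub (fib t A B) f g' = w_c` (degree `≤ D e`) and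
`g = Fin.cons (C t * g' 0 + u + c f₀) g'`.
-/

noncomputable section

namespace Pool.Agent.H66.CY

variable {M D e : ℕ}

private theorem natDegree_mul_pderiv_le' {N : ℕ} {Q : MvPolynomial (Fin N) ℂ}
    (hQ : Q.IsHomogeneous D) {f : Fin N → Polynomial ℂ} (hf : DegLE e f) (i : Fin N)
    {u : Polynomial ℂ} (hu : u.natDegree ≤ e) :
    (u * MvPolynomial.aeval f (MvPolynomial.pderiv i Q)).natDegree ≤ D * e := by
  classical
  have h := natDegree_dsub_le hQ hf (g := fun j => if j = i then u else 0) (by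
    intro j
    by_cases hj : j = i
    · simp only [hj, if_true]
      exact hu
    · simp only [hj, if_false]
      simp)
  unfold dsub at h
  simp only [mul_ite, mul_zero] at h
  rw [Finset.sum_ite_eq' Finset.univ i] at h
  simp only [Finset.mem_univ, if_true] at h
  rwa [mul_comm]

theorem critB {t : ℂ} {A B : MvPolynomial (Fin (M + 2)) ℂ} (hA : A.IsHomogeneous D)
    (hB : B.IsHomogeneous D) {f : Fin (M + 1) → Polynomial ℂ} (he : 1 ≤ e) (hf : DegLE e f)
    (h0 : MvPolynomial.aeval f (fib t A B) = 0) (lam : Polynomial ℂ →ₗ[ℂ] ℂ)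
    (honto : ∀ h : Polynomial ℂ, h.natDegree ≤ D * e → lam h = 0 →
      ∃ g, DegLE e g ∧ dsub (fib t A B) f g = h)
    (hc : CoprimeForms e (D * e) (f 0) (MvPolynomial.aeval (lft t f) A))
    (hl : lam (MvPolynomial.aeval (lft t f) A +
      f 0 * MvPolynomial.aeval (lft t f) (MvPolynomial.pderiv 0 (MvPolynomial.C t * A - B))) ≠ 0) :
    Unobst (D + 1) e (tot A B) (lft t f) := by
  have hQ : (MvPolynomial.C t * A - B).IsHomogeneous D := by
    refine MvPolynomial.IsHomogeneous.sub ?_ hB
    have := (MvPolynomial.isHomogeneous_C (Fin (M + 2)) t).mul hA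
    rwa [zero_add] at this
  refine ⟨he, degLE_lft hf, ?_, ?_⟩
  · rw [aeval_lft_tot, h0, mul_zero]
  intro h hh
  have hh' : h.natDegree ≤ e + D * e := by
    refine hh.trans (le_of_eq ?_)
    ring
  have hAd := natDegree_aeval_le hA (degLE_lft (t := t) hf)
  obtain ⟨u, v, hu, hv, huv⟩ := bez (hf 0) hAd hc hh'
  set a₀ := MvPolynomial.aeval (lft t f) A with ha₀
  set δ₀ := MvPolynomial.aeval (lft t f) (MvPolynomial.pderiv 0 (MvPolynomial.C t * A - B)) with hδ₀
  set c : ℂ := lam (v - u * δ₀) / lam (a₀ + f 0 * δ₀) with hcdef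
  have hw : lam ((v - u * δ₀) - c • (a₀ + f 0 * δ₀)) = 0 := by
    rw [map_sub, map_smul, smul_eq_mul, hcdef, div_mul_cancel₀ _ hl, sub_self]
  obtain ⟨g', hg', hg''⟩ := honto ((v - u * δ₀) - c • (a₀ + f 0 * δ₀)) (by
    refine (Polynomial.natDegree_sub_le _ _).trans (max_le ?_ ?_)
    · refine (Polynomial.natDegree_sub_le _ _).trans (max_le hv ?_)
      exact natDegree_mul_pderiv_le' hQ (degLE_lft hf) 0 hu
    · refine (Polynomial.natDegree_smul_le _ _).trans ?_
      refine (Polynomial.natDegree_add_le _ _).trans (max_le hAd ?_)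
      exact natDegree_mul_pderiv_le' hQ (degLE_lft hf) 0 (hf 0)) hw
  refine ⟨Fin.cons (Polynomial.C t * g' 0 + (u + Polynomial.C c * f 0)) g', ?_, ?_⟩
  · intro i
    refine Fin.cases ?_ (fun j => ?_) i
    · rw [Fin.cons_zero]
      refine (Polynomial.natDegree_add_le _ _).trans (max_le ?_ ?_)
      · exact (Polynomial.natDegree_C_mul_le _ _).trans (hg' 0)
      · refine (Polynomial.natDegree_add_le _ _).trans (max_le hu ?_)
        exact (Polynomial.natDegree_C_mul_le _ _).trans (hf 0)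
    · rw [Fin.cons_succ]
      exact hg' j
  · rw [dsub_lft, h0, mul_zero, add_zero]
    have h1 : (Fin.cons (Polynomial.C t * g' 0 + (u + Polynomial.C c * f 0)) g' :
        Fin (M + 2) → Polynomial ℂ) 1 = g' 0 := by
      rw [← Fin.succ_zero_eq_one, Fin.cons_succ]
    have h2 : (fun i : Fin (M + 1) =>
        (Fin.cons (Polynomial.C t * g' 0 + (u + Polynomial.C c * f 0)) g' :
          Fin (M + 2) → Polynomial ℂ) i.succ) = g' := by
      funext i
      rw [Fin.cons_succ]
    rw [h1, h2, Fin.cons_zero, hg'', huv, Polynomial.smul_eq_C_mul]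
    ring

end Pool.Agent.H66.CY
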