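import Pool.Agent.H66.CY.E0
import Pool.Agent.H66.CY.CritB

/-!
# The quintic threefold `x₀ a + x₁ (q + ε b) = 0`

Row text. Variables: `Fin 4` = `x, y, z, w` for the fibre, `Fin 5` for the total space, `a`, `b`
quartic forms in `x, y, z`. `A = rename Fin.succ (emb a)`, `B = rename Fin.succ (-(q + C ε * emb b))`.
`fib t A B = C t * emb a + q + C ε * emb b` (`restr_rename`).

* `fib_ne_zero`: the coefficient at a monomial that involves `w` (`hw`) is that of `q`.
* `not_dvd`: `X 1 ∣ A` would give `X 0 ∣ a` (apply `restr 0`, and set `w = 0`), so `a` vanishes where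
  `x = 0`; but `f 0` has a root `z` (degree `e ≥ 1`) and `a(f(z)) ≠ 0` by `ha0`.
* `unobst_zero`: `critB` with `t = 0`: `pderiv 0 (C 0 * A - B) = 0` since `B` does not involve
  `X 0` (`MvPolynomial.pderiv_rename`-type lemma or `pderiv_eq_zero_of_notMem_vars`), no common root of
  `f 0` and `a(f)` by `ha0` (over `ℂ` this gives `IsCoprime`: otherwise a common prime factor
  has a root), `(f 0).coeff e ≠ 0` (`lead`).
-/

noncomputable section

namespace Pool.Agent.H66.CY

/-- A polynomial in `x, y, z` as a polynomial in `x, y, z, w`. -/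
def emb (a : MvPolynomial (Fin 3) ℂ) : MvPolynomial (Fin 4) ℂ :=
  MvPolynomial.rename Fin.castSucc a

/-- `A` -/
def bA (a : MvPolynomial (Fin 3) ℂ) : MvPolynomial (Fin 5) ℂ :=
  MvPolynomial.rename Fin.succ (emb a)

/-- `B` -/
def bB (q : MvPolynomial (Fin 4) ℂ) (b : MvPolynomial (Fin 3) ℂ) (ε : ℂ) :
    MvPolynomial (Fin 5) ℂ :=
  MvPolynomial.rename Fin.succ (-(q + MvPolynomial.C ε * emb b))

variable {q : MvPolynomial (Fin 4) ℂ} {a b : MvPolynomial (Fin 3) ℂ}

theorem aeval_emb (f : Fin 4 → Polynomial ℂ) :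
    MvPolynomial.aeval f (emb a) = MvPolynomial.aeval (fun i => f i.castSucc) a := by
  unfold emb
  rw [MvPolynomial.aeval_rename]
  rfl

theorem fib_base (t ε : ℂ) : fib t (bA a) (bB q b ε) =
    q + MvPolynomial.C t * emb a + MvPolynomial.C ε * emb b := by
  unfold fib bA bB
  rw [restr_sub, restr_mul, restr_C, restr_rename, restr_rename]
  ring

theorem hom_bA (ha : a.IsHomogeneous 4) : (bA a).IsHomogeneous 4 :=
  ha.rename_isHomogeneous.rename_isHomogeneous

theorem hom_bB (hq : q.IsHomogeneous 4) (hb : b.IsHomogeneous 4) (ε : ℂ) :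
    (bB q b ε).IsHomogeneous 4 := by
  unfold bB
  refine MvPolynomial.IsHomogeneous.rename_isHomogeneous ?_
  refine MvPolynomial.IsHomogeneous.neg ?_
  refine hq.add ?_
  have h1 : (emb b).IsHomogeneous 4 := hb.rename_isHomogeneous
  have h2 := (MvPolynomial.isHomogeneous_C (Fin 4) ε).mul h1
  rwa [zero_add] at h2

private theorem coeff_emb {m : Fin 4 →₀ ℕ} (hm : m 3 ≠ 0) (a : MvPolynomial (Fin 3) ℂ) :
    (emb a).coeff m = 0 := by
  unfold emb
  refine MvPolynomial.coeff_rename_eq_zero _ _ _ fun u hu => ?_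
  exfalso
  apply hm
  rw [← hu]
  refine Finsupp.mapDomain_of_notMem_range u _ ?_
  rintro ⟨i, hi⟩
  have h1 := congrArg Fin.val hi
  have h2 : ((3 : Fin 4) : ℕ) = 3 := rfl
  rw [Fin.val_castSucc, h2] at h1
  omega

theorem fib_ne_zero (hw : ∃ m : Fin 4 →₀ ℕ, m 3 ≠ 0 ∧ q.coeff m ≠ 0) (t ε : ℂ) :
    fib t (bA a) (bB q b ε) ≠ 0 := by
  obtain ⟨m, hm, hq⟩ := hw
  intro h
  have h1 := congrArg (MvPolynomial.coeff m) h
  rw [fib_base, MvPolynomial.coeff_add, MvPolynomial.coeff_add, MvPolynomial.coeff_C_mul,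
    MvPolynomial.coeff_C_mul, coeff_emb hm, coeff_emb hm, mul_zero, mul_zero, add_zero, add_zero,
    MvPolynomial.coeff_zero] at h1
  exact hq h1

private theorem aeval_lft_bA (t : ℂ) (f : Fin 4 → Polynomial ℂ) (a : MvPolynomial (Fin 3) ℂ) :
    MvPolynomial.aeval (lft t f) (bA a) = MvPolynomial.aeval (fun i => f i.castSucc) a := by
  rw [aeval_lft]
  unfold bA
  rw [restr_rename, aeval_emb]

theorem not_dvd {e : ℕ} {f : Fin 4 → Polynomial ℂ} {lam : Polynomial ℂ →ₗ[ℂ] ℂ}
    (hf : CurveData q e f lam)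
    (ha0 : ∀ z, (f 0).eval z = 0 →
      MvPolynomial.eval (fun i => (f i.castSucc).eval z) a ≠ 0) :
    ¬ MvPolynomial.X 1 ∣ bA a := by
  rintro ⟨P, hP⟩
  have h1 := congrArg (MvPolynomial.aeval (lft 0 f)) hP
  rw [aeval_lft_bA, map_mul, MvPolynomial.aeval_X] at h1
  have h2 : lft 0 f 1 = f 0 := rfl
  rw [h2] at h1
  have h3 : (f 0).degree ≠ 0 := by
    have h4 := Polynomial.le_natDegree_of_ne_zero hf.lead
    intro h5
    have h6 : (f 0).natDegree = 0 := Polynomial.natDegree_eq_of_degree_eq_some h5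
    have := hf.one_le
    omega
  obtain ⟨z, hz⟩ := IsAlgClosed.exists_root (f 0) h3
  have hz' : (f 0).eval z = 0 := hz
  apply ha0 z hz'
  rw [← eval_aeval, h1, Polynomial.eval_mul, hz', zero_mul]

theorem unobst_zero (hq : q.IsHomogeneous 4) (ha : a.IsHomogeneous 4) (hb : b.IsHomogeneous 4)
    {e : ℕ} {f : Fin 4 → Polynomial ℂ} {lam : Polynomial ℂ →ₗ[ℂ] ℂ} (hf : CurveData q e f lam)
    (ha1 : lam (MvPolynomial.aeval (fun i => f i.castSucc) a) ≠ 0)
    (ha0 : ∀ z, (f 0).eval z = 0 →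
      MvPolynomial.eval (fun i => (f i.castSucc).eval z) a ≠ 0) :
    Unobst 5 e (tot (bA a) (bB q b 0)) (lft 0 f) := by
  have hfib : fib 0 (bA a) (bB q b 0) = q := by
    rw [fib_base, map_zero, zero_mul, zero_mul, add_zero, add_zero]
  have hder : MvPolynomial.pderiv 0 (MvPolynomial.C 0 * bA a - bB q b 0) = 0 := by
    rw [map_zero, zero_mul, zero_sub, map_neg, neg_eq_zero]
    refine MvPolynomial.pderiv_eq_zero_of_notMem_vars fun h => ?_
    have h1 := MvPolynomial.vars_rename _ _ h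
    rw [Finset.mem_image] at h1
    obtain ⟨i, _, hi⟩ := h1
    exact Fin.succ_ne_zero i hi
  refine critB (hom_bA ha) (hom_bB hq hb 0) hf.one_le hf.deg (by rw [hfib]; exact hf.zero) lam
    (by rw [hfib]; exact hf.onto) ⟨?_, Or.inl hf.lead⟩ ?_
  · rw [aeval_lft_bA]
    refine (Polynomial.isCoprime_iff_aeval_ne_zero_of_isAlgClosed (k := ℂ) ℂ (f 0) _).2
      fun z => ?_
    by_cases hz : (f 0).eval z = 0
    · right
      rw [Polynomial.coe_aeval_eq_eval, eval_aeval]
      exact ha0 z hz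
    · left
      rw [Polynomial.coe_aeval_eq_eval]
      exact hz
  · rw [hder, map_zero, mul_zero, add_zero, aeval_lft_bA]
    exact ha1

end Pool.Agent.H66.CY
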