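import Pool.Agent.H66.CY.EvD

/-!
# Detection of divisibility is an open condition

Row text. `S = (Ix N k → ℂ)` (forms `G = formOf x` of degree `k`). For curves `f_j` of degree `≤ e_j`
let `L_f : S → (Σ j, Fin (k e_j + 1)) → ℂ`, `L_f x (j, z) = (G(f_j)).eval z`, a linear map whose
kernel consists of the forms vanishing on all `f_j` (`eq_of_eval`, `natDegree_aeval_le`).
`c ↦ L_{polyOf c} x` is continuous for fixed `x` (`continuous_eval_aeval`).

Let `K₀ = ker L_{f₀}`, the forms of degree `k` divisible by `F₀` (`Detects`, `h0`). `K₀` has the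
dimension of the space `T` of forms of degree `k - d` (zero if `k < d`): multiplication by `F₀ ≠ 0` is
injective, and if `F₀ * H` is homogeneous of degree `k` and `F₀` of degree `d`, then `H` may be
replaced by its component of degree `k - d` (for `k < d`, `F₀ * H = 0`). Choose a complement `W₀` of
`K₀` and a basis `w_l`; the vectors `L_{f₀} w_l` are linearly independent, so
(`isOpen_setOf_linearIndependent`) the `L_f w_l` are linearly independent for `f` near `f₀`
(`exists_eps`). Then `ker L_f ∩ W₀ = 0`, `dim ker L_f ≤ dim K₀ = dim T`. For `F` near `F₀` one has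
`F ≠ 0` (a coefficient of `F₀` of size `2 ε` stays `≠ 0`), and `ker L_f` contains the image of `T`
under the injective multiplication by `F`; so it is equal to it.
-/

noncomputable section

open Topology

namespace Pool.Agent.H66.CY

variable {N d k : ℕ}

/-- The values of `G(f_j)`. -/
private def Lm {ι : Type} (k : ℕ) (e : ι → ℕ) (f : ι → Fin N → Polynomial ℂ) :
    (Ix N k → ℂ) →ₗ[ℂ] ((Σ j : ι, Fin (k * e j + 1)) → ℂ) where
  toFun x p := (MvPolynomial.aeval (f p.1) (formOf x)).eval (p.2 : ℂ)
  map_add' x y := by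
    funext p
    simp [formOf_add]
  map_smul' s x := by
    funext p
    have h : MvPolynomial.aeval (f p.1) (MvPolynomial.C s * formOf x) =
        Polynomial.C s * MvPolynomial.aeval (f p.1) (formOf x) := by
      rw [map_mul, MvPolynomial.aeval_C, Polynomial.algebraMap_eq]
    simp only [formOf_smul, h, Polynomial.eval_mul, Polynomial.eval_C, RingHom.id_apply,
      Pi.smul_apply, smul_eq_mul]

/-- The forms of degree `k` divisible by `F`. -/
private def Dv (k : ℕ) (F : MvPolynomial (Fin N) ℂ) : Submodule ℂ (Ix N k → ℂ) where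
  carrier := {x | F ∣ formOf x}
  add_mem' {x y} hx hy := by
    show F ∣ formOf (x + y)
    rw [formOf_add]
    exact dvd_add hx hy
  zero_mem' := by
    show F ∣ formOf 0
    have h : formOf (0 : Ix N k → ℂ) = 0 := by
      unfold formOf
      simp
    rw [h]
    exact dvd_zero _
  smul_mem' s x hx := by
    show F ∣ formOf (s • x)
    rw [formOf_smul]
    exact Dvd.dvd.mul_left hx _

private theorem formOf_inj {k : ℕ} {x y : Ix N k → ℂ} (h : formOf x = formOf y) : x = y := by
  rw [← coefOf_formOf x, h, coefOf_formOf]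

/-- Multiplication by `F`. -/
private def Mu (d k : ℕ) (F : MvPolynomial (Fin N) ℂ) :
    (Ix N (k - d) → ℂ) →ₗ[ℂ] (Ix N k → ℂ) where
  toFun y := coefOf k (F * formOf y)
  map_add' x y := by
    funext m
    show (F * formOf (x + y)).coeff m.1 = (F * formOf x).coeff m.1 + (F * formOf y).coeff m.1
    rw [formOf_add, mul_add, MvPolynomial.coeff_add]
  map_smul' s x := by
    funext m
    show (F * formOf (s • x)).coeff m.1 = s * (F * formOf x).coeff m.1
    rw [formOf_smul, mul_left_comm, MvPolynomial.coeff_C_mul]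

section

attribute [local instance] MvPolynomial.gradedAlgebra

private theorem hc_mul {F H : MvPolynomial (Fin N) ℂ} (hF : F.IsHomogeneous d) (hdk : d ≤ k) :
    MvPolynomial.homogeneousComponent k (F * H) =
      F * MvPolynomial.homogeneousComponent (k - d) H := by
  have h := DirectSum.coe_decompose_mul_of_left_mem_of_le
    (𝒜 := MvPolynomial.homogeneousSubmodule (Fin N) ℂ) (a := F) (b := H) (n := k) hF hdk
  have h1 : ∀ (G : MvPolynomial (Fin N) ℂ) (i : ℕ),
      (DirectSum.decompose (MvPolynomial.homogeneousSubmodule (Fin N) ℂ) G i :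
        MvPolynomial (Fin N) ℂ) = MvPolynomial.homogeneousComponent i G := fun G i =>
    MvPolynomial.decomposition.decompose'_apply G i
  rwa [h1, h1] at h

private theorem hc_mul' {F H : MvPolynomial (Fin N) ℂ} (hF : F.IsHomogeneous d) (hdk : ¬ d ≤ k) :
    MvPolynomial.homogeneousComponent k (F * H) = 0 := by
  have h := DirectSum.coe_decompose_mul_of_left_mem_of_not_le
    (𝒜 := MvPolynomial.homogeneousSubmodule (Fin N) ℂ) (a := F) (b := H) (n := k) hF hdk
  have h1 : ∀ (G : MvPolynomial (Fin N) ℂ) (i : ℕ),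
      (DirectSum.decompose (MvPolynomial.homogeneousSubmodule (Fin N) ℂ) G i :
        MvPolynomial (Fin N) ℂ) = MvPolynomial.homogeneousComponent i G := fun G i =>
    MvPolynomial.decomposition.decompose'_apply G i
  rwa [h1] at h

end

private theorem hc_self {k : ℕ} {G : MvPolynomial (Fin N) ℂ} (hG : G.IsHomogeneous k) :
    MvPolynomial.homogeneousComponent k G = G :=
  MvPolynomial.homogeneousComponent_eq_self hG

private theorem finrank_Dv {F : MvPolynomial (Fin N) ℂ} (hF : F.IsHomogeneous d) (hF0 : F ≠ 0) :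
    Module.finrank ℂ (Dv k F) =
      if d ≤ k then Module.finrank ℂ (Ix N (k - d) → ℂ) else 0 := by
  split_ifs with hdk
  · have hinj : Function.Injective (Mu d k F) := by
      intro x y hxy
      have h1 : ∀ z : Ix N (k - d) → ℂ, formOf (Mu d k F z) = F * formOf z := by
        intro z
        have h2 : (F * formOf z).IsHomogeneous k := by
          have h3 := hF.mul (isHomogeneous_formOf z)
          rwa [Nat.add_sub_cancel' hdk] at h3
        exact formOf_coefOf h2
      have h2 : F * formOf x = F * formOf y := by rw [← h1, ← h1, hxy]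
      exact formOf_inj (mul_left_cancel₀ hF0 h2)
    have hrange : LinearMap.range (Mu d k F) = Dv k F := by
      apply le_antisymm
      · rintro _ ⟨y, rfl⟩
        show F ∣ formOf (Mu d k F y)
        have h2 : (F * formOf y).IsHomogeneous k := by
          have h3 := hF.mul (isHomogeneous_formOf y)
          rwa [Nat.add_sub_cancel' hdk] at h3
        have h4 : formOf (Mu d k F y) = F * formOf y := formOf_coefOf h2
        rw [h4]
        exact dvd_mul_right _ _
      · intro x hx
        obtain ⟨H, hH⟩ := (show F ∣ formOf x from hx)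
        have h1 := hc_mul (H := H) hF hdk
        rw [← hH, hc_self (isHomogeneous_formOf x)] at h1
        refine ⟨coefOf (k - d) (MvPolynomial.homogeneousComponent (k - d) H), ?_⟩
        show coefOf k (F * formOf _) = x
        rw [formOf_coefOf (MvPolynomial.homogeneousComponent_isHomogeneous _ _), ← h1,
          coefOf_formOf]
    rw [← hrange]
    exact LinearMap.finrank_range_of_inj hinj
  · have h0 : Dv k F = ⊥ := by
      rw [eq_bot_iff]
      intro x hx
      obtain ⟨H, hH⟩ := (show F ∣ formOf x from hx)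
      have h1 := hc_mul' (H := H) hF hdk
      rw [← hH, hc_self (isHomogeneous_formOf x)] at h1
      rw [Submodule.mem_bot]
      rw [← coefOf_formOf x, h1]
      rfl
    rw [h0, finrank_bot]

theorem detects_open {ι : Type} [Finite ι] {F₀ : MvPolynomial (Fin N) ℂ} (hF₀ : F₀.IsHomogeneous d) (hF₀' : F₀ ≠ 0)
    {e : ι → ℕ} {f₀ : ι → Fin N → Polynomial ℂ} (hf₀ : ∀ j, DegLE (e j) (f₀ j))
    (h0 : ∀ j, MvPolynomial.aeval (f₀ j) F₀ = 0) (h : Detects k F₀ f₀) :
    ∃ ε > 0, ∀ (F : MvPolynomial (Fin N) ℂ) (f : ι → Fin N → Polynomial ℂ),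
      F.IsHomogeneous d → (∀ j, DegLE (e j) (f j)) → NearF ε F₀ F → (∀ j, NearC ε (f₀ j) (f j)) →
        (∀ j, MvPolynomial.aeval (f j) F = 0) → Detects k F f := by
  classical
  have := Fintype.ofFinite ι
  -- a coefficient of `F₀`
  obtain ⟨m₀, hm₀⟩ := MvPolynomial.ne_zero_iff.1 hF₀'
  -- vectors with independent images
  set L₀ := Lm k e f₀ with hL₀
  set b := Module.finBasis ℂ (LinearMap.range L₀) with hb
  have hw : ∀ l, ∃ w : Ix N k → ℂ, L₀ w = (b l : (Σ j : ι, Fin (k * e j + 1)) → ℂ) := fun l =>
    (b l).2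
  choose w hw using hw
  have hlin : LinearIndependent ℂ (fun l => L₀ (w l)) := by
    have h1 : (fun l => L₀ (w l)) = (LinearMap.range L₀).subtype ∘ b := by
      funext l
      exact hw l
    rw [h1]
    exact b.linearIndependent.map' _ (Submodule.ker_subtype _)
  let Ψ : (Ix N k → ℂ) × ((j : ι) → Fin N → Fin (e j + 1) → ℂ) →
      Fin (Module.finrank ℂ (LinearMap.range L₀)) → (Σ j : ι, Fin (k * e j + 1)) → ℂ :=
    fun x l => Lm k e (fun j => polyOf (x.2 j)) (w l)
  have hΨ : Continuous Ψ := by
    refine continuous_pi fun l => continuous_pi fun p => ?_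
    have h1 := continuous_eval_aeval (N := N) (e := e p.1) (formOf (w l)) (p.2 : ℂ)
    have h2 : Continuous (fun x : (Ix N k → ℂ) × ((j : ι) → Fin N → Fin (e j + 1) → ℂ) =>
        x.2 p.1) := (continuous_apply p.1).comp continuous_snd
    have h3 := h1.comp h2
    have h4 : (fun x => Ψ x l p) = (fun c : Fin N → Fin (e p.1 + 1) → ℂ =>
        (MvPolynomial.aeval (polyOf c) (formOf (w l))).eval (p.2 : ℂ)) ∘ fun x => x.2 p.1 := by
      funext x
      rfl
    rw [h4]
    exact h3
  have hU : {x | LinearIndependent ℂ (Ψ x)} ∈ 𝓝 (coefOf k F₀, fun j => coefC (e j) (f₀ j)) := by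
    have h1 : IsOpen {v : Fin (Module.finrank ℂ (LinearMap.range L₀)) →
        (Σ j : ι, Fin (k * e j + 1)) → ℂ | LinearIndependent ℂ v} :=
      isOpen_setOfPred_linearIndependent
    have h2 : Ψ (coefOf k F₀, fun j => coefC (e j) (f₀ j)) = fun l => L₀ (w l) := by
      funext l
      show Lm k e (fun j => polyOf (coefC (e j) (f₀ j))) (w l) = L₀ (w l)
      have h3 : (fun j => polyOf (coefC (e j) (f₀ j))) = f₀ := by
        funext j
        exact polyOf_coefC (hf₀ j)
      rw [h3]
    have h3 : {v : Fin (Module.finrank ℂ (LinearMap.range L₀)) →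
        (Σ j : ι, Fin (k * e j + 1)) → ℂ | LinearIndependent ℂ v} ∈
        𝓝 (Ψ (coefOf k F₀, fun j => coefC (e j) (f₀ j))) := by
      rw [h2]
      exact h1.mem_nhds hlin
    exact hΨ.continuousAt h3
  obtain ⟨ε, hε, H⟩ := exists_eps (ι := ι) (d := k) (e := e) (f₀ := f₀) hU
  refine ⟨min ε ‖F₀.coeff m₀‖, lt_min hε (norm_pos_iff.2 hm₀),
    fun F f hF hf hnF hnf hz G hG hGf => ?_⟩
  have hF0 : F ≠ 0 := by
    rintro rfl
    have h1 := hnF m₀
    rw [MvPolynomial.coeff_zero, zero_sub, norm_neg] at h1
    exact absurd (h1.trans_le (min_le_right _ _)) (lt_irrefl _)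
  have h1 := H F f (fun m => (hnF m).trans_le (min_le_left _ _))
    (fun j i n => (hnf j i n).trans_le (min_le_left _ _))
  have h2 : LinearIndependent ℂ (fun l => Lm k e f (w l)) := by
    have h3 : (fun j => polyOf (coefC (e j) (f j))) = f := by
      funext j
      exact polyOf_coefC (hf j)
    have h4 : Ψ (coefOf k F, fun j => coefC (e j) (f j)) = fun l => Lm k e f (w l) := by
      funext l
      show Lm k e (fun j => polyOf (coefC (e j) (f j))) (w l) = _
      rw [h3]
    rw [← h4]
    exact h1
  -- ranks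
  have hrank : Module.finrank ℂ (LinearMap.range L₀) ≤
      Module.finrank ℂ (LinearMap.range (Lm k e f)) := by
    have h3 : LinearIndependent ℂ (fun l => (⟨Lm k e f (w l), ⟨w l, rfl⟩⟩ :
        LinearMap.range (Lm k e f))) := by
      refine LinearIndependent.of_comp (LinearMap.range (Lm k e f)).subtype ?_
      exact h2
    have h4 := h3.fintype_card_le_finrank
    rwa [Fintype.card_fin] at h4
  have hk0 := LinearMap.finrank_range_add_finrank_ker L₀
  have hk1 := LinearMap.finrank_range_add_finrank_ker (Lm k e f)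
  -- the kernels
  have hker0 : LinearMap.ker L₀ ≤ Dv k F₀ := by
    intro x hx
    rw [LinearMap.mem_ker] at hx
    refine h (formOf x) (isHomogeneous_formOf x) fun j => ?_
    refine eq_of_eval (D := k * e j) (natDegree_aeval_le (isHomogeneous_formOf x) (hf₀ j))
      (by simp) fun z => ?_
    have h3 := congrFun hx ⟨j, z⟩
    rw [Polynomial.eval_zero]
    exact h3
  have hker1 : Dv k F ≤ LinearMap.ker (Lm k e f) := by
    intro x hx
    obtain ⟨H', hH'⟩ := (show F ∣ formOf x from hx)
    rw [LinearMap.mem_ker]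
    funext p
    show (MvPolynomial.aeval (f p.1) (formOf x)).eval (p.2 : ℂ) = 0
    rw [hH', map_mul, hz, zero_mul, Polynomial.eval_zero]
  have h3 := Submodule.finrank_mono hker0
  have h4 : Module.finrank ℂ (Dv k F) = Module.finrank ℂ (Dv k F₀) := by
    rw [finrank_Dv hF hF0, finrank_Dv hF₀ hF₀']
  have h5 : Dv k F = LinearMap.ker (Lm k e f) :=
    Submodule.eq_of_le_of_finrank_le hker1 (by omega)
  have h6 : coefOf k G ∈ LinearMap.ker (Lm k e f) := by
    rw [LinearMap.mem_ker]
    funext p
    show (MvPolynomial.aeval (f p.1) (formOf (coefOf k G))).eval (p.2 : ℂ) = 0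
    rw [formOf_coefOf hG, hGf, Polynomial.eval_zero]
  rw [← h5] at h6
  have h7 : F ∣ formOf (coefOf k G) := h6
  rwa [formOf_coefOf hG] at h7

end Pool.Agent.H66.CY
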