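import Pool.Agent.H66.CY.FibAlg

/-!
# Fibres and lifts depend continuously on the data

Row text. Coefficients of `fib t A B` and `tot A B` are finite linear combinations of the coefficients
of `A`, `B` (forms of degree `D`), with coefficients bounded in terms of `t`, `M`, `D`: for
`fib` write `A = formOf a`, `B = formOf b`; `a ↦ coefOf D (restr t (formOf a))` is a linear map between
finite dimensional spaces, so continuous (`LinearMap.continuous_of_finiteDimensional`), use
`exists_eps_form` (or sums of norms). `nearC_lft`: the coefficients of `C t * f 0` change by at most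
`‖t‖ ε`.
-/

noncomputable section

namespace Pool.Agent.H66.CY

variable {M D : ℕ}

/-- The coefficients of the restriction. -/
private def Lr (M D : ℕ) (t : ℂ) : (Ix (M + 2) D → ℂ) →ₗ[ℂ] (Ix (M + 1) D → ℂ) where
  toFun a := coefOf D (restr t (formOf a))
  map_add' x y := by
    funext m
    show (restr t (formOf (x + y))).coeff m.1 =
      (restr t (formOf x)).coeff m.1 + (restr t (formOf y)).coeff m.1
    rw [formOf_add, restr_add, MvPolynomial.coeff_add]
  map_smul' s x := by
    funext m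
    show (restr t (formOf (s • x))).coeff m.1 = s * (restr t (formOf x)).coeff m.1
    rw [formOf_smul, restr_mul, restr_C, MvPolynomial.coeff_C_mul]

private theorem near_restr (t s : ℂ) {A₀ : MvPolynomial (Fin (M + 2)) ℂ}
    (hA₀ : A₀.IsHomogeneous D) {δ : ℝ} (hδ : 0 < δ) :
    ∃ ε > 0, ∀ A : MvPolynomial (Fin (M + 2)) ℂ, A.IsHomogeneous D → NearF ε A₀ A →
      ∀ m : Ix (M + 1) D, ‖s * (restr t A).coeff m.1 - s * (restr t A₀).coeff m.1‖ < δ := by
  have hc : Continuous (fun a : Ix (M + 2) D → ℂ => s • Lr M D t a) :=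
    ((Lr M D t).continuous_of_finiteDimensional).const_smul s
  have hU : {a : Ix (M + 2) D → ℂ | ∀ m, ‖s * Lr M D t a m - s * Lr M D t (coefOf D A₀) m‖ < δ} ∈
      nhds (coefOf D A₀) := by
    have h1 := Metric.continuous_iff.1 hc (coefOf D A₀) δ hδ
    obtain ⟨η, hη, H⟩ := h1
    refine Filter.mem_of_superset (Metric.ball_mem_nhds _ hη) fun a ha m => ?_
    have h2 := H a ha
    rw [dist_pi_lt_iff hδ] at h2
    have h3 := h2 m
    rw [dist_eq_norm] at h3
    exact h3
  obtain ⟨ε, hε, H⟩ := exists_eps_form hU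
  refine ⟨ε, hε, fun A hA hn m => ?_⟩
  have h1 := H A hn m
  have h2 : ∀ P : MvPolynomial (Fin (M + 2)) ℂ, P.IsHomogeneous D →
      Lr M D t (coefOf D P) m = (restr t P).coeff m.1 := by
    intro P hP
    show (restr t (formOf (coefOf D P))).coeff m.1 = _
    rw [formOf_coefOf hP]
  rw [h2 A hA, h2 A₀ hA₀] at h1
  exact h1

theorem near_fib (t : ℂ) {A₀ B₀ : MvPolynomial (Fin (M + 2)) ℂ} (hA₀ : A₀.IsHomogeneous D)
    (hB₀ : B₀.IsHomogeneous D) {δ : ℝ} (hδ : 0 < δ) :
    ∃ ε > 0, ∀ A B : MvPolynomial (Fin (M + 2)) ℂ, A.IsHomogeneous D → B.IsHomogeneous D →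
      NearF ε A₀ A → NearF ε B₀ B → NearF δ (fib t A₀ B₀) (fib t A B) := by
  obtain ⟨ε₁, hε₁, H₁⟩ := near_restr t t hA₀ (half_pos hδ)
  obtain ⟨ε₂, hε₂, H₂⟩ := near_restr t 1 hB₀ (half_pos hδ)
  refine ⟨min ε₁ ε₂, lt_min hε₁ hε₂, fun A B hA hB hnA hnB m => ?_⟩
  by_cases hm : m.degree = D
  · have h1 := H₁ A hA (fun m => (hnA m).trans_le (min_le_left _ _)) ⟨m, hm⟩
    have h2 := H₂ B hB (fun m => (hnB m).trans_le (min_le_right _ _)) ⟨m, hm⟩
    have h3 : ∀ A B : MvPolynomial (Fin (M + 2)) ℂ, (fib t A B).coeff m =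
        t * (restr t A).coeff m - 1 * (restr t B).coeff m := by
      intro A B
      unfold fib
      rw [restr_sub, restr_mul, restr_C, MvPolynomial.coeff_sub, MvPolynomial.coeff_C_mul, one_mul]
    rw [h3, h3]
    have h4 : t * (restr t A).coeff m - 1 * (restr t B).coeff m -
        (t * (restr t A₀).coeff m - 1 * (restr t B₀).coeff m) =
        (t * (restr t A).coeff m - t * (restr t A₀).coeff m) -
        (1 * (restr t B).coeff m - 1 * (restr t B₀).coeff m) := by ring
    rw [h4]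
    refine (norm_sub_le _ _).trans_lt ?_
    simp only at h1 h2
    linarith
  · have h1 : ∀ P : MvPolynomial (Fin (M + 1)) ℂ, P.IsHomogeneous D → P.coeff m = 0 :=
      fun P hP => hP.coeff_eq_zero hm
    rw [h1 _ (isHomogeneous_fib hA hB), h1 _ (isHomogeneous_fib hA₀ hB₀)]
    simpa using hδ

theorem near_tot {A₀ B₀ A B : MvPolynomial (Fin (M + 2)) ℂ} {ε : ℝ}
    (hA : NearF ε A₀ A) (hB : NearF ε B₀ B) : NearF (2 * ε) (tot A₀ B₀) (tot A B) := by
  have hε : 0 < ε := (norm_nonneg _).trans_lt (hA 0)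
  intro m
  have h1 : ∀ (i : Fin (M + 2)) (P₀ P : MvPolynomial (Fin (M + 2)) ℂ), NearF ε P₀ P →
      ‖(MvPolynomial.X i * P).coeff m - (MvPolynomial.X i * P₀).coeff m‖ < ε := by
    intro i P₀ P h
    rw [MvPolynomial.coeff_X_mul', MvPolynomial.coeff_X_mul']
    split_ifs
    · exact h _
    · simpa using hε
  have h2 : (tot A B).coeff m - (tot A₀ B₀).coeff m =
      ((MvPolynomial.X 0 * A).coeff m - (MvPolynomial.X 0 * A₀).coeff m) -
      ((MvPolynomial.X 1 * B).coeff m - (MvPolynomial.X 1 * B₀).coeff m) := by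
    unfold tot
    rw [MvPolynomial.coeff_sub, MvPolynomial.coeff_sub]
    ring
  rw [h2]
  refine (norm_sub_le _ _).trans_lt ?_
  have h3 := h1 0 A₀ A hA
  have h4 := h1 1 B₀ B hB
  linarith

theorem nearC_lft (t : ℂ) {f₀ f : Fin (M + 1) → Polynomial ℂ} {ε : ℝ} (hε : 0 < ε)
    (h : NearC ε f₀ f) : NearC ((1 + ‖t‖) * ε) (lft t f₀) (lft t f) := by
  have ht := norm_nonneg t
  intro i n
  refine Fin.cases ?_ (fun i => ?_) i
  · show ‖(Polynomial.C t * f 0).coeff n - (Polynomial.C t * f₀ 0).coeff n‖ < _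
    rw [Polynomial.coeff_C_mul, Polynomial.coeff_C_mul, ← mul_sub, norm_mul]
    have h1 := mul_le_mul_of_nonneg_left (h 0 n).le ht
    nlinarith
  · show ‖(f i).coeff n - (f₀ i).coeff n‖ < _
    have h1 := h i n
    nlinarith [mul_nonneg ht hε.le]

end Pool.Agent.H66.CY
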