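import Pool.Agent.H66.CY.EvD

/-!
# Being unobstructed is an open condition

Row text. Put `D = d e`. For `l : Fin (D + 1)` let `u_l` be the polynomial of degree `≤ D` with
`u_l(k) = δ_{kl}` (`exists_interp`) and `g_l` a tuple of degree `≤ e` with `dsub F₀ f₀ g_l = u_l`
(`Onto`). The determinant of the matrix `(dsub F f g_l).eval k` is a continuous function of the
coordinates of `(F, f)` (`continuous_eval_dsub`, `Continuous.matrix_det`) and `= det 1 = 1` at
`(F₀, f₀)`. So it is `≠ 0` near (`exists_eps` with `m = 1`, or directly). Where it is `≠ 0`: given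
`h` of degree `≤ D` solve the linear system `∑ l, x_l (dsub F f g_l).eval k = h.eval k`
(`Matrix.mulVec_surjective_iff_isUnit` or `nonsing_inv`); then `g = ∑ l, x_l g_l` has degree `≤ e` and
`dsub F f g = h` by `eq_of_eval` (`natDegree_dsub_le`).
-/

noncomputable section

open Topology

namespace Pool.Agent.H66.CY

variable {N d e : ℕ}

private theorem dsub_sum {L : ℕ} (F : MvPolynomial (Fin N) ℂ) (f : Fin N → Polynomial ℂ)
    (g : Fin L → Fin N → Polynomial ℂ) (x : Fin L → ℂ) :
    dsub F f (fun i => ∑ l, Polynomial.C (x l) * g l i) =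
      ∑ l, Polynomial.C (x l) * dsub F f (g l) := by
  unfold dsub
  simp only [Finset.mul_sum]
  rw [Finset.sum_comm]
  refine Finset.sum_congr rfl fun l _ => Finset.sum_congr rfl fun i _ => ?_
  ring

theorem onto_open {F₀ : MvPolynomial (Fin N) ℂ} (hF₀ : F₀.IsHomogeneous d)
    {f₀ : Fin N → Polynomial ℂ} (hf₀ : DegLE e f₀) (h : Onto d e F₀ f₀) :
    ∃ ε > 0, ∀ (F : MvPolynomial (Fin N) ℂ) (f : Fin N → Polynomial ℂ), F.IsHomogeneous d →
      DegLE e f → NearF ε F₀ F → NearC ε f₀ f → Onto d e F f := by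
  classical
  have h1 : ∀ l : Fin (d * e + 1), ∃ g : Fin N → Polynomial ℂ, DegLE e g ∧
      ∀ k : Fin (d * e + 1), (dsub F₀ f₀ g).eval (k : ℂ) = if k = l then 1 else 0 := by
    intro l
    obtain ⟨u, hu1, hu2⟩ := exists_interp (d * e) (fun k => if k = l then 1 else 0)
    obtain ⟨g, hg1, hg2⟩ := h u hu1
    exact ⟨g, hg1, fun k => by rw [hg2]; exact hu2 k⟩
  choose g hg1 hg2 using h1
  let A : (Ix N d → ℂ) × ((j : Unit) → Fin N → Fin (e + 1) → ℂ) →
      Matrix (Fin (d * e + 1)) (Fin (d * e + 1)) ℂ := fun x =>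
    Matrix.of fun k l => (dsub (formOf x.1) (polyOf (x.2 ())) (g l)).eval (k : ℂ)
  have hφ : Continuous (fun x : (Ix N d → ℂ) × ((j : Unit) → Fin N → Fin (e + 1) → ℂ) =>
      (x.1, x.2 ())) := continuous_fst.prodMk ((continuous_apply ()).comp continuous_snd)
  have hA : Continuous A := by
    refine continuous_matrix fun k l => ?_
    have h2 := continuous_eval_dsub (N := N) (d := d) (e := e) (g l) (k : ℂ)
    have h3 := h2.comp hφ
    have h4 : (fun x => A x k l) = (fun x : (Ix N d → ℂ) × (Fin N → Fin (e + 1) → ℂ) =>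
        (dsub (formOf x.1) (polyOf x.2) (g l)).eval (k : ℂ)) ∘ fun x => (x.1, x.2 ()) := by
      funext x
      rfl
    rw [h4]
    exact h3
  have hA0 : A (coefOf d F₀, fun _ => coefC e f₀) = 1 := by
    ext k l
    show (dsub (formOf (coefOf d F₀)) (polyOf (coefC e f₀)) (g l)).eval (k : ℂ) = _
    rw [formOf_coefOf hF₀, polyOf_coefC hf₀, hg2, Matrix.one_apply]
  have hU : {x | (A x).det ≠ 0} ∈ 𝓝 (coefOf d F₀, fun _ : Unit => coefC e f₀) := by
    have h5 : (A (coefOf d F₀, fun _ : Unit => coefC e f₀)).det ≠ 0 := by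
      rw [hA0, Matrix.det_one]
      exact one_ne_zero
    exact (hA.matrix_det).continuousAt.eventually_ne h5
  obtain ⟨ε, hε, H⟩ := exists_eps (ι := Unit) (e := fun _ => e) (f₀ := fun _ => f₀) hU
  refine ⟨ε, hε, fun F f hF hf hnF hnf u hu => ?_⟩
  have h3 := H F (fun _ => f) hnF (fun _ => hnf)
  have h4 : (A (coefOf d F, fun _ => coefC e f)).det ≠ 0 := h3
  set B := A (coefOf d F, fun _ => coefC e f) with hB
  have hBe : ∀ k l, B k l = (dsub F f (g l)).eval (k : ℂ) := by
    intro k l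
    show (dsub (formOf (coefOf d F)) (polyOf (coefC e f)) (g l)).eval (k : ℂ) = _
    rw [formOf_coefOf hF, polyOf_coefC hf]
  set v : Fin (d * e + 1) → ℂ := fun k => u.eval (k : ℂ) with hv
  have h5 : B.mulVec (B⁻¹.mulVec v) = v := by
    rw [Matrix.mulVec_mulVec, Matrix.mul_nonsing_inv _ (isUnit_iff_ne_zero.2 h4), Matrix.one_mulVec]
  set x := B⁻¹.mulVec v with hx
  refine ⟨fun i => ∑ l, Polynomial.C (x l) * g l i, fun i => ?_, ?_⟩
  · refine Polynomial.natDegree_sum_le_of_forall_le _ _ fun l _ => ?_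
    exact (Polynomial.natDegree_C_mul_le _ _).trans (hg1 l i)
  · have h6 : DegLE e (fun i => ∑ l, Polynomial.C (x l) * g l i) := by
      intro i
      refine Polynomial.natDegree_sum_le_of_forall_le _ _ fun l _ => ?_
      exact (Polynomial.natDegree_C_mul_le _ _).trans (hg1 l i)
    refine eq_of_eval (natDegree_dsub_le hF hf h6) hu fun k => ?_
    rw [dsub_sum, Polynomial.eval_finsetSum]
    have h7 := congrFun h5 k
    rw [Matrix.mulVec, dotProduct] at h7
    rw [show u.eval (k : ℂ) = v k from rfl, ← h7]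
    refine Finset.sum_congr rfl fun l _ => ?_
    rw [hBe, Polynomial.eval_mul, Polynomial.eval_C, mul_comm]

end Pool.Agent.H66.CY
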