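import Mathlib

/-!
# An implicit function lemma

Row text. `Φ : E × V → W` is continuously differentiable, `Φ (p₀, v₀) = 0`, and the partial
derivative in the direction of `V` is onto (expressed by directional derivatives). Then for all `p`
near `p₀` there is `v ∈ U` with `Φ (p, v) = 0`.

Proof: `Ψ x = (x.1, Φ x)` has a strict derivative `Ψ'` at `(p₀, v₀)` (`ContDiff.contDiffAt`,
`ContDiffAt.hasStrictFDerivAt`, `HasStrictFDerivAt.prodMk`), `Ψ' = (fst, Φ')`. It is onto: given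
`(α, w)`, take `v` with directional derivative `Φ' (0, v) = w - Φ' (α, 0)` (uniqueness of the
derivative of `s ↦ Φ (p₀, v₀ + s v)`, chain rule). `HasStrictFDerivAt.map_nhds_eq_of_surj` gives
`map Ψ (𝓝 (p₀, v₀)) = 𝓝 (p₀, 0)`; the image of `{x | x.2 ∈ U}` is a neighbourhood of `(p₀, 0)`, so it
contains `(p, 0)` for all `p` near `p₀`.
-/

open Topology

namespace Pool.Agent.H66.CY

theorem implicit {E V W : Type*} [NormedAddCommGroup E] [NormedSpace ℂ E] [CompleteSpace E]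
    [NormedAddCommGroup V] [NormedSpace ℂ V] [CompleteSpace V]
    [NormedAddCommGroup W] [NormedSpace ℂ W] [CompleteSpace W]
    {Φ : E × V → W} (hΦ : ContDiff ℂ 1 Φ) {p₀ : E} {v₀ : V} (h0 : Φ (p₀, v₀) = 0)
    (hs : ∀ w : W, ∃ v : V, HasDerivAt (fun s : ℂ => Φ (p₀, v₀ + s • v)) w 0)
    {U : Set V} (hU : U ∈ 𝓝 v₀) :
    ∀ᶠ p in 𝓝 p₀, ∃ v ∈ U, Φ (p, v) = 0 := by
  have h1 : HasStrictFDerivAt Φ (fderiv ℂ Φ (p₀, v₀)) (p₀, v₀) :=
    (hΦ.contDiffAt).hasStrictFDerivAt one_ne_zero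
  set Φ' := fderiv ℂ Φ (p₀, v₀) with hΦ'
  have h2 : HasStrictFDerivAt (fun x : E × V => (x.1, Φ x))
      ((ContinuousLinearMap.fst ℂ E V).prod Φ') (p₀, v₀) :=
    hasStrictFDerivAt_fst.prodMk h1
  have h3 : Function.Surjective ((ContinuousLinearMap.fst ℂ E V).prod Φ') := by
    rintro ⟨α, w⟩
    obtain ⟨v, hv⟩ := hs (w - Φ' (α, 0))
    have h4 : HasDerivAt (fun s : ℂ => ((p₀, v₀ + s • v) : E × V)) (0, v) 0 := by
      refine (hasDerivAt_const _ _).prodMk ?_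
      have h5 : HasDerivAt (fun s : ℂ => s • v) ((1 : ℂ) • v) 0 := (hasDerivAt_id 0).smul_const v
      rw [one_smul] at h5
      exact h5.const_add v₀
    have h5 : HasFDerivAt Φ Φ' ((fun s : ℂ => ((p₀, v₀ + s • v) : E × V)) 0) := by
      simpa using h1.hasFDerivAt
    have h6 := h5.comp_hasDerivAt (0 : ℂ) h4
    have h7 : Φ' (0, v) = w - Φ' (α, 0) := h6.unique hv
    refine ⟨(α, v), ?_⟩
    have h8 : ((α, v) : E × V) = (α, 0) + (0, v) := by simp
    show (α, Φ' (α, v)) = (α, w)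
    rw [h8, map_add, h7]
    simp
  have h4 := h2.map_nhds_eq_of_surj (LinearMap.range_eq_top.2 h3)
  have h5 : {x : E × V | x.2 ∈ U} ∈ 𝓝 (p₀, v₀) := continuous_snd.continuousAt.preimage_mem_nhds hU
  have h6 : (fun x : E × V => (x.1, Φ x)) '' {x : E × V | x.2 ∈ U} ∈ 𝓝 ((p₀, Φ (p₀, v₀)) : E × W) := by
    rw [← h4]
    exact Filter.image_mem_map h5
  rw [h0] at h6
  have h7 : Filter.Tendsto (fun p : E => ((p, 0) : E × W)) (𝓝 p₀) (𝓝 (p₀, 0)) := by
    exact (continuous_id.prodMk continuous_const).tendsto p₀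
  filter_upwards [h7 h6] with p hp
  obtain ⟨x, hx, hx2⟩ := hp
  rw [Prod.mk.injEq] at hx2
  obtain ⟨e1, e2⟩ := hx2
  refine ⟨x.2, hx, ?_⟩
  rw [← e1]
  exact e2

end Pool.Agent.H66.CY
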