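import Pool.Agent.H66.CY.QuotR
import Pool.Agent.H66.CY.Impl

/-!
# The scaled implicit function theorem

Row text. `D e + 1` evaluation points `z = 0, …, D e`. Parameter `ε : ℂ`, unknowns
`(θ, c) : ℂ × (Fin N → Fin (e + 1) → ℂ)`, `g = polyOf c`,
`Φ (ε, θ, c) z = R(ε, f₀(z), g(z)) + θ a(f₀(z) + ε g(z)) + b(f₀(z) + ε g(z))`, `R` from `exists_quotR q`.
`Φ` is `C^1`. `Φ (0, θ, c) z` is the value at `z` of `dsub q f₀ g + θ a(f₀) + b(f₀)`. Start at
`θ₀ = - lam (b(f₀)) / lam (a(f₀))` and `g₀` of degree `≤ e` with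
`dsub q f₀ g₀ = - θ₀ a(f₀) - b(f₀)` (`honto`: the right hand side has degree `≤ D e` and is in the kernel
of `lam`): `Φ (0, θ₀, c₀) = 0`. Surjectivity of the derivative in `(θ, c)` at `ε = 0`: there `Φ` is
affine in `(θ, c)` with linear part `dsub q f₀ g + θ a(f₀)`; for `h` of degree `≤ D e` take
`θ = lam h / lam (a(f₀))` and `g` with `dsub q f₀ g = h - θ a(f₀)` (`honto`). `implicit` with `U` the set
of the `(θ, c)` with `‖θ - θ₀‖ < δ` and all `‖c i j - c₀ i j‖ < 1`. For `ε ≠ 0`: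
`ε Φ = 0` says that `q(f) + ε θ a(f) + ε b(f)` vanishes at all the points, `f = f₀ + ε g` (here
`q(f₀) = 0`), so it is zero (`eq_of_eval`). `NearC δ f₀ f` for `‖ε‖` small since the coefficients of `g`
are bounded.
-/

noncomputable section

open Topology

namespace Pool.Agent.H66.CY

variable {N D e : ℕ}

private theorem eval_polyOf' (c : Fin N → Fin (e + 1) → ℂ) (i : Fin N) (z : ℂ) :
    (polyOf c i).eval z = ∑ j : Fin (e + 1), c i j * z ^ (j : ℕ) := by
  unfold polyOf
  rw [Polynomial.eval_finsetSum]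
  refine Finset.sum_congr rfl fun j _ => ?_
  simp

private theorem contDiff_val (z : ℂ) :
    ContDiff ℂ 1 (fun c : Fin N → Fin (e + 1) → ℂ => fun i => (polyOf c i).eval z) := by
  rw [contDiff_pi]
  intro i
  simp only [eval_polyOf']
  refine ContDiff.sum fun j _ => ?_
  exact (contDiff_apply_apply ℂ ℂ i j).mul contDiff_const

private theorem coeff_polyOf_le (c : Fin N → Fin (e + 1) → ℂ) (i : Fin N) (n : ℕ) :
    ‖(polyOf c i).coeff n‖ ≤ ‖c‖ := by
  by_cases hn : n < e + 1
  · have h1 : (polyOf c i).coeff n = c i ⟨n, hn⟩ := by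
      have h2 := congrFun (congrFun (coefC_polyOf c) i) ⟨n, hn⟩
      exact h2
    rw [h1]
    exact (norm_le_pi_norm (c i) ⟨n, hn⟩).trans (norm_le_pi_norm c i)
  · have h1 : (polyOf c i).coeff n = 0 := by
      apply Polynomial.coeff_eq_zero_of_natDegree_lt
      have h2 := degLE_polyOf c i
      omega
    rw [h1, norm_zero]
    exact norm_nonneg _

private theorem natDegree_combo {f₀ g : Fin N → Polynomial ℂ} (hf : DegLE e f₀) (hg : DegLE e g)
    (ε : ℂ) : DegLE e (fun i => f₀ i + Polynomial.C ε * g i) := by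
  intro i
  refine (Polynomial.natDegree_add_le _ _).trans (max_le (hf i) ?_)
  exact (Polynomial.natDegree_C_mul_le _ _).trans (hg i)

theorem scaled {q a b : MvPolynomial (Fin N) ℂ} (hq : q.IsHomogeneous D) (ha : a.IsHomogeneous D)
    (hb : b.IsHomogeneous D) {f₀ : Fin N → Polynomial ℂ} (hf₀ : DegLE e f₀)
    (h0 : MvPolynomial.aeval f₀ q = 0) (lam : Polynomial ℂ →ₗ[ℂ] ℂ)
    (honto : ∀ h : Polynomial ℂ, h.natDegree ≤ D * e → lam h = 0 →
      ∃ g, DegLE e g ∧ dsub q f₀ g = h)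
    (hl : lam (MvPolynomial.aeval f₀ a) ≠ 0) {δ : ℝ} (hδ : 0 < δ) :
    ∃ η > 0, ∀ ε : ℂ, ε ≠ 0 → ‖ε‖ < η → ∃ (θ : ℂ) (f : Fin N → Polynomial ℂ), DegLE e f ∧
      NearC δ f₀ f ∧
      ‖θ + lam (MvPolynomial.aeval f₀ b) / lam (MvPolynomial.aeval f₀ a)‖ < δ ∧
      MvPolynomial.aeval f
        (q + MvPolynomial.C (ε * θ) * a + MvPolynomial.C ε * b) = 0 := by
  classical
  set la := lam (MvPolynomial.aeval f₀ a) with hla
  set lb := lam (MvPolynomial.aeval f₀ b) with hlb
  obtain ⟨R, hR1, hR2, hR3⟩ := exists_quotR q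
  -- the starting point
  obtain ⟨g₀, hg₀, hg₀'⟩ := honto
    (-(Polynomial.C (-lb / la) * MvPolynomial.aeval f₀ a) - MvPolynomial.aeval f₀ b)
    (by
      refine (Polynomial.natDegree_sub_le _ _).trans (max_le ?_ (natDegree_aeval_le hb hf₀))
      rw [Polynomial.natDegree_neg]
      exact (Polynomial.natDegree_C_mul_le _ _).trans (natDegree_aeval_le ha hf₀))
    (by
      rw [map_sub, map_neg, ← Polynomial.smul_eq_C_mul, map_smul, ← hla, ← hlb, smul_eq_mul]
      field_simp
      ring)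
  set θ₀ : ℂ := -lb / la with hθ₀
  set c₀ := coefC e g₀ with hc₀
  have hpc₀ : polyOf c₀ = g₀ := polyOf_coefC hg₀
  let X : Fin (D * e + 1) → Fin N → ℂ := fun k i => (f₀ i).eval (k : ℂ)
  let Y : Fin (D * e + 1) → (Fin N → Fin (e + 1) → ℂ) → Fin N → ℂ :=
    fun k c i => (polyOf c i).eval (k : ℂ)
  let Φ : ℂ × (ℂ × (Fin N → Fin (e + 1) → ℂ)) → (Fin (D * e + 1) → ℂ) := fun z k =>
    R (z.1, X k, Y k z.2.2) + z.2.1 * MvPolynomial.eval (X k + z.1 • Y k z.2.2) a +
      MvPolynomial.eval (X k + z.1 • Y k z.2.2) b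
  have hΦ : ContDiff ℂ 1 Φ := by
    rw [contDiff_pi]
    intro k
    have c1 : ContDiff ℂ 1 fun z : ℂ × (ℂ × (Fin N → Fin (e + 1) → ℂ)) => Y k z.2.2 :=
      (contDiff_val (k : ℂ)).comp (contDiff_snd.comp contDiff_snd)
    have c2 : ContDiff ℂ 1 fun z : ℂ × (ℂ × (Fin N → Fin (e + 1) → ℂ)) =>
        X k + z.1 • Y k z.2.2 := contDiff_const.add (contDiff_fst.smul c1)
    have c3 : ContDiff ℂ 1 fun z : ℂ × (ℂ × (Fin N → Fin (e + 1) → ℂ)) =>
        R (z.1, X k, Y k z.2.2) := hR1.comp (contDiff_fst.prodMk (contDiff_const.prodMk c1))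
    exact (c3.add ((contDiff_fst.comp contDiff_snd).mul ((contDiff_eval a).comp c2))).add
      ((contDiff_eval b).comp c2)
  have hval : ∀ (θ : ℂ) (c : Fin N → Fin (e + 1) → ℂ) (k : Fin (D * e + 1)),
      Φ (0, θ, c) k = (dsub q f₀ (polyOf c)).eval (k : ℂ) +
        θ * (MvPolynomial.aeval f₀ a).eval (k : ℂ) + (MvPolynomial.aeval f₀ b).eval (k : ℂ) := by
    intro θ c k
    show R (0, X k, Y k c) + θ * MvPolynomial.eval (X k + (0 : ℂ) • Y k c) a +
      MvPolynomial.eval (X k + (0 : ℂ) • Y k c) b = _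
    rw [hR3, zero_smul, add_zero, eval_aeval, eval_aeval]
    unfold dsub
    rw [Polynomial.eval_finsetSum]
    congr 2
    refine Finset.sum_congr rfl fun i _ => ?_
    rw [Polynomial.eval_mul, eval_aeval]
  have hstart : Φ (0, θ₀, c₀) = 0 := by
    funext k
    rw [hval, hpc₀, hg₀']
    simp only [Polynomial.eval_sub, Polynomial.eval_neg, Polynomial.eval_mul, Polynomial.eval_C,
      Pi.zero_apply]
    ring
  have hs : ∀ w : Fin (D * e + 1) → ℂ, ∃ v : ℂ × (Fin N → Fin (e + 1) → ℂ),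
      HasDerivAt (fun s : ℂ => Φ ((0 : ℂ), (θ₀, c₀) + s • v)) w 0 := by
    intro w
    obtain ⟨h, hh, hh'⟩ := exists_interp (D * e) w
    obtain ⟨g, hg, hg'⟩ := honto (h - Polynomial.C (lam h / la) * MvPolynomial.aeval f₀ a)
      (by
        refine (Polynomial.natDegree_sub_le _ _).trans (max_le hh ?_)
        exact (Polynomial.natDegree_C_mul_le _ _).trans (natDegree_aeval_le ha hf₀))
      (by
        rw [map_sub, ← Polynomial.smul_eq_C_mul, map_smul, ← hla, smul_eq_mul]
        field_simp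
        ring)
    refine ⟨(lam h / la, coefC e g), ?_⟩
    rw [hasDerivAt_pi]
    intro k
    have h1 : ∀ s : ℂ, Φ ((0 : ℂ), (θ₀, c₀) + s • ((lam h / la, coefC e g) :
        ℂ × (Fin N → Fin (e + 1) → ℂ))) k = Φ (0, θ₀, c₀) k + s * w k := by
      intro s
      have h2 : (θ₀, c₀) + s • ((lam h / la, coefC e g) : ℂ × (Fin N → Fin (e + 1) → ℂ)) =
          (θ₀ + s * (lam h / la), c₀ + s • coefC e g) := rfl
      rw [h2, hval, hval]
      have h3 : dsub q f₀ (polyOf (c₀ + s • coefC e g)) = dsub q f₀ (polyOf c₀) +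
          Polynomial.C s * dsub q f₀ g := by
        unfold dsub
        rw [Finset.mul_sum, ← Finset.sum_add_distrib]
        refine Finset.sum_congr rfl fun i _ => ?_
        rw [polyOf_add, Pi.add_apply, polyOf_smul, polyOf_coefC hg]
        ring
      rw [h3, hg', ← hh' k]
      simp only [Polynomial.eval_add, Polynomial.eval_sub, Polynomial.eval_mul, Polynomial.eval_C]
      ring
    simp only [h1]
    have h4 : HasDerivAt (fun s : ℂ => s * w k) (1 * w k) 0 := (hasDerivAt_id 0).mul_const _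
    rw [one_mul] at h4
    exact h4.const_add _
  set B : ℝ := ‖c₀‖ + 1 with hB
  have hB0 : 0 < B := by positivity
  let U : Set (ℂ × (Fin N → Fin (e + 1) → ℂ)) := {v | ‖v.1 - θ₀‖ < δ ∧ ‖v.2‖ < B}
  have hU : U ∈ 𝓝 ((θ₀, c₀) : ℂ × (Fin N → Fin (e + 1) → ℂ)) := by
    have hopen : IsOpen U := by
      refine IsOpen.and ?_ ?_
      · exact isOpen_lt (continuous_norm.comp (continuous_fst.sub continuous_const))
          continuous_const
      · exact isOpen_lt (continuous_norm.comp continuous_snd) continuous_const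
    refine hopen.mem_nhds ⟨?_, ?_⟩
    · simpa using hδ
    · show ‖c₀‖ < ‖c₀‖ + 1
      linarith
  have hev := implicit hΦ hstart hs hU
  rw [Metric.eventually_nhds_iff] at hev
  obtain ⟨η, hη, hev⟩ := hev
  refine ⟨min η (δ / B), lt_min hη (by positivity), fun ε hε0 hε => ?_⟩
  obtain ⟨⟨θ, c⟩, ⟨hv1, hv2⟩, hv3⟩ := hev (y := ε) (by
    rw [dist_zero_right]
    exact lt_of_lt_of_le hε (min_le_left _ _))
  have hεB : ‖ε‖ * B < δ := by
    have h1 := lt_of_lt_of_le hε (min_le_right _ _)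
    rwa [lt_div_iff₀ hB0] at h1
  refine ⟨θ, fun i => f₀ i + Polynomial.C ε * polyOf c i, natDegree_combo hf₀ (degLE_polyOf c) ε,
    ?_, ?_, ?_⟩
  · intro i n
    rw [Polynomial.coeff_add, add_sub_cancel_left, Polynomial.coeff_C_mul, norm_mul]
    refine lt_of_le_of_lt ?_ hεB
    refine mul_le_mul_of_nonneg_left ?_ (norm_nonneg _)
    exact (coeff_polyOf_le c i n).trans (le_of_lt hv2)
  · have h1 : θ + lb / la = θ - θ₀ := by
      rw [hθ₀]
      ring
    rw [h1]
    exact hv1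
  · refine eq_of_eval (D := D * e) ?_ (by simp) fun k => ?_
    · refine natDegree_aeval_le ?_ (natDegree_combo hf₀ (degLE_polyOf c) ε)
      refine (hq.add ?_).add ?_
      · have h1 := (MvPolynomial.isHomogeneous_C (Fin N) (ε * θ)).mul ha
        rwa [zero_add] at h1
      · have h1 := (MvPolynomial.isHomogeneous_C (Fin N) ε).mul hb
        rwa [zero_add] at h1
    · have h1 := congrFun hv3 k
      have h2 : (fun i => (f₀ i + Polynomial.C ε * polyOf c i).eval (k : ℂ)) =
          X k + ε • Y k c := by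
        funext i
        simp [X, Y]
      have h3 := hR2 ε (X k) (Y k c)
      have h4 : MvPolynomial.eval (X k) q = 0 := by
        have h5 := eval_aeval q f₀ (k : ℂ)
        rw [h0, Polynomial.eval_zero] at h5
        exact h5.symm
      rw [eval_aeval, h2, MvPolynomial.eval_add, MvPolynomial.eval_add, MvPolynomial.eval_mul,
        MvPolynomial.eval_mul, MvPolynomial.eval_C, MvPolynomial.eval_C, Polynomial.eval_zero]
      have h6 : R (ε, X k, Y k c) + θ * MvPolynomial.eval (X k + ε • Y k c) a +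
        MvPolynomial.eval (X k + ε • Y k c) b = 0 := h1
      rw [h4, sub_zero] at h3
      linear_combination ε * h6 - h3

end Pool.Agent.H66.CY
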