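import Pool.Agent.H66.CY.BaseA
import Pool.Agent.H66.CY.Scaled
import Pool.Agent.H66.CY.OntoOpen
import Pool.Agent.H66.CY.DetOpen
import Pool.Agent.H66.CY.FibNear

/-!
# One curve under the perturbation

Row text. Let `δ₀ > 0` be given. `onto_open` for `tot (bA a) (bB q b 0)` and `lft 0 f` (degree `5`),
`detects_open` for `q` and the single curve `f` (index type `Unit`): constants. `scaled` with
`a := emb a`, `b := emb b` and a small `δ ≤ δ₀` gives `θ`, `f'` for all small `ε ≠ 0`; put `t = ε θ`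
(small, as `θ` is bounded). Then `fib t (bA a) (bB q b ε) = q + C (ε θ) emb a + C ε emb b`
(`fib_base`) is near `q`, `tot (bA a) (bB q b ε)` is near `tot (bA a) (bB q b 0)`, and `lft t f'` is
near `lft 0 f` (the entry `0` is `C t * f' 0` against `0`). `aeval (lft t f') (tot ..) = 0` by
`aeval_lft_tot`.
-/

noncomputable section

namespace Pool.Agent.H66.CY

variable {q : MvPolynomial (Fin 4) ℂ} {a b : MvPolynomial (Fin 3) ℂ}

private theorem exists_bound {σ : Type} (P : MvPolynomial σ ℂ) :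
    ∃ K : ℝ, 0 ≤ K ∧ ∀ m, ‖P.coeff m‖ ≤ K := by
  refine ⟨∑ m ∈ P.support, ‖P.coeff m‖, Finset.sum_nonneg fun _ _ => norm_nonneg _, fun m => ?_⟩
  by_cases hm : m ∈ P.support
  · exact Finset.single_le_sum (f := fun m => ‖P.coeff m‖) (fun _ _ => norm_nonneg _) hm
  · rw [MvPolynomial.notMem_support_iff.1 hm, norm_zero]
    exact Finset.sum_nonneg fun _ _ => norm_nonneg _

private theorem exists_bound' (P : Polynomial ℂ) : ∃ K : ℝ, 0 ≤ K ∧ ∀ m, ‖P.coeff m‖ ≤ K := by
  refine ⟨∑ m ∈ P.support, ‖P.coeff m‖, Finset.sum_nonneg fun _ _ => norm_nonneg _, fun m => ?_⟩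
  by_cases hm : m ∈ P.support
  · exact Finset.single_le_sum (f := fun m => ‖P.coeff m‖) (fun _ _ => norm_nonneg _) hm
  · rw [Polynomial.notMem_support_iff.1 hm, norm_zero]
    exact Finset.sum_nonneg fun _ _ => norm_nonneg _

theorem perturb (hq : q.IsHomogeneous 4) (hq0 : q ≠ 0) (ha : a.IsHomogeneous 4)
    (hb : b.IsHomogeneous 4) {e : ℕ} {f : Fin 4 → Polynomial ℂ} {lam : Polynomial ℂ →ₗ[ℂ] ℂ}
    (hf : CurveData q e f lam)
    (ha1 : lam (MvPolynomial.aeval (fun i => f i.castSucc) a) ≠ 0)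
    (ha0 : ∀ z, (f 0).eval z = 0 →
      MvPolynomial.eval (fun i => (f i.castSucc).eval z) a ≠ 0)
    {k : ℕ} (hk : 4 * k < e) {δ : ℝ} (hδ : 0 < δ) :
    ∃ η > 0, ∀ ε : ℂ, ε ≠ 0 → ‖ε‖ < η → ∃ (θ : ℂ) (f' : Fin 4 → Polynomial ℂ),
      ‖θ + lam (MvPolynomial.aeval (fun i => f i.castSucc) b) /
        lam (MvPolynomial.aeval (fun i => f i.castSucc) a)‖ < δ ∧
      Unobst 5 e (tot (bA a) (bB q b ε)) (lft (ε * θ) f') ∧
      ∀ G : MvPolynomial (Fin 4) ℂ, G.IsHomogeneous k → MvPolynomial.aeval f' G = 0 →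
        fib (ε * θ) (bA a) (bB q b ε) ∣ G := by
  have hea : (emb a).IsHomogeneous 4 := ha.rename_isHomogeneous
  have heb : (emb b).IsHomogeneous 4 := hb.rename_isHomogeneous
  have hT₀ : (tot (bA a) (bB q b 0)).IsHomogeneous 5 := isHomogeneous_tot (hom_bA ha) (hom_bB hq hb 0)
  have hU := unobst_zero hq ha hb hf ha1 ha0
  obtain ⟨ε₁, hε₁, H₁⟩ := onto_open hT₀ hU.deg hU.onto
  have hD : Detects k q (fun _ : Unit => f) := fun G hG hz => hf.det k hk G hG (hz ())
  obtain ⟨ε₂, hε₂, H₂⟩ := detects_open (ι := Unit) (e := fun _ => e) hq hq0 (fun _ => hf.deg)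
    (fun _ => hf.zero) hD
  have hla : lam (MvPolynomial.aeval f (emb a)) ≠ 0 := by rw [aeval_emb]; exact ha1
  have hδ' : 0 < min δ (min ε₁ ε₂) := lt_min hδ (lt_min hε₁ hε₂)
  obtain ⟨η₁, hη₁, H₃⟩ := scaled hq hea heb hf.deg hf.zero lam hf.onto hla hδ'
  rw [aeval_emb, aeval_emb] at H₃
  set ρ := lam (MvPolynomial.aeval (fun i => f i.castSucc) b) /
    lam (MvPolynomial.aeval (fun i => f i.castSucc) a) with hρ
  obtain ⟨K₁, hK₁, B₁⟩ := exists_bound (emb a)
  obtain ⟨K₂, hK₂, B₂⟩ := exists_bound (emb b)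
  obtain ⟨K₃, hK₃, B₃⟩ := exists_bound (MvPolynomial.rename Fin.succ (emb b) :
    MvPolynomial (Fin 5) ℂ)
  obtain ⟨K₄, hK₄, B₄⟩ := exists_bound' (f 0)
  set K : ℝ := K₁ + K₂ + K₃ + K₄ + δ + 1 with hK
  have hK0 : 0 < K := by positivity
  set R : ℝ := ‖ρ‖ + δ + 1 with hR
  have hρ0 := norm_nonneg ρ
  have hR1 : 1 ≤ R := by linarith
  have hm₀ : 0 < min ε₁ ε₂ := lt_min hε₁ hε₂
  refine ⟨min η₁ (min ε₁ ε₂ / (4 * R * K)), lt_min hη₁ (by positivity), fun ε hε hεη => ?_⟩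
  obtain ⟨θ, f', hdeg, hnear, hθ, hz⟩ := H₃ ε hε (hεη.trans_le (min_le_left _ _))
  have hε' : ‖ε‖ * (4 * R * K) < min ε₁ ε₂ := by
    have h1 := hεη.trans_le (min_le_right _ _)
    rwa [lt_div_iff₀ (by positivity)] at h1
  have hε0 := norm_nonneg ε
  have hθR : ‖θ‖ ≤ R := by
    have h1 : θ = (θ + ρ) - ρ := by ring
    have h2 : ‖θ‖ ≤ ‖θ + ρ‖ + ‖ρ‖ := by
      conv_lhs => rw [h1]
      exact norm_sub_le _ _
    have h3 := hθ.trans_le (min_le_left _ _)
    linarith
  have hεRK : ‖ε‖ * R * K ≤ ‖ε‖ * (4 * R * K) / 4 := by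
    apply le_of_eq
    ring
  have hεK : ‖ε‖ * K ≤ ‖ε‖ * R * K := by
    apply mul_le_mul_of_nonneg_right _ hK0.le
    nlinarith
  have hm1 := min_le_left ε₁ ε₂
  have hm2 := min_le_right ε₁ ε₂
  -- the fibre
  have hF : NearF ε₂ q (q + MvPolynomial.C (ε * θ) * emb a + MvPolynomial.C ε * emb b) := by
    intro m
    rw [MvPolynomial.coeff_add, MvPolynomial.coeff_add, MvPolynomial.coeff_C_mul,
      MvPolynomial.coeff_C_mul]
    have h1 : q.coeff m + ε * θ * (emb a).coeff m + ε * (emb b).coeff m - q.coeff m =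
        ε * θ * (emb a).coeff m + ε * (emb b).coeff m := by ring
    rw [h1]
    refine (norm_add_le _ _).trans_lt ?_
    rw [norm_mul, norm_mul, norm_mul]
    have h2 : ‖ε‖ * ‖θ‖ * ‖(emb a).coeff m‖ ≤ ‖ε‖ * R * K := by
      apply mul_le_mul (mul_le_mul_of_nonneg_left hθR hε0) _ (norm_nonneg _) (by positivity)
      have := B₁ m
      linarith
    have h3 : ‖ε‖ * ‖(emb b).coeff m‖ ≤ ‖ε‖ * K := by
      apply mul_le_mul_of_nonneg_left _ hε0
      have := B₂ m
      linarith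
    linarith
  have hFh : (q + MvPolynomial.C (ε * θ) * emb a + MvPolynomial.C ε * emb b).IsHomogeneous 4 := by
    have h1 := (MvPolynomial.isHomogeneous_C (Fin 4) (ε * θ)).mul hea
    have h2 := (MvPolynomial.isHomogeneous_C (Fin 4) ε).mul heb
    rw [zero_add] at h1 h2
    exact (hq.add h1).add h2
  -- the total space
  have hT : NearF ε₁ (tot (bA a) (bB q b 0)) (tot (bA a) (bB q b ε)) := by
    intro m
    have h1 : NearF (ε₁ / 2) (bA a) (bA a) := by
      intro m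
      rw [sub_self, norm_zero]
      exact half_pos hε₁
    have h2 : NearF (ε₁ / 2) (bB q b 0) (bB q b ε) := by
      intro m
      unfold bB
      rw [map_neg, map_neg, map_add, map_add, map_mul, map_mul, MvPolynomial.rename_C,
        MvPolynomial.rename_C, MvPolynomial.coeff_neg, MvPolynomial.coeff_neg,
        MvPolynomial.coeff_add, MvPolynomial.coeff_add, MvPolynomial.coeff_C_mul,
        MvPolynomial.coeff_C_mul, zero_mul, add_zero]
      have h3 : ∀ x y z : ℂ, -(x + y * z) - -x = -(y * z) := fun x y z => by ring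
      rw [h3, norm_neg, norm_mul]
      have h4 : ‖ε‖ * ‖(MvPolynomial.rename Fin.succ (emb b) :
          MvPolynomial (Fin 5) ℂ).coeff m‖ ≤ ‖ε‖ * K := by
        apply mul_le_mul_of_nonneg_left _ hε0
        have := B₃ m
        linarith
      linarith
    have h3 := near_tot h1 h2 m
    have h4 : 2 * (ε₁ / 2) = ε₁ := by ring
    rw [h4] at h3
    exact h3
  have hC : NearC ε₁ (lft 0 f) (lft (ε * θ) f') := by
    intro i n
    refine Fin.cases ?_ (fun i => ?_) i
    · show ‖(Polynomial.C (ε * θ) * f' 0).coeff n - (Polynomial.C 0 * f 0).coeff n‖ < _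
      rw [Polynomial.coeff_C_mul, Polynomial.coeff_C_mul, zero_mul, sub_zero, norm_mul, norm_mul]
      have h1 : ‖(f' 0).coeff n‖ ≤ K := by
        have h2 := hnear 0 n
        have h3 := B₄ n
        have h4 : (f' 0).coeff n = ((f' 0).coeff n - (f 0).coeff n) + (f 0).coeff n := by ring
        have h5 : ‖(f' 0).coeff n‖ ≤ ‖(f' 0).coeff n - (f 0).coeff n‖ + ‖(f 0).coeff n‖ := by
          conv_lhs => rw [h4]
          exact norm_add_le _ _
        have h6 := h2.trans_le (min_le_left _ _)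
        linarith
      have h2 : ‖ε‖ * ‖θ‖ * ‖(f' 0).coeff n‖ ≤ ‖ε‖ * R * K :=
        mul_le_mul (mul_le_mul_of_nonneg_left hθR hε0) h1 (norm_nonneg _) (by positivity)
      linarith
    · show ‖(f' i).coeff n - (f i).coeff n‖ < _
      exact (hnear i n).trans_le ((min_le_right _ _).trans (min_le_left _ _))
  refine ⟨θ, f', hθ.trans_le (min_le_left _ _), ⟨hf.one_le, degLE_lft hdeg, ?_, ?_⟩,
    fun G hG hGz => ?_⟩
  · rw [aeval_lft_tot, fib_base, hz, mul_zero]
  · exact H₁ _ _ (isHomogeneous_tot (hom_bA ha) (hom_bB hq hb ε)) (degLE_lft hdeg) hT hC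
  · rw [fib_base]
    exact H₂ _ (fun _ => f') hFh (fun _ => hdeg) hF
      (fun _ i n => (hnear i n).trans_le ((min_le_right _ _).trans (min_le_right _ _)))
      (fun _ => hz) G hG (fun _ => hGz)

end Pool.Agent.H66.CY
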