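import Pool.Agent.H66.CY.Defs

/-!
# Coordinates for forms and curves

Row text: everything here is elementary. `Ix N d` is finite (its elements are the elements of
`Finset.finsuppAntidiag univ d`, see `Pool/Agent/H17GT/ModNEAR.lean`). Forms of degree `d` are the
`formOf a`, tuples of polynomials of degree `≤ e` are the `polyOf c`. The two `exists_eps` lemmas: the
norm on the finite products is the sup norm (`dist_pi_lt_iff`, `Prod.dist_eq`), a neighbourhood
contains a ball.
-/

noncomputable section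

open Topology

namespace Pool.Agent.H66.CY

/-- Exponents of degree `d`. -/
abbrev Ix (N d : ℕ) := {m : Fin N →₀ ℕ // m.degree = d}

instance finite_Ix (N d : ℕ) : Finite (Ix N d) := by
  classical
  have h1 : {m : Fin N →₀ ℕ | m.degree = d} ⊆
      ↑(Finset.finsuppAntidiag (Finset.univ : Finset (Fin N)) d) := by
    intro m hm
    rw [Finset.mem_coe, Finset.mem_finsuppAntidiag]
    refine ⟨?_, Finset.subset_univ _⟩
    rw [← hm, Finsupp.degree_eq_sum]
  exact ((Finset.finite_toSet _).subset h1).to_subtype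

instance fintype_Ix (N d : ℕ) : Fintype (Ix N d) := Fintype.ofFinite _

/-- The form with coefficients `a`. -/
def formOf {N d : ℕ} (a : Ix N d → ℂ) : MvPolynomial (Fin N) ℂ :=
  ∑ m, MvPolynomial.monomial m.1 (a m)

/-- The coefficients of a form of degree `d`. -/
def coefOf {N : ℕ} (d : ℕ) (F : MvPolynomial (Fin N) ℂ) : Ix N d → ℂ := fun m => F.coeff m.1

/-- The tuple of polynomials with coefficients `c`. -/
def polyOf {N e : ℕ} (c : Fin N → Fin (e + 1) → ℂ) : Fin N → Polynomial ℂ :=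
  fun i => ∑ j : Fin (e + 1), Polynomial.C (c i j) * Polynomial.X ^ (j : ℕ)

/-- The coefficients of a tuple of polynomials of degree `≤ e`. -/
def coefC {N : ℕ} (e : ℕ) (f : Fin N → Polynomial ℂ) : Fin N → Fin (e + 1) → ℂ :=
  fun i j => (f i).coeff j

variable {N d e : ℕ}

theorem coeff_formOf (a : Ix N d → ℂ) (m : Fin N →₀ ℕ) :
    (formOf a).coeff m = if h : m.degree = d then a ⟨m, h⟩ else 0 := by
  classical
  unfold formOf
  rw [MvPolynomial.coeff_sum]
  by_cases h : m.degree = d
  · rw [dif_pos h, Finset.sum_eq_single (⟨m, h⟩ : Ix N d)]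
    · rw [MvPolynomial.coeff_monomial, if_pos rfl]
    · intro b _ hb
      rw [MvPolynomial.coeff_monomial, if_neg]
      intro h'
      exact hb (Subtype.ext h')
    · intro h'
      exact absurd (Finset.mem_univ _) h'
  · rw [dif_neg h]
    refine Finset.sum_eq_zero fun b _ => ?_
    rw [MvPolynomial.coeff_monomial, if_neg]
    intro h'
    exact h (h' ▸ b.2)

theorem isHomogeneous_formOf (a : Ix N d → ℂ) : (formOf a).IsHomogeneous d := by
  unfold formOf
  refine MvPolynomial.IsHomogeneous.sum _ _ _ fun m _ => ?_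
  exact MvPolynomial.isHomogeneous_monomial _ m.2

theorem coefOf_formOf (a : Ix N d → ℂ) : coefOf d (formOf a) = a := by
  funext m
  unfold coefOf
  rw [coeff_formOf, dif_pos m.2]

theorem formOf_coefOf {F : MvPolynomial (Fin N) ℂ} (hF : F.IsHomogeneous d) :
    formOf (coefOf d F) = F := by
  ext m
  rw [coeff_formOf]
  by_cases h : m.degree = d
  · rw [dif_pos h]
    rfl
  · rw [dif_neg h, hF.coeff_eq_zero h]

theorem formOf_add (a b : Ix N d → ℂ) : formOf (a + b) = formOf a + formOf b := by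
  unfold formOf
  rw [← Finset.sum_add_distrib]
  refine Finset.sum_congr rfl fun m _ => ?_
  rw [Pi.add_apply]
  exact map_add _ _ _

theorem formOf_smul (s : ℂ) (a : Ix N d → ℂ) :
    formOf (s • a) = MvPolynomial.C s * formOf a := by
  unfold formOf
  rw [Finset.mul_sum]
  refine Finset.sum_congr rfl fun m _ => ?_
  rw [MvPolynomial.C_mul_monomial, Pi.smul_apply, smul_eq_mul]

theorem degLE_polyOf (c : Fin N → Fin (e + 1) → ℂ) : DegLE e (polyOf c) := by
  intro i
  unfold polyOf
  refine Polynomial.natDegree_sum_le_of_forall_le _ _ fun j _ => ?_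
  exact (Polynomial.natDegree_C_mul_X_pow_le _ _).trans (Nat.lt_succ_iff.mp j.2)

theorem Coord_coeff_polyOf (c : Fin N → Fin (e + 1) → ℂ) (i : Fin N) (n : ℕ) :
    (polyOf c i).coeff n = if h : n < e + 1 then c i ⟨n, h⟩ else 0 := by
  unfold polyOf
  rw [Polynomial.finsetSum_coeff]
  by_cases h : n < e + 1
  · rw [dif_pos h, Finset.sum_eq_single (⟨n, h⟩ : Fin (e + 1))]
    · rw [Polynomial.coeff_C_mul_X_pow, if_pos rfl]
    · intro b _ hb
      rw [Polynomial.coeff_C_mul_X_pow, if_neg]
      intro h'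
      exact hb (Fin.ext h'.symm)
    · intro h'
      exact absurd (Finset.mem_univ _) h'
  · rw [dif_neg h]
    refine Finset.sum_eq_zero fun b _ => ?_
    rw [Polynomial.coeff_C_mul_X_pow, if_neg]
    intro h'
    exact h (h' ▸ b.2)

theorem coefC_polyOf (c : Fin N → Fin (e + 1) → ℂ) : coefC e (polyOf c) = c := by
  funext i j
  unfold coefC
  rw [Coord_coeff_polyOf, dif_pos j.2]

theorem polyOf_coefC {f : Fin N → Polynomial ℂ} (hf : DegLE e f) : polyOf (coefC e f) = f := by
  funext i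
  ext n
  rw [Coord_coeff_polyOf]
  by_cases h : n < e + 1
  · rw [dif_pos h]
    rfl
  · rw [dif_neg h, Polynomial.coeff_eq_zero_of_natDegree_lt]
    exact lt_of_le_of_lt (hf i) (by omega)

theorem polyOf_add (c b : Fin N → Fin (e + 1) → ℂ) : polyOf (c + b) = polyOf c + polyOf b := by
  funext i
  ext n
  rw [Pi.add_apply, Polynomial.coeff_add, Coord_coeff_polyOf, Coord_coeff_polyOf,
    Coord_coeff_polyOf]
  by_cases h : n < e + 1
  · rw [dif_pos h, dif_pos h, dif_pos h]
    rfl
  · rw [dif_neg h, dif_neg h, dif_neg h, add_zero]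

theorem polyOf_smul (s : ℂ) (c : Fin N → Fin (e + 1) → ℂ) (i : Fin N) :
    polyOf (s • c) i = Polynomial.C s * polyOf c i := by
  ext n
  rw [Polynomial.coeff_C_mul, Coord_coeff_polyOf, Coord_coeff_polyOf]
  by_cases h : n < e + 1
  · rw [dif_pos h, dif_pos h]
    rfl
  · rw [dif_neg h, dif_neg h, mul_zero]

/-- Evaluation of `F(f)` at a point. -/
theorem eval_aeval (F : MvPolynomial (Fin N) ℂ) (f : Fin N → Polynomial ℂ) (z : ℂ) :
    (MvPolynomial.aeval f F).eval z = MvPolynomial.eval (fun i => (f i).eval z) F := by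
  induction F using MvPolynomial.induction_on with
  | C a => simp
  | add p q hp hq => simp only [map_add, Polynomial.eval_add, hp, hq]
  | mul_X p i hp => simp only [map_mul, Polynomial.eval_mul, hp, MvPolynomial.aeval_X,
      MvPolynomial.eval_X]

theorem natDegree_aeval_le {F : MvPolynomial (Fin N) ℂ} (hF : F.IsHomogeneous d)
    {f : Fin N → Polynomial ℂ} (hf : DegLE e f) : (MvPolynomial.aeval f F).natDegree ≤ d * e := by
  rw [MvPolynomial.aeval_def, MvPolynomial.eval₂_eq']
  refine Polynomial.natDegree_sum_le_of_forall_le _ _ fun m hm => ?_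
  have hdeg : ∑ i, m i = d := by
    by_contra hne
    have h0 : m.degree ≠ d := by
      rw [Finsupp.degree_eq_sum]
      exact hne
    exact (MvPolynomial.mem_support_iff.mp hm) (hF.coeff_eq_zero h0)
  refine Polynomial.natDegree_mul_le.trans ?_
  have h1 : ((algebraMap ℂ (Polynomial ℂ)) (F.coeff m)).natDegree = 0 :=
    Polynomial.natDegree_C _
  rw [h1, zero_add]
  refine (Polynomial.natDegree_prod_le _ _).trans ?_
  calc ∑ i, (f i ^ m i).natDegree ≤ ∑ i, m i * e := by
        refine Finset.sum_le_sum fun i _ => ?_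
        exact Polynomial.natDegree_pow_le.trans (Nat.mul_le_mul_left _ (hf i))
    _ = d * e := by rw [← Finset.sum_mul, hdeg]

theorem natDegree_dsub_le {F : MvPolynomial (Fin N) ℂ} (hF : F.IsHomogeneous d)
    {f g : Fin N → Polynomial ℂ} (hf : DegLE e f) (hg : DegLE e g) :
    (dsub F f g).natDegree ≤ d * e := by
  unfold dsub
  refine Polynomial.natDegree_sum_le_of_forall_le _ _ fun i _ => ?_
  rcases Nat.eq_zero_or_pos d with rfl | hd
  · have h0 : MvPolynomial.pderiv i F = 0 := by
      have h1 : F.totalDegree = 0 := Nat.le_zero.mp hF.totalDegree_le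
      rw [MvPolynomial.totalDegree_eq_zero_iff_eq_C.mp h1, MvPolynomial.pderiv_C]
    rw [h0, map_zero, zero_mul, Polynomial.natDegree_zero]
    exact Nat.zero_le _
  · refine Polynomial.natDegree_mul_le.trans ?_
    have h1 := natDegree_aeval_le (hF.pderiv (i := i)) hf
    have h2 := hg i
    calc _ ≤ (d - 1) * e + e := Nat.add_le_add h1 h2
      _ = d * e := by
          obtain ⟨k, rfl⟩ : ∃ k, d = k + 1 := ⟨d - 1, by omega⟩
          rw [Nat.add_sub_cancel]
          ring

/-- Polynomials of degree `≤ D` are determined by their values at `0, …, D`. -/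
theorem eq_of_eval {D : ℕ} {g h : Polynomial ℂ} (hg : g.natDegree ≤ D) (hh : h.natDegree ≤ D)
    (H : ∀ k : Fin (D + 1), g.eval (k : ℂ) = h.eval (k : ℂ)) : g = h := by
  have hinj : Function.Injective (fun k : Fin (D + 1) => ((k : ℕ) : ℂ)) := by
    intro a b hab
    exact Fin.ext (Nat.cast_injective hab)
  refine Polynomial.eq_of_degree_sub_lt_of_eval_index_eq
    (v := fun k : Fin (D + 1) => ((k : ℕ) : ℂ)) Finset.univ (hinj.injOn) ?_ (fun k _ => H k)
  rw [Finset.card_univ, Fintype.card_fin]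
  refine lt_of_le_of_lt Polynomial.degree_le_natDegree ?_
  have : (g - h).natDegree ≤ D := (Polynomial.natDegree_sub_le g h).trans (max_le hg hh)
  exact_mod_cast Nat.lt_succ_of_le this

/-- Interpolation at `0, …, D`. -/
theorem exists_interp (D : ℕ) (v : Fin (D + 1) → ℂ) :
    ∃ h : Polynomial ℂ, h.natDegree ≤ D ∧ ∀ k : Fin (D + 1), h.eval (k : ℂ) = v k := by
  have hinj : Set.InjOn (fun k : Fin (D + 1) => ((k : ℕ) : ℂ))
      (Finset.univ : Finset (Fin (D + 1))) := by
    intro a _ b _ hab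
    exact Fin.ext (Nat.cast_injective hab)
  refine ⟨Lagrange.interpolate Finset.univ (fun k : Fin (D + 1) => ((k : ℕ) : ℂ)) v, ?_, ?_⟩
  · have h1 := Lagrange.degree_interpolate_lt v hinj
    rw [Finset.card_univ, Fintype.card_fin] at h1
    rcases eq_or_ne (Lagrange.interpolate Finset.univ
      (fun k : Fin (D + 1) => ((k : ℕ) : ℂ)) v) 0 with h0 | h0
    · rw [h0, Polynomial.natDegree_zero]
      exact Nat.zero_le _
    · exact Nat.lt_succ_iff.mp ((Polynomial.natDegree_lt_iff_degree_lt h0).mpr h1)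
  · intro k
    exact Lagrange.eval_interpolate_at_node v hinj (Finset.mem_univ k)

/-- Neighbourhoods in coordinates and `NearF`, `NearC`. -/
theorem exists_eps {ι : Type} [Fintype ι] {e : ι → ℕ} {F₀ : MvPolynomial (Fin N) ℂ}
    {f₀ : ι → Fin N → Polynomial ℂ}
    {U : Set ((Ix N d → ℂ) × ((j : ι) → Fin N → Fin (e j + 1) → ℂ))}
    (hU : U ∈ 𝓝 (coefOf d F₀, fun j => coefC (e j) (f₀ j))) :
    ∃ ε > 0, ∀ (F : MvPolynomial (Fin N) ℂ) (f : ι → Fin N → Polynomial ℂ),
      NearF ε F₀ F → (∀ j, NearC ε (f₀ j) (f j)) →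
        (coefOf d F, fun j => coefC (e j) (f j)) ∈ U := by
  obtain ⟨ε, hε, hball⟩ := Metric.mem_nhds_iff.mp hU
  refine ⟨ε, hε, fun F f hF hf => hball ?_⟩
  rw [Metric.mem_ball, Prod.dist_eq, max_lt_iff]
  constructor
  · rw [dist_pi_lt_iff hε]
    intro m
    rw [dist_eq_norm]
    exact hF m.1
  · rw [dist_pi_lt_iff hε]
    intro j
    rw [dist_pi_lt_iff hε]
    intro i
    rw [dist_pi_lt_iff hε]
    intro n
    rw [dist_eq_norm]
    exact hf j i n

theorem exists_eps_form {F₀ : MvPolynomial (Fin N) ℂ} {U : Set (Ix N d → ℂ)}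
    (hU : U ∈ 𝓝 (coefOf d F₀)) :
    ∃ ε > 0, ∀ F : MvPolynomial (Fin N) ℂ, NearF ε F₀ F → coefOf d F ∈ U := by
  obtain ⟨ε, hε, hball⟩ := Metric.mem_nhds_iff.mp hU
  refine ⟨ε, hε, fun F hF => hball ?_⟩
  rw [Metric.mem_ball, dist_pi_lt_iff hε]
  intro m
  rw [dist_eq_norm]
  exact hF m.1

/-- A neighbourhood of the coordinates of a curve whose members are `δ`-near. -/
theorem nearC_nhds {f₀ : Fin N → Polynomial ℂ} (hf₀ : DegLE e f₀) {δ : ℝ} (hδ : 0 < δ) :
    ∀ᶠ c in 𝓝 (coefC e f₀), NearC δ f₀ (polyOf c) := by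
  filter_upwards [Metric.ball_mem_nhds (coefC e f₀) hδ] with c hc i n
  rw [Metric.mem_ball, dist_pi_lt_iff hδ] at hc
  have h1 := hc i
  rw [dist_pi_lt_iff hδ] at h1
  rw [Coord_coeff_polyOf]
  by_cases h : n < e + 1
  · rw [dif_pos h]
    have h2 := h1 ⟨n, h⟩
    rw [dist_eq_norm] at h2
    exact h2
  · rw [dif_neg h, Polynomial.coeff_eq_zero_of_natDegree_lt (lt_of_le_of_lt (hf₀ i) (by omega)),
      sub_zero, norm_zero]
    exact hδ

theorem nearF_nhds {F₀ : MvPolynomial (Fin N) ℂ} (hF₀ : F₀.IsHomogeneous d) {δ : ℝ} (hδ : 0 < δ) :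
    ∀ᶠ a in 𝓝 (coefOf d F₀), NearF δ F₀ (formOf a) := by
  filter_upwards [Metric.ball_mem_nhds (coefOf d F₀) hδ] with a ha m
  rw [Metric.mem_ball, dist_pi_lt_iff hδ] at ha
  rw [coeff_formOf]
  by_cases h : m.degree = d
  · rw [dif_pos h]
    have h2 := ha ⟨m, h⟩
    rw [dist_eq_norm] at h2
    exact h2
  · rw [dif_neg h, hF₀.coeff_eq_zero h, sub_zero, norm_zero]
    exact hδ

end Pool.Agent.H66.CY
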