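import Pool.Agent.H66.CY.FibAlg
import Pool.Agent.H66.CY.Bez

/-!
# Criterion (a): unobstructed in the fibre and away from `x₁ = A = 0`

Row text. `Onto`: given `h` of degree `≤ (D + 1) e = e + D e`, `bez` with `a = f 0` (`p = e`),
`b = A(lft t f)` (`q = D e`, `natDegree_aeval_le`): `h = u A(lft) + v f₀`. Put
`w = v - u * aeval (lft t f) (pderiv 0 (C t * A - B))`, of degree `≤ D e` (`pderiv 0` of a form of
degree `D` is a form of degree `D - 1`, for `D = 0` it is `0`). `Onto` in the fibre gives `g'` with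
`dsub (fib t A B) f g' = w`; `g = Fin.cons (C t * g' 0 + u) g'` works by `dsub_lft`.
-/

noncomputable section

namespace Pool.Agent.H66.CY

variable {M D e : ℕ}

/-- The degree of `u ∂₀Q(f)`. -/
theorem natDegree_mul_pderiv_le {N : ℕ} {Q : MvPolynomial (Fin N) ℂ} (hQ : Q.IsHomogeneous D)
    {f : Fin N → Polynomial ℂ} (hf : DegLE e f) (i : Fin N) {u : Polynomial ℂ}
    (hu : u.natDegree ≤ e) :
    (u * MvPolynomial.aeval f (MvPolynomial.pderiv i Q)).natDegree ≤ D * e := by
  classical
  have h := natDegree_dsub_le hQ hf (g := fun j => if j = i then u else 0) (by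
    intro j
    by_cases hj : j = i
    · simp only [hj, if_true]
      exact hu
    · simp only [hj, if_false]
      simp)
  unfold dsub at h
  simp only [mul_ite, mul_zero] at h
  rw [Finset.sum_ite_eq' Finset.univ i] at h
  simp only [Finset.mem_univ, if_true] at h
  rwa [mul_comm]

theorem critA {t : ℂ} {A B : MvPolynomial (Fin (M + 2)) ℂ} (hA : A.IsHomogeneous D)
    (hB : B.IsHomogeneous D) {f : Fin (M + 1) → Polynomial ℂ} (hf : Unobst D e (fib t A B) f)
    (hc : CoprimeForms e (D * e) (f 0) (MvPolynomial.aeval (lft t f) A)) :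
    Unobst (D + 1) e (tot A B) (lft t f) := by
  have hQ : (MvPolynomial.C t * A - B).IsHomogeneous D := by
    refine MvPolynomial.IsHomogeneous.sub ?_ hB
    have := (MvPolynomial.isHomogeneous_C (Fin (M + 2)) t).mul hA
    rwa [zero_add] at this
  refine ⟨hf.one_le, degLE_lft hf.deg, ?_, ?_⟩
  · rw [aeval_lft_tot, hf.zero, mul_zero]
  intro h hh
  have hh' : h.natDegree ≤ e + D * e := by
    refine hh.trans (le_of_eq ?_)
    ring
  obtain ⟨u, v, hu, hv, huv⟩ := bez (hf.deg 0) (natDegree_aeval_le hA (degLE_lft hf.deg)) hc hh'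
  obtain ⟨g', hg', hg''⟩ := hf.onto (v - u * MvPolynomial.aeval (lft t f)
    (MvPolynomial.pderiv 0 (MvPolynomial.C t * A - B))) (by
      refine (Polynomial.natDegree_sub_le _ _).trans (max_le hv ?_)
      exact natDegree_mul_pderiv_le hQ (degLE_lft hf.deg) 0 hu)
  refine ⟨Fin.cons (Polynomial.C t * g' 0 + u) g', ?_, ?_⟩
  · intro i
    refine Fin.cases ?_ (fun j => ?_) i
    · rw [Fin.cons_zero]
      refine (Polynomial.natDegree_add_le _ _).trans (max_le ?_ hu)
      exact (Polynomial.natDegree_C_mul_le _ _).trans (hg' 0)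
    · rw [Fin.cons_succ]
      exact hg' j
  · rw [dsub_lft, hf.zero, mul_zero, add_zero]
    have h1 : (Fin.cons (Polynomial.C t * g' 0 + u) g' : Fin (M + 2) → Polynomial ℂ) 1 = g' 0 := by
      rw [← Fin.succ_zero_eq_one, Fin.cons_succ]
    have h2 : (fun i : Fin (M + 1) =>
        (Fin.cons (Polynomial.C t * g' 0 + u) g' : Fin (M + 2) → Polynomial ℂ) i.succ) = g' := by
      funext i
      rw [Fin.cons_succ]
    rw [h1, h2, Fin.cons_zero, hg'', huv]
    ring

end Pool.Agent.H66.CY
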