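import Pool.Agent.H66.CY.Impl
import Pool.Agent.H66.CY.OntoOpen

/-!
# Unobstructed curves deform with the hypersurface

Row text. Apply `implicit` to `phi N d e`, `p₀ = coefOf d F₀`, `v₀ = coefC e f₀`
(`phi_eq_zero_iff`, `formOf_coefOf`, `polyOf_coefC`). Surjectivity: for `w` take `h` of degree
`≤ d e` with values `w` (`exists_interp`), `g` with `dsub F₀ f₀ g = h` (`Onto`), `b = coefC e g`,
`hasDerivAt_phi`. `U` = set of `c` with `NearC (min δ ε₁) f₀ (polyOf c)` (`nearC_nhds`), `ε₁` from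
`onto_open`. `exists_eps_form` turns the eventual statement into `ε`; take the minimum with `ε₁`.
The curve is `polyOf c`.
-/

noncomputable section

open Topology

namespace Pool.Agent.H66.CY

variable {N d e : ℕ}

theorem deform {F₀ : MvPolynomial (Fin N) ℂ} (hF₀ : F₀.IsHomogeneous d)
    {f₀ : Fin N → Polynomial ℂ} (h : Unobst d e F₀ f₀) {δ : ℝ} (hδ : 0 < δ) :
    ∃ ε > 0, ∀ F : MvPolynomial (Fin N) ℂ, F.IsHomogeneous d → NearF ε F₀ F →
      ∃ f, NearC δ f₀ f ∧ Unobst d e F f := by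
  obtain ⟨ε₁, hε₁, ho⟩ := onto_open hF₀ h.deg h.onto
  have h0 : phi N d e (coefOf d F₀, coefC e f₀) = 0 := by
    rw [phi_eq_zero_iff, formOf_coefOf hF₀, polyOf_coefC h.deg]
    exact h.zero
  have hs : ∀ w : Fin (d * e + 1) → ℂ, ∃ v : Fin N → Fin (e + 1) → ℂ,
      HasDerivAt (fun s : ℂ => phi N d e (coefOf d F₀, coefC e f₀ + s • v)) w 0 := by
    intro w
    obtain ⟨p, hp, hpw⟩ := exists_interp (d * e) w
    obtain ⟨g, hg, hgp⟩ := h.onto p hp
    refine ⟨coefC e g, ?_⟩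
    have h1 := hasDerivAt_phi (coefOf d F₀) (coefC e f₀) (coefC e g)
    rw [formOf_coefOf hF₀, polyOf_coefC h.deg, polyOf_coefC hg, hgp] at h1
    have h2 : (fun k : Fin (d * e + 1) => p.eval (k : ℂ)) = w := funext hpw
    rw [h2] at h1
    exact h1
  have hU := nearC_nhds h.deg (lt_min hδ hε₁)
  have h1 := implicit (contDiff_phi N d e) h0 hs hU
  obtain ⟨ε₂, hε₂, h2⟩ := exists_eps_form h1
  refine ⟨min ε₁ ε₂, lt_min hε₁ hε₂, fun F hF hFF => ?_⟩
  obtain ⟨v, hv, hv0⟩ := h2 F fun m => (hFF m).trans_le (min_le_right _ _)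
  rw [phi_eq_zero_iff, formOf_coefOf hF] at hv0
  have hv' : NearC (min δ ε₁) f₀ (polyOf v) := hv
  refine ⟨polyOf v, fun i n => (hv' i n).trans_le (min_le_left _ _), h.one_le, degLE_polyOf v, hv0, ?_⟩
  exact ho F (polyOf v) hF (degLE_polyOf v) (fun m => (hFF m).trans_le (min_le_left _ _))
    (fun i n => (hv' i n).trans_le (min_le_right _ _))

/-- The same for finitely many curves. -/
theorem deform_all {ι : Type} [Finite ι] {e : ι → ℕ} {F₀ : MvPolynomial (Fin N) ℂ}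
    (hF₀ : F₀.IsHomogeneous d) {f₀ : ι → Fin N → Polynomial ℂ}
    (h : ∀ j, Unobst d (e j) F₀ (f₀ j)) {δ : ℝ} (hδ : 0 < δ) :
    ∃ ε > 0, ∀ F : MvPolynomial (Fin N) ℂ, F.IsHomogeneous d → NearF ε F₀ F →
      ∃ f : ι → Fin N → Polynomial ℂ, ∀ j, NearC δ (f₀ j) (f j) ∧ Unobst d (e j) F (f j) := by
  choose ε hε hd using fun j => deform hF₀ (h j) hδ
  have h1 : ∀ᶠ t in 𝓝[>] (0 : ℝ), ∀ j, t < ε j := by
    rw [Filter.eventually_all]
    intro j
    filter_upwards [Ioo_mem_nhdsGT (hε j)] with t ht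
    exact ht.2
  obtain ⟨t, ht, ht0⟩ := (h1.and self_mem_nhdsWithin).exists
  refine ⟨t, ht0, fun F hF hFF => ?_⟩
  choose f hf using fun j => hd j F hF fun m => (hFF m).trans (ht j)
  exact ⟨f, hf⟩

end Pool.Agent.H66.CY
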