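import Mathlib

/-!
# Unobstructed rational curves on hypersurfaces: definitions

A curve of degree `≤ e` in `ℙ^(N-1)` is a tuple `f : Fin N → ℂ[t]` of polynomials of degree `≤ e`
(a section of `O(e)^N` on the projective line; the point at infinity is given by the coefficients of
`t^e`).
-/

noncomputable section

namespace Pool.Agent.H66.CY

/-- All entries have degree at most `e`. -/
def DegLE {N : ℕ} (e : ℕ) (f : Fin N → Polynomial ℂ) : Prop := ∀ i, (f i).natDegree ≤ e

/-- The derivative of `f ↦ F(f)` at `f` in the direction `g`. -/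
def dsub {N : ℕ} (F : MvPolynomial (Fin N) ℂ) (f g : Fin N → Polynomial ℂ) : Polynomial ℂ :=
  ∑ i, MvPolynomial.aeval f (MvPolynomial.pderiv i F) * g i

/-- `g ↦ dF_f(g)` maps the tuples of degree `≤ e` onto the polynomials of degree `≤ d e`. -/
def Onto {N : ℕ} (d e : ℕ) (F : MvPolynomial (Fin N) ℂ) (f : Fin N → Polynomial ℂ) : Prop :=
  ∀ h : Polynomial ℂ, h.natDegree ≤ d * e → ∃ g : Fin N → Polynomial ℂ, DegLE e g ∧ dsub F f g = h

/-- `f` is an unobstructed rational curve of degree `e ≥ 1` in the hypersurface `F = 0` of degree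
`d`. -/
structure Unobst {N : ℕ} (d e : ℕ) (F : MvPolynomial (Fin N) ℂ) (f : Fin N → Polynomial ℂ) :
    Prop where
  one_le : 1 ≤ e
  deg : DegLE e f
  zero : MvPolynomial.aeval f F = 0
  onto : Onto d e F f

/-- A form of degree `k` that vanishes on all the curves `f j` is divisible by `F`. -/
def Detects {N : ℕ} {ι : Type} (k : ℕ) (F : MvPolynomial (Fin N) ℂ)
    (f : ι → Fin N → Polynomial ℂ) : Prop :=
  ∀ G : MvPolynomial (Fin N) ℂ, G.IsHomogeneous k → (∀ j, MvPolynomial.aeval (f j) G = 0) → F ∣ G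

/-- Finitely many unobstructed rational curves in `F = 0` detect the divisibility by `F` of forms of
degree `k`. -/
def Good {N : ℕ} (d k : ℕ) (F : MvPolynomial (Fin N) ℂ) : Prop :=
  ∃ (ι : Type) (_ : Finite ι) (e : ι → ℕ) (f : ι → Fin N → Polynomial ℂ),
    (∀ j, Unobst d (e j) F (f j)) ∧ Detects k F f

/-- The coefficients of `F` and `F₀` differ by less than `ε`. -/
def NearF {N : ℕ} (ε : ℝ) (F₀ F : MvPolynomial (Fin N) ℂ) : Prop :=
  ∀ m, ‖F.coeff m - F₀.coeff m‖ < ε

/-- The coefficients of the curves `f` and `f₀` differ by less than `ε`. -/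
def NearC {N : ℕ} (ε : ℝ) (f₀ f : Fin N → Polynomial ℂ) : Prop :=
  ∀ i n, ‖(f i).coeff n - (f₀ i).coeff n‖ < ε

/-- The coefficients of the form `F` of degree `d` are algebraically independent over `ℚ`. -/
def Generic {N : ℕ} (d : ℕ) (F : MvPolynomial (Fin N) ℂ) : Prop :=
  AlgebraicIndependent ℚ (fun m : {m : Fin N →₀ ℕ // m.degree = d} => F.coeff m.1)

section Fibres

variable {M : ℕ}

/-- Restriction of a polynomial in `x₀, x₁, …` to `x₀ = t x₁`. -/
def restr (t : ℂ) (P : MvPolynomial (Fin (M + 2)) ℂ) : MvPolynomial (Fin (M + 1)) ℂ :=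
  MvPolynomial.aeval (Fin.cons (MvPolynomial.C t * MvPolynomial.X 0) MvPolynomial.X) P

/-- The hypersurface `x₀ A - x₁ B = 0`. -/
def tot (A B : MvPolynomial (Fin (M + 2)) ℂ) : MvPolynomial (Fin (M + 2)) ℂ :=
  MvPolynomial.X 0 * A - MvPolynomial.X 1 * B

/-- Its fibre over `x₀ = t x₁`: `tot A B = x₁ (t A - B)` there. -/
def fib (t : ℂ) (A B : MvPolynomial (Fin (M + 2)) ℂ) : MvPolynomial (Fin (M + 1)) ℂ :=
  restr t (MvPolynomial.C t * A - B)

/-- The curve `(t f₀, f₀, f₁, …)`. -/
def lft (t : ℂ) (f : Fin (M + 1) → Polynomial ℂ) : Fin (M + 2) → Polynomial ℂ :=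
  Fin.cons (Polynomial.C t * f 0) f

/-- `a` (formal degree `p`) and `b` (formal degree `q`) have no common zero on the projective line,
infinity included. -/
def CoprimeForms (p q : ℕ) (a b : Polynomial ℂ) : Prop :=
  IsCoprime a b ∧ (a.coeff p ≠ 0 ∨ b.coeff q ≠ 0)

/-- Finitely many curves in the fibre over `t`, unobstructed in the fibre and in `tot A B`, detect
the divisibility by `fib t A B` of forms of degree `k`. -/
def FibGood (D k : ℕ) (t : ℂ) (A B : MvPolynomial (Fin (M + 2)) ℂ) : Prop :=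
  ∃ (ι : Type) (_ : Finite ι) (e : ι → ℕ) (f : ι → Fin (M + 1) → Polynomial ℂ),
    (∀ j, Unobst D (e j) (fib t A B) (f j) ∧ Unobst (D + 1) (e j) (tot A B) (lft t (f j))) ∧
      Detects k (fib t A B) f

end Fibres

end Pool.Agent.H66.CY
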