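import Pool.Agent.H66.CY.FibAlg

/-!
# One fibre

Row text. `restr t G = fib t A B * h₀`. With `H = rename Fin.succ h₀` (`restr_rename`) the polynomial
`X 1 * G - tot A B * H` is in the kernel of `restr t` (`restr_tot`; `X 1 = X (succ 0)`), which is the
ideal of `X 0 - C t * X 1` (`dvd_of_restr_eq_zero`: modulo `X 0 - C t * X 1` every polynomial `P` is
congruent to `rename Fin.succ (restr t P)`, by `MvPolynomial.induction_on`). So
`X 1 * G = tot A B * H + (X 0 - C t * X 1) * G'`; to get `G'` homogeneous of degree `k` take
homogeneous components of degree `k + 1`: replace `G'` by its component of degree `k` and `H` by the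
component of degree `k - D` (by `0` if `k < D`) (`MvPolynomial.homogeneousComponent`, the component of
degree `a + b` of `P * Q` with `P` homogeneous of degree `a` is `P` times the component of degree `b`
of `Q`; look for an existing lemma in the repository).
-/

noncomputable section

namespace Pool.Agent.H66.CY

variable {M D k : ℕ}

private theorem divA_congr (t : ℂ) (P : MvPolynomial (Fin (M + 2)) ℂ) :
    MvPolynomial.X 0 - MvPolynomial.C t * MvPolynomial.X 1 ∣
      P - MvPolynomial.rename Fin.succ (restr t P) := by
  induction P using MvPolynomial.induction_on with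
  | C a => rw [restr_C, MvPolynomial.rename_C, sub_self]; exact dvd_zero _
  | add P Q hP hQ =>
    have h : P + Q - MvPolynomial.rename Fin.succ (restr t (P + Q)) =
        (P - MvPolynomial.rename Fin.succ (restr t P)) +
          (Q - MvPolynomial.rename Fin.succ (restr t Q)) := by
      rw [restr_add, map_add]
      ring
    rw [h]
    exact dvd_add hP hQ
  | mul_X P i hP =>
    have hX : MvPolynomial.X 0 - MvPolynomial.C t * MvPolynomial.X 1 ∣
        MvPolynomial.X i - MvPolynomial.rename Fin.succ (restr t (MvPolynomial.X i)) := by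
      refine Fin.cases ?_ (fun j => ?_) i
      · rw [restr_X_zero, map_mul, MvPolynomial.rename_C, MvPolynomial.rename_X]
        exact dvd_refl _
      · rw [restr_X_succ, MvPolynomial.rename_X, sub_self]
        exact dvd_zero _
    have h : P * MvPolynomial.X i - MvPolynomial.rename Fin.succ (restr t (P * MvPolynomial.X i)) =
        (P - MvPolynomial.rename Fin.succ (restr t P)) * MvPolynomial.X i +
          MvPolynomial.rename Fin.succ (restr t P) *
            (MvPolynomial.X i - MvPolynomial.rename Fin.succ (restr t (MvPolynomial.X i))) := by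
      rw [restr_mul, map_mul]
      ring
    rw [h]
    exact dvd_add (hP.mul_right _) (hX.mul_left _)

theorem dvd_of_restr_eq_zero {t : ℂ} {P : MvPolynomial (Fin (M + 2)) ℂ} (h : restr t P = 0) :
    MvPolynomial.X 0 - MvPolynomial.C t * MvPolynomial.X 1 ∣ P := by
  have := divA_congr t P
  rwa [h, map_zero, sub_zero] at this

private theorem divA_comp {N : ℕ} {a b : ℕ} {P : MvPolynomial (Fin N) ℂ} (hP : P.IsHomogeneous a)
    (Q : MvPolynomial (Fin N) ℂ) : MvPolynomial.homogeneousComponent (a + b) (P * Q) =
      P * MvPolynomial.homogeneousComponent b Q := by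
  conv_lhs => rw [← MvPolynomial.sum_homogeneousComponent Q, Finset.mul_sum, map_sum]
  have h : ∀ i, MvPolynomial.homogeneousComponent (a + b)
      (P * MvPolynomial.homogeneousComponent i Q) =
      if i = b then P * MvPolynomial.homogeneousComponent b Q else 0 := by
    intro i
    rw [MvPolynomial.homogeneousComponent_of_mem (m := a + b) (n := a + i)
      ((MvPolynomial.mem_homogeneousSubmodule _ _).2
        (hP.mul (MvPolynomial.homogeneousComponent_isHomogeneous i Q)))]
    by_cases hi : i = b
    · subst hi; simp
    · rw [if_neg hi, if_neg (by omega)]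
  rw [Finset.sum_congr rfl fun i _ => h i, Finset.sum_ite_eq' ]
  split_ifs with hb
  · rfl
  · rw [MvPolynomial.homogeneousComponent_eq_zero _ _ (by simpa using hb), mul_zero]

private theorem divA_comp_lt {N : ℕ} {a n : ℕ} {P : MvPolynomial (Fin N) ℂ}
    (hP : P.IsHomogeneous a) (Q : MvPolynomial (Fin N) ℂ) (hn : n < a) :
    MvPolynomial.homogeneousComponent n (P * Q) = 0 := by
  conv_lhs => rw [← MvPolynomial.sum_homogeneousComponent Q, Finset.mul_sum, map_sum]
  refine Finset.sum_eq_zero fun i _ => ?_
  rw [MvPolynomial.homogeneousComponent_of_mem (m := n) (n := a + i)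
      ((MvPolynomial.mem_homogeneousSubmodule _ _).2
        (hP.mul (MvPolynomial.homogeneousComponent_isHomogeneous i Q))), if_neg (by omega)]

theorem exists_quot {t : ℂ} {A B G : MvPolynomial (Fin (M + 2)) ℂ} (hA : A.IsHomogeneous D)
    (hB : B.IsHomogeneous D) (hG : G.IsHomogeneous k) (h : fib t A B ∣ restr t G) :
    ∃ H G' : MvPolynomial (Fin (M + 2)) ℂ, G'.IsHomogeneous k ∧
      MvPolynomial.X 1 * G =
        tot A B * H + (MvPolynomial.X 0 - MvPolynomial.C t * MvPolynomial.X 1) * G' := by
  have h1 : (MvPolynomial.X 1 : MvPolynomial (Fin (M + 2)) ℂ) = MvPolynomial.X (Fin.succ 0) := rfl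
  obtain ⟨h₀, hh⟩ := h
  have h2 : restr t (MvPolynomial.X 1 * G - tot A B * MvPolynomial.rename Fin.succ h₀) = 0 := by
    rw [restr_sub, restr_mul, restr_mul, restr_tot, restr_rename, hh, h1, restr_X_succ]
    ring
  obtain ⟨Q, hQ⟩ := dvd_of_restr_eq_zero h2
  have h3 : MvPolynomial.X 1 * G = tot A B * MvPolynomial.rename Fin.succ h₀ +
      (MvPolynomial.X 0 - MvPolynomial.C t * MvPolynomial.X 1) * Q := by
    linear_combination hQ
  have hl : (MvPolynomial.X 0 - MvPolynomial.C t * MvPolynomial.X 1 :
      MvPolynomial (Fin (M + 2)) ℂ).IsHomogeneous 1 := by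
    refine MvPolynomial.IsHomogeneous.sub (MvPolynomial.isHomogeneous_X ℂ _) ?_
    have := (MvPolynomial.isHomogeneous_C (Fin (M + 2)) t).mul
      (MvPolynomial.isHomogeneous_X ℂ (1 : Fin (M + 2)))
    rwa [zero_add] at this
  have h4 := congrArg (MvPolynomial.homogeneousComponent (1 + k)) h3
  rw [map_add, divA_comp (MvPolynomial.isHomogeneous_X ℂ (1 : Fin (M + 2))) G, divA_comp hl Q,
    MvPolynomial.homogeneousComponent_eq_self hG] at h4
  rcases Nat.lt_or_ge k D with hk | hk
  · refine ⟨0, MvPolynomial.homogeneousComponent k Q,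
      MvPolynomial.homogeneousComponent_isHomogeneous k Q, ?_⟩
    rw [divA_comp_lt (isHomogeneous_tot hA hB) _ (by omega)] at h4
    rw [h4, mul_zero]
  · refine ⟨MvPolynomial.homogeneousComponent (k - D) (MvPolynomial.rename Fin.succ h₀),
      MvPolynomial.homogeneousComponent k Q,
      MvPolynomial.homogeneousComponent_isHomogeneous k Q, ?_⟩
    have h5 := divA_comp (b := k - D) (isHomogeneous_tot hA hB) (MvPolynomial.rename Fin.succ h₀)
    have h6 : D + 1 + (k - D) = 1 + k := by omega
    rw [h6] at h5
    rw [h4, h5]

end Pool.Agent.H66.CY
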