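import Pool.Agent.H66.CY.DivA

/-!
# Divisibility in many fibres gives divisibility

Row text. `F = tot A B`, `l_s = X 0 - C s * X 1`, `s ∈ T`. `exists_quot` gives
`X 1 * G = F * H_s + l_s * G_s` with `G_s` in the space `S` of forms of degree `k`
(`MvPolynomial.homogeneousSubmodule`). Since `T.card > finrank S` there are constants `c_s`, not all
zero, with `∑ c_s G_s = 0` (`Module.exists_nontrivial_relation_of_finrank_lt_card` or
`not_linearIndependent`). Multiply the `s`-th equation by `c_s ∏_{r ≠ s} l_r` and sum: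
`β * X 1 * G = F * (...)`, `β = ∑ c_s ∏_{r ≠ s} l_r`. Let `p = ∑ c_s ∏_{r ≠ s} (T - r)`, a polynomial in
one variable of degree `< T.card`, `p ≠ 0` (`p(s) = c_s ∏_{r ≠ s} (s - r)`). With
`hom n p = ∑ j ≤ n, C (p.coeff j) * X 0 ^ j * X 1 ^ (n - j)` one has `β = hom (T.card - 1) p` and
`hom (n + 1) ((T - r) * p) = l_r * hom n p`, so `F ∣ hom n p * G → F ∣ G` by induction on the degree of
`p` (a root `r` of `p`; for constant `p` only powers of `X 1` remain). None of these linear forms divides `F` (up to a constant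
it is `X 1` or `X 0 - C s * X 1`: `X 1 ∣ F` gives `X 1 ∣ X 0 * A`, `X 1 ∣ A`, and
`restr s F = X 0 * fib s A B ≠ 0`), and they are prime. So `F ∣ β * X 1 * G` gives `F ∣ G`, one factor
at a time: if `l` is prime, `¬ l ∣ F`, `F * Q = l * R`, then `l ∣ Q`.
-/

noncomputable section

namespace Pool.Agent.H66.CY

variable {M D k : ℕ}

/-- A linear form in `x₀, x₁`, not zero, is prime. -/
theorem prime_linear {a b : ℂ} (h : a ≠ 0 ∨ b ≠ 0) :
    Prime (MvPolynomial.C a * MvPolynomial.X 0 + MvPolynomial.C b * MvPolynomial.X 1 :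
      MvPolynomial (Fin (M + 2)) ℂ) := by
  set p : MvPolynomial (Fin (M + 2)) ℂ :=
    MvPolynomial.C a * MvPolynomial.X 0 + MvPolynomial.C b * MvPolynomial.X 1 with hp
  have h01 : (0 : Fin (M + 2)) ≠ 1 := by
    intro e
    have := congrArg Fin.val e
    simp at this
  have hp0 : p ≠ 0 := by
    intro h0
    rcases h with ha | hb
    · have := congrArg (MvPolynomial.eval (fun i : Fin (M + 2) => if i = 0 then (1 : ℂ) else 0)) h0
      rw [hp] at this
      simp [h01.symm] at this
      exact ha this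
    · have := congrArg (MvPolynomial.eval (fun i : Fin (M + 2) => if i = 1 then (1 : ℂ) else 0)) h0
      rw [hp] at this
      simp [h01] at this
      exact hb this
  have hhom : p.IsHomogeneous 1 := by
    refine MvPolynomial.IsHomogeneous.add ?_ ?_
    · have := (MvPolynomial.isHomogeneous_C (Fin (M + 2)) a).mul
        (MvPolynomial.isHomogeneous_X ℂ (0 : Fin (M + 2)))
      simpa using this
    · have := (MvPolynomial.isHomogeneous_C (Fin (M + 2)) b).mul
        (MvPolynomial.isHomogeneous_X ℂ (1 : Fin (M + 2)))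
      simpa using this
  have hdeg : p.totalDegree = 1 := hhom.totalDegree hp0
  have hunit : ∀ q : MvPolynomial (Fin (M + 2)) ℂ, q ≠ 0 → q.totalDegree = 0 → IsUnit q := by
    intro q hq0 hq
    rw [MvPolynomial.totalDegree_eq_zero_iff_eq_C] at hq
    rw [hq] at hq0 ⊢
    refine IsUnit.map MvPolynomial.C (isUnit_iff_ne_zero.2 fun h0 => hq0 ?_)
    rw [h0, map_zero]
  refine Irreducible.prime ⟨fun hu => ?_, fun q r hqr => ?_⟩
  · have := (MvPolynomial.isUnit_iff_totalDegree_of_isReduced.1 hu).2
    omega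
  · have hq0 : q ≠ 0 := by
      rintro rfl
      rw [zero_mul] at hqr
      exact hp0 hqr
    have hr0 : r ≠ 0 := by
      rintro rfl
      rw [mul_zero] at hqr
      exact hp0 hqr
    have hsum : q.totalDegree + r.totalDegree = 1 := by
      rw [← MvPolynomial.totalDegree_mul_of_isDomain hq0 hr0, ← hqr, hdeg]
    rcases Nat.eq_zero_or_pos q.totalDegree with h1 | h1
    · exact Or.inl (hunit q hq0 h1)
    · exact Or.inr (hunit r hr0 (by omega))

private theorem divB_cancel {R : Type*} [CommRing R] [IsDomain R] {F l Z : R} (hl : Prime l)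
    (h1 : ¬ l ∣ F) (h2 : F ∣ l * Z) : F ∣ Z := by
  obtain ⟨Q, hQ⟩ := h2
  have h3 : l ∣ F * Q := ⟨Z, hQ.symm⟩
  obtain ⟨Q', rfl⟩ := (hl.dvd_or_dvd h3).resolve_left h1
  refine ⟨Q', mul_left_cancel₀ hl.ne_zero ?_⟩
  rw [hQ]
  ring

/-- The form in `x₀, x₁` of degree `n` with the dehomogenisation `p`. -/
private def divB_hom (M n : ℕ) (p : Polynomial ℂ) : MvPolynomial (Fin (M + 2)) ℂ :=
  MvPolynomial.aeval ![MvPolynomial.X 0, MvPolynomial.X 1] (p.homogenize n)

private theorem divB_hom_mul {m n : ℕ} {p q : Polynomial ℂ} (hp : p.natDegree ≤ m)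
    (hq : q.natDegree ≤ n) :
    divB_hom M (m + n) (p * q) = divB_hom M m p * divB_hom M n q := by
  unfold divB_hom
  rw [Polynomial.homogenize_mul p q hp hq, map_mul]

private theorem divB_hom_one : divB_hom M 1 1 = MvPolynomial.X 1 := by
  unfold divB_hom
  rw [Polynomial.homogenize_one, map_pow, MvPolynomial.aeval_X]
  simp

private theorem divB_hom_X_sub_C (r : ℂ) : divB_hom M 1 (Polynomial.X - Polynomial.C r) =
    MvPolynomial.X 0 - MvPolynomial.C r * MvPolynomial.X 1 := by
  unfold divB_hom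
  rw [Polynomial.homogenize_sub, Polynomial.homogenize_X one_ne_zero, Polynomial.homogenize_C]
  simp

private theorem divB_induct {F : MvPolynomial (Fin (M + 2)) ℂ} (h1 : ¬ MvPolynomial.X 1 ∣ F)
    (h2 : ∀ s : ℂ, ¬ (MvPolynomial.X 0 - MvPolynomial.C s * MvPolynomial.X 1) ∣ F) (n : ℕ) :
    ∀ p : Polynomial ℂ, p ≠ 0 → p.natDegree ≤ n → ∀ Y, F ∣ divB_hom M n p * Y → F ∣ Y := by
  have p1 : Prime (MvPolynomial.X 1 : MvPolynomial (Fin (M + 2)) ℂ) := by
    have := prime_linear (M := M) (a := 0) (b := 1) (Or.inr one_ne_zero)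
    simpa using this
  have p2 : ∀ s : ℂ, Prime (MvPolynomial.X 0 - MvPolynomial.C s * MvPolynomial.X 1 :
      MvPolynomial (Fin (M + 2)) ℂ) := by
    intro s
    have := prime_linear (M := M) (a := 1) (b := -s) (Or.inl one_ne_zero)
    rwa [map_one, one_mul, map_neg, neg_mul, ← sub_eq_add_neg] at this
  induction n with
  | zero =>
    intro p hp hd Y hY
    have hpC : p = Polynomial.C (p.coeff 0) := Polynomial.eq_C_of_natDegree_eq_zero (by omega)
    have ha : p.coeff 0 ≠ 0 := by
      intro h0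
      rw [h0, map_zero] at hpC
      exact hp hpC
    have hh : divB_hom M 0 p = MvPolynomial.C (p.coeff 0) := by
      unfold divB_hom
      rw [hpC, Polynomial.homogenize_C]
      simp
    rw [hh] at hY
    have h3 : Y = MvPolynomial.C (p.coeff 0)⁻¹ * (MvPolynomial.C (p.coeff 0) * Y) := by
      rw [← mul_assoc, ← map_mul, inv_mul_cancel₀ ha, map_one, one_mul]
    rw [h3]
    exact hY.mul_left _
  | succ n ih =>
    intro p hp hd Y hY
    by_cases hn : p.natDegree ≤ n
    · have h3 : divB_hom M (n + 1) p = MvPolynomial.X 1 * divB_hom M n p := by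
        have := divB_hom_mul (M := M) (m := 1) (n := n) (p := 1) (q := p) (by simp) hn
        rw [one_mul, add_comm 1 n, divB_hom_one] at this
        exact this
      rw [h3, mul_assoc] at hY
      exact ih p hp hn Y (divB_cancel p1 h1 hY)
    · have hdeg : p.natDegree = n + 1 := by omega
      obtain ⟨r, hr⟩ : ∃ r, p.IsRoot r := by
        refine IsAlgClosed.exists_root p ?_
        rw [Polynomial.degree_eq_natDegree hp, hdeg]
        exact_mod_cast Nat.succ_ne_zero n
      obtain ⟨q, rfl⟩ := Polynomial.dvd_iff_isRoot.2 hr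
      have hq0 : q ≠ 0 := right_ne_zero_of_mul hp
      have hqd : q.natDegree ≤ n := by
        rw [Polynomial.natDegree_mul (Polynomial.X_sub_C_ne_zero r) hq0,
          Polynomial.natDegree_X_sub_C] at hdeg
        omega
      have h3 := divB_hom_mul (M := M) (m := 1) (n := n) (p := Polynomial.X - Polynomial.C r)
        (q := q) (by rw [Polynomial.natDegree_X_sub_C]) hqd
      rw [add_comm 1 n, divB_hom_X_sub_C] at h3
      rw [h3, mul_assoc] at hY
      exact ih q hq0 hqd Y (divB_cancel (p2 r) (h2 r) hY)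

private theorem divB_one : (MvPolynomial.X 1 : MvPolynomial (Fin (M + 2)) ℂ) =
    MvPolynomial.X (Fin.succ 0) := rfl

theorem div_of_fibres {A B G : MvPolynomial (Fin (M + 2)) ℂ} (hA : A.IsHomogeneous D)
    (hB : B.IsHomogeneous D) (hq : ∀ t, fib t A B ≠ 0) (hA1 : ¬ MvPolynomial.X 1 ∣ A)
    (hG : G.IsHomogeneous k) (T : Finset ℂ)
    (hT : Module.finrank ℂ (MvPolynomial.homogeneousSubmodule (Fin (M + 2)) ℂ k) < T.card)
    (h : ∀ t ∈ T, fib t A B ∣ restr t G) : tot A B ∣ G := by
  classical
  -- the linear forms do not divide `F`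
  have h01 : (0 : Fin (M + 2)) ≠ 1 := by
    intro e
    have := congrArg Fin.val e
    simp at this
  have p1 : Prime (MvPolynomial.X 1 : MvPolynomial (Fin (M + 2)) ℂ) := by
    have := prime_linear (M := M) (a := 0) (b := 1) (Or.inr one_ne_zero)
    simpa using this
  have n1 : ¬ MvPolynomial.X 1 ∣ tot A B := by
    intro hd
    unfold tot at hd
    have h3 : (MvPolynomial.X 1 : MvPolynomial (Fin (M + 2)) ℂ) ∣ MvPolynomial.X 0 * A :=
      (dvd_sub_left (dvd_mul_right _ _)).1 hd
    rcases p1.dvd_or_dvd h3 with h4 | h4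
    · obtain ⟨Q, hQ⟩ := h4
      have := congrArg (MvPolynomial.eval (fun i : Fin (M + 2) => if i = 0 then (1 : ℂ) else 0)) hQ
      simp [h01.symm] at this
    · exact hA1 h4
  have n2 : ∀ s : ℂ, ¬ (MvPolynomial.X 0 - MvPolynomial.C s * MvPolynomial.X 1) ∣ tot A B := by
    rintro s ⟨Q, hQ⟩
    have h3 := congrArg (restr s) hQ
    rw [restr_tot, restr_mul, restr_sub, restr_mul, restr_C, restr_X_zero, divB_one,
      restr_X_succ, sub_self, zero_mul] at h3
    rcases mul_eq_zero.1 h3 with h4 | h4
    · exact MvPolynomial.X_ne_zero _ h4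
    · exact hq s h4
  -- the linear relation
  choose! H G' hG' heq using fun s (hs : s ∈ T) => exists_quot hA hB hG (h s hs)
  set S := MvPolynomial.homogeneousSubmodule (Fin (M + 2)) ℂ k with hS
  have hfin : Module.Finite ℂ S :=
    Module.Finite.iff_fg.2 (MvPolynomial.homogeneousSubmodule_fg (Fin (M + 2)) ℂ k)
  set v : T → S := fun s => ⟨G' s, (MvPolynomial.mem_homogeneousSubmodule k _).2 (hG' s s.2)⟩
    with hv
  have hnl : ¬ LinearIndependent ℂ v := by
    intro hl
    have := hl.fintype_card_le_finrank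
    rw [Fintype.card_coe] at this
    omega
  obtain ⟨g, hg, s0, hs0⟩ := Fintype.not_linearIndependent_iff.1 hnl
  set c : ℂ → ℂ := fun s => if hs : s ∈ T then g ⟨s, hs⟩ else 0 with hc
  have hcg : ∀ s : T, c s = g s := by
    intro s
    simp [hc, s.2]
  have hrel : ∑ s ∈ T, MvPolynomial.C (c s) * G' s = 0 := by
    rw [← Finset.sum_coe_sort T (fun s => MvPolynomial.C (c s) * G' s)]
    have h3 := congrArg (Submodule.subtype S) hg
    rw [map_sum, map_zero] at h3
    rw [← h3]
    refine Finset.sum_congr rfl fun s _ => ?_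
    rw [hcg, map_smul, MvPolynomial.smul_eq_C_mul]
    rfl
  -- the polynomial
  set p : Polynomial ℂ := ∑ s ∈ T, Polynomial.C (c s) * ∏ r ∈ T.erase s,
    (Polynomial.X - Polynomial.C r) with hp
  have hp0 : p ≠ 0 := by
    intro h0
    have h3 := congrArg (Polynomial.eval (s0 : ℂ)) h0
    rw [hp, Polynomial.eval_finsetSum, Polynomial.eval_zero, Finset.sum_eq_single (s0 : ℂ)] at h3
    · rw [Polynomial.eval_mul, Polynomial.eval_C, Polynomial.eval_prod, mul_eq_zero] at h3
      rcases h3 with h4 | h4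
      · rw [hcg] at h4
        exact hs0 h4
      · obtain ⟨r, hr, hr0⟩ := Finset.prod_eq_zero_iff.1 h4
        rw [Polynomial.eval_sub, Polynomial.eval_X, Polynomial.eval_C, sub_eq_zero] at hr0
        exact (Finset.mem_erase.1 hr).1 hr0.symm
    · intro s _ hs
      rw [Polynomial.eval_mul, Polynomial.eval_prod]
      have : (∏ r ∈ T.erase s, Polynomial.eval (s0 : ℂ) (Polynomial.X - Polynomial.C r)) = 0 := by
        refine Finset.prod_eq_zero (Finset.mem_erase.2 ⟨hs.symm, s0.2⟩) ?_
        simp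
      rw [this, mul_zero]
    · intro hs
      exact absurd s0.2 hs
  have hpr : ∀ A : Finset ℂ, (∏ r ∈ A, (Polynomial.X - Polynomial.C r)).natDegree ≤ A.card ∧
      divB_hom M A.card (∏ r ∈ A, (Polynomial.X - Polynomial.C r)) =
        ∏ r ∈ A, (MvPolynomial.X 0 - MvPolynomial.C r * MvPolynomial.X 1) := by
    intro A
    induction A using Finset.induction_on with
    | empty =>
      refine ⟨by simp, ?_⟩
      unfold divB_hom
      simp
    | insert a A ha ih =>
      rw [Finset.prod_insert ha, Finset.prod_insert ha, Finset.card_insert_of_notMem ha]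
      constructor
      · refine Polynomial.natDegree_mul_le.trans ?_
        rw [Polynomial.natDegree_X_sub_C]
        omega
      · rw [add_comm A.card 1, divB_hom_mul (by rw [Polynomial.natDegree_X_sub_C]) ih.1, ih.2,
          divB_hom_X_sub_C]
  have hcard : ∀ s ∈ T, (T.erase s).card = T.card - 1 := fun s hs => Finset.card_erase_of_mem hs
  have hpd : p.natDegree ≤ T.card - 1 := by
    refine Polynomial.natDegree_sum_le_of_forall_le _ _ fun s hs => ?_
    refine (Polynomial.natDegree_C_mul_le _ _).trans ?_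
    rw [← hcard s hs]
    exact (hpr _).1
  have hbeta : divB_hom M (T.card - 1) p = ∑ s ∈ T, MvPolynomial.C (c s) *
      ∏ r ∈ T.erase s, (MvPolynomial.X 0 - MvPolynomial.C r * MvPolynomial.X 1) := by
    rw [hp]
    unfold divB_hom
    rw [Polynomial.homogenize_finsetSum, map_sum]
    refine Finset.sum_congr rfl fun s hs => ?_
    rw [Polynomial.homogenize_C_mul, map_mul, MvPolynomial.algHom_C, ← hcard s hs]
    have := (hpr (T.erase s)).2
    unfold divB_hom at this
    rw [this]
    rfl
  have hdvd : tot A B ∣ divB_hom M (T.card - 1) p * (MvPolynomial.X 1 * G) := by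
    refine ⟨∑ s ∈ T, MvPolynomial.C (c s) * (∏ r ∈ T.erase s,
      (MvPolynomial.X 0 - MvPolynomial.C r * MvPolynomial.X 1)) * H s, ?_⟩
    rw [hbeta, Finset.sum_mul, Finset.mul_sum]
    have h3 : ∑ s ∈ T, MvPolynomial.C (c s) * (∏ r ∈ T.erase s,
        (MvPolynomial.X 0 - MvPolynomial.C r * MvPolynomial.X 1)) *
        ((MvPolynomial.X 0 - MvPolynomial.C s * MvPolynomial.X 1) * G' s) = 0 := by
      have h4 : ∀ s ∈ T, MvPolynomial.C (c s) * (∏ r ∈ T.erase s,
          (MvPolynomial.X 0 - MvPolynomial.C r * MvPolynomial.X 1)) *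
          ((MvPolynomial.X 0 - MvPolynomial.C s * MvPolynomial.X 1) * G' s) =
          (∏ r ∈ T, (MvPolynomial.X 0 - MvPolynomial.C r * MvPolynomial.X 1)) *
            (MvPolynomial.C (c s) * G' s) := by
        intro s hs
        rw [← Finset.mul_prod_erase T _ hs]
        ring
      rw [Finset.sum_congr rfl h4, ← Finset.mul_sum, hrel, mul_zero]
    rw [← sub_eq_zero, ← Finset.sum_sub_distrib]
    rw [← h3]
    refine Finset.sum_congr rfl fun s hs => ?_
    rw [heq s hs]
    ring
  exact divB_cancel p1 n1 (divB_induct n1 n2 _ p hp0 hpd _ hdvd)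

end Pool.Agent.H66.CY
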