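import Pool.Agent.H66.CY.Defs

/-!
# Part E: sections of a pencil of cubics and rational curves on a quartic surface: definitions

`c3 = y z² - x³` is a cuspidal cubic with the smooth points `pt s = (s, s³, 1)`; `b3` and `c4` are
forms of degree three and four with `b3 (pt s) = ∏ (s - s_j)` over the nine numbers `sb j` and
`c4 (pt s) = b3 (pt s) * (s + 6) (s + 4) (s - 10)`.
-/

set_option autoImplicit false

noncomputable section

namespace Pool.Agent.H66.CY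

section Forms

variable {A : Type} [CommRing A]

/-- the scalar product -/
def dot (u v : Fin 3 → A) : A := u 0 * v 0 + u 1 * v 1 + u 2 * v 2

/-- the determinant -/
def det3 (u v w : Fin 3 → A) : A :=
  u 0 * (v 1 * w 2 - v 2 * w 1) - u 1 * (v 0 * w 2 - v 2 * w 0) + u 2 * (v 0 * w 1 - v 1 * w 0)

/-- the linear combination `α P + β Y` -/
def lin (α β : A) (P Y : Fin 3 → A) : Fin 3 → A := fun i => α * P i + β * Y i

/-- the point with the parameter `s` of the cuspidal cubic -/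
def pt (s : A) : Fin 3 → A := ![s, s ^ 3, 1]

/-- the cuspidal cubic -/
def c3 (v : Fin 3 → A) : A := v 1 * v 2 ^ 2 - v 0 ^ 3

/-- the second cubic of the pencil -/
def b3 (v : Fin 3 → A) : A :=
  v 1 ^ 3 - 370 * (v 0 * v 1 ^ 2) - 20 * (v 1 ^ 2 * v 2) + 47973 * (v 0 ^ 2 * v 1)
    - 1660 * (v 0 * v 1 * v 2) - 2520180 * (v 1 * v 2 ^ 2) + 1152720 * (v 0 ^ 2 * v 2)
    + 42970176 * (v 0 * v 2 ^ 2) - 71850240 * v 2 ^ 3

/-- the quartic form -/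
def c4 (v : Fin 3 → A) : A :=
  v 1 ^ 4 - 446 * (v 0 * v 1 ^ 3) - 260 * (v 1 ^ 3 * v 2) + 76093 * (v 0 ^ 2 * v 1 ^ 2)
    + 88660 * (v 0 * v 1 ^ 2 * v 2) - 6161328 * (v 1 ^ 2 * v 2 ^ 2)
    - 10234640 * (v 0 ^ 2 * v 1 * v 2) + 234902256 * (v 0 * v 1 * v 2 ^ 2)
    + 445386240 * (v 1 * v 2 ^ 3) - 3542386176 * (v 0 ^ 2 * v 2 ^ 2)
    - 4852224000 * (v 0 * v 2 ^ 3) + 17244057600 * v 2 ^ 4

/-- the gradient of `c3` -/
def c3g (v : Fin 3 → A) : Fin 3 → A := ![-3 * v 0 ^ 2, v 2 ^ 2, 2 * (v 1 * v 2)]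

/-- the gradient of `b3` -/
def b3g (v : Fin 3 → A) : Fin 3 → A :=
  ![-370 * v 1 ^ 2 + 95946 * (v 0 * v 1) - 1660 * (v 1 * v 2) + 2305440 * (v 0 * v 2)
      + 42970176 * v 2 ^ 2,
    3 * v 1 ^ 2 - 740 * (v 0 * v 1) - 40 * (v 1 * v 2) + 47973 * v 0 ^ 2 - 1660 * (v 0 * v 2)
      - 2520180 * v 2 ^ 2,
    -20 * v 1 ^ 2 - 1660 * (v 0 * v 1) - 5040360 * (v 1 * v 2) + 1152720 * v 0 ^ 2
      + 85940352 * (v 0 * v 2) - 215550720 * v 2 ^ 2]

/-- the gradient of `c4` -/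
def c4g (v : Fin 3 → A) : Fin 3 → A :=
  ![-446 * v 1 ^ 3 + 152186 * (v 0 * v 1 ^ 2) + 88660 * (v 1 ^ 2 * v 2)
      - 20469280 * (v 0 * v 1 * v 2) + 234902256 * (v 1 * v 2 ^ 2) - 7084772352 * (v 0 * v 2 ^ 2)
      - 4852224000 * v 2 ^ 3,
    4 * v 1 ^ 3 - 1338 * (v 0 * v 1 ^ 2) - 780 * (v 1 ^ 2 * v 2) + 152186 * (v 0 ^ 2 * v 1)
      + 177320 * (v 0 * v 1 * v 2) - 12322656 * (v 1 * v 2 ^ 2) - 10234640 * (v 0 ^ 2 * v 2)
      + 234902256 * (v 0 * v 2 ^ 2) + 445386240 * v 2 ^ 3,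
    -260 * v 1 ^ 3 + 88660 * (v 0 * v 1 ^ 2) - 12322656 * (v 1 ^ 2 * v 2)
      - 10234640 * (v 0 ^ 2 * v 1) + 469804512 * (v 0 * v 1 * v 2) + 1336158720 * (v 1 * v 2 ^ 2)
      - 7084772352 * (v 0 ^ 2 * v 2) - 14556672000 * (v 0 * v 2 ^ 2) + 68976230400 * v 2 ^ 3]

/-- the pencil `K_t = t c3 + b3` -/
def Kt (t : A) (v : Fin 3 → A) : A := t * c3 v + b3 v

/-- its gradient -/
def Kg (t : A) (v : Fin 3 → A) : Fin 3 → A := fun i => t * c3g v i + b3g v i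

/-- `∇ c3 × ∇ b3 = Jb s • pt s` at `pt s`, where `b3 (pt s) = 0` -/
def Jb (s : A) : A := c3g (pt s) 0 * b3g (pt s) 1 - c3g (pt s) 1 * b3g (pt s) 0

/-- `∇ c3 × ∇ c4 = Jc s • pt s` at `pt s`, where `c4 (pt s) = 0` -/
def Jc (s : A) : A := c3g (pt s) 0 * c4g (pt s) 1 - c3g (pt s) 1 * c4g (pt s) 0

end Forms

/-- the parameters of the nine base points of the pencil -/
def sb : Fin 9 → ℤ := ![-12, -7, -10, -9, 2, 4, 9, 11, 12]

/-- `φ - φ₂ • pt s = ε • (a, b, 0)` with `a`, `b` coprime -/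
structure Mult (φ : Fin 3 → Polynomial ℂ) (s : ℂ) (ε a b : Polynomial ℂ) : Prop where
  eq0 : φ 0 = Polynomial.C s * φ 2 + ε * a
  eq1 : φ 1 = Polynomial.C s ^ 3 * φ 2 + ε * b
  cop : IsCoprime a b

/-- A section of degree `e` of the pencil of cubics, `K_t(φ(t)) = 0`, with the value `pt σ` at
infinity, which is not a base point. -/
structure Sec (e : ℕ) (σ : ℂ) (φ : Fin 3 → Polynomial ℂ) : Prop where
  one_le : 1 ≤ e
  deg : ∀ i, (φ i).natDegree ≤ e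
  lead : (φ 2).coeff e ≠ 0
  lead0 : (φ 0).coeff e = σ * (φ 2).coeff e
  lead1 : (φ 1).coeff e = σ ^ 3 * (φ 2).coeff e
  prim : ∀ τ, ∃ i, (φ i).eval τ ≠ 0
  eqn : Kt Polynomial.X φ = 0
  nb : ∀ j, σ ≠ sb j

/-- the intersection number of the section with the `j`-th base point is `m` -/
def HasM (φ : Fin 3 → Polynomial ℂ) (j : Fin 9) (m : ℕ) : Prop :=
  ∃ ε a b, Mult φ (sb j) ε a b ∧ ε.natDegree = m

/-- the quartic surface -/
def qq : MvPolynomial (Fin 4) ℂ :=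
  MvPolynomial.X 3 * c3 ![MvPolynomial.X 0, MvPolynomial.X 1, MvPolynomial.X 2] +
    c4 ![MvPolynomial.X 0, MvPolynomial.X 1, MvPolynomial.X 2]

/-- the vector `∇ c4(φ) - δ ∇ c3(φ)` -/
def vv (φ : Fin 3 → Polynomial ℂ) (δ : Polynomial ℂ) : Fin 3 → Polynomial ℂ :=
  fun i => c4g φ i - δ * c3g φ i

/-- `(a, b, 0) × pt s` times `η`, up to the sign -/
def Dd (s : ℂ) (a b : Polynomial ℂ) (η : Fin 3 → Polynomial ℂ) : Polynomial ℂ :=
  a * (η 1 - Polynomial.C s ^ 3 * η 2) - b * (η 0 - Polynomial.C s * η 2)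

/-- The data of a rational curve of degree `e` on a quartic surface `q = 0` such that the image of
the derivative is the kernel of `lam`. -/
structure CurveData (q : MvPolynomial (Fin 4) ℂ) (e : ℕ) (f : Fin 4 → Polynomial ℂ)
    (lam : Polynomial ℂ →ₗ[ℂ] ℂ) : Prop where
  one_le : 1 ≤ e
  deg : DegLE e f
  zero : MvPolynomial.aeval f q = 0
  onto : ∀ h : Polynomial ℂ, h.natDegree ≤ 4 * e → lam h = 0 →
    ∃ g : Fin 4 → Polynomial ℂ, DegLE e g ∧ dsub q f g = h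
  lead : (f 0).coeff e ≠ 0
  copr : ∀ z, ∃ i : Fin 3, (f i.castSucc).eval z ≠ 0
  det : ∀ k, 4 * k < e → ∀ G : MvPolynomial (Fin 4) ℂ, G.IsHomogeneous k →
    MvPolynomial.aeval f G = 0 → q ∣ G

end Pool.Agent.H66.CY
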