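import Pool.Agent.H66.CY.E0

/-! Identities for the forms `c3`, `b3`, `c4` (Euler, Taylor, values at the points `pt s`). -/

set_option autoImplicit false

namespace Pool.Agent.H66.CY

variable {A : Type} [CommRing A]

theorem c3_pt (s : A) : c3 (pt s) = 0 := by
  simp only [c3, pt, Matrix.cons_val_zero, Matrix.cons_val_one, Matrix.cons_val]
  ring

theorem b3_pt (s : A) : b3 (pt s) = ∏ j, (s - (sb j : A)) := by
  simp only [b3, pt, sb, Fin.prod_univ_succ, Fin.prod_univ_zero, Matrix.cons_val_zero,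
    Matrix.cons_val_one, Matrix.cons_val, Matrix.cons_val_succ]
  push_cast
  ring

theorem c4_pt (s : A) : c4 (pt s) = (∏ j, (s - (sb j : A))) * ((s + 6) * (s + 4) * (s - 10)) := by
  simp only [c4, pt, sb, Fin.prod_univ_succ, Fin.prod_univ_zero, Matrix.cons_val_zero,
    Matrix.cons_val_one, Matrix.cons_val, Matrix.cons_val_succ]
  push_cast
  ring

theorem c3_euler (v : Fin 3 → A) : dot (c3g v) v = 3 * c3 v := by
  simp only [dot, c3g, c3, Matrix.cons_val_zero, Matrix.cons_val_one, Matrix.cons_val]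
  ring

theorem b3_euler (v : Fin 3 → A) : dot (b3g v) v = 3 * b3 v := by
  simp only [dot, b3g, b3, Matrix.cons_val_zero, Matrix.cons_val_one, Matrix.cons_val]
  ring

theorem c4_euler (v : Fin 3 → A) : dot (c4g v) v = 4 * c4 v := by
  simp only [dot, c4g, c4, Matrix.cons_val_zero, Matrix.cons_val_one, Matrix.cons_val]
  ring

theorem c3_lin (α β : A) (P Y : Fin 3 → A) : c3 (lin α β P Y) =
    α ^ 3 * c3 P + α ^ 2 * β * dot (c3g P) Y + α * β ^ 2 * dot (c3g Y) P + β ^ 3 * c3 Y := by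
  simp only [lin, dot, c3g, c3, Matrix.cons_val_zero, Matrix.cons_val_one, Matrix.cons_val]
  ring

theorem b3_lin (α β : A) (P Y : Fin 3 → A) : b3 (lin α β P Y) =
    α ^ 3 * b3 P + α ^ 2 * β * dot (b3g P) Y + α * β ^ 2 * dot (b3g Y) P + β ^ 3 * b3 Y := by
  simp only [lin, dot, b3g, b3, Matrix.cons_val_zero, Matrix.cons_val_one, Matrix.cons_val]
  ring

theorem Kt_lin (t α β : A) (P Y : Fin 3 → A) : Kt t (lin α β P Y) =
    α ^ 3 * Kt t P + α ^ 2 * β * dot (Kg t P) Y + α * β ^ 2 * dot (Kg t Y) P + β ^ 3 * Kt t Y := by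
  unfold Kt
  rw [c3_lin, b3_lin]
  simp only [dot, Kg]
  ring

theorem Kt_euler (t : A) (v : Fin 3 → A) : dot (Kg t v) v = 3 * Kt t v := by
  have h1 := c3_euler v
  have h2 := b3_euler v
  simp only [dot, Kg, Kt] at *
  linear_combination t * h1 + h2

/-- the Taylor expansion of `c4` -/
theorem c4_lin (α β : A) (P Y : Fin 3 → A) : c4 (lin α β P Y) =
    α ^ 4 * c4 P + α ^ 3 * β * dot (c4g P) Y +
      α ^ 2 * β ^ 2 * (c4 (lin 1 1 P Y) - c4 P - dot (c4g P) Y - dot (c4g Y) P - c4 Y) +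
      α * β ^ 3 * dot (c4g Y) P + β ^ 4 * c4 Y := by
  simp only [lin, dot, c4g, c4, Matrix.cons_val_zero, Matrix.cons_val_one, Matrix.cons_val]
  ring

section Map

variable {B : Type} [CommRing B] (f : A →+* B) (v w : Fin 3 → A)

theorem map_dot : f (dot v w) = dot (fun i => f (v i)) (fun i => f (w i)) := by
  simp [dot]

theorem map_c3 : f (c3 v) = c3 (fun i => f (v i)) := by
  simp [c3]

theorem map_b3 : f (b3 v) = b3 (fun i => f (v i)) := by
  simp [b3, map_ofNat]

theorem map_c4 : f (c4 v) = c4 (fun i => f (v i)) := by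
  simp [c4, map_ofNat]

theorem map_c3g (i : Fin 3) : f (c3g v i) = c3g (fun i => f (v i)) i := by
  fin_cases i <;> simp [c3g, map_ofNat]

theorem map_b3g (i : Fin 3) : f (b3g v i) = b3g (fun i => f (v i)) i := by
  fin_cases i <;> simp [b3g, map_ofNat]

theorem map_c4g (i : Fin 3) : f (c4g v i) = c4g (fun i => f (v i)) i := by
  fin_cases i <;> simp [c4g, map_ofNat]

theorem map_pt (s : A) : (fun i => f (pt s i)) = pt (f s) := by
  funext i
  fin_cases i <;> simp [pt]

theorem map_Kt (t : A) : f (Kt t v) = Kt (f t) (fun i => f (v i)) := by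
  simp [Kt, map_c3, map_b3]

theorem map_Kg (t : A) (i : Fin 3) : f (Kg t v i) = Kg (f t) (fun i => f (v i)) i := by
  simp [Kg, map_c3g, map_b3g]

end Map

theorem c3g_smul (α : A) (P : Fin 3 → A) (i : Fin 3) :
    c3g (fun j => α * P j) i = α ^ 2 * c3g P i := by
  fin_cases i <;> simp [c3g] <;> ring

theorem b3g_smul (α : A) (P : Fin 3 → A) (i : Fin 3) :
    b3g (fun j => α * P j) i = α ^ 2 * b3g P i := by
  fin_cases i <;> simp [b3g] <;> ring

theorem c4g_smul (α : A) (P : Fin 3 → A) (i : Fin 3) :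
    c4g (fun j => α * P j) i = α ^ 3 * c4g P i := by
  fin_cases i <;> simp [c4g] <;> ring

private theorem e0b_quot (α β : A) (P Y : Fin 3 → A) :
    (fun i => Ideal.Quotient.mk (Ideal.span {β}) (lin α β P Y i)) =
      fun i => Ideal.Quotient.mk (Ideal.span {β}) α * Ideal.Quotient.mk (Ideal.span {β}) (P i) := by
  funext i
  rw [← map_mul, Ideal.Quotient.eq, Ideal.mem_span_singleton]
  exact ⟨Y i, by simp [lin]⟩

theorem c3g_lin (α β : A) (P Y : Fin 3 → A) (i : Fin 3) :
    β ∣ c3g (lin α β P Y) i - α ^ 2 * c3g P i := by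
  rw [← Ideal.mem_span_singleton, ← Ideal.Quotient.eq, map_c3g, e0b_quot, c3g_smul, map_mul,
    map_pow, map_c3g]

theorem b3g_lin (α β : A) (P Y : Fin 3 → A) (i : Fin 3) :
    β ∣ b3g (lin α β P Y) i - α ^ 2 * b3g P i := by
  rw [← Ideal.mem_span_singleton, ← Ideal.Quotient.eq, map_b3g, e0b_quot, b3g_smul, map_mul,
    map_pow, map_b3g]

theorem c4g_lin (α β : A) (P Y : Fin 3 → A) (i : Fin 3) :
    β ∣ c4g (lin α β P Y) i - α ^ 3 * c4g P i := by
  rw [← Ideal.mem_span_singleton, ← Ideal.Quotient.eq, map_c4g, e0b_quot, c4g_smul, map_mul,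
    map_pow, map_c4g]

section Poly

open Polynomial

variable (φ : Fin 3 → ℂ[X])

theorem deriv_c3 : derivative (c3 φ) = dot (c3g φ) (fun i => derivative (φ i)) := by
  simp only [c3, c3g, dot, derivative_sub, derivative_mul, derivative_pow,
    Matrix.cons_val_zero, Matrix.cons_val_one, Matrix.cons_val]
  simp [map_ofNat]
  ring

theorem deriv_b3 : derivative (b3 φ) = dot (b3g φ) (fun i => derivative (φ i)) := by
  simp only [b3, b3g, dot, derivative_sub, derivative_add, derivative_mul, derivative_pow,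
    Matrix.cons_val_zero, Matrix.cons_val_one, Matrix.cons_val, derivative_ofNat]
  simp [map_ofNat]
  ring

theorem deriv_c4 : derivative (c4 φ) = dot (c4g φ) (fun i => derivative (φ i)) := by
  simp only [c4, c4g, dot, derivative_sub, derivative_add, derivative_mul, derivative_pow,
    Matrix.cons_val_zero, Matrix.cons_val_one, Matrix.cons_val, derivative_ofNat]
  simp [map_ofNat]
  ring

theorem eval_c3 (τ : ℂ) : (c3 φ).eval τ = c3 (fun i => (φ i).eval τ) := map_c3 (evalRingHom τ) φ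

theorem eval_b3 (τ : ℂ) : (b3 φ).eval τ = b3 (fun i => (φ i).eval τ) := map_b3 (evalRingHom τ) φ

theorem eval_c4 (τ : ℂ) : (c4 φ).eval τ = c4 (fun i => (φ i).eval τ) := map_c4 (evalRingHom τ) φ

theorem eval_dot (ψ : Fin 3 → ℂ[X]) (τ : ℂ) :
    (dot φ ψ).eval τ = dot (fun i => (φ i).eval τ) (fun i => (ψ i).eval τ) :=
  map_dot (evalRingHom τ) φ ψ

theorem eval_Kg (t : ℂ[X]) (τ : ℂ) (i : Fin 3) :
    (Kg t φ i).eval τ = Kg (t.eval τ) (fun i => (φ i).eval τ) i := map_Kg (evalRingHom τ) φ t i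

end Poly

end Pool.Agent.H66.CY
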