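import Pool.Agent.H66.CY.E1a

/-!
The factorisation of `c3 φ` and the sum of the multiplicities.
* `pair`: at a common zero `τ` of `ε i`, `ε j`: `φ 0 = s_i φ 2 = s_j φ 2`, so `φ 2 (τ) = 0` (`sb_inj`), then
  all `φ i (τ) = 0`.
* `c3_deg`: `b3 φ = - X * c3 φ` (`eqn`), and the coefficient of `X ^ (3 e)` of `b3 φ` is
  `b3` of the vector of the coefficients of `X ^ e`, which is `ζ ^ 3 * b3 (pt σ) ≠ 0`, `ζ = (φ 2).coeff e`
  (`b3_ne`); so `b3 φ` has degree `3 e` (prove: for each monomial `φ i * φ j * φ k` of degree three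
  `coeff_mul_of_natDegree_le`). The same for `c3 φ ≠ 0`.
* `factor`: `∏ ε j ∣ c3 φ` (pairwise coprime, `c3_eq`; `Finset.prod_dvd_of_coprime`), `c3 φ = γ * ∏ ε j`;
  `γ` has no zero: at a zero `τ`, `c3 (φ(τ)) = 0` and `b3 (φ(τ)) = - τ c3 (φ(τ)) = 0`, so by
  `base_of_zero` `φ(τ)` is a multiple of `pt s_j`, so `ε j * a = ε j * b = 0` at `τ` and `ε j (τ) = 0`; by
  `c3_eq` `γ * ∏_{i ≠ j} ε i = z² N₃·Y + ε j r`, which is not zero at `τ` (`cop_z`, `cop_N3`). So `γ` is a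
  nonzero constant.
* `sum_m`: degrees.
-/

set_option autoImplicit false

open Polynomial

namespace Pool.Agent.H66.CY

variable {e : ℕ} {σ : ℂ} {φ : Fin 3 → ℂ[X]} {ε a b : Fin 9 → ℂ[X]}

theorem pair (h : Sec e σ φ) (hm : ∀ j, Mult φ (sb j) (ε j) (a j) (b j)) {i j : Fin 9}
    (hij : i ≠ j) : IsCoprime (ε i) (ε j) := by
  apply cop_of
  intro τ
  by_contra hc
  push Not at hc
  obtain ⟨h1, h2⟩ := hc
  have e1 := congrArg (Polynomial.eval τ) (hm i).eq0
  have e2 := congrArg (Polynomial.eval τ) (hm j).eq0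
  have e3 := congrArg (Polynomial.eval τ) (hm i).eq1
  simp only [eval_add, eval_mul, eval_pow, eval_C, h1, h2, zero_mul, add_zero] at e1 e2 e3
  have h3 : (φ 2).eval τ = 0 := by
    have h4 : ((sb i : ℂ) - sb j) * (φ 2).eval τ = 0 := by linear_combination e2 - e1
    rcases mul_eq_zero.mp h4 with h5 | h5
    · exact absurd (sb_inj (sub_eq_zero.mp h5)) hij
    · exact h5
  rw [h3, mul_zero] at e1 e3
  obtain ⟨k, hk⟩ := h.prim τ
  apply hk
  fin_cases k
  · exact e1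
  · exact e3
  · exact h3

/-- `p` has degree at most `n` and the coefficient of `X ^ n` is `c` -/
private def E1D (n : ℕ) (p : ℂ[X]) (c : ℂ) : Prop := p.natDegree ≤ n ∧ p.coeff n = c

private theorem e1_mul {m n : ℕ} {p q : ℂ[X]} {c d : ℂ} (hp : E1D m p c) (hq : E1D n q d) :
    E1D (m + n) (p * q) (c * d) := by
  refine ⟨natDegree_mul_le_of_le hp.1 hq.1, ?_⟩
  rw [coeff_mul_add_eq_of_natDegree_le hp.1 hq.1, hp.2, hq.2]

private theorem e1_add {n : ℕ} {p q : ℂ[X]} {c d : ℂ} (hp : E1D n p c) (hq : E1D n q d) :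
    E1D n (p + q) (c + d) :=
  ⟨natDegree_add_le_of_degree_le hp.1 hq.1, by rw [coeff_add, hp.2, hq.2]⟩

private theorem e1_sub {n : ℕ} {p q : ℂ[X]} {c d : ℂ} (hp : E1D n p c) (hq : E1D n q d) :
    E1D n (p - q) (c - d) :=
  ⟨(natDegree_sub_le p q).trans (max_le hp.1 hq.1), by rw [coeff_sub, hp.2, hq.2]⟩

private theorem e1_C {n : ℕ} {p : ℂ[X]} {c : ℂ} (k : ℂ) (hp : E1D n p c) :
    E1D n (C k * p) (k * c) :=
  ⟨(natDegree_C_mul_le k p).trans hp.1, by rw [coeff_C_mul, hp.2]⟩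

private theorem e1_pow {n : ℕ} {p : ℂ[X]} {c : ℂ} (k : ℕ) (hp : E1D n p c) :
    E1D (k * n) (p ^ k) (c ^ k) :=
  ⟨natDegree_pow_le_of_le k hp.1, by rw [coeff_pow_of_natDegree_le hp.1, hp.2]⟩

private theorem e1_b3 {n : ℕ} (hφ : ∀ i, (φ i).natDegree ≤ n) :
    E1D (3 * n) (b3 φ) (b3 (fun i => (φ i).coeff n)) := by
  have h0 : ∀ i, E1D n (φ i) ((φ i).coeff n) := fun i => ⟨hφ i, rfl⟩
  have h3 : ∀ i, E1D (3 * n) (φ i ^ 3) ((φ i).coeff n ^ 3) := fun i => e1_pow 3 (h0 i)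
  have h12 : ∀ i j, E1D (3 * n) (φ i * φ j ^ 2) ((φ i).coeff n * (φ j).coeff n ^ 2) := by
    intro i j
    have h1 := e1_mul (h0 i) (e1_pow 2 (h0 j))
    have h2 : n + 2 * n = 3 * n := by ring
    rw [h2] at h1
    exact h1
  have h21 : ∀ i j, E1D (3 * n) (φ i ^ 2 * φ j) ((φ i).coeff n ^ 2 * (φ j).coeff n) := by
    intro i j
    have h1 := e1_mul (e1_pow 2 (h0 i)) (h0 j)
    have h2 : 2 * n + n = 3 * n := by ring
    rw [h2] at h1
    exact h1
  have h111 : ∀ i j k, E1D (3 * n) (φ i * φ j * φ k)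
      ((φ i).coeff n * (φ j).coeff n * (φ k).coeff n) := by
    intro i j k
    have h1 := e1_mul (e1_mul (h0 i) (h0 j)) (h0 k)
    have h2 : n + n + n = 3 * n := by ring
    rw [h2] at h1
    exact h1
  have h4 := e1_sub (e1_add (e1_add (e1_sub (e1_sub (e1_add (e1_sub (e1_sub (h3 1)
    (e1_C 370 (h12 0 1))) (e1_C 20 (h21 1 2))) (e1_C 47973 (h21 0 1)))
    (e1_C 1660 (h111 0 1 2))) (e1_C 2520180 (h12 1 2))) (e1_C 1152720 (h21 0 2)))
    (e1_C 42970176 (h12 0 2))) (e1_C 71850240 (h3 2))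
  simp only [map_ofNat] at h4
  exact h4

private theorem e1_top (h : Sec e σ φ) : b3 (fun i => (φ i).coeff e) ≠ 0 := by
  have h1 : b3 (fun i => (φ i).coeff e) = (φ 2).coeff e ^ 3 * b3 (pt σ) := by
    simp only [b3, pt, h.lead0, h.lead1, Matrix.cons_val_zero, Matrix.cons_val_one,
      Matrix.cons_val]
    ring
  rw [h1]
  exact mul_ne_zero (pow_ne_zero 3 h.lead) (b3_ne h.nb)

private theorem e1_b3c3 (h : Sec e σ φ) : b3 φ = -X * c3 φ := by
  have h1 := h.eqn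
  unfold Kt at h1
  linear_combination h1

theorem c3_deg (h : Sec e σ φ) : c3 φ ≠ 0 ∧ (c3 φ).natDegree + 1 = 3 * e := by
  have hb := e1_b3 h.deg
  have ht := e1_top h
  have h1 := e1_b3c3 h
  have h2 : b3 φ ≠ 0 := by
    intro h3
    rw [h3] at hb
    exact ht (by rw [← hb.2, coeff_zero])
  have h3 : c3 φ ≠ 0 := by
    intro h4
    rw [h4, mul_zero] at h1
    exact h2 h1
  have h4 : (b3 φ).natDegree = 3 * e := by
    apply le_antisymm hb.1
    apply le_natDegree_of_ne_zero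
    rw [hb.2]
    exact ht
  refine ⟨h3, ?_⟩
  rw [← h4, h1, neg_mul, natDegree_neg, natDegree_X_mul h3]

private theorem e1_eps_zero {s : ℂ} {η p q : ℂ[X]} (hm : Mult φ s η p q) {τ : ℂ}
    (h0 : (φ 0).eval τ = s * (φ 2).eval τ) (h1 : (φ 1).eval τ = s ^ 3 * (φ 2).eval τ) :
    η.eval τ = 0 := by
  have e1 := congrArg (Polynomial.eval τ) hm.eq0
  have e2 := congrArg (Polynomial.eval τ) hm.eq1
  simp only [eval_add, eval_mul, eval_pow, eval_C] at e1 e2
  obtain ⟨u, v, huv⟩ := hm.cop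
  have e3 := congrArg (Polynomial.eval τ) huv
  simp only [eval_add, eval_mul, eval_one] at e3
  have e4 : η.eval τ * p.eval τ = 0 := by linear_combination h0 - e1
  have e5 : η.eval τ * q.eval τ = 0 := by linear_combination h1 - e2
  linear_combination (- η.eval τ) * e3 + u.eval τ * e4 + v.eval τ * e5

theorem factor (h : Sec e σ φ) (hm : ∀ j, Mult φ (sb j) (ε j) (a j) (b j)) :
    ∃ γ : ℂ, γ ≠ 0 ∧ c3 φ = C γ * ∏ j, ε j := by
  have hd : ∏ j, ε j ∣ c3 φ := by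
    apply Finset.prod_dvd_of_coprime
    · intro i _ j _ hij
      exact pair h hm hij
    · intro j _
      obtain ⟨r, hr⟩ := c3_eq (hm j)
      rw [hr]
      exact dvd_mul_right _ _
  obtain ⟨g, hg⟩ := hd
  have h0 := (c3_deg h).1
  have hz : ∀ τ, g.eval τ ≠ 0 := by
    intro τ hτ
    have h1 : (c3 φ).eval τ = 0 := by rw [hg, eval_mul, hτ, mul_zero]
    have h2 : (b3 φ).eval τ = 0 := by rw [e1_b3c3 h, eval_mul, h1, mul_zero]
    rw [eval_c3] at h1
    rw [eval_b3] at h2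
    obtain ⟨h3, j, h4, h5⟩ := base_of_zero (h.prim τ) h1 h2
    have h6 := e1_eps_zero (hm j) h4 h5
    obtain ⟨r, hr⟩ := c3_eq (hm j)
    have h7 : g * ∏ i ∈ Finset.univ.erase j, ε i =
        φ 2 ^ 2 * dot (c3g (pt (C (sb j : ℂ)))) ![a j, b j, 0] + ε j * r := by
      apply mul_left_cancel₀ (mult_ne h (hm j))
      rw [← hr, hg, ← Finset.mul_prod_erase Finset.univ ε (Finset.mem_univ j)]
      ring
    have h8 := congrArg (Polynomial.eval τ) h7
    simp only [eval_add, eval_mul, eval_pow, hτ, h6, zero_mul, add_zero] at h8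
    obtain ⟨u, v, huv⟩ := cop_N3 h (hm j)
    have h9 := congrArg (Polynomial.eval τ) huv
    simp only [eval_add, eval_mul, eval_one, h6, mul_zero, add_zero] at h9
    rcases mul_eq_zero.mp h8.symm with h10 | h10
    · exact h3 (pow_eq_zero_iff (two_ne_zero) |>.mp h10)
    · rw [h10, mul_zero] at h9
      exact zero_ne_one h9
  have hd : g.degree = 0 := by
    by_contra hne
    obtain ⟨τ, hτ⟩ := IsAlgClosed.exists_root g hne
    exact hz τ hτ
  obtain ⟨γ, hγ⟩ : ∃ γ, g = C γ := ⟨g.coeff 0, eq_C_of_degree_eq_zero hd⟩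
  refine ⟨γ, ?_, ?_⟩
  · intro h1
    apply h0
    rw [hg, hγ, h1, C_0, mul_zero]
  · rw [hg, hγ, mul_comm]

theorem sum_m (h : Sec e σ φ) (hm : ∀ j, Mult φ (sb j) (ε j) (a j) (b j)) :
    ∑ j, (ε j).natDegree + 1 = 3 * e := by
  obtain ⟨γ, hγ, hf⟩ := factor h hm
  rw [← (c3_deg h).2, hf, natDegree_C_mul hγ, natDegree_prod]
  intro j _
  exact mult_ne h (hm j)

end Pool.Agent.H66.CY
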