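import Pool.Agent.H66.CY.E1n

/-!
Local facts at one base point `s = sb j`. Put `P = pt (C s)`, `Y = (a, b, 0)`, `z = φ 2`; `Mult` says
`φ = lin z ε P Y`. `IsCoprime` in `ℂ[X]` = no common zero (`Polynomial.isCoprime_of_...` or
`IsCoprime` via `isCoprime_iff_...`; prove once: `(∀ τ, p.eval τ ≠ 0 ∨ q.eval τ ≠ 0) → IsCoprime p q`,
lemma `cop_of`).
* `mult_ne`: if `ε = 0` then `φ 0 = C s * φ 2`, coefficients of `X ^ e`: `σ = s`, against `nb`.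
* `cop_z`: a common zero of `z` and `ε` is a zero of all `φ i`, against `prim`.
* `k1_dvd`: `0 = Kt X φ = z² ε k₁ + z ε² k₂ + ε³ k₃` (`Kt_lin`, `Kt X P = 0` by `c3_pt`, `b3_sb`), cancel
  `ε`; `ε ∣ z² k₁`.
* `cop_N3`: let `τ` be a common zero of `ε` and `N₃ · Y`. By `k1_dvd`, `(τ N₃ + N_b) · Y(τ) = 0`, so
  `N_b · Y(τ) = 0`; the two linear forms are independent on `(a(τ), b(τ)) ≠ 0` because `Jb s ≠ 0`.
* `c3_eq`: `c3_lin` with `c3 P = 0`.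
-/

set_option autoImplicit false

open Polynomial

namespace Pool.Agent.H66.CY

variable {e : ℕ} {σ : ℂ} {φ : Fin 3 → ℂ[X]} {j : Fin 9} {ε a b : ℂ[X]}

theorem cop_of {p q : ℂ[X]} (h : ∀ τ, p.eval τ ≠ 0 ∨ q.eval τ ≠ 0) : IsCoprime p q := by
  rw [Polynomial.isCoprime_iff_aeval_ne_zero_of_isAlgClosed (k := ℂ) (K := ℂ)]
  intro τ
  simpa using h τ

private theorem e1a_cop {p q : ℂ[X]} (h : IsCoprime p q) (τ : ℂ) (hp : p.eval τ = 0)
    (hq : q.eval τ = 0) : False := by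
  obtain ⟨u, v, huv⟩ := h
  have := congrArg (eval τ) huv
  simp [hp, hq] at this

private theorem e1a_K {s : ℂ} (hb : b3 (pt s) = 0) : Kt X (pt (C s : ℂ[X])) = 0 := by
  have h1 : b3 (pt (C s : ℂ[X])) = 0 := by
    have h2 := map_b3 (C : ℂ →+* ℂ[X]) (pt s)
    rw [map_pt, hb, map_zero] at h2
    exact h2.symm
  rw [Kt, c3_pt, h1, mul_zero, add_zero]

theorem Mult.eq_lin {s : ℂ} (h : Mult φ s ε a b) : φ = lin (φ 2) ε (pt (C s)) ![a, b, 0] := by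
  funext i
  fin_cases i
  · simp only [lin, pt, Fin.zero_eta, Matrix.cons_val_zero]
    rw [h.eq0]
    ring
  · simp only [lin, pt, Fin.mk_one, Matrix.cons_val_one, Matrix.cons_val_zero]
    rw [h.eq1]
    ring
  · simp [lin, pt]

theorem mult_ne (h : Sec e σ φ) (hm : Mult φ (sb j) ε a b) : ε ≠ 0 := by
  intro h0
  have h1 := hm.eq0
  rw [h0, zero_mul, add_zero] at h1
  have h2 := congrArg (fun p => coeff p e) h1
  simp only [coeff_C_mul] at h2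
  rw [h.lead0] at h2
  exact h.nb j (mul_right_cancel₀ h.lead h2)

theorem cop_z (h : Sec e σ φ) (hm : Mult φ (sb j) ε a b) : IsCoprime (φ 2) ε := by
  refine cop_of fun τ => ?_
  by_contra hc
  push Not at hc
  obtain ⟨hz, hε⟩ := hc
  obtain ⟨i, hi⟩ := h.prim τ
  fin_cases i
  · apply hi
    simp [hm.eq0, hz, hε]
  · apply hi
    simp [hm.eq1, hz, hε]
  · exact hi hz

theorem k1_dvd (h : Sec e σ φ) (hm : Mult φ (sb j) ε a b) :
    ε ∣ dot (Kg X (pt (C (sb j : ℂ)))) ![a, b, 0] := by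
  have h1 := h.eqn
  rw [hm.eq_lin, Kt_lin, e1a_K (b3_sb j)] at h1
  have h2 : ε * (φ 2 ^ 2 * dot (Kg X (pt (C (sb j : ℂ)))) ![a, b, 0] +
      ε * (φ 2 * dot (Kg X ![a, b, 0]) (pt (C (sb j : ℂ))) + ε * Kt X ![a, b, 0])) = 0 := by
    linear_combination h1
  have h3 := (mul_eq_zero.1 h2).resolve_left (mult_ne h hm)
  have h4 : ε ∣ φ 2 ^ 2 * dot (Kg X (pt (C (sb j : ℂ)))) ![a, b, 0] :=
    ⟨-(φ 2 * dot (Kg X ![a, b, 0]) (pt (C (sb j : ℂ))) + ε * Kt X ![a, b, 0]), by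
      linear_combination h3⟩
  exact ((cop_z h hm).symm.pow_right).dvd_of_dvd_mul_left h4

theorem cop_N3 (h : Sec e σ φ) (hm : Mult φ (sb j) ε a b) :
    IsCoprime (dot (c3g (pt (C (sb j : ℂ)))) ![a, b, 0]) ε := by
  refine cop_of fun τ => ?_
  by_contra hc
  push Not at hc
  obtain ⟨h1, h2⟩ := hc
  obtain ⟨r, hr⟩ := k1_dvd h hm
  have h3 := congrArg (eval τ) hr
  rw [eval_mul, h2, zero_mul] at h3
  have hJ := Jb_pt j
  have e3 : (dot (c3g (pt (C (sb j : ℂ)))) ![a, b, 0]).eval τ =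
      c3g (pt (sb j : ℂ)) 0 * a.eval τ + c3g (pt (sb j : ℂ)) 1 * b.eval τ := by
    simp [dot, c3g, pt]
  have eK : (dot (Kg X (pt (C (sb j : ℂ)))) ![a, b, 0]).eval τ =
      τ * (c3g (pt (sb j : ℂ)) 0 * a.eval τ + c3g (pt (sb j : ℂ)) 1 * b.eval τ) +
      (b3g (pt (sb j : ℂ)) 0 * a.eval τ + b3g (pt (sb j : ℂ)) 1 * b.eval τ) := by
    simp [dot, c3g, b3g, Kg, pt]
    ring
  rw [e3] at h1
  rw [eK, h1] at h3
  have ha : Jb (sb j : ℂ) * a.eval τ = 0 := by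
    unfold Jb
    linear_combination b3g (pt (sb j : ℂ)) 1 * h1 - c3g (pt (sb j : ℂ)) 1 * h3
  have hb : Jb (sb j : ℂ) * b.eval τ = 0 := by
    unfold Jb
    linear_combination c3g (pt (sb j : ℂ)) 0 * h3 - b3g (pt (sb j : ℂ)) 0 * h1
  exact e1a_cop hm.cop τ ((mul_eq_zero.1 ha).resolve_left hJ) ((mul_eq_zero.1 hb).resolve_left hJ)

theorem c3_eq (hm : Mult φ (sb j) ε a b) :
    ∃ r, c3 φ = ε * (φ 2 ^ 2 * dot (c3g (pt (C (sb j : ℂ)))) ![a, b, 0] + ε * r) := by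
  refine ⟨φ 2 * dot (c3g ![a, b, 0]) (pt (C (sb j : ℂ))) + ε * c3 ![a, b, 0], ?_⟩
  have h1 := c3_lin (φ 2) ε (pt (C (sb j : ℂ))) ![a, b, 0]
  rw [← hm.eq_lin, c3_pt] at h1
  rw [h1]
  ring

end Pool.Agent.H66.CY
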