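import Pool.Agent.H66.CY.E0b

/-!
Numerical facts (over `ℂ`; the numbers are integers: `norm_num`, `decide` over `Fin 9`, `Int.cast`).
`Jc_pt`, `Jb_pt`, `Jc_six`: `fin_cases j`, unfold `Jc`, `c3g`, `c4g`, `pt`, `sb`, `norm_num`.
`base_of_zero`: if `v 2 = 0` then `v 0 = 0` by `c3 v = 0` and `b3 v = (v 1) ^ 3`, so `v = 0`. Otherwise
put `s = v 0 / v 2`; `v 1 = s ^ 3 v 2`, so `v = v 2 • pt s` and `b3 v = (v 2) ^ 3 b3 (pt s)`, use
`b3_pt`.
-/

set_option autoImplicit false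

namespace Pool.Agent.H66.CY

theorem sb_inj {i j : Fin 9} (h : (sb i : ℂ) = sb j) : i = j := by
  have key : ∀ i j : Fin 9, sb i = sb j → i = j := by decide
  exact key i j (by exact_mod_cast h)

theorem no_triple (i j k : Fin 9) : (sb i : ℂ) + sb j + sb k ≠ 0 := by
  have key : ∀ i j k : Fin 9, sb i + sb j + sb k ≠ 0 := by decide
  intro h
  apply key i j k
  exact_mod_cast h

theorem Jc_pt (j : Fin 9) : Jc (sb j : ℂ) ≠ 0 := by
  simp only [Jc, c3g, c4g, pt, Matrix.cons_val_zero, Matrix.cons_val_one, Matrix.cons_val]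
  fin_cases j <;> norm_num [sb]

theorem Jc_six : Jc (-6 : ℂ) ≠ 0 := by
  simp only [Jc, c3g, c4g, pt, Matrix.cons_val_zero, Matrix.cons_val_one, Matrix.cons_val]
  norm_num

theorem Jb_pt (j : Fin 9) : Jb (sb j : ℂ) ≠ 0 := by
  simp only [Jb, c3g, b3g, pt, Matrix.cons_val_zero, Matrix.cons_val_one, Matrix.cons_val]
  fin_cases j <;> norm_num [sb]

theorem b3_sb (j : Fin 9) : b3 (pt (sb j : ℂ)) = 0 := by
  rw [b3_pt]
  exact Finset.prod_eq_zero (Finset.mem_univ j) (sub_self _)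

theorem c4_sb (j : Fin 9) : c4 (pt (sb j : ℂ)) = 0 := by
  rw [c4_pt, Finset.prod_eq_zero (Finset.mem_univ j) (sub_self _), zero_mul]

theorem c4_six : c4 (pt (-6 : ℂ)) = 0 := by
  rw [c4_pt]
  norm_num

theorem b3_ne {σ : ℂ} (h : ∀ j, σ ≠ sb j) : b3 (pt σ) ≠ 0 := by
  rw [b3_pt]
  exact Finset.prod_ne_zero_iff.2 fun j _ => sub_ne_zero.2 (h j)

theorem base_of_zero {v : Fin 3 → ℂ} (hv : ∃ i, v i ≠ 0) (h3 : c3 v = 0) (hb : b3 v = 0) :
    v 2 ≠ 0 ∧ ∃ j, v 0 = sb j * v 2 ∧ v 1 = sb j ^ 3 * v 2 := by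
  have h2 : v 2 ≠ 0 := by
    intro h2
    have h0 : v 0 = 0 := by
      unfold c3 at h3
      rw [h2] at h3
      have : v 0 ^ 3 = 0 := by linear_combination -h3
      exact pow_eq_zero_iff (by norm_num) |>.1 this
    have h1 : v 1 = 0 := by
      unfold b3 at hb
      rw [h2, h0] at hb
      have : v 1 ^ 3 = 0 := by linear_combination hb
      exact pow_eq_zero_iff (by norm_num) |>.1 this
    obtain ⟨i, hi⟩ := hv
    fin_cases i
    · exact hi h0
    · exact hi h1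
    · exact hi h2
  refine ⟨h2, ?_⟩
  have e0 : v 0 = v 0 / v 2 * v 2 := by field_simp
  have e1 : v 1 = (v 0 / v 2) ^ 3 * v 2 := by
    unfold c3 at h3
    field_simp
    linear_combination h3
  have e2 : b3 v = v 2 ^ 3 * b3 (pt (v 0 / v 2)) := by
    have e3 : v = fun i => v 2 * pt (v 0 / v 2) i := by
      funext i
      fin_cases i
      · change v 0 = v 2 * (v 0 / v 2)
        rw [mul_comm]
        exact e0
      · change v 1 = v 2 * (v 0 / v 2) ^ 3
        rw [mul_comm]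
        exact e1
      · change v 2 = v 2 * 1
        rw [mul_one]
    have e4 : ∀ (U : ℂ) (P : Fin 3 → ℂ), b3 (fun i => U * P i) = U ^ 3 * b3 P := by
      intro U P
      simp only [b3]
      ring
    conv_lhs => rw [e3]
    rw [e4]
  rw [hb] at e2
  have e5 : b3 (pt (v 0 / v 2)) = 0 := (mul_eq_zero.1 e2.symm).resolve_left (pow_ne_zero 3 h2)
  rw [b3_pt, Finset.prod_eq_zero_iff] at e5
  obtain ⟨j, -, hj⟩ := e5
  have e6 : v 0 / v 2 = sb j := sub_eq_zero.1 hj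
  rw [e6] at e0 e1
  exact ⟨j, e0, e1⟩

end Pool.Agent.H66.CY
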