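import Pool.Agent.H66.CY.E1n

/-!
No member of the pencil contains a line through a base point. Let `s = sb j`, `Y = (a, b, 0) ≠ 0`. If
`a = 0`: `α = 0`, `β = 1`: `Kt τ Y = b ^ 3 ≠ 0`. Otherwise put `c = b / a` and let `s'`, `s''` be the roots
of `u² + s u + s² - c`, so `s' + s'' = - s` (exists: `IsAlgClosed.exists_pow_nat_eq` for the square root
of the discriminant). `s' ^ 3 = s ^ 3 + c (s' - s)`, so `pt s' = lin 1 ((s' - s) / a) (pt s) Y` and
`0 = Kt τ (pt s') = ∏ (s' - s_i)` (`c3_pt`, `b3_pt`): `s' = s_i`, the same `s'' = s_k`, and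
`s_j + s_i + s_k = 0` contradicts `no_triple`.
-/

set_option autoImplicit false

namespace Pool.Agent.H66.CY

theorem line {τ : ℂ} {j : Fin 9} {Y : Fin 3 → ℂ} (hY2 : Y 2 = 0) (hY : ∃ i, Y i ≠ 0)
    (h : ∀ α β : ℂ, Kt τ (lin α β (pt (sb j : ℂ)) Y) = 0) : False := by
  by_cases ha : Y 0 = 0
  · have hb : Y 1 ≠ 0 := by
      obtain ⟨i, hi⟩ := hY
      fin_cases i
      · exact absurd ha hi
      · exact hi
      · exact absurd hY2 hi
    have h1 := h 0 1
    have e1 : lin 0 1 (pt (sb j : ℂ)) Y = Y := by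
      funext i
      simp [lin]
    rw [e1] at h1
    unfold Kt c3 b3 at h1
    rw [ha, hY2] at h1
    apply hb
    have : Y 1 ^ 3 = 0 := by linear_combination h1
    exact pow_eq_zero_iff (by norm_num) |>.1 this
  · set s : ℂ := (sb j : ℂ) with hs
    set c : ℂ := Y 1 / Y 0 with hc
    have hcY : Y 1 = c * Y 0 := by
      rw [hc]
      field_simp
    -- a square root of the discriminant
    obtain ⟨w, hw⟩ := IsAlgClosed.exists_pow_nat_eq (4 * c - 3 * s ^ 2) (n := 2) (by norm_num)
    have key : ∀ u : ℂ, u ^ 2 + s * u + s ^ 2 - c = 0 → ∃ i, u = sb i := by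
      intro u hu
      have e1 : lin 1 ((u - s) / Y 0) (pt s) Y = pt u := by
        funext i
        fin_cases i
        · change 1 * s + (u - s) / Y 0 * Y 0 = u
          field_simp
          ring
        · change 1 * s ^ 3 + (u - s) / Y 0 * Y 1 = u ^ 3
          rw [hcY]
          field_simp
          linear_combination -(u - s) * hu
        · change 1 * 1 + (u - s) / Y 0 * Y 2 = 1
          rw [hY2]
          ring
      have h1 := h 1 ((u - s) / Y 0)
      rw [e1] at h1
      unfold Kt at h1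
      rw [c3_pt, mul_zero, zero_add, b3_pt, Finset.prod_eq_zero_iff] at h1
      obtain ⟨i, -, hi⟩ := h1
      exact ⟨i, sub_eq_zero.1 hi⟩
    obtain ⟨i, hi⟩ := key ((-s + w) / 2) (by linear_combination hw / 4)
    obtain ⟨k, hk⟩ := key ((-s - w) / 2) (by linear_combination hw / 4)
    apply no_triple j i k
    rw [← hi, ← hk, ← hs]
    ring

end Pool.Agent.H66.CY
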