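import Pool.Agent.H66.CY.E1
import Pool.Agent.H66.CY.E2a

/-!
The third point of the line through `pt s_i` and `φ(t)`. `s = s_i`, `P = pt (C s)`, `Y = (a, b, 0)`,
`z = φ 2`, `m = ε.natDegree`, `ζ = z.coeff e`, `E = ε.leadingCoeff`.
* `k₁ = ∇K(P)·Y = ε ε'` (`k1_dvd`). From `0 = Kt X φ = ε (z² k₁ + z ε k₂ + ε² k₃)`: `z ∣ ε² k₃`, so `k₃ = z u`
  (`cop_z`), and cancelling `z ε`: `k₂ = - (z ε' + ε u)`.
* degrees: `φ 0 - C s * z = ε a` has degree `e` and leading coefficient `ζ (σ - s)`, so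
  `a.natDegree = e - m` with leading coefficient `ζ (σ - s) / E`, and `b` has degree `≤ e - m` and
  `b.coeff (e - m) = ζ (σ³ - s³) / E`. `k₃ = - X a³ + b3 Y`, `b3 Y = b ^ 3 - 370 a b² + 47973 a² b`: degree
  `1 + 3 (e - m)`; so `u` has the degree `e' = 1 + 3 (e - m) - e` and `u.coeff e' = - ζ² (σ - s)³ / E³`.
  `k₁ = X (- 3 s² a + b) + ∇b3(P)·Y` has degree `1 + e - m` with leading coefficient
  `ζ (σ - s)² (σ + 2 s) / E` (`σ + 2 s ≠ 0` because `- σ - s ≠ s`), so `ε'` has degree `1 + e - 2 m` and leading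
  coefficient `ζ (σ - s)² (σ + 2 s) / E²`. So the coefficient of `X ^ e'` of `φ' = u P + ε' Y` is
  `u.coeff e' • pt (- σ - s)` (short calculation with `ring`).
-/

set_option autoImplicit false

open Polynomial

namespace Pool.Agent.H66.CY

variable {e : ℕ} {σ : ℂ} {φ : Fin 3 → ℂ[X]} {i : Fin 9} {ε a b : ℂ[X]}

/-- the degrees and leading coefficients of `a` and `b` -/
private theorem e2c_ab (h : Sec e σ φ) (hm : Mult φ (sb i) ε a b) :
    a.natDegree + ε.natDegree = e ∧ b.natDegree ≤ a.natDegree ∧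
      ε.leadingCoeff * a.leadingCoeff = (φ 2).coeff e * (σ - sb i) ∧
      ε.leadingCoeff * b.coeff a.natDegree = (φ 2).coeff e * (σ ^ 3 - (sb i : ℂ) ^ 3) := by
  have hε := mult_ne h hm
  have hs : σ - (sb i : ℂ) ≠ 0 := sub_ne_zero.2 (h.nb i)
  have e0 : ε * a = φ 0 - C (sb i : ℂ) * φ 2 := by rw [hm.eq0]; ring
  have e1 : ε * b = φ 1 - C ((sb i : ℂ) ^ 3) * φ 2 := by rw [hm.eq1, C_pow]; ring
  have d0 : (ε * a).natDegree ≤ e := by
    rw [e0]
    refine (natDegree_sub_le _ _).trans (max_le (h.deg 0) ?_)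
    exact (natDegree_C_mul_le _ _).trans (h.deg 2)
  have d1 : (ε * b).natDegree ≤ e := by
    rw [e1]
    refine (natDegree_sub_le _ _).trans (max_le (h.deg 1) ?_)
    exact (natDegree_C_mul_le _ _).trans (h.deg 2)
  have c0 : (ε * a).coeff e = (φ 2).coeff e * (σ - sb i) := by
    rw [e0, coeff_sub, coeff_C_mul, h.lead0]
    ring
  have c1 : (ε * b).coeff e = (φ 2).coeff e * (σ ^ 3 - (sb i : ℂ) ^ 3) := by
    rw [e1, coeff_sub, coeff_C_mul, h.lead1]
    ring
  have c0' : (ε * a).coeff e ≠ 0 := by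
    rw [c0]
    exact mul_ne_zero h.lead hs
  have n0 : (ε * a).natDegree = e := le_antisymm d0 (le_natDegree_of_ne_zero c0')
  have ha : a ≠ 0 := by
    rintro rfl
    simp at c0'
  have n1 : a.natDegree + ε.natDegree = e := by
    rw [← n0, natDegree_mul hε ha, add_comm]
  have hb : b.natDegree ≤ a.natDegree := by
    by_cases hb0 : b = 0
    · rw [hb0, natDegree_zero]
      exact Nat.zero_le _
    · rw [natDegree_mul hε hb0] at d1
      omega
  refine ⟨n1, hb, ?_, ?_⟩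
  · rw [← c0, ← n0, coeff_natDegree, leadingCoeff_mul]
  · rw [← c1, ← n1, add_comm a.natDegree, coeff_mul_add_eq_of_natDegree_le le_rfl hb, coeff_natDegree]

/-- the leading term of `k₃` -/
private theorem e2c_k3 {n : ℕ} (ha : a.natDegree ≤ n) (hb : b.natDegree ≤ n) :
    (Kt X ![a, b, 0]).natDegree ≤ 3 * n + 1 ∧
      (Kt X ![a, b, 0]).coeff (3 * n + 1) = -a.coeff n ^ 3 := by
  have e1 : Kt X ![a, b, 0] = -(X * (a * (a * a))) +
      (b * (b * b) - 370 * (a * (b * b)) + 47973 * (a * (a * b))) := by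
    simp only [Kt, c3, b3, Matrix.cons_val_zero, Matrix.cons_val_one, Matrix.cons_val]
    ring
  have hd : ∀ p q r : ℂ[X], p.natDegree ≤ n → q.natDegree ≤ n → r.natDegree ≤ n →
      (p * (q * r)).natDegree ≤ 3 * n := by
    intro p q r hp hq hr
    have := natDegree_mul_le (p := p) (q := q * r)
    have := natDegree_mul_le (p := q) (q := r)
    omega
  have hc : ∀ (c : ℂ) (p : ℂ[X]), p.natDegree ≤ 3 * n → (C c * p).natDegree ≤ 3 * n := fun c p hp =>
    (natDegree_C_mul_le c p).trans hp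
  have e370 : (370 : ℂ[X]) = C 370 := (map_ofNat C 370).symm
  have e479 : (47973 : ℂ[X]) = C 47973 := (map_ofNat C 47973).symm
  have h2 : (b * (b * b) - 370 * (a * (b * b)) + 47973 * (a * (a * b))).natDegree ≤ 3 * n := by
    rw [e370, e479]
    refine (natDegree_add_le _ _).trans (max_le ((natDegree_sub_le _ _).trans (max_le ?_ ?_)) ?_)
    · exact hd _ _ _ hb hb hb
    · exact hc _ _ (hd _ _ _ ha hb hb)
    · exact hc _ _ (hd _ _ _ ha ha hb)
  have h3 : (X * (a * (a * a))).natDegree ≤ 3 * n + 1 := by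
    have := natDegree_mul_le (p := (X : ℂ[X])) (q := a * (a * a))
    have := hd _ _ _ ha ha ha
    rw [natDegree_X] at *
    omega
  constructor
  · rw [e1]
    refine (natDegree_add_le _ _).trans (max_le ?_ (h2.trans (by omega)))
    rw [natDegree_neg]
    exact h3
  · rw [e1, coeff_add, coeff_neg, coeff_X_mul,
      coeff_eq_zero_of_natDegree_lt (lt_of_le_of_lt h2 (by omega)), add_zero]
    have h4 : (a * (a * a)).coeff (n + (n + n)) = a.coeff n * (a.coeff n * a.coeff n) := by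
      rw [coeff_mul_add_eq_of_natDegree_le ha (by
        have := natDegree_mul_le (p := a) (q := a)
        omega), coeff_mul_add_eq_of_natDegree_le ha ha]
    rw [show 3 * n = n + (n + n) by ring, h4]
    ring

/-- the leading term of `k₁` -/
private theorem e2c_k1 {n : ℕ} {s : ℂ} (ha : a.natDegree ≤ n) (hb : b.natDegree ≤ n) :
    (dot (Kg X (pt (C s))) ![a, b, 0]).natDegree ≤ n + 1 ∧
      (dot (Kg X (pt (C s))) ![a, b, 0]).coeff (n + 1) = -3 * s ^ 2 * a.coeff n + b.coeff n := by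
  obtain ⟨β0, h0⟩ : ∃ β : ℂ, b3g (pt (C s)) 0 = C β := by
    refine ⟨b3g (pt s) 0, ?_⟩
    rw [map_b3g, map_pt]
  obtain ⟨β1, h1⟩ : ∃ β : ℂ, b3g (pt (C s)) 1 = C β := by
    refine ⟨b3g (pt s) 1, ?_⟩
    rw [map_b3g, map_pt]
  have e1 : dot (Kg X (pt (C s))) ![a, b, 0] =
      X * (C (-3 * s ^ 2) * a + b) + (C β0 * a + C β1 * b) := by
    simp only [dot, Kg, h0, h1]
    simp only [c3g, pt, Matrix.cons_val_zero, Matrix.cons_val_one, Matrix.cons_val, C_mul, C_neg,
      C_pow, map_ofNat]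
    ring
  have h2 : (C β0 * a + C β1 * b).natDegree ≤ n :=
    (natDegree_add_le _ _).trans (max_le ((natDegree_C_mul_le _ _).trans ha)
      ((natDegree_C_mul_le _ _).trans hb))
  have h3 : (C (-3 * s ^ 2) * a + b).natDegree ≤ n :=
    (natDegree_add_le _ _).trans (max_le ((natDegree_C_mul_le _ _).trans ha) hb)
  constructor
  · rw [e1]
    refine (natDegree_add_le _ _).trans (max_le ?_ (h2.trans (by omega)))
    have := natDegree_mul_le (p := (X : ℂ[X])) (q := C (-3 * s ^ 2) * a + b)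
    rw [natDegree_X] at this
    omega
  · rw [e1, coeff_add, coeff_X_mul, coeff_add, coeff_C_mul,
      coeff_eq_zero_of_natDegree_lt (lt_of_le_of_lt h2 (by omega)), add_zero]

private theorem e2c_b3_smul (U : ℂ) (P : Fin 3 → ℂ) : b3 (fun i => U * P i) = U ^ 3 * b3 P := by
  simp only [b3]
  ring

/-- the factor of the product of two polynomials with a known leading term -/
private theorem e2c_quot {p q r : ℂ[X]} {m n : ℕ} (h : p * q = r) (hp : p.natDegree = m)
    (hr : r.natDegree ≤ m + n) (hr' : r.coeff (m + n) ≠ 0) :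
    q.natDegree = n ∧ p.leadingCoeff * q.coeff n = r.coeff (m + n) ∧ q.coeff n ≠ 0 := by
  have hr0 : r ≠ 0 := by
    rintro rfl
    simp at hr'
  have hp0 : p ≠ 0 := by
    rintro rfl
    exact hr0 (by rw [← h, zero_mul])
  have hq0 : q ≠ 0 := by
    rintro rfl
    exact hr0 (by rw [← h, mul_zero])
  have hrn : r.natDegree = m + n := le_antisymm hr (le_natDegree_of_ne_zero hr')
  have hqn : q.natDegree = n := by
    rw [← h, natDegree_mul hp0 hq0] at hrn
    omega
  have e1 : p.leadingCoeff * q.coeff n = r.coeff (m + n) := by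
    rw [← h, coeff_mul_add_eq_of_natDegree_le hp.le hqn.le, ← hp, coeff_natDegree]
  refine ⟨hqn, e1, ?_⟩
  rw [← hqn, coeff_natDegree]
  exact leadingCoeff_ne_zero.2 hq0

theorem new_section (h : Sec e σ φ) (hm : Mult φ (sb i) ε a b) (hσ : ∀ j, -σ - sb i ≠ sb j) :
    ∃ (u ε' : ℂ[X]) (e' : ℕ),
      dot (Kg X (pt (C (sb i : ℂ)))) ![a, b, 0] = ε * ε' ∧
      dot (Kg X ![a, b, 0]) (pt (C (sb i : ℂ))) = -(φ 2 * ε' + ε * u) ∧
      Kt X ![a, b, 0] = φ 2 * u ∧
      e' + 3 * ε.natDegree = 1 + 2 * e ∧ ε'.natDegree + 2 * ε.natDegree = 1 + e ∧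
      Sec e' (-σ - sb i) (lin u ε' (pt (C (sb i : ℂ))) ![a, b, 0]) := by
  have hε := mult_ne h hm
  have hz := cop_z h hm
  have hz0 : φ 2 ≠ 0 := by
    intro h0
    apply h.lead
    rw [h0, coeff_zero]
  obtain ⟨ε', h1⟩ := k1_dvd h hm
  have hKP : Kt X (pt (C (sb i : ℂ))) = 0 := by
    unfold Kt
    rw [c3_pt, ← map_pt C, ← map_b3, b3_sb, C_0, mul_zero, add_zero]
  have key : ∀ α β : ℂ[X], Kt X (lin α β (pt (C (sb i : ℂ))) ![a, b, 0]) =
      β * (α ^ 2 * dot (Kg X (pt (C (sb i : ℂ)))) ![a, b, 0] +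
        α * β * dot (Kg X ![a, b, 0]) (pt (C (sb i : ℂ))) + β ^ 2 * Kt X ![a, b, 0]) := by
    intro α β
    rw [Kt_lin, hKP]
    ring
  have h0 : φ 2 ^ 2 * dot (Kg X (pt (C (sb i : ℂ)))) ![a, b, 0] +
      φ 2 * ε * dot (Kg X ![a, b, 0]) (pt (C (sb i : ℂ))) + ε ^ 2 * Kt X ![a, b, 0] = 0 := by
    have h2 := h.eqn
    rw [hm.eq_lin, key] at h2
    rcases mul_eq_zero.1 h2 with h3 | h3
    · exact absurd h3 hε
    · have e2 : lin (φ 2) ε (pt (C (sb i : ℂ))) ![a, b, 0] = φ := hm.eq_lin.symm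
      exact h3
  have h3 : φ 2 ∣ Kt X ![a, b, 0] := by
    have h4 : φ 2 ∣ ε ^ 2 * Kt X ![a, b, 0] := by
      refine ⟨-(φ 2 * dot (Kg X (pt (C (sb i : ℂ)))) ![a, b, 0] +
        ε * dot (Kg X ![a, b, 0]) (pt (C (sb i : ℂ)))), ?_⟩
      linear_combination h0
    exact (hz.pow_right (n := 2)).dvd_of_dvd_mul_left h4
  obtain ⟨u, h3⟩ := h3
  have h2 : dot (Kg X ![a, b, 0]) (pt (C (sb i : ℂ))) = -(φ 2 * ε' + ε * u) := by
    have h4 : (φ 2 * ε) * (dot (Kg X ![a, b, 0]) (pt (C (sb i : ℂ))) + (φ 2 * ε' + ε * u)) = 0 := by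
      rw [h1, h3] at h0
      linear_combination h0
    rcases mul_eq_zero.1 h4 with h5 | h5
    · exact absurd h5 (mul_ne_zero hz0 hε)
    · linear_combination h5
  -- degrees
  obtain ⟨n1, hb, hA, hB⟩ := e2c_ab h hm
  have hs : σ - (sb i : ℂ) ≠ 0 := sub_ne_zero.2 (h.nb i)
  have hs2 : σ + 2 * (sb i : ℂ) ≠ 0 := by
    intro h5
    apply hσ i
    linear_combination -h5
  have hE : ε.leadingCoeff ≠ 0 := leadingCoeff_ne_zero.2 hε
  have hA0 : a.leadingCoeff ≠ 0 := by
    intro h5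
    rw [h5, mul_zero] at hA
    exact mul_ne_zero h.lead hs hA.symm
  obtain ⟨d3, c3'⟩ := e2c_k3 (a := a) (b := b) le_rfl hb
  obtain ⟨d1, c1'⟩ := e2c_k1 (a := a) (b := b) (s := (sb i : ℂ)) le_rfl hb
  rw [coeff_natDegree] at c3' c1'
  have hzn : (φ 2).natDegree = e := le_antisymm (h.deg 2) (le_natDegree_of_ne_zero h.lead)
  have hzl : (φ 2).leadingCoeff = (φ 2).coeff e := by
    rw [leadingCoeff, hzn]
  have hk3ne : (Kt X ![a, b, 0]).coeff (3 * a.natDegree + 1) ≠ 0 := by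
    rw [c3']
    exact neg_ne_zero.2 (pow_ne_zero 3 hA0)
  have hele : e ≤ 3 * a.natDegree + 1 := by
    have h5 : (Kt X ![a, b, 0]).natDegree = 3 * a.natDegree + 1 :=
      le_antisymm d3 (le_natDegree_of_ne_zero hk3ne)
    have hu0 : u ≠ 0 := by
      rintro rfl
      rw [mul_zero] at h3
      rw [h3, coeff_zero] at hk3ne
      exact hk3ne rfl
    rw [h3, natDegree_mul hz0 hu0, hzn] at h5
    omega
  obtain ⟨e', he'⟩ := Nat.exists_eq_add_of_le hele
  obtain ⟨un, uc, une⟩ := e2c_quot h3.symm hzn (n := e') (by omega) (by rw [← he']; exact hk3ne)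
  rw [← he', c3', hzl] at uc
  have hM : ε.leadingCoeff * (-3 * (sb i : ℂ) ^ 2 * a.leadingCoeff + b.coeff a.natDegree) =
      (φ 2).coeff e * ((σ - sb i) ^ 2 * (σ + 2 * sb i)) := by
    linear_combination (-3 * (sb i : ℂ) ^ 2) * hA + hB
  have hk1ne : (dot (Kg X (pt (C (sb i : ℂ)))) ![a, b, 0]).coeff (a.natDegree + 1) ≠ 0 := by
    rw [c1']
    intro h5
    rw [h5, mul_zero] at hM
    exact mul_ne_zero h.lead (mul_ne_zero (pow_ne_zero 2 hs) hs2) hM.symm
  have hdle : ε.natDegree ≤ a.natDegree + 1 := by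
    have h5 : (dot (Kg X (pt (C (sb i : ℂ)))) ![a, b, 0]).natDegree = a.natDegree + 1 :=
      le_antisymm d1 (le_natDegree_of_ne_zero hk1ne)
    have hu0 : ε' ≠ 0 := by
      rintro rfl
      rw [mul_zero] at h1
      rw [h1, coeff_zero] at hk1ne
      exact hk1ne rfl
    rw [h1, natDegree_mul hε hu0] at h5
    omega
  obtain ⟨n', hn'⟩ := Nat.exists_eq_add_of_le hdle
  obtain ⟨en, ec, ene⟩ := e2c_quot h1.symm rfl (n := n') (by omega) (by rw [← hn']; exact hk1ne)
  rw [← hn', c1'] at ec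
  -- the leading coefficients
  have hE3 : ε.leadingCoeff ^ 3 ≠ 0 := pow_ne_zero 3 hE
  have hU : ε.leadingCoeff ^ 3 * u.coeff e' = -((φ 2).coeff e ^ 2 * (σ - sb i) ^ 3) := by
    have h5 : (φ 2).coeff e * (ε.leadingCoeff ^ 3 * u.coeff e') =
        (φ 2).coeff e * -((φ 2).coeff e ^ 2 * (σ - sb i) ^ 3) := by
      have h6 : (ε.leadingCoeff * a.leadingCoeff) ^ 3 = ((φ 2).coeff e * (σ - sb i)) ^ 3 := by
        rw [hA]
      linear_combination ε.leadingCoeff ^ 3 * uc - h6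
    exact mul_left_cancel₀ h.lead h5
  have hEe : ε.leadingCoeff ^ 2 * ε'.coeff n' =
      (φ 2).coeff e * ((σ - sb i) ^ 2 * (σ + 2 * sb i)) := by
    linear_combination ε.leadingCoeff * ec + hM
  have hee : e' = n' + a.natDegree := by omega
  have l0 : (ε' * a).coeff e' = ε'.coeff n' * a.leadingCoeff := by
    rw [hee, coeff_mul_add_eq_of_natDegree_le en.le le_rfl, coeff_natDegree]
  have l1 : (ε' * b).coeff e' = ε'.coeff n' * b.coeff a.natDegree := by
    rw [hee, coeff_mul_add_eq_of_natDegree_le en.le hb]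
  have v0 : lin u ε' (pt (C (sb i : ℂ))) ![a, b, 0] 0 = C (sb i : ℂ) * u + ε' * a := by
    simp only [lin, pt, Matrix.cons_val_zero]
    ring
  have v1 : lin u ε' (pt (C (sb i : ℂ))) ![a, b, 0] 1 = C ((sb i : ℂ) ^ 3) * u + ε' * b := by
    simp only [lin, pt, Matrix.cons_val_one, Matrix.cons_val_zero, C_pow]
    ring
  have v2 : lin u ε' (pt (C (sb i : ℂ))) ![a, b, 0] 2 = u := by
    simp only [lin, pt, Matrix.cons_val]
    ring
  have hlead0 : (lin u ε' (pt (C (sb i : ℂ))) ![a, b, 0] 0).coeff e' =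
      (-σ - sb i) * (lin u ε' (pt (C (sb i : ℂ))) ![a, b, 0] 2).coeff e' := by
    rw [v0, v2, coeff_add, coeff_C_mul, l0]
    apply mul_left_cancel₀ hE3
    have h6 : ε.leadingCoeff ^ 2 * ε'.coeff n' * (ε.leadingCoeff * a.leadingCoeff) =
        (φ 2).coeff e * ((σ - sb i) ^ 2 * (σ + 2 * sb i)) * ((φ 2).coeff e * (σ - sb i)) := by
      rw [hEe, hA]
    linear_combination (2 * (sb i : ℂ) + σ) * hU + h6
  have hlead1 : (lin u ε' (pt (C (sb i : ℂ))) ![a, b, 0] 1).coeff e' =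
      (-σ - sb i) ^ 3 * (lin u ε' (pt (C (sb i : ℂ))) ![a, b, 0] 2).coeff e' := by
    rw [v1, v2, coeff_add, coeff_C_mul, l1]
    apply mul_left_cancel₀ hE3
    have h6 : ε.leadingCoeff ^ 2 * ε'.coeff n' * (ε.leadingCoeff * b.coeff a.natDegree) =
        (φ 2).coeff e * ((σ - sb i) ^ 2 * (σ + 2 * sb i)) *
          ((φ 2).coeff e * (σ ^ 3 - (sb i : ℂ) ^ 3)) := by
      rw [hEe, hB]
    linear_combination ((sb i : ℂ) ^ 3 - (-σ - sb i) ^ 3) * hU + h6
  have heqn : Kt X (lin u ε' (pt (C (sb i : ℂ))) ![a, b, 0]) = 0 := by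
    rw [key, h1, h2, h3]
    ring
  refine ⟨u, ε', e', h1, h2, h3, by omega, by omega, ?_⟩
  refine ⟨?_, ?_, ?_, hlead0, hlead1, ?_, heqn, hσ⟩
  · -- one_le
    by_contra hcon
    have he0 : e' = 0 := by omega
    rw [he0] at hlead0 hlead1 une
    have h5 := congrArg (fun p => Polynomial.eval 0 p) heqn
    have h6 : (fun k => (lin u ε' (pt (C (sb i : ℂ))) ![a, b, 0] k).eval 0) =
        fun k => u.coeff 0 * pt (-σ - sb i) k := by
      funext k
      fin_cases k
      · change (lin u ε' (pt (C (sb i : ℂ))) ![a, b, 0] 0).eval 0 = u.coeff 0 * pt (-σ - sb i) 0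
        rw [← coeff_zero_eq_eval_zero, hlead0, v2]
        simp only [pt, Matrix.cons_val_zero]
        ring
      · change (lin u ε' (pt (C (sb i : ℂ))) ![a, b, 0] 1).eval 0 = u.coeff 0 * pt (-σ - sb i) 1
        rw [← coeff_zero_eq_eval_zero, hlead1, v2]
        simp only [pt, Matrix.cons_val_one, Matrix.cons_val_zero]
        ring
      · change (lin u ε' (pt (C (sb i : ℂ))) ![a, b, 0] 2).eval 0 = u.coeff 0 * pt (-σ - sb i) 2
        rw [← coeff_zero_eq_eval_zero, v2]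
        simp only [pt, Matrix.cons_val]
        ring
    have h7 : (Kt X (lin u ε' (pt (C (sb i : ℂ))) ![a, b, 0])).eval 0 =
        b3 (fun k => u.coeff 0 * pt (-σ - sb i) k) := by
      have h8 := map_Kt (evalRingHom (0 : ℂ)) (lin u ε' (pt (C (sb i : ℂ))) ![a, b, 0]) X
      simp only [coe_evalRingHom, eval_X] at h8
      rw [h8, h6]
      unfold Kt
      rw [zero_mul, zero_add]
    rw [h7, e2c_b3_smul, eval_zero] at h5
    exact mul_ne_zero (pow_ne_zero 3 une) (b3_ne hσ) h5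
  · -- deg
    intro k
    fin_cases k
    · change (lin u ε' (pt (C (sb i : ℂ))) ![a, b, 0] 0).natDegree ≤ e'
      rw [v0]
      refine (natDegree_add_le _ _).trans (max_le ((natDegree_C_mul_le _ _).trans un.le) ?_)
      have := natDegree_mul_le (p := ε') (q := a)
      omega
    · change (lin u ε' (pt (C (sb i : ℂ))) ![a, b, 0] 1).natDegree ≤ e'
      rw [v1]
      refine (natDegree_add_le _ _).trans (max_le ((natDegree_C_mul_le _ _).trans un.le) ?_)
      have := natDegree_mul_le (p := ε') (q := b)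
      omega
    · change (lin u ε' (pt (C (sb i : ℂ))) ![a, b, 0] 2).natDegree ≤ e'
      rw [v2]
      exact un.le
  · rw [v2]
    exact une
  · -- prim
    intro τ
    by_contra hcon
    push Not at hcon
    have g0 := hcon 0
    have g1 := hcon 1
    have g2 := hcon 2
    rw [v0] at g0
    rw [v1] at g1
    rw [v2] at g2
    simp only [eval_add, eval_mul, eval_C, g2, mul_zero, zero_add] at g0 g1
    have hab : a.eval τ ≠ 0 ∨ b.eval τ ≠ 0 := by
      obtain ⟨p, q, hpq⟩ := hm.cop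
      by_contra hab
      push Not at hab
      have h5 := congrArg (fun r => Polynomial.eval τ r) hpq
      simp only [eval_add, eval_mul, eval_one, hab.1, hab.2, mul_zero, add_zero] at h5
      exact zero_ne_one h5
    have g3 : ε'.eval τ = 0 := by
      rcases hab with h5 | h5
      · exact (mul_eq_zero.1 g0).resolve_right h5
      · exact (mul_eq_zero.1 g1).resolve_right h5
    have hYe : (fun k => ((![a, b, 0] : Fin 3 → ℂ[X]) k).eval τ) = ![a.eval τ, b.eval τ, 0] := by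
      funext k
      fin_cases k <;> simp
    have hPe : (fun k => (pt (C (sb i : ℂ)) k).eval τ) = pt (sb i : ℂ) := by
      have h5 := map_pt (evalRingHom τ) (C (sb i : ℂ))
      simpa using h5
    have r1 : dot (Kg τ (pt (sb i : ℂ))) ![a.eval τ, b.eval τ, 0] = 0 := by
      have h5 := congrArg (fun r => Polynomial.eval τ r) h1
      simp only [eval_dot, eval_Kg, hPe, hYe, eval_X, eval_mul, g3, mul_zero] at h5
      exact h5
    have r2 : dot (Kg τ ![a.eval τ, b.eval τ, 0]) (pt (sb i : ℂ)) = 0 := by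
      have h5 := congrArg (fun r => Polynomial.eval τ r) h2
      simp only [eval_dot, eval_Kg, hPe, hYe, eval_X, eval_mul, eval_neg, eval_add, g3, g2,
        mul_zero, add_zero, neg_zero] at h5
      exact h5
    have r3 : Kt τ ![a.eval τ, b.eval τ, 0] = 0 := by
      have h5 := congrArg (fun r => Polynomial.eval τ r) h3
      have h8 := map_Kt (evalRingHom τ) ![a, b, 0] X
      simp only [coe_evalRingHom, eval_X, hYe] at h8
      rw [← h8, h5]
      simp only [eval_mul, g2, mul_zero]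
    refine line (τ := τ) (j := i) (Y := ![a.eval τ, b.eval τ, 0]) (by simp) ?_ ?_
    · rcases hab with h5 | h5
      · exact ⟨0, by simpa using h5⟩
      · exact ⟨1, by simpa using h5⟩
    · intro α β
      rw [Kt_lin, r1, r2, r3]
      have h9 : Kt τ (pt (sb i : ℂ)) = 0 := by
        unfold Kt
        rw [c3_pt, b3_sb, mul_zero, add_zero]
      rw [h9]
      ring

theorem h_deg (h : Sec e σ φ) (hm : Mult φ (sb i) ε a b) (hσ : ∀ j, -σ - sb i ≠ sb j) {j : Fin 9}
    (hij : i ≠ j) :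
    (a * C ((sb j : ℂ) ^ 3 - (sb i : ℂ) ^ 3) - b * C ((sb j : ℂ) - sb i)).natDegree +
      ε.natDegree = e := by
  obtain ⟨n1, hb, hA, hB⟩ := e2c_ab h hm
  have hε := mult_ne h hm
  have hE : ε.leadingCoeff ≠ 0 := leadingCoeff_ne_zero.2 hε
  have hs : σ - (sb i : ℂ) ≠ 0 := sub_ne_zero.2 (h.nb i)
  have h1 : (a * C ((sb j : ℂ) ^ 3 - (sb i : ℂ) ^ 3) - b * C ((sb j : ℂ) - sb i)).natDegree ≤
      a.natDegree := by
    refine (natDegree_sub_le _ _).trans (max_le ?_ ?_)
    · exact natDegree_mul_C_le _ _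
    · exact (natDegree_mul_C_le _ _).trans hb
  have h2 : (a * C ((sb j : ℂ) ^ 3 - (sb i : ℂ) ^ 3) - b * C ((sb j : ℂ) - sb i)).coeff
      a.natDegree ≠ 0 := by
    rw [coeff_sub, coeff_mul_C, coeff_mul_C, coeff_natDegree]
    intro h3
    have h4 : (φ 2).coeff e * ((σ - sb i) * (((sb j : ℂ) - sb i) *
        ((sb j - σ) * (sb j + σ + sb i)))) = 0 := by
      have h5 : ε.leadingCoeff * (a.leadingCoeff * ((sb j : ℂ) ^ 3 - (sb i : ℂ) ^ 3) -
        b.coeff a.natDegree * ((sb j : ℂ) - sb i)) = 0 := by rw [h3, mul_zero]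
      linear_combination h5 - ((sb j : ℂ) ^ 3 - (sb i : ℂ) ^ 3) * hA + ((sb j : ℂ) - sb i) * hB
    have h6 : ((sb j : ℂ) - sb i) ≠ 0 := by
      intro h7
      exact hij (sb_inj (sub_eq_zero.1 h7)).symm
    have h7 : (sb j : ℂ) - σ ≠ 0 := by
      intro h8
      exact h.nb j (sub_eq_zero.1 h8).symm
    have h8 : (sb j : ℂ) + σ + sb i ≠ 0 := by
      intro h9
      apply hσ j
      linear_combination -h9
    exact mul_ne_zero h.lead (mul_ne_zero hs (mul_ne_zero h6 (mul_ne_zero h7 h8))) h4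
  have h3 := le_antisymm h1 (le_natDegree_of_ne_zero h2)
  omega

end Pool.Agent.H66.CY
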