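import Pool.Agent.H66.CY.E2b
import Pool.Agent.H66.CY.E2c

/-!
The step. `exists_mult`: `p = φ 0 - C s * φ 2`, `q = φ 1 - C s ^ 3 * φ 2`, not both zero; `ε = gcd`
(`EuclideanDomain.gcd` or `exists_gcd_eq`/`IsBezout`), the cofactors are coprime.
`step`: take the data of `new_section`; for `j ≠ i` `Mult` of the new section at `s_j` by
`exists_mult` with `εj'`; `Mult` at `s_i` is `(ε', a, b)`. By `h_dvd`, `h_deg` (`εj`, `εj'` are not zero,
`mult_ne`): `e - m_i ≤ m_j + m_j'`. By `sum_m` for both sections the sums agree, so all are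
equalities: `∑_{j ≠ i} m_j' = 3 e' - 1 - m_i'`, `∑_{j ≠ i} (e - m_i - m_j) = 8 (e - m_i) - (3 e - 1 - m_i)`.
-/

set_option autoImplicit false

open Polynomial

namespace Pool.Agent.H66.CY

theorem exists_mult {φ : Fin 3 → ℂ[X]} {s : ℂ} (h : φ 0 ≠ C s * φ 2) :
    ∃ ε a b, Mult φ s ε a b := by
  classical
  set p := φ 0 - C s * φ 2 with hp
  set q := φ 1 - C s ^ 3 * φ 2 with hq
  have hp0 : p ≠ 0 := sub_ne_zero.2 h
  obtain ⟨a, ha⟩ := EuclideanDomain.gcd_dvd_left p q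
  obtain ⟨b, hb⟩ := EuclideanDomain.gcd_dvd_right p q
  have hg : EuclideanDomain.gcd p q ≠ 0 := by
    intro h0
    rw [h0, zero_mul] at ha
    exact hp0 ha
  refine ⟨EuclideanDomain.gcd p q, a, b, ?_, ?_, ?_⟩
  · rw [← ha, hp]
    ring
  · rw [← hb, hq]
    ring
  · refine ⟨EuclideanDomain.gcdA p q, EuclideanDomain.gcdB p q, ?_⟩
    apply mul_left_cancel₀ hg
    have h1 := EuclideanDomain.gcd_eq_gcd_ab p q
    calc EuclideanDomain.gcd p q * (EuclideanDomain.gcdA p q * a + EuclideanDomain.gcdB p q * b)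
        = (EuclideanDomain.gcd p q * a) * EuclideanDomain.gcdA p q +
          (EuclideanDomain.gcd p q * b) * EuclideanDomain.gcdB p q := by ring
      _ = p * EuclideanDomain.gcdA p q + q * EuclideanDomain.gcdB p q := by rw [← ha, ← hb]
      _ = EuclideanDomain.gcd p q * 1 := by rw [← h1, mul_one]

private theorem e2_ne {e : ℕ} {σ : ℂ} {φ : Fin 3 → ℂ[X]} (h : Sec e σ φ) (j : Fin 9) :
    φ 0 ≠ C (sb j : ℂ) * φ 2 := by
  intro h0
  have h1 := h.lead0
  rw [h0, coeff_C_mul] at h1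
  have h2 : ((sb j : ℂ) - σ) * (φ 2).coeff e = 0 := by linear_combination h1
  rcases mul_eq_zero.1 h2 with h3 | h3
  · exact h.nb j (sub_eq_zero.1 h3).symm
  · exact h.lead h3

private theorem e2_count {m m' : Fin 9 → ℕ} {e e' : ℕ} (i : Fin 9)
    (hs : ∑ j, m j + 1 = 3 * e) (hs' : ∑ j, m' j + 1 = 3 * e')
    (he : e' + 3 * m i = 1 + 2 * e) (hi : m' i + 2 * m i = 1 + e)
    (hle : ∀ j, j ≠ i → e ≤ m' j + m i + m j) : ∀ j, j ≠ i → m' j + m i + m j = e := by
  have h1 : ∑ j, (m' j + m i + m j) = 3 * e' + 3 * e + 9 * m i - 2 := by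
    rw [Finset.sum_add_distrib, Finset.sum_add_distrib, Finset.sum_const, Finset.card_univ,
      Fintype.card_fin, smul_eq_mul]
    omega
  have h2 : ∑ j ∈ Finset.univ.erase i, (m' j + m i + m j) =
      ∑ j ∈ Finset.univ.erase i, e := by
    have h3 := Finset.add_sum_erase Finset.univ (fun j => m' j + m i + m j) (Finset.mem_univ i)
    rw [Finset.sum_const, Finset.card_erase_of_mem (Finset.mem_univ i), Finset.card_univ,
      Fintype.card_fin, smul_eq_mul]
    omega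
  intro j hj
  have h4 := (Finset.sum_eq_sum_iff_of_le (fun k hk => hle k (Finset.ne_of_mem_erase hk))).1 h2.symm
  exact (h4 j (Finset.mem_erase.2 ⟨hj, Finset.mem_univ j⟩)).symm

theorem step {e : ℕ} {σ : ℂ} {φ : Fin 3 → ℂ[X]} {m : Fin 9 → ℕ} (h : Sec e σ φ)
    (hm : ∀ j, HasM φ j (m j)) (i : Fin 9) (hσ : ∀ j, -σ - sb i ≠ sb j) :
    ∃ (φ' : Fin 3 → ℂ[X]) (e' : ℕ) (m' : Fin 9 → ℕ), Sec e' (-σ - sb i) φ' ∧
      (∀ j, HasM φ' j (m' j)) ∧ e' + 3 * m i = 1 + 2 * e ∧ m' i + 2 * m i = 1 + e ∧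
      ∀ j, j ≠ i → m' j + m i + m j = e := by
  classical
  choose ε a b hM hd using hm
  obtain ⟨u, ε', e', h1, h2, h3, he', hi', hS⟩ := new_section h (hM i) hσ
  have hex : ∀ j, ∃ εj aj bj, Mult (lin u ε' (pt (C (sb i : ℂ))) ![a i, b i, 0]) (sb j) εj aj bj ∧
      (j = i → εj = ε') := by
    intro j
    by_cases hj : j = i
    · subst hj
      refine ⟨ε', a j, b j, ⟨?_, ?_, (hM j).cop⟩, fun _ => rfl⟩
      · simp only [lin, pt, Matrix.cons_val_zero, Matrix.cons_val]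
        ring
      · simp only [lin, pt, Matrix.cons_val_zero, Matrix.cons_val_one, Matrix.cons_val]
        ring
    · obtain ⟨x, y, w, hx⟩ := exists_mult (e2_ne hS j)
      exact ⟨x, y, w, hx, fun h => absurd h hj⟩
  choose ε2 a2 b2 hM2 hi2 using hex
  have hsum := sum_m h hM
  have hsum' := sum_m hS hM2
  have e1 : (fun j => (ε j).natDegree) = m := funext hd
  refine ⟨_, e', fun j => (ε2 j).natDegree, hS, fun j => ⟨ε2 j, a2 j, b2 j, hM2 j, rfl⟩, ?_, ?_, ?_⟩
  · rw [← hd i]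
    exact he'
  · change (ε2 i).natDegree + 2 * m i = 1 + e
    rw [hi2 i rfl, ← hd i]
    exact hi'
  · refine e2_count i (by simpa only [hd] using hsum) hsum' (by rw [← hd i]; exact he')
      (by rw [hi2 i rfl, ← hd i]; exact hi') ?_
    intro j hj
    have hM' : Mult (lin (φ 2) (ε i) (pt (C (sb i : ℂ))) ![a i, b i, 0]) (sb j) (ε j) (a j) (b j) := by
      rw [← (hM i).eq_lin]
      exact hM j
    have h4 := h_dvd hj.symm h1 h2 h3 hM' (hM2 j)
    have h5 := h_deg h (hM i) hσ hj.symm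
    have h6 : ε j * ε2 j ≠ 0 := mul_ne_zero (mult_ne h (hM j)) (mult_ne hS (hM2 j))
    have h7 := natDegree_le_of_dvd h4 h6
    rw [natDegree_mul (mult_ne h (hM j)) (mult_ne hS (hM2 j))] at h7
    rw [hd i] at h5
    rw [hd j] at h7
    omega

end Pool.Agent.H66.CY
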