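import Pool.Agent.H66.CY.E1a

/-!
`P = pt (C s_i)`, `Y = (a, b, 0)`, `k₁ = ∇K(P)·Y = ε ε'`, `k₂ = ∇K(Y)·P = - (z ε' + ε u)`,
`k₃ = K(Y) = z u`; the two points `z P + ε Y` and `u P + ε' Y` of the cubic on the line `P Y`. Put
`A = s_i - s_j`, `B = s_i³ - s_j³`, `h = a B - b A` (up to the sign the given polynomial). The
differences to the multiples of `pt s_j`: `X = A z + ε a = εj aj`, `Y' = B z + ε b = εj bj`, and
`X₁ = A u + ε' a = εj' aj'`, `Y₁ = B u + ε' b = εj' bj'`.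
In the quotient ring modulo `h` the constant `A` is a unit; put `c = a / A`, so `a = c A`, `b = c B`,
`Y = c T` with `T = (A, B, 0)` and `P - T = pt s_j`. Then
`(z + ε c) (u + ε' c) = K(Y) - c ∇K(Y)·P + c² ∇K(P)·Y = c³ K(P) - K(c P - Y) = 0`, and
`εj aj = A (z + ε c)`, `εj bj = B (z + ε c)`, `εj' aj' = A (u + ε' c)`, `εj' bj' = B (u + ε' c)`. So all
products of one of the first two and one of the last two are zero, and `εj εj' = 0` because `(aj, bj)` and
`(aj', bj')` are coprime.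
-/

set_option autoImplicit false

open Polynomial

namespace Pool.Agent.H66.CY

private theorem e2b_smul {R : Type} [CommRing R] (t c : R) (v : Fin 3 → R) :
    Kt t (fun i => c * v i) = c ^ 3 * Kt t v := by
  simp only [Kt, c3, b3]
  ring

private theorem e2b_w {R : Type} [CommRing R] {t s s' c z u ε ε' : R}
    (hK : Kt t (pt s) = 0) (hK' : Kt t (pt s') = 0)
    (h1 : dot (Kg t (pt s)) ![c * (s - s'), c * (s ^ 3 - s' ^ 3), 0] = ε * ε')
    (h2 : dot (Kg t ![c * (s - s'), c * (s ^ 3 - s' ^ 3), 0]) (pt s) = -(z * ε' + ε * u))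
    (h3 : Kt t ![c * (s - s'), c * (s ^ 3 - s' ^ 3), 0] = z * u) :
    (z + ε * c) * (u + ε' * c) = 0 := by
  have h4 := Kt_lin t c (-1) (pt s) ![c * (s - s'), c * (s ^ 3 - s' ^ 3), 0]
  have h5 : lin c (-1) (pt s) ![c * (s - s'), c * (s ^ 3 - s' ^ 3), 0] =
      fun i => c * pt s' i := by
    funext i
    fin_cases i <;> simp [lin, pt] <;> ring
  rw [h5, e2b_smul, hK, hK', h1, h2, h3] at h4
  linear_combination h4

private theorem e2b_all {R : Type} [CommRing R] {t s s' a b z u ε ε' v : R}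
    {η p q η' p' q' x y x' y' : R}
    (hv : (s - s') * v = 1) (hab : a * (s ^ 3 - s' ^ 3) = b * (s - s'))
    (hK : Kt t (pt s) = 0) (hK' : Kt t (pt s') = 0)
    (h1 : dot (Kg t (pt s)) ![a, b, 0] = ε * ε')
    (h2 : dot (Kg t ![a, b, 0]) (pt s) = -(z * ε' + ε * u))
    (h3 : Kt t ![a, b, 0] = z * u)
    (e0 : z * s + ε * a = s' * z + η * p) (e1 : z * s ^ 3 + ε * b = s' ^ 3 * z + η * q)
    (e0' : u * s + ε' * a = s' * u + η' * p') (e1' : u * s ^ 3 + ε' * b = s' ^ 3 * u + η' * q')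
    (hc : x * p + y * q = 1) (hc' : x' * p' + y' * q' = 1) : η * η' = 0 := by
  obtain ⟨c, hca⟩ : ∃ c, c = a * v := ⟨_, rfl⟩
  have ha : a = c * (s - s') := by rw [hca]; linear_combination (-a) * hv
  have hb : b = c * (s ^ 3 - s' ^ 3) := by
    rw [hca]; linear_combination (-b) * hv - v * hab
  subst ha
  subst hb
  have hw := e2b_w hK hK' h1 h2 h3
  have f0 : η * p = (s - s') * (z + ε * c) := by linear_combination -e0
  have f1 : η * q = (s ^ 3 - s' ^ 3) * (z + ε * c) := by linear_combination -e1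
  have f0' : η' * p' = (s - s') * (u + ε' * c) := by linear_combination -e0'
  have f1' : η' * q' = (s ^ 3 - s' ^ 3) * (u + ε' * c) := by linear_combination -e1'
  have g : η = (x * (s - s') + y * (s ^ 3 - s' ^ 3)) * (z + ε * c) := by
    linear_combination (-η) * hc + x * f0 + y * f1
  have g' : η' = (x' * (s - s') + y' * (s ^ 3 - s' ^ 3)) * (u + ε' * c) := by
    linear_combination (-η') * hc' + x' * f0' + y' * f1'
  rw [g, g']
  linear_combination (x * (s - s') + y * (s ^ 3 - s' ^ 3)) *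
    (x' * (s - s') + y' * (s ^ 3 - s' ^ 3)) * hw

private theorem e2b_Kt (j : Fin 9) : Kt X (pt (C (sb j : ℂ))) = 0 := by
  have h1 : b3 (pt (C (sb j : ℂ))) = 0 := by
    rw [← map_pt, ← map_b3, b3_sb, C_0]
  rw [Kt, c3_pt, h1, mul_zero, add_zero]

theorem h_dvd {i j : Fin 9} (hij : i ≠ j) {z u ε ε' a b : ℂ[X]}
    (h1 : dot (Kg X (pt (C (sb i : ℂ)))) ![a, b, 0] = ε * ε')
    (h2 : dot (Kg X ![a, b, 0]) (pt (C (sb i : ℂ))) = -(z * ε' + ε * u))
    (h3 : Kt X ![a, b, 0] = z * u) {εj aj bj εj' aj' bj' : ℂ[X]}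
    (hm : Mult (lin z ε (pt (C (sb i : ℂ))) ![a, b, 0]) (sb j) εj aj bj)
    (hm' : Mult (lin u ε' (pt (C (sb i : ℂ))) ![a, b, 0]) (sb j) εj' aj' bj') :
    a * C ((sb j : ℂ) ^ 3 - (sb i : ℂ) ^ 3) - b * C ((sb j : ℂ) - sb i) ∣ εj * εj' := by
  obtain ⟨H, hH⟩ : ∃ H, H = a * C ((sb j : ℂ) ^ 3 - (sb i : ℂ) ^ 3) - b * C ((sb j : ℂ) - sb i) :=
    ⟨_, rfl⟩
  rw [← hH, ← Ideal.mem_span_singleton, ← Ideal.Quotient.eq_zero_iff_mem, map_mul]
  obtain ⟨f, hf⟩ : ∃ f : ℂ[X] →+* ℂ[X] ⧸ Ideal.span {H}, f = Ideal.Quotient.mk (Ideal.span {H}) :=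
    ⟨_, rfl⟩
  rw [← hf]
  have hfH : f H = 0 := by
    rw [hf, Ideal.Quotient.eq_zero_iff_mem]
    exact Ideal.mem_span_singleton_self H
  have hne : (sb i : ℂ) - sb j ≠ 0 := by
    intro h
    exact hij (sb_inj (sub_eq_zero.mp h))
  have hY : (fun k => f ((![a, b, 0] : Fin 3 → ℂ[X]) k)) = ![f a, f b, 0] := by
    funext k
    fin_cases k <;> simp
  have hv : (f (C (sb i : ℂ)) - f (C (sb j : ℂ))) * f (C (((sb i : ℂ) - sb j)⁻¹)) = 1 := by
    rw [← map_sub, ← map_mul, ← C_sub, ← C_mul, mul_inv_cancel₀ hne, C_1, map_one]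
  have hab : f a * (f (C (sb i : ℂ)) ^ 3 - f (C (sb j : ℂ)) ^ 3) =
      f b * (f (C (sb i : ℂ)) - f (C (sb j : ℂ))) := by
    have h4 : f (a * C ((sb j : ℂ) ^ 3 - (sb i : ℂ) ^ 3) - b * C ((sb j : ℂ) - sb i)) = 0 := by
      rw [← hH]
      exact hfH
    simp only [map_sub, map_mul, map_pow] at h4
    linear_combination -h4
  have hK : ∀ k, Kt (f X) (pt (f (C (sb k : ℂ)))) = 0 := by
    intro k
    rw [← map_pt, ← map_Kt, e2b_Kt, map_zero]
  have h1' : dot (Kg (f X) (pt (f (C (sb i : ℂ))))) ![f a, f b, 0] = f ε * f ε' := by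
    have h4 := congrArg f h1
    rw [map_dot, hY, map_mul] at h4
    rw [← h4]
    congr 1
    funext k
    rw [map_Kg, map_pt]
  have h2' : dot (Kg (f X) ![f a, f b, 0]) (pt (f (C (sb i : ℂ)))) =
      -(f z * f ε' + f ε * f u) := by
    have h4 := congrArg f h2
    rw [map_dot, map_pt, map_neg, map_add, map_mul, map_mul] at h4
    rw [← h4]
    congr 1
    funext k
    rw [map_Kg, hY]
  have h3' : Kt (f X) ![f a, f b, 0] = f z * f u := by
    have h4 := congrArg f h3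
    rw [map_Kt, hY, map_mul] at h4
    exact h4
  have e0 := congrArg f hm.eq0
  have e1 := congrArg f hm.eq1
  have e0' := congrArg f hm'.eq0
  have e1' := congrArg f hm'.eq1
  simp only [lin, pt, Matrix.cons_val_zero, Matrix.cons_val_one, Matrix.cons_val, map_add,
    map_mul, map_pow, mul_one, mul_zero, add_zero] at e0 e1 e0' e1'
  obtain ⟨x, y, hxy⟩ := hm.cop
  obtain ⟨x', y', hxy'⟩ := hm'.cop
  have hc := congrArg f hxy
  have hc' := congrArg f hxy'
  rw [map_add, map_mul, map_mul, map_one] at hc hc'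
  exact e2b_all hv hab (hK i) (hK j) h1' h2' h3' e0 e1 e0' e1' hc hc'

end Pool.Agent.H66.CY
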