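import Pool.Agent.H66.CY.E2a
import Pool.Agent.H66.CY.E1a

/-!
The section of degree one: the third point of the line through `p = pt 2` and `p' = pt 4`
(`sb 4 = 2`, `sb 5 = 4`). `K(α p + β p') = α β (α ∇K(p)·p' + β ∇K(p')·p)`, so
`φ = α p + β p'`, `α = ∇K(p')·p`, `β = - ∇K(p)·p'`: explicit polynomials of degree one with integral
coefficients (compute them; `Kg X (pt (C 2))`, ...). The value at infinity is a multiple of
`pt (-6)`. All conditions can be checked with the explicit coefficients: `prim`: the two linear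
polynomials `α`, `β` have no common zero; `HasM` at `j = 4`: `φ - φ₂ p = β (p' - p) = β (2, 56, 0)`:
`ε = β`, `a = 2`, `b = 56`; at `j = 5`: `ε = α`, `a = -2`, `b = -56`; at the other `j`: the two linear
polynomials `φ 0 - s_j φ 2`, `φ 1 - s_j³ φ 2` have no common zero (a determinant of two linear
polynomials with integral coefficients is not zero): `ε = 1`.
-/

set_option autoImplicit false

open Polynomial

namespace Pool.Agent.H66.CY

/-- the section of degree one -/
private noncomputable def e3a_phi : Fin 3 → ℂ[X] :=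
  ![C (-6) * X + C 6120216, C (-216) * X + C 222971616, C 1 * X + C (-1075116)]

private theorem e3a_coprime {s a1 a0 b1 b0 : ℂ} (h0 : (-6 : ℂ) - s = a1)
    (h0' : (6120216 : ℂ) + s * 1075116 = a0) (h1 : (-216 : ℂ) - s ^ 3 = b1)
    (h1' : (222971616 : ℂ) + s ^ 3 * 1075116 = b0) (hd : a0 * b1 - a1 * b0 ≠ 0) :
    ∃ ε a b, Mult e3a_phi s ε a b ∧ ε.natDegree = 0 := by
  refine ⟨1, C a1 * X + C a0, C b1 * X + C b0, ⟨?_, ?_, ?_⟩, by simp⟩
  · subst h0 h0'
    simp only [e3a_phi, Matrix.cons_val_zero, Matrix.cons_val, C_add, C_sub, C_mul, C_neg, C_1]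
    ring
  · subst h1 h1'
    simp only [e3a_phi, Matrix.cons_val_zero, Matrix.cons_val_one, Matrix.cons_val, C_add, C_sub,
      C_mul, C_neg, C_pow, C_1]
    ring
  · refine ⟨C (b1 / (a0 * b1 - a1 * b0)), C (-a1 / (a0 * b1 - a1 * b0)), ?_⟩
    have e1 : C (b1 / (a0 * b1 - a1 * b0)) * (C a1 * X + C a0) +
        C (-a1 / (a0 * b1 - a1 * b0)) * (C b1 * X + C b0) =
        C (b1 / (a0 * b1 - a1 * b0) * a1 + -a1 / (a0 * b1 - a1 * b0) * b1) * X +
        C (b1 / (a0 * b1 - a1 * b0) * a0 + -a1 / (a0 * b1 - a1 * b0) * b0) := by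
      simp only [C_add, C_mul]
      ring
    rw [e1]
    have e2 : b1 / (a0 * b1 - a1 * b0) * a1 + -a1 / (a0 * b1 - a1 * b0) * b1 = 0 := by
      field_simp
      ring
    have e3 : b1 / (a0 * b1 - a1 * b0) * a0 + -a1 / (a0 * b1 - a1 * b0) * b0 = 1 := by
      have e4 : b1 / (a0 * b1 - a1 * b0) * a0 + -a1 / (a0 * b1 - a1 * b0) * b0 =
          (a0 * b1 - a1 * b0) / (a0 * b1 - a1 * b0) := by ring
      rw [e4, div_self hd]
    rw [e2, e3]
    simp

private theorem e3a_eqn : Kt X e3a_phi = 0 := by
  simp only [Kt, c3, b3, e3a_phi, Matrix.cons_val_zero, Matrix.cons_val_one, Matrix.cons_val,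
    map_neg, map_ofNat, C_1]
  ring

theorem start : ∃ φ : Fin 3 → ℂ[X], Sec 1 (-6) φ ∧
    ∀ j, HasM φ j (if j = 4 ∨ j = 5 then 1 else 0) := by
  refine ⟨e3a_phi, ⟨le_refl 1, ?_, ?_, ?_, ?_, ?_, e3a_eqn, ?_⟩, ?_⟩
  · intro i
    fin_cases i
    · exact natDegree_linear_le
    · exact natDegree_linear_le
    · exact natDegree_linear_le
  · simp [e3a_phi]
  · simp [e3a_phi]
  · simp [e3a_phi]
    norm_num
  · intro τ
    by_contra hcon
    push Not at hcon
    have h0 := hcon 0
    have h2 := hcon 2
    simp only [e3a_phi, Matrix.cons_val_zero, Matrix.cons_val, eval_add, eval_mul, eval_C,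
      eval_X] at h0 h2
    have h3 : (-330480 : ℂ) = 0 := by linear_combination h0 + 6 * h2
    norm_num at h3
  · intro j
    fin_cases j <;> simp [sb] <;> norm_num
  · intro j
    fin_cases j
    · exact e3a_coprime (a1 := 6) (a0 := -6781176) (b1 := 1512) (b0 := -1634828832)
        (by simp [sb]; norm_num) (by simp [sb]; norm_num) (by simp [sb]; norm_num)
        (by simp [sb]; norm_num) (by norm_num)
    · exact e3a_coprime (a1 := 1) (a0 := -1405596) (b1 := 127) (b0 := -145793172)
        (by simp [sb]; norm_num) (by simp [sb]; norm_num) (by simp [sb]; norm_num)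
        (by simp [sb]; norm_num) (by norm_num)
    · exact e3a_coprime (a1 := 4) (a0 := -4630944) (b1 := 784) (b0 := -852144384)
        (by simp [sb]; norm_num) (by simp [sb]; norm_num) (by simp [sb]; norm_num)
        (by simp [sb]; norm_num) (by norm_num)
    · exact e3a_coprime (a1 := 3) (a0 := -3555828) (b1 := 513) (b0 := -560787948)
        (by simp [sb]; norm_num) (by simp [sb]; norm_num) (by simp [sb]; norm_num)
        (by simp [sb]; norm_num) (by norm_num)
    · refine ⟨C (-4) * X + C 4135224, C 2, C 56, ⟨?_, ?_, ?_⟩, ?_⟩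
      · simp [e3a_phi, sb, map_ofNat]
        ring
      · simp [e3a_phi, sb, map_ofNat]
        ring
      · exact ⟨C (1 / 2), 0, by rw [← C_mul]; norm_num⟩
      · exact natDegree_linear (by norm_num)
    · refine ⟨C 5 * X + C (-5210340), C (-2), C (-56), ⟨?_, ?_, ?_⟩, ?_⟩
      · simp [e3a_phi, sb, map_ofNat]
        ring
      · simp [e3a_phi, sb, map_ofNat]
        ring
      · exact ⟨C (-1 / 2), 0, by rw [← C_mul]; norm_num⟩
      · exact natDegree_linear (by norm_num)
    · exact e3a_coprime (a1 := -15) (a0 := 15796260) (b1 := -945) (b0 := 1006731180)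
        (by simp [sb]; norm_num) (by simp [sb]; norm_num) (by simp [sb]; norm_num)
        (by simp [sb]; norm_num) (by norm_num)
    · exact e3a_coprime (a1 := -17) (a0 := 17946492) (b1 := -1547) (b0 := 1653951012)
        (by simp [sb]; norm_num) (by simp [sb]; norm_num) (by simp [sb]; norm_num)
        (by simp [sb]; norm_num) (by norm_num)
    · exact e3a_coprime (a1 := -18) (a0 := 19021608) (b1 := -1944) (b0 := 2080772064)
        (by simp [sb]; norm_num) (by simp [sb]; norm_num) (by simp [sb]; norm_num)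
        (by simp [sb]; norm_num) (by norm_num)

end Pool.Agent.H66.CY
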