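import Pool.Agent.H66.CY.E2
import Pool.Agent.H66.CY.E3a

/-!
Induction on `r`: apply `step` at `i = 0, 2, 1, 3` (`s = -12, -10, -7, -9`); the values are
`-6 → 18 → -8 → 15 → -6`, none is an `sb j`. From `(e, m)` with `e = 1 + 6 r²` and `m` as in the statement
one gets the same with `r + 1`: put `R = r ^ 2` and use `omega` (`r ≤ R`, `(r + 1) ^ 2 = R + 2 r + 1`).
-/

set_option autoImplicit false

open Polynomial

namespace Pool.Agent.H66.CY

private theorem e3_step {e : ℕ} {s t : ℤ} {φ : Fin 3 → ℂ[X]} {m : Fin 9 → ℕ} (h : Sec e (s : ℂ) φ)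
    (hm : ∀ j, HasM φ j (m j)) (i : Fin 9) (ht : -s - sb i = t) (hne : ∀ j, t ≠ sb j) :
    ∃ (φ' : Fin 3 → ℂ[X]) (e' : ℕ) (m' : Fin 9 → ℕ), Sec e' (t : ℂ) φ' ∧
      (∀ j, HasM φ' j (m' j)) ∧ e' + 3 * m i = 1 + 2 * e ∧ m' i + 2 * m i = 1 + e ∧
      ∀ j, j ≠ i → m' j + m i + m j = e := by
  have h1 : (-(s : ℂ) - (sb i : ℂ)) = (t : ℂ) := by
    rw [← ht]
    push_cast
    ring
  have h2 : ∀ j, -(s : ℂ) - (sb i : ℂ) ≠ sb j := by
    intro j hj
    rw [h1] at hj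
    exact hne j (by exact_mod_cast hj)
  obtain ⟨φ', e', m', h3, h4⟩ := step h hm i h2
  rw [h1] at h3
  exact ⟨φ', e', m', h3, h4⟩

theorem sections (r : ℕ) : ∃ (φ : Fin 3 → ℂ[X]) (m : Fin 9 → ℕ), Sec (1 + 6 * r ^ 2) (-6) φ ∧
    (∀ j, HasM φ j (m j)) ∧ m 0 + r = 2 * r ^ 2 ∧ m 1 + r = 2 * r ^ 2 ∧ m 2 = 2 * r ^ 2 + r ∧
    m 3 = 2 * r ^ 2 + r ∧ m 4 = 2 * r ^ 2 + 1 ∧ m 5 = 2 * r ^ 2 + 1 ∧ m 6 = 2 * r ^ 2 ∧
    m 7 = 2 * r ^ 2 ∧ m 8 = 2 * r ^ 2 := by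
  induction r with
  | zero =>
    obtain ⟨φ, h1, h2⟩ := start
    exact ⟨φ, fun j => if j = 4 ∨ j = 5 then 1 else 0, h1, h2, by decide⟩
  | succ r ih =>
    obtain ⟨φ, m, h1, h2, q0, q1, q2, q3, q4, q5, q6, q7, q8⟩ := ih
    have e6 : (-6 : ℂ) = ((-6 : ℤ) : ℂ) := by norm_num
    rw [e6] at h1
    obtain ⟨φ1, e1, m1, a1, a2, a3, a4, a5⟩ := e3_step (t := 18) h1 h2 0 (by decide) (by decide)
    obtain ⟨φ2, e2, m2, b1, b2, b3, b4, b5⟩ := e3_step (t := -8) a1 a2 2 (by decide) (by decide)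
    obtain ⟨φ3, e3, m3, c1, c2, c3, c4, c5⟩ := e3_step (t := 15) b1 b2 1 (by decide) (by decide)
    obtain ⟨φ4, e4, m4, d1, d2, d3, d4, d5⟩ := e3_step (t := -6) c1 c2 3 (by decide) (by decide)
    obtain ⟨R, hR⟩ : ∃ R, R = r ^ 2 := ⟨_, rfl⟩
    have hR' : (r + 1) ^ 2 = R + 2 * r + 1 := by
      rw [hR]
      ring
    rw [← hR] at q0 q1 q2 q3 q4 q5 q6 q7 q8 a3 a4 a5
    rw [hR']
    have f1 := a5 1 (by decide)
    have f2 := a5 2 (by decide)
    have f3 := a5 3 (by decide)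
    have f4 := a5 4 (by decide)
    have f5 := a5 5 (by decide)
    have f6 := a5 6 (by decide)
    have f7 := a5 7 (by decide)
    have f8 := a5 8 (by decide)
    have g0 := b5 0 (by decide)
    have g1 := b5 1 (by decide)
    have g3 := b5 3 (by decide)
    have g4 := b5 4 (by decide)
    have g5 := b5 5 (by decide)
    have g6 := b5 6 (by decide)
    have g7 := b5 7 (by decide)
    have g8 := b5 8 (by decide)
    have k0 := c5 0 (by decide)
    have k2 := c5 2 (by decide)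
    have k3 := c5 3 (by decide)
    have k4 := c5 4 (by decide)
    have k5 := c5 5 (by decide)
    have k6 := c5 6 (by decide)
    have k7 := c5 7 (by decide)
    have k8 := c5 8 (by decide)
    have l0 := d5 0 (by decide)
    have l1 := d5 1 (by decide)
    have l2 := d5 2 (by decide)
    have l4 := d5 4 (by decide)
    have l5 := d5 5 (by decide)
    have l6 := d5 6 (by decide)
    have l7 := d5 7 (by decide)
    have l8 := d5 8 (by decide)
    clear a5 b5 c5 d5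
    have he : e4 = 1 + 6 * (R + 2 * r + 1) := by omega
    rw [he] at d1
    rw [e6]
    refine ⟨φ4, m4, d1, d2, ?_, ?_, ?_, ?_, ?_, ?_, ?_, ?_, ?_⟩ <;> omega

end Pool.Agent.H66.CY
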