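import Pool.Agent.H66.CY.E1

/-!
`c3 φ = γ ∏ ε j` divides `c4 φ`: `φ = lin z (ε j) P Y`, so by `c4_lin` and `c4_sb` (`map_c4`, `map_pt` to
pass from `ℂ` to constants) `ε j ∣ c4 φ`; pairwise coprime (`pair`). Degree: the coefficient of
`X ^ (4 e)` of `c4 φ` is `c4` of the vector of the coefficients of `X ^ e`, `ζ ^ 4 * c4 (pt (-6)) = 0`
(`c4_six`), so `natDegree (c4 φ) ≤ 4 e - 1`, and `natDegree (c3 φ) = 3 e - 1` (`c3_deg`).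
-/

set_option autoImplicit false

open Polynomial

namespace Pool.Agent.H66.CY

private def e4_T (e k : ℕ) (p : ℂ[X]) (c : ℂ) : Prop := p.natDegree ≤ k * e ∧ p.coeff (k * e) = c

private theorem e4_mul {e k l : ℕ} {p q : ℂ[X]} {a b : ℂ} (h : e4_T e k p a) (h' : e4_T e l q b) :
    e4_T e (k + l) (p * q) (a * b) := by
  unfold e4_T at *
  rw [add_mul]
  refine ⟨natDegree_mul_le_of_le h.1 h'.1, ?_⟩
  rw [coeff_mul_add_eq_of_natDegree_le h.1 h'.1, h.2, h'.2]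

private theorem e4_add {e k : ℕ} {p q : ℂ[X]} {a b : ℂ} (h : e4_T e k p a) (h' : e4_T e k q b) :
    e4_T e k (p + q) (a + b) := by
  unfold e4_T at *
  refine ⟨natDegree_add_le_of_degree_le h.1 h'.1, ?_⟩
  rw [coeff_add, h.2, h'.2]

private theorem e4_sub {e k : ℕ} {p q : ℂ[X]} {a b : ℂ} (h : e4_T e k p a) (h' : e4_T e k q b) :
    e4_T e k (p - q) (a - b) := by
  unfold e4_T at *
  refine ⟨(natDegree_sub_le _ _).trans (max_le h.1 h'.1), ?_⟩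
  rw [coeff_sub, h.2, h'.2]

private theorem e4_pow2 {e : ℕ} {p : ℂ[X]} {a : ℂ} (h : e4_T e 1 p a) : e4_T e 2 (p ^ 2) (a ^ 2) := by
  rw [pow_two, pow_two]
  exact e4_mul h h

private theorem e4_pow3 {e : ℕ} {p : ℂ[X]} {a : ℂ} (h : e4_T e 1 p a) : e4_T e 3 (p ^ 3) (a ^ 3) := by
  rw [pow_succ, pow_succ a]
  exact e4_mul (e4_pow2 h) h

private theorem e4_pow4 {e : ℕ} {p : ℂ[X]} {a : ℂ} (h : e4_T e 1 p a) : e4_T e 4 (p ^ 4) (a ^ 4) := by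
  rw [pow_succ, pow_succ a]
  exact e4_mul (e4_pow3 h) h

private theorem e4_num {e k : ℕ} {p : ℂ[X]} {a : ℂ} (n : ℕ) [n.AtLeastTwo] (h : e4_T e k p a) :
    e4_T e k ((OfNat.ofNat n : ℂ[X]) * p) ((OfNat.ofNat n : ℂ) * a) := by
  have h1 : (OfNat.ofNat n : ℂ[X]) = C (OfNat.ofNat n : ℂ) := (map_ofNat C n).symm
  rw [h1]
  unfold e4_T at *
  refine ⟨(natDegree_C_mul_le _ _).trans h.1, ?_⟩
  rw [coeff_C_mul, h.2]

private theorem e4_c4 {e : ℕ} {φ : Fin 3 → ℂ[X]} {u : Fin 3 → ℂ} (h : ∀ i, e4_T e 1 (φ i) (u i)) :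
    e4_T e 4 (c4 φ) (c4 u) := by
  unfold c4
  have m1 : e4_T e 4 (φ 1 ^ 4) (u 1 ^ 4) := e4_pow4 (h 1)
  have m2 : e4_T e 4 (φ 0 * φ 1 ^ 3) (u 0 * u 1 ^ 3) := e4_mul (h 0) (e4_pow3 (h 1))
  have m3 : e4_T e 4 (φ 1 ^ 3 * φ 2) (u 1 ^ 3 * u 2) := e4_mul (e4_pow3 (h 1)) (h 2)
  have m4 : e4_T e 4 (φ 0 ^ 2 * φ 1 ^ 2) (u 0 ^ 2 * u 1 ^ 2) := e4_mul (e4_pow2 (h 0)) (e4_pow2 (h 1))
  have m5 : e4_T e 4 (φ 0 * φ 1 ^ 2 * φ 2) (u 0 * u 1 ^ 2 * u 2) :=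
    e4_mul (e4_mul (h 0) (e4_pow2 (h 1))) (h 2)
  have m6 : e4_T e 4 (φ 1 ^ 2 * φ 2 ^ 2) (u 1 ^ 2 * u 2 ^ 2) := e4_mul (e4_pow2 (h 1)) (e4_pow2 (h 2))
  have m7 : e4_T e 4 (φ 0 ^ 2 * φ 1 * φ 2) (u 0 ^ 2 * u 1 * u 2) :=
    e4_mul (e4_mul (e4_pow2 (h 0)) (h 1)) (h 2)
  have m8 : e4_T e 4 (φ 0 * φ 1 * φ 2 ^ 2) (u 0 * u 1 * u 2 ^ 2) :=
    e4_mul (e4_mul (h 0) (h 1)) (e4_pow2 (h 2))
  have m9 : e4_T e 4 (φ 1 * φ 2 ^ 3) (u 1 * u 2 ^ 3) := e4_mul (h 1) (e4_pow3 (h 2))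
  have m10 : e4_T e 4 (φ 0 ^ 2 * φ 2 ^ 2) (u 0 ^ 2 * u 2 ^ 2) := e4_mul (e4_pow2 (h 0)) (e4_pow2 (h 2))
  have m11 : e4_T e 4 (φ 0 * φ 2 ^ 3) (u 0 * u 2 ^ 3) := e4_mul (h 0) (e4_pow3 (h 2))
  have m12 : e4_T e 4 (φ 2 ^ 4) (u 2 ^ 4) := e4_pow4 (h 2)
  exact e4_add (e4_sub (e4_sub (e4_add (e4_add (e4_sub (e4_sub (e4_add (e4_add (e4_sub (e4_sub m1
    (e4_num 446 m2)) (e4_num 260 m3)) (e4_num 76093 m4)) (e4_num 88660 m5)) (e4_num 6161328 m6))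
    (e4_num 10234640 m7)) (e4_num 234902256 m8)) (e4_num 445386240 m9)) (e4_num 3542386176 m10))
    (e4_num 4852224000 m11)) (e4_num 17244057600 m12)

theorem exists_delta {e : ℕ} {φ : Fin 3 → ℂ[X]} {ε a b : Fin 9 → ℂ[X]} (h : Sec e (-6) φ)
    (hm : ∀ j, Mult φ (sb j) (ε j) (a j) (b j)) :
    ∃ δ : ℂ[X], c4 φ = δ * c3 φ ∧ δ.natDegree ≤ e := by
  have h1 : ∀ j, ε j ∣ c4 φ := by
    intro j
    have h2 : c4 φ = c4 (lin (φ 2) (ε j) (pt (C (sb j : ℂ))) ![a j, b j, 0]) := by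
      rw [← (hm j).eq_lin]
    have h3 : c4 (pt (C (sb j : ℂ))) = 0 := by
      have h4 := map_c4 (C : ℂ →+* ℂ[X]) (pt (sb j : ℂ))
      rw [c4_sb, map_zero, map_pt] at h4
      exact h4.symm
    rw [h2, c4_lin, h3]
    refine ⟨φ 2 ^ 3 * dot (c4g (pt (C (sb j : ℂ)))) ![a j, b j, 0] +
      φ 2 ^ 2 * ε j * (c4 (lin 1 1 (pt (C (sb j : ℂ))) ![a j, b j, 0]) - 0 -
        dot (c4g (pt (C (sb j : ℂ)))) ![a j, b j, 0] - dot (c4g ![a j, b j, 0]) (pt (C (sb j : ℂ))) -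
        c4 ![a j, b j, 0]) +
      φ 2 * ε j ^ 2 * dot (c4g ![a j, b j, 0]) (pt (C (sb j : ℂ))) + ε j ^ 3 * c4 ![a j, b j, 0], ?_⟩
    ring
  obtain ⟨γ, hγ, hf⟩ := factor h hm
  have h2 : ∏ j, ε j ∣ c4 φ := by
    refine Finset.prod_dvd_of_coprime ?_ fun j _ => h1 j
    intro i _ j _ hij
    exact pair h hm hij
  obtain ⟨ρ, hρ⟩ := h2
  have hδ : c4 φ = (C γ⁻¹ * ρ) * c3 φ := by
    rw [hf, hρ]
    have h3 : C γ⁻¹ * C γ = (1 : ℂ[X]) := by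
      rw [← C_mul, inv_mul_cancel₀ hγ, C_1]
    linear_combination (-(ρ * ∏ j, ε j)) * h3
  refine ⟨C γ⁻¹ * ρ, hδ, ?_⟩
  obtain ⟨δ, hδ'⟩ : ∃ δ, δ = C γ⁻¹ * ρ := ⟨_, rfl⟩
  rw [← hδ'] at hδ ⊢
  by_cases h0 : δ = 0
  · rw [h0, natDegree_zero]
    exact Nat.zero_le _
  obtain ⟨h3, h4⟩ := c3_deg h
  have h5 : (c4 φ).natDegree = δ.natDegree + (c3 φ).natDegree := by
    rw [hδ, natDegree_mul h0 h3]
  have h6 : e4_T e 4 (c4 φ) (c4 (fun i => (φ i).coeff e)) := by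
    refine e4_c4 fun i => ⟨?_, ?_⟩
    · rw [one_mul]
      exact h.deg i
    · rw [one_mul]
  have h7 : c4 (fun i => (φ i).coeff e) = 0 := by
    have h8 : (fun i => (φ i).coeff e) = fun i => (φ 2).coeff e * pt (-6 : ℂ) i := by
      funext i
      fin_cases i
      · show (φ 0).coeff e = (φ 2).coeff e * (-6)
        rw [h.lead0]
        ring
      · show (φ 1).coeff e = (φ 2).coeff e * (-6) ^ 3
        rw [h.lead1]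
        ring
      · show (φ 2).coeff e = (φ 2).coeff e * 1
        ring
    rw [h8]
    have h9 : ∀ (z : ℂ) (v : Fin 3 → ℂ), c4 (fun i => z * v i) = z ^ 4 * c4 v := by
      intro z v
      simp only [c4]
      ring
    rw [h9, c4_six, mul_zero]
  rw [h7] at h6
  obtain ⟨h8, h9⟩ := h6
  have h10 : (c4 φ).natDegree ≠ 4 * e := by
    intro h11
    rw [← h11] at h9
    have h12 : c4 φ = 0 := leadingCoeff_eq_zero.1 h9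
    rw [hδ] at h12
    rcases mul_eq_zero.1 h12 with h13 | h13
    · exact h0 h13
    · exact h3 h13
  omega

end Pool.Agent.H66.CY
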