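import Pool.Agent.H66.CY.E1a

/-!
Local analysis at `s = s_j`; `P = pt (C s)`, `Y = (a, b, 0)`, `z = φ 2`, `N₃ = c3g P`, `N₄ = c4g P`
(constants), `V = z N₄ - δ N₃`. `V · P = 0` (Euler and `c4_sb`, `c3_pt`), so
`V · η = V 0 (η 0 - s η 2) + V 1 (η 1 - s³ η 2)`.
* `ε ∣ V · Y`: `c4 φ = δ c3 φ`, `c4_lin`, `c3_lin`: `z³ ε N₄·Y + ε² (…) = δ (z² ε N₃·Y + ε² (…))`, cancel `ε`
  (`mult_ne`), `ε ∣ z² (V · Y)`, `cop_z`.
* With `p a + q b = 1` put `κ = p V 1 - q V 0`; `V 0 + κ b = p (V · Y)`, `V 1 - κ a = q (V · Y)`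
  (`V · Y = V 0 a + V 1 b`): `ε ∣ V 0 + κ b`, `ε ∣ V 1 - κ a`. So `ε ∣ V · η - κ Dd`.
* `vv φ δ i = c4g φ i - δ c3g φ i` is `z³ N₄ i - δ z² N₃ i = z² V i` modulo `ε` (`c4g_lin`, `c3g_lin`).
* `N₃ 0 V 1 - N₃ 1 V 0 = z Jc s` and modulo `ε` it is `κ (N₃ 0 a + N₃ 1 b)`.
* `κ` is coprime to `ε`: by the last relation a common zero is a zero of `z Jc s`, `Jc_pt`, `cop_z`.
* `local_K`: the same with `N = Kg X P`, `N · P = 0`, `ε ∣ N · Y` (`k1_dvd`), `Kg X φ i = z² N i` modulo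
  `ε`: `κ' = z² (p N 1 - q N 0)`.
-/

set_option autoImplicit false

open Polynomial

namespace Pool.Agent.H66.CY

variable {e : ℕ} {σ : ℂ} {φ : Fin 3 → ℂ[X]} {j : Fin 9} {ε a b δ : ℂ[X]}

private theorem e5b_c4 {s : ℂ} (hb : c4 (pt s) = 0) : c4 (pt (C s : ℂ[X])) = 0 := by
  have h2 := map_c4 (C : ℂ →+* ℂ[X]) (pt s)
  rw [map_pt, hb, map_zero] at h2
  exact h2.symm

private theorem e5b_K {s : ℂ} (hb : b3 (pt s) = 0) : Kt X (pt (C s : ℂ[X])) = 0 := by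
  have h1 : b3 (pt (C s : ℂ[X])) = 0 := by
    have h2 := map_b3 (C : ℂ →+* ℂ[X]) (pt s)
    rw [map_pt, hb, map_zero] at h2
    exact h2.symm
  rw [Kt, c3_pt, h1, mul_zero, add_zero]

private theorem e5b_J (s : ℂ) : c3g (pt (C s : ℂ[X])) 0 * c4g (pt (C s : ℂ[X])) 1 -
    c3g (pt (C s : ℂ[X])) 1 * c4g (pt (C s : ℂ[X])) 0 = C (Jc s) := by
  rw [Jc, C_sub, C_mul, C_mul]
  have h3 := fun i => map_c3g (C : ℂ →+* ℂ[X]) (pt s) i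
  have h4 := fun i => map_c4g (C : ℂ →+* ℂ[X]) (pt s) i
  simp only [map_pt] at h3 h4
  rw [h3, h3, h4, h4]

/-- The common algebra of `local_v` and `local_K`. -/
private theorem e5b_alg {s ε a b p q z r : ℂ[X]} {V v : Fin 3 → ℂ[X]} (hpq : p * a + q * b = 1)
    (hV2 : s * V 0 + s ^ 3 * V 1 + V 2 = 0) (hV : V 0 * a + V 1 * b = ε * r)
    (hv : ∀ i, ε ∣ v i - z * V i) (η : Fin 3 → ℂ[X]) :
    ε ∣ dot v η - z * (p * V 1 - q * V 0) *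
      (a * (η 1 - s ^ 3 * η 2) - b * (η 0 - s * η 2)) := by
  obtain ⟨r0, h0⟩ := hv 0
  obtain ⟨r1, h1⟩ := hv 1
  obtain ⟨r2, h2⟩ := hv 2
  refine ⟨r0 * η 0 + r1 * η 1 + r2 * η 2 +
    z * r * (p * (η 0 - s * η 2) + q * (η 1 - s ^ 3 * η 2)), ?_⟩
  unfold dot
  linear_combination η 0 * h0 + η 1 * h1 + η 2 * h2 + z * η 2 * hV2 +
    z * (p * (η 0 - s * η 2) + q * (η 1 - s ^ 3 * η 2)) * hV -
    z * (V 0 * (η 0 - s * η 2) + V 1 * (η 1 - s ^ 3 * η 2)) * hpq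

theorem local_v (h : Sec e σ φ) (hm : Mult φ (sb j) ε a b) (hδ : c4 φ = δ * c3 φ) :
    ∃ κ : ℂ[X], IsCoprime κ ε ∧
      (∀ η : Fin 3 → ℂ[X], ε ∣ dot (vv φ δ) η - φ 2 ^ 2 * κ * Dd (sb j) a b η) ∧
      ε ∣ κ * dot (c3g (pt (C (sb j : ℂ)))) ![a, b, 0] - C (Jc (sb j : ℂ)) * φ 2 := by
  obtain ⟨p, q, hpq⟩ := hm.cop
  obtain ⟨P, hP⟩ : ∃ P : Fin 3 → ℂ[X], P = pt (C (sb j : ℂ)) := ⟨_, rfl⟩
  obtain ⟨Y, hY⟩ : ∃ Y : Fin 3 → ℂ[X], Y = ![a, b, 0] := ⟨_, rfl⟩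
  have hφ : φ = lin (φ 2) ε P Y := by rw [hP, hY]; exact hm.eq_lin
  have hc3 : c3 P = 0 := by rw [hP]; exact c3_pt _
  have hc4 : c4 P = 0 := by rw [hP]; exact e5b_c4 (c4_sb j)
  have hP0 : P 0 = C (sb j : ℂ) := by rw [hP]; simp [pt]
  have hP1 : P 1 = C (sb j : ℂ) ^ 3 := by rw [hP]; simp [pt]
  have hP2 : P 2 = 1 := by rw [hP]; simp [pt]
  have hY0 : Y 0 = a := by rw [hY]; rfl
  have hY1 : Y 1 = b := by rw [hY]; rfl
  have hY2 : Y 2 = 0 := by rw [hY]; rfl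
  obtain ⟨V, hVd⟩ : ∃ V : Fin 3 → ℂ[X], V = fun i => φ 2 * c4g P i - δ * c3g P i := ⟨_, rfl⟩
  have hV2 : C (sb j : ℂ) * V 0 + C (sb j : ℂ) ^ 3 * V 1 + V 2 = 0 := by
    have e4 := c4_euler P
    have e3 := c3_euler P
    rw [hc4] at e4
    rw [hc3] at e3
    simp only [dot, hP0, hP1, hP2] at e4 e3
    rw [hVd]
    simp only
    linear_combination φ 2 * e4 - δ * e3
  have hVY : ∃ r, V 0 * a + V 1 * b = ε * r := by
    have h1 := hδ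
    rw [hφ] at h1
    rw [c4_lin, c3_lin, hc4, hc3] at h1
    have h2 : ε * (φ 2 ^ 2 * (V 0 * a + V 1 * b) + ε *
        (φ 2 ^ 2 * (c4 (lin 1 1 P Y) - 0 - dot (c4g P) Y - dot (c4g Y) P - c4 Y) +
          φ 2 * ε * dot (c4g Y) P + ε ^ 2 * c4 Y
          - δ * (φ 2 * dot (c3g Y) P + ε * c3 Y))) = 0 := by
      have d4 : dot (c4g P) Y = c4g P 0 * a + c4g P 1 * b := by
        simp only [dot, hY0, hY1, hY2]; ring
      have d3 : dot (c3g P) Y = c3g P 0 * a + c3g P 1 * b := by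
        simp only [dot, hY0, hY1, hY2]; ring
      rw [hVd]
      rw [d4, d3] at h1
      rw [d4]
      linear_combination h1
    have h3 := (mul_eq_zero.1 h2).resolve_left (mult_ne h hm)
    have h4 : ε ∣ φ 2 ^ 2 * (V 0 * a + V 1 * b) := ⟨_, eq_neg_of_add_eq_zero_left h3 |>.trans
      (mul_neg _ _).symm⟩
    obtain ⟨r, hr⟩ := ((cop_z h hm).symm.pow_right).dvd_of_dvd_mul_left h4
    exact ⟨r, hr⟩
  obtain ⟨r, hr⟩ := hVY
  have hvv : ∀ i, ε ∣ vv φ δ i - φ 2 ^ 2 * V i := by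
    intro i
    have h4 := c4g_lin (φ 2) ε P Y i
    have h3 := c3g_lin (φ 2) ε P Y i
    rw [← hφ] at h4 h3
    have h5 := dvd_sub h4 (h3.mul_left δ)
    have h6 : vv φ δ i - φ 2 ^ 2 * V i = c4g φ i - φ 2 ^ 3 * c4g P i -
        δ * (c3g φ i - φ 2 ^ 2 * c3g P i) := by
      rw [hVd]
      simp only [vv]
      ring
    rw [h6]
    exact h5
  have hlast : ε ∣ (p * V 1 - q * V 0) * dot (c3g P) Y - C (Jc (sb j : ℂ)) * φ 2 := by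
    refine ⟨r * (p * c3g P 1 - q * c3g P 0), ?_⟩
    have hJ := e5b_J (sb j : ℂ)
    rw [← hP] at hJ
    have hV0 : V 0 = φ 2 * c4g P 0 - δ * c3g P 0 := by rw [hVd]
    have hV1 : V 1 = φ 2 * c4g P 1 - δ * c3g P 1 := by rw [hVd]
    simp only [dot, hY0, hY1, hY2]
    linear_combination φ 2 * hJ + (p * c3g P 1 - q * c3g P 0) * hr
      + (c3g P 0 * V 1 - c3g P 1 * V 0) * hpq + c3g P 0 * hV1 - c3g P 1 * hV0
  refine ⟨p * V 1 - q * V 0, ?_, fun η => ?_, by rw [← hP, ← hY]; exact hlast⟩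
  · obtain ⟨r', hr'⟩ := hlast
    have h7 : IsCoprime (C (Jc (sb j : ℂ)) * φ 2) ε := by
      refine IsCoprime.mul_left ?_ (cop_z h hm)
      exact ⟨C (Jc (sb j : ℂ))⁻¹, 0, by
        rw [zero_mul, add_zero, ← C_mul, inv_mul_cancel₀ (Jc_pt j), C_1]⟩
    have h8 : (p * V 1 - q * V 0) * dot (c3g P) Y = C (Jc (sb j : ℂ)) * φ 2 + ε * r' := by
      linear_combination hr'
    have h9 : IsCoprime ((p * V 1 - q * V 0) * dot (c3g P) Y) ε := by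
      rw [h8]
      exact h7.add_mul_left_left r'
    exact h9.of_mul_left_left
  · have := e5b_alg hpq hV2 hr hvv η
    unfold Dd
    exact this

theorem local_K (h : Sec e σ φ) (hm : Mult φ (sb j) ε a b) :
    ∃ κ : ℂ[X], ∀ η : Fin 3 → ℂ[X], ε ∣ dot (Kg X φ) η - κ * Dd (sb j) a b η := by
  obtain ⟨p, q, hpq⟩ := hm.cop
  obtain ⟨P, hP⟩ : ∃ P : Fin 3 → ℂ[X], P = pt (C (sb j : ℂ)) := ⟨_, rfl⟩
  obtain ⟨Y, hY⟩ : ∃ Y : Fin 3 → ℂ[X], Y = ![a, b, 0] := ⟨_, rfl⟩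
  have hφ : φ = lin (φ 2) ε P Y := by rw [hP, hY]; exact hm.eq_lin
  have hP0 : P 0 = C (sb j : ℂ) := by rw [hP]; simp [pt]
  have hP1 : P 1 = C (sb j : ℂ) ^ 3 := by rw [hP]; simp [pt]
  have hP2 : P 2 = 1 := by rw [hP]; simp [pt]
  have hK0 : Kt X P = 0 := by rw [hP]; exact e5b_K (b3_sb j)
  obtain ⟨r, hr⟩ := k1_dvd h hm
  have hV : Kg X P 0 * a + Kg X P 1 * b = ε * r := by
    rw [← hr, ← hP]
    simp [dot]
  have hV2 : C (sb j : ℂ) * Kg X P 0 + C (sb j : ℂ) ^ 3 * Kg X P 1 + Kg X P 2 = 0 := by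
    have e := Kt_euler X P
    rw [hK0] at e
    simp only [dot, hP0, hP1, hP2] at e
    linear_combination e
  have hvv : ∀ i, ε ∣ Kg X φ i - φ 2 ^ 2 * Kg X P i := by
    intro i
    have h4 := b3g_lin (φ 2) ε P Y i
    have h3 := c3g_lin (φ 2) ε P Y i
    rw [← hφ] at h4 h3
    have h5 := dvd_add (h3.mul_left X) h4
    have h6 : Kg X φ i - φ 2 ^ 2 * Kg X P i = X * (c3g φ i - φ 2 ^ 2 * c3g P i) +
        (b3g φ i - φ 2 ^ 2 * b3g P i) := by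
      simp only [Kg]
      ring
    rw [h6]
    exact h5
  refine ⟨φ 2 ^ 2 * (p * Kg X P 1 - q * Kg X P 0), fun η => ?_⟩
  have := e5b_alg hpq hV2 hV hvv η
  unfold Dd
  exact this

end Pool.Agent.H66.CY
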