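import Pool.Agent.H66.CY.E5a
import Pool.Agent.H66.CY.E5b

/-!
* `dvd_K`: for every `j`: `ε j ∣ c3 φ`, so `ε j ∣ dot (vv φ δ) η`, `ε j ∣ φ 2 ^ 2 * κ * Dd`, so `ε j ∣ Dd`
  (`local_v`, `cop_z`), so `ε j ∣ dot (Kg X φ) η` (`local_K`); pairwise coprime, `factor`.
* `kernel`: `dot (Kg X φ) η = c3 φ * g`, `g.natDegree ≤ 2` (degree of the left side `≤ 3 e + 1`, `c3_deg`),
  `g = C c0 + C c1 * X + C c2 * X ^ 2`. Put `η' i = η i + g * derivative (φ i) - C (e * c2) * X * φ i`: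
  `natDegree (η' i) ≤ e` (the coefficient of `X ^ (e + 1)` is `c2 e (φ i).coeff e - e c2 (φ i).coeff e = 0`),
  `dot (Kg X φ) η' = c3 φ g - g c3 φ - 0 = 0` (`deriv_eqn`, `Kt_euler`). The vector product `w = φ × η'`
  satisfies `Kg X φ i * w k = Kg X φ k * w i` (as both are orthogonal to `φ` and `η'`), so `w = ζ Kg X φ`
  (`parallel`, `grad_prim`), and `ζ = 0` by degrees (`w 1` has degree `≤ 2 e`, `grad_deg`). So `φ × η' = 0`,
  `η' = d φ` (`parallel`, `h.prim`), `d` is a constant by the degree of `φ 2`. Then with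
  `p = C d + C (e * c2) * X`: `η i = p * φ i - g * derivative (φ i)`; `dot (vv φ δ) φ = 4 c4 φ - 3 δ c3 φ =
  δ c3 φ`, `dot (vv φ δ) φ' = δ' c3 φ` (derivative of `hδ`), so `c3 φ * ω = - p δ c3 φ + g δ' c3 φ`.
-/

set_option autoImplicit false

open Polynomial

namespace Pool.Agent.H66.CY

variable {e : ℕ} {σ : ℂ} {φ : Fin 3 → ℂ[X]} {ε a b : Fin 9 → ℂ[X]} {δ : ℂ[X]}

private theorem e5_deg2 {p q : ℂ[X]} {m n : ℕ} (hp : p.natDegree ≤ m) (hq : q.natDegree ≤ n) :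
    (p * q).natDegree ≤ m + n :=
  natDegree_mul_le_of_le hp hq

private theorem e5_quad (hφ : ∀ i, (φ i).natDegree ≤ e) (n0 n1 n2 n3 n4 n5 : ℤ) :
    ((n0 : ℂ[X]) * (φ 0 * φ 0) + (n1 : ℂ[X]) * (φ 1 * φ 1) + (n2 : ℂ[X]) * (φ 2 * φ 2) +
      (n3 : ℂ[X]) * (φ 0 * φ 1) + (n4 : ℂ[X]) * (φ 0 * φ 2) +
      (n5 : ℂ[X]) * (φ 1 * φ 2)).natDegree ≤ 2 * e := by
  have hC : ∀ (n : ℤ) (i j : Fin 3), ((n : ℂ[X]) * (φ i * φ j)).natDegree ≤ 2 * e := by
    intro n i j
    have h1 := e5_deg2 (p := (n : ℂ[X])) (q := φ i * φ j) (m := 0) (n := e + e)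
      (by rw [natDegree_intCast]) (e5_deg2 (hφ i) (hφ j))
    omega
  exact natDegree_add_le_of_degree_le (natDegree_add_le_of_degree_le
    (natDegree_add_le_of_degree_le (natDegree_add_le_of_degree_le
    (natDegree_add_le_of_degree_le (hC _ _ _) (hC _ _ _)) (hC _ _ _)) (hC _ _ _)) (hC _ _ _))
    (hC _ _ _)

private theorem e5_c3g (hφ : ∀ i, (φ i).natDegree ≤ e) (i : Fin 3) :
    (c3g φ i).natDegree ≤ 2 * e := by
  fin_cases i
  · have h1 := e5_quad hφ (-3) 0 0 0 0 0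
    have h2 : c3g φ 0 = ((-3 : ℤ) : ℂ[X]) * (φ 0 * φ 0) + ((0 : ℤ) : ℂ[X]) * (φ 1 * φ 1) +
        ((0 : ℤ) : ℂ[X]) * (φ 2 * φ 2) + ((0 : ℤ) : ℂ[X]) * (φ 0 * φ 1) +
        ((0 : ℤ) : ℂ[X]) * (φ 0 * φ 2) + ((0 : ℤ) : ℂ[X]) * (φ 1 * φ 2) := by
      simp only [c3g, Matrix.cons_val_zero]
      push_cast
      ring
    exact (congrArg natDegree h2).le.trans h1
  · have h1 := e5_quad hφ 0 0 1 0 0 0
    have h2 : c3g φ 1 = ((0 : ℤ) : ℂ[X]) * (φ 0 * φ 0) + ((0 : ℤ) : ℂ[X]) * (φ 1 * φ 1) +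
        ((1 : ℤ) : ℂ[X]) * (φ 2 * φ 2) + ((0 : ℤ) : ℂ[X]) * (φ 0 * φ 1) +
        ((0 : ℤ) : ℂ[X]) * (φ 0 * φ 2) + ((0 : ℤ) : ℂ[X]) * (φ 1 * φ 2) := by
      simp only [c3g, Matrix.cons_val_one, Matrix.cons_val_zero]
      push_cast
      ring
    exact (congrArg natDegree h2).le.trans h1
  · have h1 := e5_quad hφ 0 0 0 0 0 2
    have h2 : c3g φ 2 = ((0 : ℤ) : ℂ[X]) * (φ 0 * φ 0) + ((0 : ℤ) : ℂ[X]) * (φ 1 * φ 1) +
        ((0 : ℤ) : ℂ[X]) * (φ 2 * φ 2) + ((0 : ℤ) : ℂ[X]) * (φ 0 * φ 1) +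
        ((0 : ℤ) : ℂ[X]) * (φ 0 * φ 2) + ((2 : ℤ) : ℂ[X]) * (φ 1 * φ 2) := by
      simp only [c3g, Matrix.cons_val]
      push_cast
      ring
    exact (congrArg natDegree h2).le.trans h1

private theorem e5_b3g (hφ : ∀ i, (φ i).natDegree ≤ e) (i : Fin 3) :
    (b3g φ i).natDegree ≤ 2 * e := by
  fin_cases i
  · have h1 := e5_quad hφ 0 (-370) 42970176 95946 2305440 (-1660)
    have h2 : b3g φ 0 = ((0 : ℤ) : ℂ[X]) * (φ 0 * φ 0) + ((-370 : ℤ) : ℂ[X]) * (φ 1 * φ 1) +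
        ((42970176 : ℤ) : ℂ[X]) * (φ 2 * φ 2) + ((95946 : ℤ) : ℂ[X]) * (φ 0 * φ 1) +
        ((2305440 : ℤ) : ℂ[X]) * (φ 0 * φ 2) + ((-1660 : ℤ) : ℂ[X]) * (φ 1 * φ 2) := by
      simp only [b3g, Matrix.cons_val_zero]
      push_cast
      ring
    exact (congrArg natDegree h2).le.trans h1
  · have h1 := e5_quad hφ 47973 3 (-2520180) (-740) (-1660) (-40)
    have h2 : b3g φ 1 = ((47973 : ℤ) : ℂ[X]) * (φ 0 * φ 0) + ((3 : ℤ) : ℂ[X]) * (φ 1 * φ 1) +
        ((-2520180 : ℤ) : ℂ[X]) * (φ 2 * φ 2) + ((-740 : ℤ) : ℂ[X]) * (φ 0 * φ 1) +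
        ((-1660 : ℤ) : ℂ[X]) * (φ 0 * φ 2) + ((-40 : ℤ) : ℂ[X]) * (φ 1 * φ 2) := by
      simp only [b3g, Matrix.cons_val_one, Matrix.cons_val_zero]
      push_cast
      ring
    exact (congrArg natDegree h2).le.trans h1
  · have h1 := e5_quad hφ 1152720 (-20) (-215550720) (-1660) 85940352 (-5040360)
    have h2 : b3g φ 2 = ((1152720 : ℤ) : ℂ[X]) * (φ 0 * φ 0) + ((-20 : ℤ) : ℂ[X]) * (φ 1 * φ 1) +
        ((-215550720 : ℤ) : ℂ[X]) * (φ 2 * φ 2) + ((-1660 : ℤ) : ℂ[X]) * (φ 0 * φ 1) +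
        ((85940352 : ℤ) : ℂ[X]) * (φ 0 * φ 2) + ((-5040360 : ℤ) : ℂ[X]) * (φ 1 * φ 2) := by
      simp only [b3g, Matrix.cons_val]
      push_cast
      ring
    exact (congrArg natDegree h2).le.trans h1

private theorem e5_Kg (hφ : ∀ i, (φ i).natDegree ≤ e) (i : Fin 3) :
    (Kg X φ i).natDegree ≤ 2 * e + 1 := by
  have h1 := e5_deg2 (p := (X : ℂ[X])) (m := 1) natDegree_X_le (e5_c3g hφ i)
  have h2 := e5_b3g hφ i
  exact natDegree_add_le_of_degree_le (h1.trans (by omega)) (h2.trans (by omega))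

theorem dvd_K (h : Sec e σ φ) (hm : ∀ j, Mult φ (sb j) (ε j) (a j) (b j))
    (hδ : c4 φ = δ * c3 φ) {η : Fin 3 → ℂ[X]} {ω : ℂ[X]}
    (h0 : dot (vv φ δ) η + c3 φ * ω = 0) : c3 φ ∣ dot (Kg X φ) η := by
  obtain ⟨γ, hγ, hc⟩ := factor h hm
  have h1 : ∀ j, ε j ∣ dot (Kg X φ) η := by
    intro j
    obtain ⟨κ, hκ, hk, -⟩ := local_v h (hm j) hδ
    obtain ⟨κ', hk'⟩ := local_K h (hm j)
    obtain ⟨r, hr⟩ := c3_eq (hm j)
    have hd : ε j ∣ dot (vv φ δ) η := by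
      have hcd : ε j ∣ c3 φ * ω := (Dvd.intro _ hr.symm).mul_right ω
      exact (dvd_add_left hcd).mp (h0 ▸ dvd_zero _)
    have hd2 : ε j ∣ φ 2 ^ 2 * κ * Dd (sb j) (a j) (b j) η :=
      (dvd_sub_right hd).mp (hk η)
    have hcop : IsCoprime (ε j) (φ 2 ^ 2 * κ) :=
      IsCoprime.mul_right ((cop_z h (hm j)).symm.pow_right) hκ.symm
    have hd3 : ε j ∣ Dd (sb j) (a j) (b j) η := hcop.dvd_of_dvd_mul_left hd2
    exact (dvd_sub_left (hd3.mul_left κ')).mp (hk' η)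
  have h2 : ∏ j, ε j ∣ dot (Kg X φ) η :=
    Finset.prod_dvd_of_coprime (fun i _ j _ hij => pair h hm hij) (fun j _ => h1 j)
  rw [hc]
  have hu : IsUnit (C γ : ℂ[X]) := Polynomial.isUnit_C.mpr (isUnit_iff_ne_zero.mpr hγ)
  exact (hu.mul_left_dvd).mpr h2

private theorem e5_shape {g : ℂ[X]} (hg : g.natDegree ≤ 2) :
    g = C (g.coeff 0) + C (g.coeff 1) * X + C (g.coeff 2) * X ^ 2 := by
  ext n
  rcases n with _ | _ | _ | n
  · simp [coeff_X, coeff_C]
  · simp [coeff_C]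
  · simp
  · have h1 : g.coeff (n + 1 + 1 + 1) = 0 := coeff_eq_zero_of_natDegree_lt (by omega)
    rw [h1]
    simp

/-- the degree of the corrected field -/
private theorem e5_corr {p f g : ℂ[X]} (he : 1 ≤ e) (hp : p.natDegree ≤ e) (hf : f.natDegree ≤ e)
    (hg : g.natDegree ≤ 2) :
    (p + g * derivative f - C ((e : ℂ) * g.coeff 2) * X * f).natDegree ≤ e := by
  have hd : (derivative f).natDegree ≤ e - 1 := (natDegree_derivative_le f).trans (by omega)
  have h1 : (g * derivative f).natDegree ≤ 2 + (e - 1) := e5_deg2 hg hd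
  have h2 : (C ((e : ℂ) * g.coeff 2) * X * f).natDegree ≤ 1 + e := by
    refine e5_deg2 ?_ hf
    exact (natDegree_C_mul_le _ _).trans natDegree_X_le
  rw [natDegree_le_iff_coeff_eq_zero]
  intro n hn
  rcases Nat.lt_or_ge (e + 1) n with h3 | h3
  · rw [coeff_sub, coeff_add, coeff_eq_zero_of_natDegree_lt (by omega : p.natDegree < n),
      coeff_eq_zero_of_natDegree_lt (by omega : (g * derivative f).natDegree < n),
      coeff_eq_zero_of_natDegree_lt
        (by omega : (C ((e : ℂ) * g.coeff 2) * X * f).natDegree < n)]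
    ring
  · have hn1 : n = e + 1 := by omega
    subst hn1
    have h4 : (g * derivative f).coeff (e + 1) = g.coeff 2 * (f.coeff e * e) := by
      have h5 := coeff_mul_add_eq_of_natDegree_le hg hd
      rw [show 2 + (e - 1) = e + 1 by omega] at h5
      rw [h5, coeff_derivative]
      have h6 : e - 1 + 1 = e := by omega
      have h7 : ((e - 1 : ℕ) : ℂ) + 1 = e := by
        exact_mod_cast congrArg (Nat.cast : ℕ → ℂ) h6
      rw [h6, h7]
    have h8 : (C ((e : ℂ) * g.coeff 2) * X * f).coeff (e + 1) =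
        (e : ℂ) * g.coeff 2 * f.coeff e := by
      rw [mul_assoc, coeff_C_mul, coeff_X_mul]
    rw [coeff_sub, coeff_add, h4, h8, coeff_eq_zero_of_natDegree_lt (by omega : p.natDegree < _)]
    ring

theorem kernel (h : Sec e σ φ) (hm : ∀ j, Mult φ (sb j) (ε j) (a j) (b j))
    (hδ : c4 φ = δ * c3 φ) {η : Fin 3 → ℂ[X]} {ω : ℂ[X]} (hη : ∀ i, (η i).natDegree ≤ e)
    (h0 : dot (vv φ δ) η + c3 φ * ω = 0) : ∃ c0 c1 c2 d : ℂ,
      (∀ i, η i = (C d + C (e * c2) * X) * φ i -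
        (C c0 + C c1 * X + C c2 * X ^ 2) * derivative (φ i)) ∧
      ω = -((C d + C (e * c2) * X) * δ -
        (C c0 + C c1 * X + C c2 * X ^ 2) * derivative δ) := by
  obtain ⟨g, hgK⟩ := dvd_K h hm hδ h0
  obtain ⟨hc0, hcd⟩ := c3_deg h
  have he := h.one_le
  have hg : g.natDegree ≤ 2 := by
    rcases eq_or_ne g 0 with hg0 | hg0
    · simp [hg0]
    · have h1 : (dot (Kg X φ) η).natDegree ≤ 3 * e + 1 := by
        have h2 : ∀ i, (Kg X φ i * η i).natDegree ≤ 3 * e + 1 := fun i =>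
          (e5_deg2 (e5_Kg h.deg i) (hη i)).trans (by omega)
        exact natDegree_add_le_of_degree_le (natDegree_add_le_of_degree_le (h2 0) (h2 1)) (h2 2)
      rw [hgK, natDegree_mul hc0 hg0] at h1
      omega
  set c2 : ℂ := g.coeff 2 with hc2
  set η' : Fin 3 → ℂ[X] := fun i =>
    η i + g * derivative (φ i) - C ((e : ℂ) * c2) * X * φ i with hη'
  have hdeg' : ∀ i, (η' i).natDegree ≤ e := fun i => e5_corr he (hη i) (h.deg i) hg
  have hK0 : dot (Kg X φ) φ = 0 := by rw [Kt_euler, h.eqn, mul_zero]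
  have hKd := deriv_eqn h
  have hK' : dot (Kg X φ) η' = 0 := by
    have h1 : dot (Kg X φ) η' = dot (Kg X φ) η + g * dot (Kg X φ) (fun i => derivative (φ i)) -
        C ((e : ℂ) * c2) * X * dot (Kg X φ) φ := by
      simp only [dot, hη']
      ring
    rw [h1, hgK, hKd, hK0]
    ring
  -- the vector product
  have hw : ∃ ζ, ∀ i, (![φ 1 * η' 2 - φ 2 * η' 1, φ 2 * η' 0 - φ 0 * η' 2,
      φ 0 * η' 1 - φ 1 * η' 0] : Fin 3 → ℂ[X]) i = ζ * Kg X φ i := by
    simp only [dot] at hK0 hK'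
    refine parallel (grad_prim h) ?_ ?_ ?_
    · simp only [Matrix.cons_val_zero, Matrix.cons_val_one]
      linear_combination φ 2 * hK' - η' 2 * hK0
    · simp only [Matrix.cons_val_zero, Matrix.cons_val]
      linear_combination (-φ 1) * hK' + η' 1 * hK0
    · simp only [Matrix.cons_val_one, Matrix.cons_val, Matrix.cons_val_zero]
      linear_combination φ 0 * hK' - η' 0 * hK0
  obtain ⟨ζ, hζ⟩ := hw
  have hζ0 : ζ = 0 := by
    by_contra hne
    have h1 := hζ 1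
    simp only [Matrix.cons_val_one, Matrix.cons_val_zero] at h1
    have hK1 := grad_deg h
    have hKne : Kg X φ 1 ≠ 0 := by
      intro h2
      rw [h2, natDegree_zero] at hK1
      omega
    have h3 : (φ 2 * η' 0 - φ 0 * η' 2).natDegree ≤ e + e :=
      (natDegree_sub_le_of_le (e5_deg2 (h.deg 2) (hdeg' 0)) (e5_deg2 (h.deg 0) (hdeg' 2))).trans
        (by omega)
    rw [h1, natDegree_mul hne hKne, hK1] at h3
    omega
  have hp := parallel (n := φ) (w := η') h.prim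
    (by
      have h1 := hζ 2
      simp only [Matrix.cons_val, hζ0] at h1
      linear_combination h1)
    (by
      have h1 := hζ 1
      simp only [Matrix.cons_val_one, Matrix.cons_val_zero, hζ0] at h1
      linear_combination -h1)
    (by
      have h1 := hζ 0
      simp only [Matrix.cons_val_zero, hζ0] at h1
      linear_combination h1)
  obtain ⟨d, hd⟩ := hp
  have hφ2 : φ 2 ≠ 0 := by
    intro h1
    apply h.lead
    rw [h1, coeff_zero]
  have hφ2d : (φ 2).natDegree = e :=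
    le_antisymm (h.deg 2) (le_natDegree_of_ne_zero h.lead)
  have hdC : d = C (d.coeff 0) := by
    apply eq_C_of_natDegree_le_zero
    rcases eq_or_ne d 0 with hd0 | hd0
    · simp [hd0]
    · have h1 := hdeg' 2
      rw [hd 2, natDegree_mul hd0 hφ2, hφ2d] at h1
      omega
  have hshape := e5_shape hg
  refine ⟨g.coeff 0, g.coeff 1, c2, d.coeff 0, ?_, ?_⟩
  · intro i
    rw [← hshape, ← hdC]
    have h1 := hd i
    simp only [hη'] at h1
    linear_combination h1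
  · rw [← hshape, ← hdC]
    have hv1 : dot (vv φ δ) φ = δ * c3 φ := by
      have h1 := c4_euler φ
      have h2 := c3_euler φ
      have h3 : dot (vv φ δ) φ = dot (c4g φ) φ - δ * dot (c3g φ) φ := by
        simp only [dot, vv]
        ring
      rw [h3, h1, h2, hδ]
      ring
    have hv2 : dot (vv φ δ) (fun i => derivative (φ i)) = derivative δ * c3 φ := by
      have h1 := deriv_c4 φ
      have h2 := deriv_c3 φ
      have h3 : dot (vv φ δ) (fun i => derivative (φ i)) =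
          dot (c4g φ) (fun i => derivative (φ i)) -
            δ * dot (c3g φ) (fun i => derivative (φ i)) := by
        simp only [dot, vv]
        ring
      rw [h3, ← h1, ← h2, hδ, derivative_mul]
      ring
    have hη2 : ∀ i, η i = (d + C ((e : ℂ) * c2) * X) * φ i - g * derivative (φ i) := by
      intro i
      have h1 := hd i
      simp only [hη'] at h1
      linear_combination h1
    have hdot : dot (vv φ δ) η = (d + C ((e : ℂ) * c2) * X) * dot (vv φ δ) φ -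
        g * dot (vv φ δ) (fun i => derivative (φ i)) := by
      simp only [dot]
      rw [hη2 0, hη2 1, hη2 2]
      ring
    apply mul_left_cancel₀ hc0
    rw [hdot, hv1, hv2] at h0
    linear_combination h0

end Pool.Agent.H66.CY
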