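import Pool.Agent.H66.CY.E1

/-!
* `parallel`: the `n i` generate the unit ideal (no common zero), `∑ r i * n i = 1`; `ζ = ∑ r i * w i`.
* `grad_prim`: `∇K(φ) = Kg X φ` has no zero: the derivative of `Kt X φ = 0` is
  `c3 φ + dot (Kg X φ) φ' = 0` (`deriv_c3`, `deriv_b3`), so at a zero `τ` of `Kg X φ` we have
  `c3 (φ(τ)) = 0`, `b3 (φ(τ)) = 0`, by `base_of_zero` `φ(τ) = ζ pt s_j`, `ζ ≠ 0`, and
  `ζ² (τ c3g (pt s_j) + b3g (pt s_j)) = 0` contradicts `Jb (sb j) ≠ 0` (`c3g_smul`, `b3g_smul`).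
* `grad_deg`: `Kg X φ 1 = X * (φ 2) ^ 2 + b3g φ 1`, and `b3g φ 1` has degree `≤ 2 e`.
-/

set_option autoImplicit false

open Polynomial

namespace Pool.Agent.H66.CY

theorem parallel {n w : Fin 3 → ℂ[X]} (hn : ∀ τ, ∃ i, (n i).eval τ ≠ 0)
    (h01 : n 0 * w 1 = n 1 * w 0) (h02 : n 0 * w 2 = n 2 * w 0) (h12 : n 1 * w 2 = n 2 * w 1) :
    ∃ ζ, ∀ i, w i = ζ * n i := by
  have htop : Ideal.span {n 0, n 1, n 2} = ⊤ := by
    by_contra hne
    obtain ⟨g, hg⟩ := (IsPrincipalIdealRing.principal (Ideal.span {n 0, n 1, n 2} : Ideal ℂ[X]))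
    change Ideal.span {n 0, n 1, n 2} = Ideal.span {g} at hg
    have hgu : ¬ IsUnit g := fun hu => hne (by rw [hg, Ideal.span_singleton_eq_top.2 hu])
    have hroot : ∃ τ, g.eval τ = 0 := by
      by_cases h0 : g = 0
      · exact ⟨0, by simp [h0]⟩
      · exact IsAlgClosed.exists_root g
          (ne_of_lt (degree_pos_of_ne_zero_of_nonunit h0 hgu)).symm
    obtain ⟨τ, hτ⟩ := hroot
    obtain ⟨i, hi⟩ := hn τ
    have hmem : n i ∈ Ideal.span {n 0, n 1, n 2} := by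
      apply Ideal.subset_span
      fin_cases i <;> simp
    rw [hg, Ideal.mem_span_singleton] at hmem
    obtain ⟨r, hr⟩ := hmem
    exact hi (by rw [hr, eval_mul, hτ, zero_mul])
  have h1 : (1 : ℂ[X]) ∈ Ideal.span {n 0, n 1, n 2} := by rw [htop]; trivial
  rw [Ideal.mem_span_insert] at h1
  obtain ⟨r0, z, hz, hz1⟩ := h1
  rw [Ideal.mem_span_pair] at hz
  obtain ⟨r1, r2, hr⟩ := hz
  have hone : r0 * n 0 + r1 * n 1 + r2 * n 2 = 1 := by
    rw [hz1, ← hr]
    ring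
  refine ⟨r0 * w 0 + r1 * w 1 + r2 * w 2, fun i => ?_⟩
  fin_cases i
  · change w 0 = (r0 * w 0 + r1 * w 1 + r2 * w 2) * n 0
    linear_combination (-w 0) * hone - r1 * h01 - r2 * h02
  · change w 1 = (r0 * w 0 + r1 * w 1 + r2 * w 2) * n 1
    linear_combination (-w 1) * hone + r0 * h01 - r2 * h12
  · change w 2 = (r0 * w 0 + r1 * w 1 + r2 * w 2) * n 2
    linear_combination (-w 2) * hone + r0 * h02 + r1 * h12

variable {e : ℕ} {σ : ℂ} {φ : Fin 3 → ℂ[X]}

theorem deriv_eqn (h : Sec e σ φ) :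
    dot (Kg X φ) (fun i => derivative (φ i)) = -c3 φ := by
  have h1 := congrArg derivative h.eqn
  rw [Kt, derivative_add, derivative_mul, derivative_X, deriv_c3, deriv_b3, derivative_zero] at h1
  simp only [dot, Kg] at h1 ⊢
  linear_combination h1

theorem grad_prim (h : Sec e σ φ) : ∀ τ, ∃ i, (Kg X φ i).eval τ ≠ 0 := by
  intro τ
  by_contra hc
  push Not at hc
  have h1 := congrArg (eval τ) (deriv_eqn h)
  rw [eval_dot, eval_neg, eval_c3] at h1
  have h2 : c3 (fun i => (φ i).eval τ) = 0 := by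
    simp only [dot, hc] at h1
    linear_combination h1
  have h3 := congrArg (eval τ) h.eqn
  have h4 : b3 (fun i => (φ i).eval τ) = 0 := by
    rw [Kt, eval_add, eval_mul, eval_X, eval_c3, eval_b3, eval_zero, h2] at h3
    linear_combination h3
  obtain ⟨hv2, j, hv0, hv1⟩ := base_of_zero (h.prim τ) h2 h4
  have hv : (fun i => (φ i).eval τ) = fun i => (φ 2).eval τ * pt (sb j : ℂ) i := by
    funext i
    fin_cases i
    · simp only [pt, Fin.zero_eta, Matrix.cons_val_zero]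
      rw [hv0]
      ring
    · simp only [pt, Fin.mk_one, Matrix.cons_val_one, Matrix.cons_val_zero]
      rw [hv1]
      ring
    · simp [pt]
  have h5 : ∀ i, τ * c3g (pt (sb j : ℂ)) i + b3g (pt (sb j : ℂ)) i = 0 := by
    intro i
    have h6 := hc i
    rw [eval_Kg, hv, eval_X, Kg, c3g_smul, b3g_smul] at h6
    have h7 : (φ 2).eval τ ^ 2 * (τ * c3g (pt (sb j : ℂ)) i + b3g (pt (sb j : ℂ)) i) = 0 := by
      linear_combination h6
    exact (mul_eq_zero.1 h7).resolve_left (pow_ne_zero _ hv2)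
  apply Jb_pt j
  unfold Jb
  linear_combination c3g (pt (sb j : ℂ)) 0 * h5 1 - c3g (pt (sb j : ℂ)) 1 * h5 0

private theorem e5a_deg_mul {p q : ℂ[X]} {m n k : ℕ} (hp : p.natDegree ≤ m) (hq : q.natDegree ≤ n)
    (h : m + n ≤ k) : (p * q).natDegree ≤ k :=
  natDegree_mul_le.trans (by omega)

private theorem e5a_deg_ofNat (n k : ℕ) [n.AtLeastTwo] :
    (OfNat.ofNat n : ℂ[X]).natDegree ≤ k := by
  rw [natDegree_ofNat]
  exact Nat.zero_le _

private theorem e5a_deg_b3g (h : Sec e σ φ) : (b3g φ 1).natDegree ≤ 2 * e := by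
  have hd := h.deg
  have hp : ∀ i, (φ i ^ 2).natDegree ≤ 2 * e := fun i =>
    natDegree_pow_le.trans (Nat.mul_le_mul_left 2 (hd i))
  have hm : ∀ i j, (φ i * φ j).natDegree ≤ 2 * e := fun i j =>
    e5a_deg_mul (hd i) (hd j) (by omega)
  have hC : ∀ (n : ℕ) [n.AtLeastTwo] (p : ℂ[X]), p.natDegree ≤ 2 * e →
      ((OfNat.ofNat n : ℂ[X]) * p).natDegree ≤ 2 * e := fun n _ p hp' =>
    e5a_deg_mul (e5a_deg_ofNat n 0) hp' (by omega)
  have hsub : ∀ p q : ℂ[X], p.natDegree ≤ 2 * e → q.natDegree ≤ 2 * e →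
      (p - q).natDegree ≤ 2 * e := fun p q hp' hq' =>
    (natDegree_sub_le _ _).trans (max_le hp' hq')
  have hadd : ∀ p q : ℂ[X], p.natDegree ≤ 2 * e → q.natDegree ≤ 2 * e →
      (p + q).natDegree ≤ 2 * e := fun p q hp' hq' =>
    (natDegree_add_le _ _).trans (max_le hp' hq')
  simp only [b3g, Matrix.cons_val_one, Matrix.cons_val_zero]
  exact hsub _ _ (hsub _ _ (hadd _ _ (hsub _ _ (hsub _ _ (hC _ _ (hp 1)) (hC _ _ (hm 0 1)))
    (hC _ _ (hm 1 2))) (hC _ _ (hp 0))) (hC _ _ (hm 0 2))) (hC _ _ (hp 2))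

theorem grad_deg (h : Sec e σ φ) : (Kg X φ 1).natDegree = 2 * e + 1 := by
  have h2 : (φ 2).natDegree = e :=
    le_antisymm (h.deg 2) (le_natDegree_of_ne_zero h.lead)
  have h20 : φ 2 ≠ 0 := by
    intro h0
    apply h.lead
    rw [h0, coeff_zero]
  have h1 : (X * φ 2 ^ 2 : ℂ[X]).natDegree = 2 * e + 1 := by
    rw [natDegree_mul X_ne_zero (pow_ne_zero _ h20), natDegree_X, natDegree_pow, h2]
    ring
  have h3 : Kg X φ 1 = X * φ 2 ^ 2 + b3g φ 1 := by
    simp [Kg, c3g]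
  rw [h3, natDegree_add_eq_left_of_natDegree_lt, h1]
  rw [h1]
  have := e5a_deg_b3g h
  omega

end Pool.Agent.H66.CY
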