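import Pool.Agent.H66.CY.E5

/-!
* `dsub_qq`: compute the partial derivatives of `qq` (`pderiv` is a derivation; `aeval` of `c3g`, `c4g`).
* `exists_functional`: linear algebra: `finrank (range T) = finrank W - finrank (ker T) ≥ finrank U - 1`,
  so `U ⧸ range T` has `finrank ≤ 1` and embeds into `ℂ`.
* `exists_lam`: `W` = the tuples of four polynomials of degree `≤ e` (`Fin 4 → degreeLT ℂ (e + 1)`,
  dimension `4 (e + 1)`), `U = degreeLT ℂ (4 e + 1)`; the image of `dsub` has degree `≤ 4 e` (entries of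
  `vv φ δ` have degree `≤ 3 e`: `c4g φ i` has degree `≤ 3 e`, `δ * c3g φ i` degree `≤ e + 2 e`). The kernel
  has dimension `≤ 4` by `kernel` (it is contained in the image of the linear map
  `(c0, c1, c2, d) ↦ …` from `Fin 4 → ℂ`). Extend the functional from `U` to `ℂ[X]`
  (`LinearMap.exists_extend`).
-/

set_option autoImplicit false

open Polynomial

namespace Pool.Agent.H66.CY

private theorem e5d_num (i : Fin 4) (n : ℕ) [n.AtLeastTwo] :
    MvPolynomial.pderiv i (ofNat(n) : MvPolynomial (Fin 4) ℂ) = 0 := by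
  have h : (OfNat.ofNat n : MvPolynomial (Fin 4) ℂ) = ((n : ℕ) : MvPolynomial (Fin 4) ℂ) := rfl
  rw [h]
  exact Derivation.map_natCast _ _

theorem dsub_qq (φ : Fin 3 → ℂ[X]) (δ : ℂ[X]) (g : Fin 4 → ℂ[X]) :
    dsub qq ![φ 0, φ 1, φ 2, -δ] g = dot (vv φ δ) ![g 0, g 1, g 2] + c3 φ * g 3 := by
  simp only [dsub, Fin.sum_univ_four, qq, c3, c4, map_add, map_sub, Derivation.leibniz,
    Derivation.leibniz_pow, MvPolynomial.pderiv_X, Matrix.cons_val_zero, Matrix.cons_val_one,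
    Matrix.cons_val, e5d_num]
  simp [dot, vv, c3g, c4g, map_ofNat]
  ring

theorem exists_functional {W U : Type} [AddCommGroup W] [Module ℂ W] [AddCommGroup U] [Module ℂ U]
    [FiniteDimensional ℂ W] [FiniteDimensional ℂ U] (T : W →ₗ[ℂ] U)
    (h : Module.finrank ℂ U + Module.finrank ℂ (LinearMap.ker T) ≤ Module.finrank ℂ W + 1) :
    ∃ lam : U →ₗ[ℂ] ℂ, ∀ u, lam u = 0 → ∃ w, T w = u := by
  have h1 := LinearMap.finrank_range_add_finrank_ker T
  have h2 := Submodule.finrank_quotient_add_finrank (LinearMap.range T)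
  have h3 : Module.finrank ℂ (U ⧸ LinearMap.range T) ≤ 1 := by omega
  rcases Nat.lt_or_ge (Module.finrank ℂ (U ⧸ LinearMap.range T)) 1 with h4 | h4
  · have h5 : Module.finrank ℂ (U ⧸ LinearMap.range T) = 0 := by omega
    have h6 : Subsingleton (U ⧸ LinearMap.range T) := Module.finrank_zero_iff.mp h5
    have h7 := Submodule.Quotient.subsingleton_iff.mp h6
    exact ⟨0, fun u _ => by
      have : u ∈ LinearMap.range T := h7 ▸ Submodule.mem_top
      exact this⟩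
  · have h5 : Module.finrank ℂ (U ⧸ LinearMap.range T) = Module.finrank ℂ ℂ := by
      rw [Module.finrank_self]
      omega
    let E := LinearEquiv.ofFinrankEq (U ⧸ LinearMap.range T) ℂ h5
    refine ⟨E.toLinearMap ∘ₗ (LinearMap.range T).mkQ, fun u hu => ?_⟩
    have h6 : (LinearMap.range T).mkQ u = 0 := by
      have : E ((LinearMap.range T).mkQ u) = 0 := hu
      exact (LinearEquiv.map_eq_zero_iff E).mp this
    have h7 : u ∈ LinearMap.range T := (Submodule.Quotient.mk_eq_zero _).mp h6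
    exact h7

private theorem e5d_deg2 {p q : ℂ[X]} {m n : ℕ} (hp : p.natDegree ≤ m) (hq : q.natDegree ≤ n) :
    (p * q).natDegree ≤ m + n :=
  natDegree_mul_le_of_le hp hq

private theorem e5d_C {p : ℂ[X]} {m : ℕ} (n : ℕ) [n.AtLeastTwo] (hp : p.natDegree ≤ m) :
    ((OfNat.ofNat n : ℂ[X]) * p).natDegree ≤ m := by
  have h1 := e5d_deg2 (p := (OfNat.ofNat n : ℂ[X])) (q := p) (m := 0) (n := m)
    (by rw [natDegree_ofNat]) hp
  simpa using h1

private theorem e5d_Cn {p : ℂ[X]} {m : ℕ} (n : ℕ) [n.AtLeastTwo] (hp : p.natDegree ≤ m) :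
    (-(OfNat.ofNat n : ℂ[X]) * p).natDegree ≤ m := by
  rw [neg_mul, natDegree_neg]
  exact e5d_C n hp

section Deg

variable {e : ℕ} {φ : Fin 3 → ℂ[X]}

private theorem e5d_c3 (hφ : ∀ i, (φ i).natDegree ≤ e) : (c3 φ).natDegree ≤ 3 * e := by
  have h1 : (φ 1 * φ 2 ^ 2).natDegree ≤ 3 * e := by
    rw [pow_two]
    exact (e5d_deg2 (hφ 1) (e5d_deg2 (hφ 2) (hφ 2))).trans (by omega)
  have h2 : (φ 0 ^ 3).natDegree ≤ 3 * e := by
    rw [pow_succ, pow_two]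
    exact (e5d_deg2 (e5d_deg2 (hφ 0) (hφ 0)) (hφ 0)).trans (by omega)
  exact natDegree_sub_le_of_le h1 h2 |>.trans (by omega)

private theorem e5d_c3g (hφ : ∀ i, (φ i).natDegree ≤ e) (i : Fin 3) :
    (c3g φ i).natDegree ≤ 2 * e := by
  have hm : ∀ i j : Fin 3, (φ i * φ j).natDegree ≤ 2 * e := fun i j =>
    (e5d_deg2 (hφ i) (hφ j)).trans (by omega)
  fin_cases i
  · show (-3 * φ 0 ^ 2).natDegree ≤ 2 * e
    rw [pow_two]
    exact e5d_Cn 3 (hm 0 0)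
  · show (φ 2 ^ 2).natDegree ≤ 2 * e
    rw [pow_two]
    exact hm 2 2
  · show (2 * (φ 1 * φ 2)).natDegree ≤ 2 * e
    exact e5d_C 2 (hm 1 2)

private theorem e5d_c4g (hφ : ∀ i, (φ i).natDegree ≤ e) (i : Fin 3) :
    (c4g φ i).natDegree ≤ 3 * e := by
  have hm : ∀ i j k : Fin 3, (φ i * φ j * φ k).natDegree ≤ 3 * e := fun i j k =>
    (e5d_deg2 (e5d_deg2 (hφ i) (hφ j)) (hφ k)).trans (by omega)
  have hC : ∀ (n : ℤ) (i j k : Fin 3), ((n : ℂ[X]) * (φ i * φ j * φ k)).natDegree ≤ 3 * e := by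
    intro n i j k
    have h1 := e5d_deg2 (p := (n : ℂ[X])) (q := φ i * φ j * φ k) (m := 0) (n := 3 * e)
      (by rw [natDegree_intCast]) (hm i j k)
    simpa using h1
  have hadd := fun (p q : ℂ[X]) (hp : p.natDegree ≤ 3 * e) (hq : q.natDegree ≤ 3 * e) =>
    natDegree_add_le_of_degree_le hp hq
  fin_cases i
  · have h2 : c4g φ 0 = ((-446 : ℤ) : ℂ[X]) * (φ 1 * φ 1 * φ 1) +
        ((152186 : ℤ) : ℂ[X]) * (φ 0 * φ 1 * φ 1) + ((88660 : ℤ) : ℂ[X]) * (φ 1 * φ 1 * φ 2) +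
        ((-20469280 : ℤ) : ℂ[X]) * (φ 0 * φ 1 * φ 2) +
        ((234902256 : ℤ) : ℂ[X]) * (φ 1 * φ 2 * φ 2) +
        ((-7084772352 : ℤ) : ℂ[X]) * (φ 0 * φ 2 * φ 2) +
        ((-4852224000 : ℤ) : ℂ[X]) * (φ 2 * φ 2 * φ 2) := by
      simp only [c4g, Matrix.cons_val_zero]
      push_cast
      ring
    show (c4g φ 0).natDegree ≤ 3 * e
    rw [h2]
    exact hadd _ _ (hadd _ _ (hadd _ _ (hadd _ _ (hadd _ _ (hadd _ _ (hC _ _ _ _) (hC _ _ _ _))
      (hC _ _ _ _)) (hC _ _ _ _)) (hC _ _ _ _)) (hC _ _ _ _)) (hC _ _ _ _)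
  · have h2 : c4g φ 1 = ((4 : ℤ) : ℂ[X]) * (φ 1 * φ 1 * φ 1) +
        ((-1338 : ℤ) : ℂ[X]) * (φ 0 * φ 1 * φ 1) + ((-780 : ℤ) : ℂ[X]) * (φ 1 * φ 1 * φ 2) +
        ((152186 : ℤ) : ℂ[X]) * (φ 0 * φ 0 * φ 1) + ((177320 : ℤ) : ℂ[X]) * (φ 0 * φ 1 * φ 2) +
        ((-12322656 : ℤ) : ℂ[X]) * (φ 1 * φ 2 * φ 2) +
        ((-10234640 : ℤ) : ℂ[X]) * (φ 0 * φ 0 * φ 2) +
        ((234902256 : ℤ) : ℂ[X]) * (φ 0 * φ 2 * φ 2) +
        ((445386240 : ℤ) : ℂ[X]) * (φ 2 * φ 2 * φ 2) := by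
      simp only [c4g, Matrix.cons_val_one, Matrix.cons_val_zero]
      push_cast
      ring
    show (c4g φ 1).natDegree ≤ 3 * e
    rw [h2]
    exact hadd _ _ (hadd _ _ (hadd _ _ (hadd _ _ (hadd _ _ (hadd _ _ (hadd _ _ (hadd _ _
      (hC _ _ _ _) (hC _ _ _ _)) (hC _ _ _ _)) (hC _ _ _ _)) (hC _ _ _ _)) (hC _ _ _ _))
      (hC _ _ _ _)) (hC _ _ _ _)) (hC _ _ _ _)
  · have h2 : c4g φ 2 = ((-260 : ℤ) : ℂ[X]) * (φ 1 * φ 1 * φ 1) +
        ((88660 : ℤ) : ℂ[X]) * (φ 0 * φ 1 * φ 1) + ((-12322656 : ℤ) : ℂ[X]) * (φ 1 * φ 1 * φ 2) +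
        ((-10234640 : ℤ) : ℂ[X]) * (φ 0 * φ 0 * φ 1) +
        ((469804512 : ℤ) : ℂ[X]) * (φ 0 * φ 1 * φ 2) +
        ((1336158720 : ℤ) : ℂ[X]) * (φ 1 * φ 2 * φ 2) +
        ((-7084772352 : ℤ) : ℂ[X]) * (φ 0 * φ 0 * φ 2) +
        ((-14556672000 : ℤ) : ℂ[X]) * (φ 0 * φ 2 * φ 2) +
        ((68976230400 : ℤ) : ℂ[X]) * (φ 2 * φ 2 * φ 2) := by
      simp only [c4g, Matrix.cons_val]
      push_cast
      ring
    show (c4g φ 2).natDegree ≤ 3 * e
    rw [h2]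
    exact hadd _ _ (hadd _ _ (hadd _ _ (hadd _ _ (hadd _ _ (hadd _ _ (hadd _ _ (hadd _ _
      (hC _ _ _ _) (hC _ _ _ _)) (hC _ _ _ _)) (hC _ _ _ _)) (hC _ _ _ _)) (hC _ _ _ _))
      (hC _ _ _ _)) (hC _ _ _ _)) (hC _ _ _ _)

private theorem e5d_vv {δ : ℂ[X]} (hφ : ∀ i, (φ i).natDegree ≤ e) (hδe : δ.natDegree ≤ e)
    (i : Fin 3) : (vv φ δ i).natDegree ≤ 3 * e := by
  have h1 := e5d_c4g hφ i
  have h2 := e5d_deg2 hδe (e5d_c3g hφ i)
  exact (natDegree_sub_le_of_le h1 h2).trans (by omega)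

end Deg

/-- the linear map `g ↦ dsub` -/
private noncomputable def e5dD (φ : Fin 3 → ℂ[X]) (δ : ℂ[X]) :
    (Fin 4 → ℂ[X]) →ₗ[ℂ] ℂ[X] where
  toFun g := dsub qq ![φ 0, φ 1, φ 2, -δ] g
  map_add' g g' := by
    simp only [dsub_qq, dot, Pi.add_apply, Matrix.cons_val_zero, Matrix.cons_val_one,
      Matrix.cons_val]
    ring
  map_smul' c g := by
    simp only [dsub_qq, dot, Pi.smul_apply, Matrix.cons_val_zero, Matrix.cons_val_one,
      Matrix.cons_val, smul_eq_C_mul, RingHom.id_apply]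
    ring

/-- the inclusion of the tuples of polynomials of degree at most `e` -/
private noncomputable def e5dI (e : ℕ) :
    (Fin 4 → degreeLT ℂ (e + 1)) →ₗ[ℂ] (Fin 4 → ℂ[X]) :=
  LinearMap.pi fun i => (degreeLT ℂ (e + 1)).subtype ∘ₗ LinearMap.proj i

private theorem e5dI_apply (e : ℕ) (g : Fin 4 → degreeLT ℂ (e + 1)) (i : Fin 4) :
    e5dI e g i = (g i : ℂ[X]) := rfl

/-- the parametrisation of the kernel -/
private noncomputable def e5dS (e : ℕ) (φ : Fin 3 → ℂ[X]) (δ : ℂ[X]) :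
    (Fin 4 → ℂ) →ₗ[ℂ] (Fin 4 → ℂ[X]) where
  toFun c := ![(C (c 3) + C (e * c 2) * X) * φ 0 -
        (C (c 0) + C (c 1) * X + C (c 2) * X ^ 2) * derivative (φ 0),
      (C (c 3) + C (e * c 2) * X) * φ 1 -
        (C (c 0) + C (c 1) * X + C (c 2) * X ^ 2) * derivative (φ 1),
      (C (c 3) + C (e * c 2) * X) * φ 2 -
        (C (c 0) + C (c 1) * X + C (c 2) * X ^ 2) * derivative (φ 2),
      -((C (c 3) + C (e * c 2) * X) * δ -
        (C (c 0) + C (c 1) * X + C (c 2) * X ^ 2) * derivative δ)]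
  map_add' c c' := by
    funext i
    fin_cases i <;> simp [mul_add] <;> ring
  map_smul' c c' := by
    funext i
    fin_cases i <;> simp [smul_eq_C_mul] <;> ring

private theorem e5d_mem {n : ℕ} {p : ℂ[X]} : p ∈ degreeLT ℂ (n + 1) ↔ p.natDegree ≤ n := by
  rw [mem_degreeLT]
  rcases eq_or_ne p 0 with h | h
  · subst h
    simp
  · rw [← natDegree_lt_iff_degree_lt h]
    omega

private theorem e5d_fin (n : ℕ) : FiniteDimensional ℂ (degreeLT ℂ n) :=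
  Module.Finite.equiv (degreeLTEquiv ℂ n).symm

private theorem e5d_rank (n : ℕ) : Module.finrank ℂ (degreeLT ℂ n) = n := by
  rw [LinearEquiv.finrank_eq (degreeLTEquiv ℂ n), Module.finrank_fin_fun]

theorem exists_lam {e : ℕ} {σ : ℂ} {φ : Fin 3 → ℂ[X]} {ε a b : Fin 9 → ℂ[X]} {δ : ℂ[X]}
    (h : Sec e σ φ) (hm : ∀ j, Mult φ (sb j) (ε j) (a j) (b j)) (hδ : c4 φ = δ * c3 φ)
    (hδe : δ.natDegree ≤ e) : ∃ lam : ℂ[X] →ₗ[ℂ] ℂ, ∀ p : ℂ[X], p.natDegree ≤ 4 * e → lam p = 0 →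
      ∃ g : Fin 4 → ℂ[X], DegLE e g ∧ dsub qq ![φ 0, φ 1, φ 2, -δ] g = p := by
  have hfin : ∀ n, FiniteDimensional ℂ (degreeLT ℂ n) := e5d_fin
  have hDeg : ∀ g : Fin 4 → degreeLT ℂ (e + 1), e5dD φ δ (e5dI e g) ∈ degreeLT ℂ (4 * e + 1) := by
    intro g
    rw [e5d_mem]
    show (dsub qq ![φ 0, φ 1, φ 2, -δ] (e5dI e g)).natDegree ≤ 4 * e
    rw [dsub_qq]
    have hg : ∀ i, (e5dI e g i).natDegree ≤ e := fun i => e5d_mem.mp (g i).2
    have h1 : ∀ i : Fin 3, ∀ q : ℂ[X], q.natDegree ≤ e → (vv φ δ i * q).natDegree ≤ 4 * e :=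
      fun i q hq => (e5d_deg2 (e5d_vv h.deg hδe i) hq).trans (by omega)
    have h2 : (c3 φ * e5dI e g 3).natDegree ≤ 4 * e :=
      (e5d_deg2 (e5d_c3 h.deg) (hg 3)).trans (by omega)
    refine natDegree_add_le_of_degree_le ?_ h2
    exact natDegree_add_le_of_degree_le (natDegree_add_le_of_degree_le (h1 0 _ (hg 0))
      (h1 1 _ (hg 1))) (h1 2 _ (hg 2))
  let T : (Fin 4 → degreeLT ℂ (e + 1)) →ₗ[ℂ] degreeLT ℂ (4 * e + 1) :=
    LinearMap.codRestrict _ (e5dD φ δ ∘ₗ e5dI e) hDeg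
  have hT : ∀ g, ((T g : degreeLT ℂ (4 * e + 1)) : ℂ[X]) =
      dsub qq ![φ 0, φ 1, φ 2, -δ] (e5dI e g) := fun g => rfl
  have hinj : Function.Injective (e5dI e) := by
    intro g g' hgg
    funext i
    exact Subtype.ext (congrFun hgg i)
  have hker : Module.finrank ℂ (LinearMap.ker T) ≤ 4 := by
    have h1 : ∀ x : LinearMap.ker T, e5dI e x.1 ∈ LinearMap.range (e5dS e φ δ) := by
      intro x
      have hx : T x.1 = 0 := x.2
      have hx' := hT x.1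
      rw [hx, dsub_qq] at hx'
      have hη : ∀ i, ((![e5dI e x.1 0, e5dI e x.1 1, e5dI e x.1 2] : Fin 3 → ℂ[X]) i).natDegree
          ≤ e := by
        intro i
        fin_cases i
        · exact e5d_mem.mp (x.1 0).2
        · exact e5d_mem.mp (x.1 1).2
        · exact e5d_mem.mp (x.1 2).2
      obtain ⟨c0, c1, c2, d, hk, hω⟩ := kernel h hm hδ hη hx'.symm
      refine ⟨![c0, c1, c2, d], ?_⟩
      funext i
      fin_cases i
      · exact (hk 0).symm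
      · exact (hk 1).symm
      · exact (hk 2).symm
      · exact hω.symm
    let J : LinearMap.ker T →ₗ[ℂ] LinearMap.range (e5dS e φ δ) :=
      LinearMap.codRestrict _ (e5dI e ∘ₗ (LinearMap.ker T).subtype) h1
    have hJ : Function.Injective J := by
      intro x y hxy
      have h2 : e5dI e x.1 = e5dI e y.1 := congrArg Subtype.val hxy
      exact Subtype.ext (hinj h2)
    have h3 := LinearMap.finrank_le_finrank_of_injective hJ
    have h4 := LinearMap.finrank_range_le (e5dS e φ δ)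
    rw [Module.finrank_fin_fun] at h4
    exact h3.trans h4
  have hW : Module.finrank ℂ (Fin 4 → degreeLT ℂ (e + 1)) = 4 * (e + 1) := by
    rw [Module.finrank_pi_fintype]
    simp [e5d_rank]
  obtain ⟨lam, hlam⟩ := exists_functional T (by
    rw [e5d_rank, hW]
    omega)
  obtain ⟨L, hL⟩ := LinearMap.exists_extend lam
  refine ⟨L, fun p hp hp0 => ?_⟩
  have hpm : p ∈ degreeLT ℂ (4 * e + 1) := e5d_mem.mpr hp
  have h5 : lam ⟨p, hpm⟩ = 0 := by
    rw [← hL]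
    exact hp0
  obtain ⟨g, hg⟩ := hlam _ h5
  refine ⟨e5dI e g, fun i => e5d_mem.mp (g i).2, ?_⟩
  rw [← hT, hg]

end Pool.Agent.H66.CY
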