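import Pool.Agent.H66.CY.E6b

/-!
Put `Δ = det3 φ φ' η - ∑_j C (a_j) (ε j)' (C γ ∏_{i ≠ j} ε i)`, `a_j = F(pt s_j) / Jc s_j`, `c3 φ = C γ ∏ ε j`
(`factor`). By `c3_eq`, `C γ ∏_{i ≠ j} ε i = z² N₃·Y + ε j r`, so `local_det` gives `ε j ∣ Δ` for every `j`
(the other terms of the sum are divisible by `ε j`). So `∏ ε j ∣ Δ` (`pair`); `Δ` has degree
`≤ 3 e - 2 < 3 e - 1 = natDegree (∏ ε j)` (`sum_m`, `det_inf`), so `Δ = 0`. The coefficient of
`X ^ (3 e - 2)` of `(ε j)' (C γ ∏_{i ≠ j} ε i)` is `m_j * (c3 φ).leadingCoeff`. With `det_inf`: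
`∑ m_j a_j = - F(pt σ) / Jc σ`.
-/

set_option autoImplicit false

open Polynomial

namespace Pool.Agent.H66.CY

/-- The coefficient and the degree of `ε' * Π` when `ε * Π` has degree `n + 1`. -/
private theorem e6_coeff {ε Q : ℂ[X]} {n : ℕ} (h0 : ε * Q ≠ 0) (h : (ε * Q).natDegree = n + 1) :
    (derivative ε * Q).natDegree ≤ n ∧
      (derivative ε * Q).coeff n = (ε.natDegree : ℂ) * (ε * Q).leadingCoeff := by
  have hε : ε ≠ 0 := left_ne_zero_of_mul h0
  have hQ : Q ≠ 0 := right_ne_zero_of_mul h0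
  rw [natDegree_mul hε hQ] at h
  by_cases hm : ε.natDegree = 0
  · have hd : derivative ε = 0 := derivative_of_natDegree_zero hm
    rw [hd, zero_mul, hm]
    simp
  · have h1 : (derivative ε).natDegree ≤ ε.natDegree - 1 := natDegree_derivative_le _
    have h2 : n = (ε.natDegree - 1) + Q.natDegree := by omega
    constructor
    · exact natDegree_mul_le.trans (by omega)
    · rw [h2, coeff_mul_add_eq_of_natDegree_le h1 le_rfl, coeff_derivative, leadingCoeff_mul]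
      have h3 : ε.natDegree - 1 + 1 = ε.natDegree := by omega
      rw [h3]
      have h4 : ((ε.natDegree - 1 : ℕ) : ℂ) + 1 = (ε.natDegree : ℂ) := by
        exact_mod_cast h3
      rw [h4]
      simp only [leadingCoeff]
      ring

theorem relation {e : ℕ} {σ : ℂ} {φ : Fin 3 → ℂ[X]} {ε a b : Fin 9 → ℂ[X]} {δ : ℂ[X]}
    (h : Sec e σ φ) (hm : ∀ j, Mult φ (sb j) (ε j) (a j) (b j))
    (hσ : c4 (pt σ) = 0) (hJ : Jc σ ≠ 0) (hδ : c4 φ = δ * c3 φ) (hδe : δ.natDegree ≤ e)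
    {F : MvPolynomial (Fin 3) ℂ} (hF : F.IsHomogeneous 4) {η : Fin 3 → ℂ[X]} {ω : ℂ[X]}
    (hη : ∀ i, (η i).natDegree ≤ e) (hω : ω.natDegree ≤ e)
    (h0 : dot (vv φ δ) η + c3 φ * ω = MvPolynomial.aeval φ F) :
    ∑ j, ((ε j).natDegree : ℂ) * (MvPolynomial.eval (pt (sb j : ℂ)) F / Jc (sb j : ℂ)) +
      MvPolynomial.eval (pt σ) F / Jc σ = 0 := by
  classical
  obtain ⟨γ, hγ, hc3⟩ := factor h hm
  obtain ⟨hc30, hdeg⟩ := c3_deg h
  obtain ⟨A, hA⟩ : ∃ A : Fin 9 → ℂ,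
      A = fun j => MvPolynomial.eval (pt (sb j : ℂ)) F / Jc (sb j : ℂ) := ⟨_, rfl⟩
  obtain ⟨Q, hQ⟩ : ∃ Q : Fin 9 → ℂ[X], Q = fun j => C γ * ∏ i ∈ Finset.univ.erase j, ε i :=
    ⟨_, rfl⟩
  have hεQ : ∀ j, ε j * Q j = c3 φ := by
    intro j
    rw [hc3, hQ, ← Finset.mul_prod_erase Finset.univ ε (Finset.mem_univ j)]
    ring
  have hQdvd : ∀ i j, i ≠ j → ε j ∣ Q i := by
    intro i j hij
    rw [hQ]
    exact (Finset.dvd_prod_of_mem ε (Finset.mem_erase.2 ⟨hij.symm, Finset.mem_univ j⟩)).mul_left _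
  have hdvd : ∀ j, ε j ∣ det3 φ (fun i => derivative (φ i)) η -
      ∑ i, C (A i) * (derivative (ε i) * Q i) := by
    intro j
    rw [← Finset.add_sum_erase Finset.univ _ (Finset.mem_univ j)]
    have h1 : ε j ∣ ∑ i ∈ Finset.univ.erase j, C (A i) * (derivative (ε i) * Q i) :=
      Finset.dvd_sum fun i hi =>
        ((hQdvd i j (Finset.ne_of_mem_erase hi)).mul_left _).mul_left _
    obtain ⟨r, hr⟩ := c3_eq (hm j)
    have hr' : Q j = φ 2 ^ 2 * dot (c3g (pt (C (sb j : ℂ)))) ![a j, b j, 0] + ε j * r :=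
      mul_left_cancel₀ (mult_ne h (hm j)) (by rw [hεQ, hr])
    have h2 : ε j ∣ det3 φ (fun i => derivative (φ i)) η -
        C (A j) * (derivative (ε j) * Q j) := by
      obtain ⟨s, hs⟩ := local_det h (hm j) hδ hF h0
      refine ⟨s - C (A j) * derivative (ε j) * r, ?_⟩
      rw [hr', hA]
      linear_combination hs
    have h3 := dvd_sub h2 h1
    rwa [sub_sub] at h3
  have hprod : ∏ j, ε j ∣ det3 φ (fun i => derivative (φ i)) η -
      ∑ i, C (A i) * (derivative (ε i) * Q i) :=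
    Finset.prod_dvd_of_coprime (fun i _ j _ hij => pair h hm hij) fun j _ => hdvd j
  obtain ⟨n, hn⟩ : ∃ n, 3 * e = n + 2 := ⟨3 * e - 2, by have := h.one_le; omega⟩
  have hdegP : (∏ j, ε j).natDegree = n + 1 := by
    rw [natDegree_prod _ _ fun j _ => mult_ne h (hm j)]
    have := sum_m h hm
    omega
  have hterm := fun j => e6_coeff (n := n) (by rw [hεQ]; exact hc30) (by rw [hεQ j]; omega)
  obtain ⟨hd1, hd2⟩ := det_inf h hσ hJ hδ hδe hF hη hω h0
  have hSdeg : (∑ i, C (A i) * (derivative (ε i) * Q i)).natDegree ≤ n :=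
    natDegree_sum_le_of_forall_le _ _ fun j _ =>
      (natDegree_C_mul_le _ _).trans (hterm j).1
  have hzero : det3 φ (fun i => derivative (φ i)) η -
      ∑ i, C (A i) * (derivative (ε i) * Q i) = 0 := by
    refine eq_zero_of_dvd_of_natDegree_lt hprod ?_
    rw [hdegP]
    have := natDegree_sub_le (det3 φ (fun i => derivative (φ i)) η)
      (∑ i, C (A i) * (derivative (ε i) * Q i))
    have h5 : max (det3 φ (fun i => derivative (φ i)) η).natDegree
        (∑ i, C (A i) * (derivative (ε i) * Q i)).natDegree ≤ n := max_le (by omega) hSdeg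
    omega
  have h6 : 3 * e - 2 = n := by omega
  rw [h6, sub_eq_zero.1 hzero, finsetSum_coeff] at hd2
  simp only [coeff_C_mul, fun j => (hterm j).2, hεQ] at hd2
  have hL : (c3 φ).leadingCoeff ≠ 0 := leadingCoeff_ne_zero.2 hc30
  have h7 : (c3 φ).leadingCoeff * (∑ j, ((ε j).natDegree : ℂ) *
      (MvPolynomial.eval (pt (sb j : ℂ)) F / Jc (sb j : ℂ)) +
      MvPolynomial.eval (pt σ) F / Jc σ) = 0 := by
    rw [mul_add, Finset.mul_sum]
    have h8 : ∑ j, (c3 φ).leadingCoeff * (((ε j).natDegree : ℂ) *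
        (MvPolynomial.eval (pt (sb j : ℂ)) F / Jc (sb j : ℂ))) =
        ∑ j, A j * (((ε j).natDegree : ℂ) * (c3 φ).leadingCoeff) := by
      refine Finset.sum_congr rfl fun j _ => ?_
      rw [hA]
      ring
    rw [h8, hd2]
    ring
  exact (mul_eq_zero.1 h7).resolve_left hL

end Pool.Agent.H66.CY
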