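import Pool.Agent.H66.CY.E5b
import Pool.Agent.H66.CY.E1

/-!
Let `F` be a quartic form in three variables, `dot (vv φ δ) η + c3 φ ω = F(φ)`.
* `aeval_mod`: `ε ∣ F(lin z ε P Y) - z⁴ F(P)`: modulo `ε` the argument is `z P`; `F` is homogeneous.
* `local_det`: multiply by the `κ` of `local_v` (coprime to `ε`): modulo `ε`:
  `det3 φ φ' η = z ε' Dd` (`φ = z P + ε Y`, `φ' = z' P + ε' Y + ε Y'`, `det3 P Y η = Dd`),
  `κ z² Dd = F(φ) = z⁴ F(P)`, so `κ Dd = z² F(P)`; and `κ N₃·Y = Jc z`. So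
  `κ det3 = z³ ε' F(P)` and `κ (F(P) / Jc) ε' (z² N₃·Y) = z³ ε' F(P)`.
-/

set_option autoImplicit false

open Polynomial

namespace Pool.Agent.H66.CY

private theorem e6a_congr {N : ℕ} {A : Type*} [CommRing A] [Algebra ℂ A]
    (F : MvPolynomial (Fin N) ℂ) {u v : Fin N → A} {q : A} (h : ∀ i, q ∣ u i - v i) :
    q ∣ MvPolynomial.aeval u F - MvPolynomial.aeval v F := by
  induction F using MvPolynomial.induction_on with
  | C a => simp
  | add p r hp hr =>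
    rw [map_add, map_add]
    have : MvPolynomial.aeval u p + MvPolynomial.aeval u r
        - (MvPolynomial.aeval v p + MvPolynomial.aeval v r) =
        (MvPolynomial.aeval u p - MvPolynomial.aeval v p)
          + (MvPolynomial.aeval u r - MvPolynomial.aeval v r) := by ring
    rw [this]
    exact dvd_add hp hr
  | mul_X p n hp =>
    rw [map_mul, map_mul, MvPolynomial.aeval_X, MvPolynomial.aeval_X]
    have : MvPolynomial.aeval u p * u n - MvPolynomial.aeval v p * v n =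
        (MvPolynomial.aeval u p - MvPolynomial.aeval v p) * u n
          + MvPolynomial.aeval v p * (u n - v n) := by ring
    rw [this]
    exact dvd_add (hp.mul_right _) ((h n).mul_left _)

private theorem e6a_smul {N : ℕ} {A : Type*} [CommRing A] [Algebra ℂ A]
    {F : MvPolynomial (Fin N) ℂ} {d : ℕ} (hF : F.IsHomogeneous d) (z : A) (u : Fin N → A) :
    MvPolynomial.aeval (fun i => z * u i) F = z ^ d * MvPolynomial.aeval u F := by
  rw [MvPolynomial.aeval_def, MvPolynomial.aeval_def, MvPolynomial.eval₂_eq',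
    MvPolynomial.eval₂_eq', Finset.mul_sum]
  refine Finset.sum_congr rfl fun m hm => ?_
  have hm' := hF (MvPolynomial.mem_support_iff.1 hm)
  have hd : ∑ i, m i = d := by
    rw [← hm', ← Finsupp.degree_eq_sum]
    exact congrFun (congrArg DFunLike.coe Finsupp.degree_eq_weight_one) m
  simp_rw [mul_pow]
  rw [Finset.prod_mul_distrib, Finset.prod_pow_eq_pow_sum, hd]
  ring

private theorem e6a_C (F : MvPolynomial (Fin 3) ℂ) (s : ℂ) :
    MvPolynomial.aeval (pt (C s : ℂ[X])) F = C (MvPolynomial.eval (pt s) F) := by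
  induction F using MvPolynomial.induction_on with
  | C a => simp
  | add p r hp hr => simp [hp, hr]
  | mul_X p n hp =>
    rw [map_mul, map_mul, hp, MvPolynomial.aeval_X, MvPolynomial.eval_X, C_mul]
    congr 1
    have := congrFun (map_pt (C : ℂ →+* ℂ[X]) s) n
    exact this.symm

theorem aeval_mod {F : MvPolynomial (Fin 3) ℂ} (hF : F.IsHomogeneous 4) (z ε : ℂ[X]) (s : ℂ)
    (Y : Fin 3 → ℂ[X]) : ε ∣ MvPolynomial.aeval (lin z ε (pt (C s)) Y) F -
      z ^ 4 * C (MvPolynomial.eval (pt s) F) := by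
  rw [← e6a_C, ← e6a_smul hF]
  refine e6a_congr F fun i => ⟨Y i, ?_⟩
  simp only [lin]
  ring

private theorem e6a_det {s z ε ε' z' a b : ℂ[X]} {Y' η : Fin 3 → ℂ[X]} {φ φ' : Fin 3 → ℂ[X]}
    (h0 : φ 0 = s * z + ε * a) (h1 : φ 1 = s ^ 3 * z + ε * b) (h2 : φ 2 = z)
    (h0' : φ' 0 = s * z' + ε' * a + ε * Y' 0) (h1' : φ' 1 = s ^ 3 * z' + ε' * b + ε * Y' 1)
    (h2' : φ' 2 = z') :
    ε ∣ det3 φ φ' η - z * ε' * (a * (η 1 - s ^ 3 * η 2) - b * (η 0 - s * η 2)) := by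
  unfold det3
  rw [h0, h1, h2, h0', h1', h2']
  refine ⟨s * (z * Y' 1 * η 2) - s ^ 3 * (z * Y' 0 * η 2) + z * (Y' 0 * η 1 - Y' 1 * η 0)
    + z' * (b * (η 0 - s * η 2) - a * (η 1 - s ^ 3 * η 2))
    + ε * (a * Y' 1 - b * Y' 0) * η 2, ?_⟩
  ring

theorem local_det {e : ℕ} {σ : ℂ} {φ : Fin 3 → ℂ[X]} {j : Fin 9} {ε a b δ : ℂ[X]}
    (h : Sec e σ φ) (hm : Mult φ (sb j) ε a b) (hδ : c4 φ = δ * c3 φ)
    {F : MvPolynomial (Fin 3) ℂ} (hF : F.IsHomogeneous 4) {η : Fin 3 → ℂ[X]} {ω : ℂ[X]}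
    (h0 : dot (vv φ δ) η + c3 φ * ω = MvPolynomial.aeval φ F) :
    ε ∣ det3 φ (fun i => derivative (φ i)) η -
      C (MvPolynomial.eval (pt (sb j : ℂ)) F / Jc (sb j : ℂ)) * derivative ε *
        (φ 2 ^ 2 * dot (c3g (pt (C (sb j : ℂ)))) ![a, b, 0]) := by
  obtain ⟨κ, hκ, hv, r2, h2⟩ := local_v h hm hδ
  obtain ⟨r1, h1⟩ := hv η
  obtain ⟨r3, h3⟩ := c3_eq hm
  obtain ⟨r4, h4⟩ := aeval_mod hF (φ 2) ε (sb j : ℂ) ![a, b, 0]
  rw [← hm.eq_lin] at h4
  obtain ⟨N, hN⟩ : ∃ N : ℂ[X], N = dot (c3g (pt (C (sb j : ℂ)))) ![a, b, 0] := ⟨_, rfl⟩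
  rw [← hN] at h2 h3 ⊢
  obtain ⟨c, hc⟩ : ∃ c : ℂ, c = MvPolynomial.eval (pt (sb j : ℂ)) F := ⟨_, rfl⟩
  rw [← hc] at h4 ⊢
  have h5 : ε ∣ φ 2 ^ 2 * (κ * Dd (sb j) a b η - φ 2 ^ 2 * C c) := by
    refine ⟨r4 - (φ 2 ^ 2 * N + ε * r3) * ω - r1, ?_⟩
    linear_combination h4 - ω * h3 - h1 + h0
  obtain ⟨r5, h5⟩ := ((cop_z h hm).symm.pow_right).dvd_of_dvd_mul_left h5
  obtain ⟨r6, h6⟩ : ε ∣ det3 φ (fun i => derivative (φ i)) η -
      φ 2 * derivative ε * Dd (sb j) a b η := by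
    unfold Dd
    refine e6a_det (Y' := ![derivative a, derivative b, 0]) (z' := derivative (φ 2))
      (by rw [hm.eq0]) (by rw [hm.eq1]) rfl ?_ ?_ rfl
    · simp only [Matrix.cons_val_zero]
      rw [hm.eq0]
      simp only [derivative_add, derivative_mul, derivative_C]
      ring
    · simp only [Matrix.cons_val_one, Matrix.cons_val_zero]
      rw [hm.eq1]
      simp only [derivative_add, derivative_mul, ← C_pow, derivative_C]
      ring
  have hJ : C (c / Jc (sb j : ℂ)) * C (Jc (sb j : ℂ)) = (C c : ℂ[X]) := by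
    rw [← C_mul, div_mul_cancel₀ _ (Jc_pt j)]
  refine hκ.symm.dvd_of_dvd_mul_left ⟨κ * r6 + φ 2 * derivative ε * r5 -
    C (c / Jc (sb j : ℂ)) * derivative ε * φ 2 ^ 2 * r2, ?_⟩
  linear_combination κ * h6 + φ 2 * derivative ε * h5
    - C (c / Jc (sb j : ℂ)) * derivative ε * φ 2 ^ 2 * h2 - φ 2 ^ 3 * derivative ε * hJ

end Pool.Agent.H66.CY
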