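import Pool.Agent.H66.CY.E6a

/-!
The same at infinity. `P = ((φ i).coeff e)_i = ζ pt σ`, `Q = ((φ i).coeff (e - 1))_i`,
`R = ((η i).coeff e)_i`, `N₃ = c3g (pt σ)`, `N₄ = c4g (pt σ)`, where `c4 (pt σ) = 0`, `Jc σ ≠ 0`.
* `L = (c3 φ).coeff (3 e - 1) = ∇c3(P)·Q = ζ² N₃·Q` and `(c4 φ).coeff (4 e - 1) = ζ³ N₄·Q`; `c4 φ = δ c3 φ`:
  `ζ³ N₄·Q = δ_e L`, `δ_e = δ.coeff e`. So `V = ζ N₄ - δ_e N₃` satisfies `V·Q = 0`, and `V·pt σ = 0`.
* the coefficient of `X ^ (4 e)` in `h0`: `ζ² V·R = ζ⁴ F(pt σ)` (`c3 φ ω` has degree `≤ 4 e - 1`).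
* the coefficient of `X ^ (3 e - 2)` of `det3 φ φ' η` is
  `(e - 1) det(P, Q, R) + e det(Q, P, R) = - det(P, Q, R)`, and all higher ones are `0`.
* `Jc σ ζ det(pt σ, Q, R) = (N₃·Q) (V·R)` (identity: `(N₃ × V) × Q = V (N₃·Q) - N₃ (V·Q)`,
  `N₃ × V = ζ Jc σ pt σ`), so `det(P, Q, R) = L F(pt σ) / Jc σ`.
For the coefficients use: for polynomials `p`, `q` of degree `≤ m`, `≤ n` the coefficients of
`X ^ (m + n)` and `X ^ (m + n - 1)` of `p q` (`m, n ≥ 1`); or write `φ i = C (P i) X ^ e + C (Q i) X ^ (e - 1) + …`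
with `degree < e - 1`.
-/

set_option autoImplicit false

open Polynomial

namespace Pool.Agent.H66.CY

private theorem e6b_hom {F : MvPolynomial (Fin 3) ℂ} (hF : F.IsHomogeneous 4) (r : ℂ)
    (v : Fin 3 → ℂ) : MvPolynomial.eval (fun i => r * v i) F = r ^ 4 * MvPolynomial.eval v F := by
  rw [MvPolynomial.eval_eq', MvPolynomial.eval_eq', Finset.mul_sum]
  refine Finset.sum_congr rfl fun d hd => ?_
  have h1 : (∑ i, d i) = 4 := by
    have h2 := hF (MvPolynomial.mem_support_iff.mp hd)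
    simpa [Finsupp.weight_apply, Finsupp.sum_fintype] using h2
  simp only [mul_pow, Finset.prod_mul_distrib, Finset.prod_pow_eq_pow_sum, h1]
  ring

private theorem e6b_c3 (r : ℂ) (v : Fin 3 → ℂ) : c3 (fun i => r * v i) = r ^ 3 * c3 v := by
  simp only [c3]
  ring

private theorem e6b_c4 (r : ℂ) (v : Fin 3 → ℂ) : c4 (fun i => r * v i) = r ^ 4 * c4 v := by
  simp only [c4]
  ring

/-- the value of the reflected polynomial -/
private theorem e6b_refl {N : ℕ} {p : ℂ[X]} (hp : p.natDegree ≤ N) {t : ℂ} (ht : t ≠ 0) :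
    (reflect N p).eval t = t ^ N * p.eval t⁻¹ := by
  let _ : Invertible t⁻¹ := invertibleOfNonzero (inv_ne_zero ht)
  have h1 := eval₂_reflect_mul_pow (RingHom.id ℂ) t⁻¹ N p hp
  have h2 : ⅟(t⁻¹) = t := by simp
  rw [h2] at h1
  have h3 : (reflect N p).eval t * (t⁻¹) ^ N = p.eval t⁻¹ := h1
  rw [← h3, inv_pow]
  field_simp

private theorem e6b_ext {p q : ℂ[X]} (h : ∀ t : ℂ, t ≠ 0 → p.eval t = q.eval t) : p = q := by
  apply Polynomial.eq_of_infinite_eval_eq
  have h1 : ({0}ᶜ : Set ℂ).Infinite := (Set.finite_singleton (0 : ℂ)).infinite_compl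
  exact h1.mono fun t ht => h t ht

private theorem e6b_der {e : ℕ} (he : 1 ≤ e) {p : ℂ[X]} (hp : p.natDegree ≤ e) :
    reflect (e - 1) (derivative p) = C (e : ℂ) * reflect e p - X * derivative (reflect e p) := by
  ext k
  have h0 : (X * derivative (reflect e p)).coeff k = (k : ℂ) * (reflect e p).coeff k := by
    rcases k with _ | k
    · simp
    · rw [coeff_X_mul, coeff_derivative]
      push_cast
      ring
  rw [coeff_sub, coeff_C_mul, h0, coeff_reflect, coeff_reflect, coeff_derivative]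
  rcases Nat.lt_or_ge (e - 1) k with hk | hk
  · rw [revAt_eq_self_of_lt hk]
    rcases Nat.lt_or_ge e k with hk2 | hk2
    · rw [revAt_eq_self_of_lt hk2, coeff_eq_zero_of_natDegree_lt (by omega : p.natDegree < k + 1),
        coeff_eq_zero_of_natDegree_lt (by omega : p.natDegree < k)]
      ring
    · have : k = e := by omega
      subst this
      rw [coeff_eq_zero_of_natDegree_lt (by omega : p.natDegree < k + 1)]
      ring
  · rw [revAt_le hk, revAt_le (by omega : k ≤ e)]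
    have h1 : e - 1 - k + 1 = e - k := by omega
    have h2 : ((e - 1 - k : ℕ) : ℂ) + 1 = (e : ℂ) - k := by
      have h3 : ((e - 1 - k + 1 : ℕ) : ℂ) = ((e - k : ℕ) : ℂ) := by rw [h1]
      rw [Nat.cast_sub (by omega : k ≤ e)] at h3
      rw [← h3]
      push_cast
      ring
    rw [h1, h2]
    ring

private theorem e6b_alg (P Q R N V : Fin 3 → ℂ) (J : ℂ) (h0 : N 1 * V 2 - N 2 * V 1 = J * P 0)
    (h1 : N 2 * V 0 - N 0 * V 2 = J * P 1) (h2 : N 0 * V 1 - N 1 * V 0 = J * P 2)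
    (hVQ : dot V Q = 0) : J * det3 P Q R = dot N Q * dot V R := by
  simp only [dot, det3] at *
  linear_combination (-(Q 1 * R 2 - Q 2 * R 1)) * h0 - (Q 2 * R 0 - Q 0 * R 2) * h1 -
    (Q 0 * R 1 - Q 1 * R 0) * h2 - (N 0 * R 0 + N 1 * R 1 + N 2 * R 2) * hVQ

private theorem e6b_deg2 {p q : ℂ[X]} {m n : ℕ} (hp : p.natDegree ≤ m) (hq : q.natDegree ≤ n) :
    (p * q).natDegree ≤ m + n :=
  natDegree_mul_le_of_le hp hq

private theorem e6b_evdet (u v w : Fin 3 → ℂ[X]) (t : ℂ) : (det3 u v w).eval t =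
    det3 (fun i => (u i).eval t) (fun i => (v i).eval t) (fun i => (w i).eval t) := by
  simp [det3]

theorem det_inf {e : ℕ} {σ : ℂ} {φ : Fin 3 → ℂ[X]} {δ : ℂ[X]} (h : Sec e σ φ)
    (hσ : c4 (pt σ) = 0) (hJ : Jc σ ≠ 0) (hδ : c4 φ = δ * c3 φ) (hδe : δ.natDegree ≤ e)
    {F : MvPolynomial (Fin 3) ℂ} (hF : F.IsHomogeneous 4) {η : Fin 3 → ℂ[X]} {ω : ℂ[X]}
    (hη : ∀ i, (η i).natDegree ≤ e) (hω : ω.natDegree ≤ e)
    (h0 : dot (vv φ δ) η + c3 φ * ω = MvPolynomial.aeval φ F) :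
    (det3 φ (fun i => derivative (φ i)) η).natDegree + 2 ≤ 3 * e ∧
      (det3 φ (fun i => derivative (φ i)) η).coeff (3 * e - 2) =
        -((c3 φ).leadingCoeff * (MvPolynomial.eval (pt σ) F / Jc σ)) := by
  have he := h.one_le
  obtain ⟨hc0, hcd⟩ := c3_deg h
  set ψ : Fin 3 → ℂ[X] := fun i => reflect e (φ i) with hψ
  set θ : Fin 3 → ℂ[X] := fun i => reflect e (η i) with hθ
  set d : ℂ[X] := reflect e δ with hd
  set o : ℂ[X] := reflect e ω with ho
  have hψe : ∀ t : ℂ, t ≠ 0 → ∀ i, (ψ i).eval t = t ^ e * (φ i).eval t⁻¹ := fun t ht i =>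
    e6b_refl (h.deg i) ht
  have hθe : ∀ t : ℂ, t ≠ 0 → ∀ i, (θ i).eval t = t ^ e * (η i).eval t⁻¹ := fun t ht i =>
    e6b_refl (hη i) ht
  have hde : ∀ t : ℂ, t ≠ 0 → d.eval t = t ^ e * δ.eval t⁻¹ := fun t ht => e6b_refl hδe ht
  have hoe : ∀ t : ℂ, t ≠ 0 → o.eval t = t ^ e * ω.eval t⁻¹ := fun t ht => e6b_refl hω ht
  -- the cubic
  have hC3e : ∀ t : ℂ, t ≠ 0 → (c3 ψ).eval t = (t ^ e) ^ 3 * (c3 φ).eval t⁻¹ := by
    intro t ht
    rw [eval_c3, eval_c3, ← e6b_c3]
    exact congrArg c3 (funext fun i => hψe t ht i)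
  have hC4e : ∀ t : ℂ, t ≠ 0 → (c4 ψ).eval t = (t ^ e) ^ 4 * (c4 φ).eval t⁻¹ := by
    intro t ht
    rw [eval_c4, eval_c4, ← e6b_c4]
    exact congrArg c4 (funext fun i => hψe t ht i)
  have hC3 : reflect (3 * e) (c3 φ) = c3 ψ := by
    apply e6b_ext
    intro t ht
    rw [hC3e t ht, e6b_refl (by omega) ht]
    ring
  have hC4 : c4 ψ = d * c3 ψ := by
    apply e6b_ext
    intro t ht
    rw [hC4e t ht, eval_mul, hC3e t ht, hde t ht, hδ, eval_mul]
    ring
  have hvv : ∀ t : ℂ, t ≠ 0 → (dot (vv ψ d) θ).eval t =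
      (t ^ e) ^ 4 * (dot (vv φ δ) η).eval t⁻¹ := by
    intro t ht
    have h1 : ∀ i, (vv ψ d i).eval t = (t ^ e) ^ 3 * (vv φ δ i).eval t⁻¹ := by
      intro i
      have e1 : (c3g ψ i).eval t = c3g (fun j => (ψ j).eval t) i := map_c3g (evalRingHom t) ψ i
      have e2 : (c4g ψ i).eval t = c4g (fun j => (ψ j).eval t) i := map_c4g (evalRingHom t) ψ i
      have e3 : (c3g φ i).eval t⁻¹ = c3g (fun j => (φ j).eval t⁻¹) i :=
        map_c3g (evalRingHom t⁻¹) φ i
      have e4 : (c4g φ i).eval t⁻¹ = c4g (fun j => (φ j).eval t⁻¹) i :=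
        map_c4g (evalRingHom t⁻¹) φ i
      have e5 : (fun j => (ψ j).eval t) = fun j => t ^ e * (φ j).eval t⁻¹ :=
        funext fun j => hψe t ht j
      simp only [vv, eval_sub, eval_mul]
      rw [e1, e2, e3, e4, e5, c3g_smul, c4g_smul, hde t ht]
      ring
    rw [eval_dot, eval_dot]
    simp only [dot]
    rw [h1 0, h1 1, h1 2, hθe t ht 0, hθe t ht 1, hθe t ht 2]
    ring
  have hev : ∀ (χ : Fin 3 → ℂ[X]) (t : ℂ), (MvPolynomial.aeval χ F).eval t =
      MvPolynomial.eval (fun i => (χ i).eval t) F := by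
    intro χ t
    have h1 := MvPolynomial.map_aeval χ (evalRingHom t) F
    have h2 : ((evalRingHom t).comp (algebraMap ℂ ℂ[X])) = RingHom.id ℂ := by
      ext x
      simp
    rw [h2] at h1
    exact h1
  have hmain : dot (vv ψ d) θ + c3 ψ * o = MvPolynomial.aeval ψ F := by
    apply e6b_ext
    intro t ht
    have h1 : (MvPolynomial.aeval ψ F).eval t = (t ^ e) ^ 4 *
        (MvPolynomial.aeval φ F).eval t⁻¹ := by
      rw [hev, hev, ← e6b_hom hF]
      exact congrArg (fun v => MvPolynomial.eval v F) (funext fun i => hψe t ht i)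
    rw [eval_add, eval_mul, hvv t ht, hC3e t ht, hoe t ht, h1, ← h0, eval_add, eval_mul]
    ring
  -- the determinant
  set D : ℂ[X] := det3 φ (fun i => derivative (φ i)) η with hD
  have hdd : ∀ i, (derivative (φ i)).natDegree ≤ e - 1 := fun i =>
    (natDegree_derivative_le (φ i)).trans (Nat.sub_le_sub_right (h.deg i) 1)
  have hDdeg : D.natDegree ≤ 3 * e - 1 := by
    have h1 : ∀ i j k : Fin 3, (φ i * (derivative (φ j) * η k)).natDegree ≤ 3 * e - 1 :=
      fun i j k => (e6b_deg2 (h.deg i) (e6b_deg2 (hdd j) (hη k))).trans (by omega)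
    have h2 : ∀ i j k : Fin 3,
        (φ i * (derivative (φ j) * η k - derivative (φ k) * η j)).natDegree ≤ 3 * e - 1 := by
      intro i j k
      rw [mul_sub]
      exact (natDegree_sub_le_of_le (h1 i j k) (h1 i k j)).trans (by omega)
    exact natDegree_add_le_of_degree_le
      ((natDegree_sub_le_of_le (h2 0 1 2) (h2 1 0 2)).trans (by omega)) (h2 2 0 1)
  have hDr : reflect (3 * e - 1) D = -(X * det3 ψ (fun i => derivative (ψ i)) θ) := by
    apply e6b_ext
    intro t ht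
    have h1 : ∀ i, t ^ (e - 1) * (derivative (φ i)).eval t⁻¹ =
        e * (ψ i).eval t - t * (derivative (ψ i)).eval t := by
      intro i
      have h2 := congrArg (eval t) (e6b_der he (h.deg i))
      rw [e6b_refl (hdd i) ht] at h2
      rw [h2]
      simp [hψ]
    rw [e6b_refl hDdeg ht, hD, e6b_evdet, eval_neg, eval_mul, eval_X, e6b_evdet]
    have h3 : t ^ (3 * e - 1) = t ^ e * (t ^ (e - 1) * t ^ e) := by
      rw [← pow_add, ← pow_add]
      congr 1
      omega
    rw [h3]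
    have h4 : t ^ e * (t ^ (e - 1) * t ^ e) * det3 (fun i => (φ i).eval t⁻¹)
        (fun i => (derivative (φ i)).eval t⁻¹) (fun i => (η i).eval t⁻¹) =
        det3 (fun i => t ^ e * (φ i).eval t⁻¹)
          (fun i => t ^ (e - 1) * (derivative (φ i)).eval t⁻¹)
          (fun i => t ^ e * (η i).eval t⁻¹) := by
      simp only [det3]
      ring
    rw [h4]
    have h5 : (fun i => t ^ (e - 1) * (derivative (φ i)).eval t⁻¹) =
        fun i => e * (ψ i).eval t - t * (derivative (ψ i)).eval t := funext h1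
    have h6 : (fun i => t ^ e * (φ i).eval t⁻¹) = fun i => (ψ i).eval t :=
      funext fun i => (hψe t ht i).symm
    have h7 : (fun i => t ^ e * (η i).eval t⁻¹) = fun i => (θ i).eval t :=
      funext fun i => (hθe t ht i).symm
    rw [h5, h6, h7]
    simp only [det3]
    ring
  have hD0 : D.coeff (3 * e - 1) = 0 := by
    have h1 := congrArg (fun p => coeff p 0) hDr
    simp only [coeff_reflect, revAt_zero, coeff_neg, mul_coeff_zero, coeff_X_zero, zero_mul,
      neg_zero] at h1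
    exact h1
  have hDd : D.natDegree ≤ 3 * e - 2 := by
    rw [natDegree_le_iff_coeff_eq_zero]
    intro n hn
    rcases Nat.lt_or_ge (3 * e - 1) n with h1 | h1
    · exact coeff_eq_zero_of_natDegree_lt (by omega)
    · have : n = 3 * e - 1 := by omega
      rw [this, hD0]
  refine ⟨by omega, ?_⟩
  have hD1 : D.coeff (3 * e - 2) = -(det3 ψ (fun i => derivative (ψ i)) θ).eval 0 := by
    have h1 := congrArg (fun p => coeff p 1) hDr
    simp only [coeff_reflect, coeff_neg] at h1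
    rw [revAt_le (by omega : 1 ≤ 3 * e - 1), show (1 : ℕ) = 0 + 1 by rfl, coeff_X_mul] at h1
    rw [← coeff_zero_eq_eval_zero, ← h1]
    congr 1
  -- values at infinity
  set ζ : ℂ := (φ 2).coeff e with hζ
  have hζ0 : ζ ≠ 0 := h.lead
  have hP : (fun i => (ψ i).eval 0) = fun i => ζ * pt σ i := by
    funext i
    rw [← coeff_zero_eq_eval_zero]
    simp only [hψ, coeff_reflect, revAt_zero]
    fin_cases i
    · simp only [pt, Fin.zero_eta, Matrix.cons_val_zero]
      rw [h.lead0]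
      ring
    · simp only [pt, Fin.mk_one, Matrix.cons_val_one, Matrix.cons_val_zero]
      rw [h.lead1]
      ring
    · simp [pt, hζ]
  have hL : (c3 φ).leadingCoeff = dot (c3g (fun i => ζ * pt σ i))
      (fun i => (derivative (ψ i)).eval 0) := by
    have h1 : (c3 φ).leadingCoeff = (c3 ψ).coeff 1 := by
      rw [← hC3, coeff_reflect, revAt_le (by omega : 1 ≤ 3 * e), leadingCoeff]
      congr 1
      omega
    have h2 : (c3 ψ).coeff 1 = (derivative (c3 ψ)).eval 0 := by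
      rw [← coeff_zero_eq_eval_zero, coeff_derivative]
      simp
    have h3 : (fun i => (c3g ψ i).eval 0) = c3g (fun i => ζ * pt σ i) := by
      funext i
      rw [← hP]
      exact map_c3g (evalRingHom 0) ψ i
    rw [h1, h2, deriv_c3, eval_dot, h3]
  set P : Fin 3 → ℂ := fun i => ζ * pt σ i with hPdef
  set Q : Fin 3 → ℂ := fun i => (derivative (ψ i)).eval 0 with hQ
  set R : Fin 3 → ℂ := fun i => (θ i).eval 0 with hR
  set δ0 : ℂ := d.eval 0 with hδ0
  have hg3 : (fun i => (c3g ψ i).eval 0) = c3g P := by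
    funext i
    rw [← hP]
    exact map_c3g (evalRingHom 0) ψ i
  have hg4 : (fun i => (c4g ψ i).eval 0) = c4g P := by
    funext i
    rw [← hP]
    exact map_c4g (evalRingHom 0) ψ i
  have hc3P : c3 P = 0 := by
    rw [hPdef, e6b_c3, c3_pt, mul_zero]
  have hVQ : dot (fun i => c4g P i - δ0 * c3g P i) Q = 0 := by
    have h1 := congrArg (fun p => (derivative p).eval 0) hC4
    simp only [derivative_mul, eval_add, eval_mul] at h1
    rw [deriv_c4, deriv_c3, eval_dot, eval_dot, hg3, hg4, eval_c3, hP, hc3P, mul_zero,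
      zero_add] at h1
    simp only [dot] at h1 ⊢
    linear_combination h1
  have hVR : dot (fun i => c4g P i - δ0 * c3g P i) R = ζ ^ 4 * MvPolynomial.eval (pt σ) F := by
    have h1 := congrArg (eval 0) hmain
    rw [eval_add, eval_mul, eval_c3, hP, hc3P, zero_mul, add_zero, eval_dot, hev, hP,
      e6b_hom hF] at h1
    rw [← h1]
    congr 1
    funext i
    simp only [vv, eval_sub, eval_mul]
    rw [show (c4g ψ i).eval 0 = c4g P i from congrFun hg4 i,
      show (c3g ψ i).eval 0 = c3g P i from congrFun hg3 i]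
  have hE3 : dot (c3g (pt σ)) (pt σ) = 0 := by rw [c3_euler, c3_pt, mul_zero]
  have hE4 : dot (c4g (pt σ)) (pt σ) = 0 := by rw [c4_euler, hσ, mul_zero]
  have hp0 : pt σ 0 = σ := rfl
  have hp1 : pt σ 1 = σ ^ 3 := rfl
  have hp2 : pt σ 2 = 1 := rfl
  simp only [dot, hp0, hp1, hp2, mul_one] at hE3 hE4
  have hN : ∀ i, c3g P i = ζ ^ 2 * c3g (pt σ) i := fun i => c3g_smul ζ (pt σ) i
  have hV : ∀ i, c4g P i = ζ ^ 3 * c4g (pt σ) i := fun i => c4g_smul ζ (pt σ) i
  have hP0 : P 0 = ζ * σ := rfl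
  have hP1 : P 1 = ζ * σ ^ 3 := rfl
  have hP2 : P 2 = ζ * 1 := rfl
  have key := e6b_alg P Q R (c3g P) (fun i => c4g P i - δ0 * c3g P i) (ζ ^ 4 * Jc σ)
    (by
      simp only [hN, hV, hP0, Jc]
      linear_combination (ζ ^ 5 * c3g (pt σ) 1) * hE4 - (ζ ^ 5 * c4g (pt σ) 1) * hE3)
    (by
      simp only [hN, hV, hP1, Jc]
      linear_combination (ζ ^ 5 * c4g (pt σ) 0) * hE3 - (ζ ^ 5 * c3g (pt σ) 0) * hE4)
    (by
      simp only [hN, hV, hP2, Jc]
      ring)
    hVQ
  rw [hVR, ← hL] at key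
  have hfin : det3 P Q R = (c3 φ).leadingCoeff * (MvPolynomial.eval (pt σ) F / Jc σ) := by
    have h1 : ζ ^ 4 * Jc σ ≠ 0 := mul_ne_zero (pow_ne_zero 4 hζ0) hJ
    apply mul_left_cancel₀ h1
    rw [key]
    field_simp
  rw [hD1, e6b_evdet, hP]
  exact congrArg Neg.neg hfin

end Pool.Agent.H66.CY
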