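import Pool.Agent.H66.CY.E0

/-!
# E7c: `c3` is a prime element of `ℂ[x, y, z, w]` that does not divide `q = w c3 + c4`
-/

set_option autoImplicit false

noncomputable section

namespace Pool.Agent.H66.CY

open Polynomial (C X)
open scoped Polynomial

/-- `c3` in four variables. -/
def e7_P : MvPolynomial (Fin 4) ℂ :=
  c3 ![MvPolynomial.X 0, MvPolynomial.X 1, MvPolynomial.X 2]

/-- `c4` in four variables. -/
def e7_Q : MvPolynomial (Fin 4) ℂ :=
  c4 ![MvPolynomial.X 0, MvPolynomial.X 1, MvPolynomial.X 2]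

theorem e7_qq : qq = MvPolynomial.X 3 * e7_P + e7_Q := rfl

theorem e7_P_eq : e7_P = MvPolynomial.X 1 * MvPolynomial.X 2 ^ 2 - MvPolynomial.X 0 ^ 3 := rfl

theorem e7_eisenstein :
    Irreducible (X ^ 3 - C (MvPolynomial.X 0 * MvPolynomial.X 1 ^ 2) :
      Polynomial (MvPolynomial (Fin 3) ℂ)) := by
  set a : MvPolynomial (Fin 3) ℂ := MvPolynomial.X 0 * MvPolynomial.X 1 ^ 2 with ha
  have hdeg : (X ^ 3 - C a : Polynomial (MvPolynomial (Fin 3) ℂ)).degree = 3 :=
    Polynomial.degree_X_pow_sub_C (by norm_num) a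
  have hmon : (X ^ 3 - C a : Polynomial (MvPolynomial (Fin 3) ℂ)).Monic :=
    Polynomial.monic_X_pow_sub_C a (by norm_num)
  have hpr : (Ideal.span {(MvPolynomial.X 0 : MvPolynomial (Fin 3) ℂ)}).IsPrime := by
    rw [Ideal.span_singleton_prime (MvPolynomial.X_ne_zero _)]
    exact MvPolynomial.X_prime
  refine Polynomial.irreducible_of_eisenstein_criterion hpr ?_ ?_ ?_ ?_ hmon.isPrimitive
  · rw [hmon.leadingCoeff]
    exact fun h1 => hpr.ne_top ((Ideal.eq_top_iff_one _).2 h1)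
  · intro n hn
    rw [hdeg] at hn
    have hn3 : n < 3 := by exact_mod_cast hn
    rw [Polynomial.coeff_sub, Polynomial.coeff_X_pow, if_neg (by omega), zero_sub,
      Polynomial.coeff_C]
    split_ifs
    · rw [Ideal.mem_span_singleton]
      exact Dvd.dvd.mul_right (dvd_refl _) _ |>.neg_right
    · simp
  · rw [hdeg]
    norm_num
  · rw [Polynomial.coeff_sub, Polynomial.coeff_X_pow, if_neg (by norm_num), zero_sub,
      Polynomial.coeff_C_zero, Ideal.span_singleton_pow, Ideal.mem_span_singleton]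
    rintro ⟨R, hR⟩
    have h1 : (MvPolynomial.X 0 : MvPolynomial (Fin 3) ℂ) * (MvPolynomial.X 1 ^ 2) =
        MvPolynomial.X 0 * (- (MvPolynomial.X 0 * R)) := by
      rw [← ha]
      linear_combination - hR
    have h2 := mul_left_cancel₀ (MvPolynomial.X_ne_zero (R := ℂ) (0 : Fin 3)) h1
    have h3 := congrArg (MvPolynomial.eval ![0, 1, 0]) h2
    simp at h3

theorem e7_prime : Prime e7_P := by
  have h1 : Prime (X ^ 3 - C (MvPolynomial.X 0 * MvPolynomial.X 1 ^ 2) :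
      Polynomial (MvPolynomial (Fin 3) ℂ)) := irreducible_iff_prime.1 e7_eisenstein
  rw [← MulEquiv.prime_iff (MvPolynomial.finSuccEquiv ℂ 3)]
  have h2 : (MvPolynomial.finSuccEquiv ℂ 3) e7_P =
      - (X ^ 3 - C (MvPolynomial.X 0 * MvPolynomial.X 1 ^ 2)) := by
    have e1 : (1 : Fin 4) = Fin.succ (0 : Fin 3) := rfl
    have e2 : (2 : Fin 4) = Fin.succ (1 : Fin 3) := rfl
    rw [e7_P_eq, map_sub, map_mul, map_pow, map_pow, MvPolynomial.finSuccEquiv_X_zero, e1, e2,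
      MvPolynomial.finSuccEquiv_X_succ, MvPolynomial.finSuccEquiv_X_succ, Polynomial.C_mul,
      Polynomial.C_pow]
    ring
  rw [h2]
  exact h1.neg

theorem e7_not_dvd : ¬ e7_P ∣ qq := by
  rintro ⟨R, hR⟩
  have := congrArg (MvPolynomial.eval ![0, 1, 0, 0]) hR
  rw [e7_qq] at this
  simp [e7_P, e7_Q, c3, c4] at this

/-- `q ∣ c3 ^ k * G` implies `q ∣ G`. -/
theorem e7_gauss (k : ℕ) {G : MvPolynomial (Fin 4) ℂ} (hG : qq ∣ e7_P ^ k * G) : qq ∣ G := by
  obtain ⟨R, hR⟩ := hG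
  obtain ⟨S, rfl⟩ := e7_prime.pow_dvd_of_dvd_mul_left k e7_not_dvd ⟨G, hR.symm⟩
  refine ⟨S, ?_⟩
  have h1 : e7_P ^ k * G = e7_P ^ k * (qq * S) := by rw [hR]; ring
  exact mul_left_cancel₀ (pow_ne_zero _ e7_prime.ne_zero) h1

end Pool.Agent.H66.CY
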