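import Pool.Agent.H66.CY.E7b
import Pool.Agent.H66.CY.E7c

/-!
# E7: the curve `(φ, -δ)` detects the divisibility by `q = w c3 + c4` of forms of degree `k < e / 4`

`c3 ^ k G = aeval (c3 X_i) G` is congruent modulo `q` to the form `aeval (c3 x, c3 y, c3 z, - c4) G`
of degree `4 k` in `x, y, z`, which vanishes on `φ`, so it is zero.
-/

set_option autoImplicit false

noncomputable section

namespace Pool.Agent.H66.CY

open Polynomial (C X)
open scoped Polynomial

/-- Values of a polynomial at congruent vectors are congruent. -/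
theorem e7_congr {N : ℕ} {A : Type*} [CommRing A] [Algebra ℂ A] (F : MvPolynomial (Fin N) ℂ)
    {u v : Fin N → A} {q : A} (h : ∀ i, q ∣ u i - v i) :
    q ∣ MvPolynomial.aeval u F - MvPolynomial.aeval v F := by
  induction F using MvPolynomial.induction_on with
  | C a => simp
  | add p r hp hr =>
    rw [map_add, map_add]
    have : MvPolynomial.aeval u p + MvPolynomial.aeval u r
        - (MvPolynomial.aeval v p + MvPolynomial.aeval v r) =
        (MvPolynomial.aeval u p - MvPolynomial.aeval v p)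
          + (MvPolynomial.aeval u r - MvPolynomial.aeval v r) := by ring
    rw [this]
    exact dvd_add hp hr
  | mul_X p n hp =>
    rw [map_mul, map_mul, MvPolynomial.aeval_X, MvPolynomial.aeval_X]
    have : MvPolynomial.aeval u p * u n - MvPolynomial.aeval v p * v n =
        (MvPolynomial.aeval u p - MvPolynomial.aeval v p) * u n
          + MvPolynomial.aeval v p * (u n - v n) := by ring
    rw [this]
    exact dvd_add (hp.mul_right _) ((h n).mul_left _)

/-- The two cubics and quartics in three variables. -/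
def e7_c3 : MvPolynomial (Fin 3) ℂ :=
  c3 ![MvPolynomial.X 0, MvPolynomial.X 1, MvPolynomial.X 2]

/-- The quartic in three variables. -/
def e7_c4 : MvPolynomial (Fin 3) ℂ :=
  c4 ![MvPolynomial.X 0, MvPolynomial.X 1, MvPolynomial.X 2]

theorem e7_c3_hom : e7_c3.IsHomogeneous 3 := by
  have hX := fun i : Fin 3 => MvPolynomial.isHomogeneous_X ℂ i
  have h1 : (MvPolynomial.X 1 * MvPolynomial.X 2 ^ 2 : MvPolynomial (Fin 3) ℂ).IsHomogeneous 3 := by
    simpa using (hX 1).mul ((hX 2).pow 2)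
  have h2 : (MvPolynomial.X 0 ^ 3 : MvPolynomial (Fin 3) ℂ).IsHomogeneous 3 := by
    simpa using (hX 0).pow 3
  exact h1.sub h2

theorem e7_c4_hom : e7_c4.IsHomogeneous 4 := by
  have hX := fun i : Fin 3 => MvPolynomial.isHomogeneous_X ℂ i
  have hm : ∀ a b c : ℕ, a + b + c = 4 →
      (MvPolynomial.X 0 ^ a * MvPolynomial.X 1 ^ b * MvPolynomial.X 2 ^ c :
        MvPolynomial (Fin 3) ℂ).IsHomogeneous 4 := by
    intro a b c h
    have := (((hX 0).pow a).mul ((hX 1).pow b)).mul ((hX 2).pow c)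
    simpa [h] using this
  have hC : ∀ (r : ℂ) (a b c : ℕ), a + b + c = 4 →
      (MvPolynomial.C r * (MvPolynomial.X 0 ^ a * MvPolynomial.X 1 ^ b * MvPolynomial.X 2 ^ c) :
        MvPolynomial (Fin 3) ℂ).IsHomogeneous 4 := by
    intro r a b c h
    have := (MvPolynomial.isHomogeneous_C (Fin 3) r).mul (hm a b c h)
    simpa using this
  have key : e7_c4 =
      MvPolynomial.C 1 * (MvPolynomial.X 0 ^ 0 * MvPolynomial.X 1 ^ 4 * MvPolynomial.X 2 ^ 0)
      + MvPolynomial.C (-446) *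
        (MvPolynomial.X 0 ^ 1 * MvPolynomial.X 1 ^ 3 * MvPolynomial.X 2 ^ 0)
      + MvPolynomial.C (-260) *
        (MvPolynomial.X 0 ^ 0 * MvPolynomial.X 1 ^ 3 * MvPolynomial.X 2 ^ 1)
      + MvPolynomial.C 76093 *
        (MvPolynomial.X 0 ^ 2 * MvPolynomial.X 1 ^ 2 * MvPolynomial.X 2 ^ 0)
      + MvPolynomial.C 88660 *
        (MvPolynomial.X 0 ^ 1 * MvPolynomial.X 1 ^ 2 * MvPolynomial.X 2 ^ 1)
      + MvPolynomial.C (-6161328) *
        (MvPolynomial.X 0 ^ 0 * MvPolynomial.X 1 ^ 2 * MvPolynomial.X 2 ^ 2)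
      + MvPolynomial.C (-10234640) *
        (MvPolynomial.X 0 ^ 2 * MvPolynomial.X 1 ^ 1 * MvPolynomial.X 2 ^ 1)
      + MvPolynomial.C 234902256 *
        (MvPolynomial.X 0 ^ 1 * MvPolynomial.X 1 ^ 1 * MvPolynomial.X 2 ^ 2)
      + MvPolynomial.C 445386240 *
        (MvPolynomial.X 0 ^ 0 * MvPolynomial.X 1 ^ 1 * MvPolynomial.X 2 ^ 3)
      + MvPolynomial.C (-3542386176) *
        (MvPolynomial.X 0 ^ 2 * MvPolynomial.X 1 ^ 0 * MvPolynomial.X 2 ^ 2)
      + MvPolynomial.C (-4852224000) *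
        (MvPolynomial.X 0 ^ 1 * MvPolynomial.X 1 ^ 0 * MvPolynomial.X 2 ^ 3)
      + MvPolynomial.C 17244057600 *
        (MvPolynomial.X 0 ^ 0 * MvPolynomial.X 1 ^ 0 * MvPolynomial.X 2 ^ 4) := by
    simp only [e7_c4, c4, Matrix.cons_val_zero, Matrix.cons_val_one, Matrix.cons_val, map_neg,
      map_ofNat, map_one]
    ring
  rw [key]
  refine (((((((((((hC _ _ _ _ rfl).add (hC _ _ _ _ rfl)).add (hC _ _ _ _ rfl)).add
    (hC _ _ _ _ rfl)).add (hC _ _ _ _ rfl)).add (hC _ _ _ _ rfl)).add (hC _ _ _ _ rfl)).add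
    (hC _ _ _ _ rfl)).add (hC _ _ _ _ rfl)).add (hC _ _ _ _ rfl)).add (hC _ _ _ _ rfl)).add
    (hC _ _ _ _ rfl)

/-- The substitution `(c3 x, c3 y, c3 z, - c4)`. -/
def e7_sub : Fin 4 → MvPolynomial (Fin 3) ℂ :=
  ![e7_c3 * MvPolynomial.X 0, e7_c3 * MvPolynomial.X 1, e7_c3 * MvPolynomial.X 2, -e7_c4]

theorem e7_sub_hom (i : Fin 4) : (e7_sub i).IsHomogeneous 4 := by
  have hX := fun i : Fin 3 => MvPolynomial.isHomogeneous_X ℂ i
  fin_cases i
  · exact e7_c3_hom.mul (hX 0)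
  · exact e7_c3_hom.mul (hX 1)
  · exact e7_c3_hom.mul (hX 2)
  · exact e7_c4_hom.neg

theorem detects {e : ℕ} {σ : ℂ} {φ : Fin 3 → Polynomial ℂ} (h : Sec e σ φ) {δ : Polynomial ℂ}
    (hδ : c4 φ = δ * c3 φ) {k : ℕ} (hk : 4 * k < e) {G : MvPolynomial (Fin 4) ℂ}
    (hG : G.IsHomogeneous k) (h0 : MvPolynomial.aeval ![φ 0, φ 1, φ 2, -δ] G = 0) : qq ∣ G := by
  have hH : (MvPolynomial.aeval e7_sub G : MvPolynomial (Fin 3) ℂ).IsHomogeneous (4 * k) :=
    hG.aeval _ e7_sub_hom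
  have hc3 : MvPolynomial.aeval φ e7_c3 = c3 φ := by
    simp [e7_c3, c3]
  have hc4 : MvPolynomial.aeval φ e7_c4 = c4 φ := by
    simp [e7_c4, c4]
  have hH0 : MvPolynomial.aeval φ (MvPolynomial.aeval e7_sub G : MvPolynomial (Fin 3) ℂ) = 0 := by
    have h1 : MvPolynomial.aeval φ (MvPolynomial.aeval e7_sub G : MvPolynomial (Fin 3) ℂ) =
        MvPolynomial.aeval (fun i => MvPolynomial.aeval φ (e7_sub i)) G := by
      rw [← MvPolynomial.comp_aeval_apply]
    have h2 : (fun i => MvPolynomial.aeval φ (e7_sub i)) =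
        fun i => c3 φ * (![φ 0, φ 1, φ 2, -δ] : Fin 4 → ℂ[X]) i := by
      funext i
      fin_cases i
      · simp [e7_sub, hc3]
      · simp [e7_sub, hc3]
      · simp [e7_sub, hc3]
      · simp [e7_sub, hc4, hδ, mul_comm]
    rw [h1, h2, e7_aeval_smul hG, h0, mul_zero]
  have hzero := e7_form_zero h hk hH hH0
  have hqP : qq ∣ MvPolynomial.aeval (fun i => e7_P * MvPolynomial.X i) G
      - MvPolynomial.aeval (fun i => MvPolynomial.rename Fin.castSucc (e7_sub i)) G := by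
    have hr3 : MvPolynomial.rename (Fin.castSucc : Fin 3 → Fin 4) e7_c3 = e7_P := by
      simp [e7_c3, e7_P, c3]
    have hr4 : MvPolynomial.rename (Fin.castSucc : Fin 3 → Fin 4) e7_c4 = e7_Q := by
      simp [e7_c4, e7_Q, c4, map_ofNat]
    refine e7_congr G fun i => ?_
    fin_cases i
    · simp [e7_sub, hr3]
    · simp [e7_sub, hr3]
    · simp [e7_sub, hr3]
    · have : e7_P * MvPolynomial.X 3 - -e7_Q = qq := by rw [e7_qq]; ring
      simp [e7_sub, hr4, this]
  have h3 : MvPolynomial.aeval (fun i => MvPolynomial.rename (Fin.castSucc : Fin 3 → Fin 4)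
      (e7_sub i)) G = 0 := by
    rw [← MvPolynomial.comp_aeval_apply, hzero, map_zero]
  rw [h3, sub_zero, e7_aeval_smul hG, MvPolynomial.aeval_X_left_apply] at hqP
  exact e7_gauss k hqP

end Pool.Agent.H66.CY
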