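import Pool.Agent.H66.CY.E0

/-!
# E7a: a form of degree less than `e` that vanishes on a section of degree `e` is zero

Projection from the cusp `(0, 1, 0)`: on the line `x = λ z` there are `e` distinct points of the
curve, for all `λ` outside a finite set.
-/

set_option autoImplicit false

noncomputable section

namespace Pool.Agent.H66.CY

open Polynomial (C X)
open scoped Polynomial

theorem e7_aeval_smul {N : ℕ} {A : Type*} [CommRing A] [Algebra ℂ A] {F : MvPolynomial (Fin N) ℂ}
    {d : ℕ} (hF : F.IsHomogeneous d) (z : A) (u : Fin N → A) :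
    MvPolynomial.aeval (fun i => z * u i) F = z ^ d * MvPolynomial.aeval u F := by
  rw [MvPolynomial.aeval_def, MvPolynomial.aeval_def, MvPolynomial.eval₂_eq',
    MvPolynomial.eval₂_eq', Finset.mul_sum]
  refine Finset.sum_congr rfl fun m hm => ?_
  have hm' := hF (MvPolynomial.mem_support_iff.1 hm)
  have hd : ∑ i, m i = d := by
    rw [← hm', ← Finsupp.degree_eq_sum]
    exact congrFun (congrArg DFunLike.coe Finsupp.degree_eq_weight_one) m
  simp_rw [mul_pow]
  rw [Finset.prod_mul_distrib, Finset.prod_pow_eq_pow_sum, hd]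
  ring

theorem e7_eval_smul {N : ℕ} {F : MvPolynomial (Fin N) ℂ}
    {d : ℕ} (hF : F.IsHomogeneous d) (z : ℂ) (u : Fin N → ℂ) :
    MvPolynomial.eval (fun i => z * u i) F = z ^ d * MvPolynomial.eval u F := by
  have := e7_aeval_smul hF z u
  simpa [MvPolynomial.aeval_eq_eval, MvPolynomial.coe_aeval_eq_eval] using this

theorem e7_eval_aeval {N : ℕ} (F : MvPolynomial (Fin N) ℂ) (u : Fin N → ℂ[X]) (t : ℂ) :
    (MvPolynomial.aeval u F).eval t = MvPolynomial.eval (fun i => (u i).eval t) F := by
  induction F using MvPolynomial.induction_on with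
  | C a => simp
  | add p q hp hq => simp [hp, hq]
  | mul_X p n hp => simp [hp]

section

variable {e : ℕ} {σ : ℂ} {φ : Fin 3 → ℂ[X]} (h : Sec e σ φ)
include h

theorem e7_eqn (τ : ℂ) :
    τ * ((φ 1).eval τ * (φ 2).eval τ ^ 2 - (φ 0).eval τ ^ 3)
      + b3 (fun i => (φ i).eval τ) = 0 := by
  have h1 := congrArg (Polynomial.eval τ) h.eqn
  simp only [Kt, c3, b3, Polynomial.eval_add, Polynomial.eval_sub, Polynomial.eval_mul,
    Polynomial.eval_pow, Polynomial.eval_X, Polynomial.eval_ofNat, Polynomial.eval_zero] at h1 ⊢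
  linear_combination h1

theorem e7_copr (τ : ℂ) (h0 : (φ 0).eval τ = 0) (h2 : (φ 2).eval τ = 0) : False := by
  have h1 := e7_eqn h τ
  simp only [b3, h0, h2] at h1
  have hy : (φ 1).eval τ = 0 := by
    have : (φ 1).eval τ ^ 3 = 0 := by linear_combination h1
    exact pow_eq_zero_iff (by norm_num) |>.1 this
  obtain ⟨i, hi⟩ := h.prim τ
  fin_cases i
  · exact hi h0
  · exact hi hy
  · exact hi h2

theorem e7_isCoprime : IsCoprime (φ 0) (φ 2) := by
  rw [Polynomial.isCoprime_iff_aeval_ne_zero_of_isAlgClosed (k := ℂ) (K := ℂ)]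
  intro a
  by_contra hc
  push Not at hc
  exact e7_copr h a (by simpa using hc.1) (by simpa using hc.2)

/-- The Wronskian of `φ 0` and `φ 2`. -/
theorem e7_wronskian :
    Polynomial.derivative (φ 0) * φ 2 - φ 0 * Polynomial.derivative (φ 2) ≠ 0 := by
  intro h0
  have h1 : φ 2 ∣ φ 0 * Polynomial.derivative (φ 2) :=
    ⟨Polynomial.derivative (φ 0), by linear_combination - h0⟩
  have h2 : φ 2 ∣ Polynomial.derivative (φ 2) :=
    (e7_isCoprime h).symm.dvd_of_dvd_mul_left h1
  have h3 : Polynomial.derivative (φ 2) = 0 := by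
    by_contra hne
    have hlt := Polynomial.natDegree_derivative_lt (p := φ 2) (by
      intro hd
      exact hne (Polynomial.derivative_of_natDegree_zero hd))
    exact absurd (Polynomial.natDegree_le_of_dvd h2 hne) (not_le.2 hlt)
  have h4 := Polynomial.derivative_eq_zero.1 h3
  have h5 : e ≤ (φ 2).natDegree := Polynomial.le_natDegree_of_ne_zero h.lead
  have := h.one_le
  omega

/-- For `lam` outside a finite set `φ 0 - lam * φ 2` has `e` distinct roots. -/
theorem e7_card {lam : ℂ} (h1 : lam ≠ σ)
    (h2 : ∀ τ, (Polynomial.derivative (φ 0) * φ 2 - φ 0 * Polynomial.derivative (φ 2)).eval τ = 0 →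
      (φ 0).eval τ ≠ lam * (φ 2).eval τ) :
    (φ 0 - C lam * φ 2).roots.toFinset.card = e := by
  set p := φ 0 - C lam * φ 2 with hp
  have hdeg : p.natDegree = e := by
    refine le_antisymm ?_ ?_
    · refine (Polynomial.natDegree_sub_le _ _).trans (max_le (h.deg 0) ?_)
      exact (Polynomial.natDegree_C_mul_le _ _).trans (h.deg 2)
    · refine Polynomial.le_natDegree_of_ne_zero ?_
      rw [hp, Polynomial.coeff_sub, Polynomial.coeff_C_mul, h.lead0]
      have := h.lead
      have h3 : (σ - lam) * (φ 2).coeff e ≠ 0 := mul_ne_zero (sub_ne_zero.2 (Ne.symm h1)) this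
      intro h4
      exact h3 (by linear_combination h4)
  have hp0 : p ≠ 0 := by
    intro h0
    rw [h0, Polynomial.natDegree_zero] at hdeg
    have := h.one_le
    omega
  have hsep : p.Separable := by
    rw [Polynomial.separable_def, Polynomial.isCoprime_iff_aeval_ne_zero_of_isAlgClosed (k := ℂ) (K := ℂ)]
    intro a
    by_contra hc
    push Not at hc
    obtain ⟨ha, hb⟩ := hc
    simp only [hp, Polynomial.coe_aeval_eq_eval, Polynomial.eval_sub, Polynomial.eval_mul,
      Polynomial.eval_C, Polynomial.derivative_sub, Polynomial.derivative_mul,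
      Polynomial.derivative_C, zero_mul, zero_add] at ha hb
    refine h2 a ?_ (by linear_combination ha)
    simp only [Polynomial.eval_sub, Polynomial.eval_mul]
    linear_combination (φ 2).eval a * hb - (Polynomial.derivative (φ 2)).eval a * ha
  rw [Multiset.toFinset_card_of_nodup (Polynomial.nodup_roots hsep), ← hdeg]
  exact (IsAlgClosed.splits p).natDegree_eq_card_roots.symm

end

end Pool.Agent.H66.CY
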