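import Pool.Agent.H66.CY.E7a

/-!
# E7b: a form of degree less than `e` that vanishes on a section of degree `e` is zero
-/

set_option autoImplicit false

noncomputable section

namespace Pool.Agent.H66.CY

open Polynomial (C X)
open scoped Polynomial

/-- The restriction of a form to the points `(lam, Y, 1)` has degree at most the degree. -/
theorem e7_natDegree_line {H : MvPolynomial (Fin 3) ℂ} {K : ℕ} (hH : H.IsHomogeneous K) (lam : ℂ) :
    (MvPolynomial.aeval ![C lam, X, 1] H : ℂ[X]).natDegree ≤ K := by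
  rw [MvPolynomial.aeval_def, MvPolynomial.eval₂_eq']
  refine Polynomial.natDegree_sum_le_of_forall_le _ _ fun m hm => ?_
  have hm' := hH (MvPolynomial.mem_support_iff.1 hm)
  have hd : ∑ i, m i = K := by
    rw [← hm', ← Finsupp.degree_eq_sum]
    exact congrFun (congrArg DFunLike.coe Finsupp.degree_eq_weight_one) m
  rw [Fin.sum_univ_three] at hd
  simp only [Fin.prod_univ_three, Matrix.cons_val_zero, Matrix.cons_val_one, Matrix.cons_val,
    one_pow, mul_one, ← Polynomial.C_pow, Polynomial.algebraMap_apply, Algebra.algebraMap_self,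
    RingHom.id_apply]
  rw [← mul_assoc, ← Polynomial.C_mul]
  refine (Polynomial.natDegree_C_mul_X_pow_le _ _).trans (by omega)

section

variable {e : ℕ} {σ : ℂ} {φ : Fin 3 → ℂ[X]} (h : Sec e σ φ)
include h

/-- Outside a finite set of lines a form of degree less than `e` that vanishes on `φ` vanishes on
the line `x = lam z`. -/
theorem e7_line {K : ℕ} (hK : K < e) {H : MvPolynomial (Fin 3) ℂ} (hH : H.IsHomogeneous K)
    (h0 : MvPolynomial.aeval φ H = 0) {lam : ℂ} (h1 : lam ≠ σ) (hb : ∀ j, lam ≠ sb j)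
    (h2 : ∀ τ, (Polynomial.derivative (φ 0) * φ 2 - φ 0 * Polynomial.derivative (φ 2)).eval τ = 0 →
      (φ 0).eval τ ≠ lam * (φ 2).eval τ) (Y : ℂ) : MvPolynomial.eval ![lam, Y, 1] H = 0 := by
  have hroot : ∀ τ ∈ (φ 0 - C lam * φ 2).roots.toFinset,
      (φ 0).eval τ = lam * (φ 2).eval τ ∧ (φ 2).eval τ ≠ 0 := by
    intro τ hτ
    have h3 := (Polynomial.mem_roots'.1 (Multiset.mem_toFinset.1 hτ)).2
    have h4 : (φ 0).eval τ = lam * (φ 2).eval τ := by
      have := h3
      simp only [Polynomial.IsRoot.def, Polynomial.eval_sub, Polynomial.eval_mul,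
        Polynomial.eval_C] at this
      linear_combination this
    refine ⟨h4, fun h5 => e7_copr h τ (by rw [h4, h5, mul_zero]) h5⟩
  have heq : ∀ τ ∈ (φ 0 - C lam * φ 2).roots.toFinset,
      τ * ((φ 1).eval τ / (φ 2).eval τ - lam ^ 3)
        + b3 ![lam, (φ 1).eval τ / (φ 2).eval τ, 1] = 0 := by
    intro τ hτ
    obtain ⟨h4, h5⟩ := hroot τ hτ
    have h6 := e7_eqn h τ
    have h7 : (φ 2).eval τ ^ 3 * (τ * ((φ 1).eval τ / (φ 2).eval τ - lam ^ 3)
        + b3 ![lam, (φ 1).eval τ / (φ 2).eval τ, 1]) = 0 := by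
      have h8 : (φ 1).eval τ = ((φ 1).eval τ / (φ 2).eval τ) * (φ 2).eval τ := by
        field_simp
      generalize (φ 1).eval τ / (φ 2).eval τ = Y' at *
      rw [← h6]
      simp only [b3, h4, h8, Matrix.cons_val_zero, Matrix.cons_val_one, Matrix.cons_val]
      ring
    exact (mul_eq_zero.1 h7).resolve_left (pow_ne_zero _ h5)
  have hne : ∀ τ ∈ (φ 0 - C lam * φ 2).roots.toFinset,
      (φ 1).eval τ / (φ 2).eval τ - lam ^ 3 ≠ 0 := by
    intro τ hτ h9
    have h6 := heq τ hτ
    rw [h9, mul_zero, zero_add, sub_eq_zero.1 h9] at h6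
    have h10 : b3 ![lam, lam ^ 3, 1] = ∏ j, (lam - sb j) := by
      simp only [b3, sb, Matrix.cons_val_zero, Matrix.cons_val_one, Matrix.cons_val,
        Fin.prod_univ_succ, Finset.univ_unique, Fin.default_eq_zero,
        Finset.prod_singleton, Fin.isValue, Matrix.cons_val_succ]
      push_cast
      ring
    rw [h10, Finset.prod_eq_zero_iff] at h6
    obtain ⟨j, _, hj⟩ := h6
    exact hb j (sub_eq_zero.1 hj)
  have hinj : Set.InjOn (fun τ => (φ 1).eval τ / (φ 2).eval τ)
      ((φ 0 - C lam * φ 2).roots.toFinset : Set ℂ) := by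
    intro τ hτ τ' hτ' hY
    have a1 := heq τ hτ
    have a2 := heq τ' hτ'
    have a3 := hne τ' hτ'
    simp only at hY
    rw [hY] at a1
    have a4 : (τ - τ') * ((φ 1).eval τ' / (φ 2).eval τ' - lam ^ 3) = 0 := by
      linear_combination a1 - a2
    exact sub_eq_zero.1 ((mul_eq_zero.1 a4).resolve_right a3)
  set p : ℂ[X] := MvPolynomial.aeval ![C lam, X, 1] H with hp
  have hpe : ∀ y : ℂ, p.eval y = MvPolynomial.eval ![lam, y, 1] H := by
    intro y
    rw [hp, e7_eval_aeval]
    congr 1
    congr 1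
    ext i
    fin_cases i <;> simp
  by_cases hp0 : p = 0
  · rw [← hpe, hp0, Polynomial.eval_zero]
  exfalso
  have hsub : (φ 0 - C lam * φ 2).roots.toFinset.image (fun τ => (φ 1).eval τ / (φ 2).eval τ) ⊆
      p.roots.toFinset := by
    intro y hy
    obtain ⟨τ, hτ, rfl⟩ := Finset.mem_image.1 hy
    obtain ⟨h4, h5⟩ := hroot τ hτ
    rw [Multiset.mem_toFinset, Polynomial.mem_roots hp0, Polynomial.IsRoot.def, hpe]
    have h11 := e7_eval_aeval H φ τ
    rw [h0, Polynomial.eval_zero] at h11
    have h12 := e7_eval_smul hH ((φ 2).eval τ) ![lam, (φ 1).eval τ / (φ 2).eval τ, 1]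
    have h13 : (fun i => (φ 2).eval τ * (![lam, (φ 1).eval τ / (φ 2).eval τ, 1] : Fin 3 → ℂ) i) =
        fun i => (φ i).eval τ := by
      ext i
      fin_cases i
      · simp [h4, mul_comm]
      · simp only [Fin.mk_one, Matrix.cons_val_one, Matrix.cons_val_zero]
        field_simp
      · simp
    rw [h13, ← h11] at h12
    exact (mul_eq_zero.1 h12.symm).resolve_left (pow_ne_zero _ h5)
  have hcard := Finset.card_le_card hsub
  rw [Finset.card_image_of_injOn hinj, e7_card h h1 h2] at hcard
  have h14 : p.roots.toFinset.card ≤ K :=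
    (Multiset.toFinset_card_le _).trans ((Polynomial.card_roots' p).trans (e7_natDegree_line hH lam))
  omega

/-- A form of degree less than `e` that vanishes on a section of degree `e` is zero. -/
theorem e7_form_zero {K : ℕ} (hK : K < e) {H : MvPolynomial (Fin 3) ℂ} (hH : H.IsHomogeneous K)
    (h0 : MvPolynomial.aeval φ H = 0) : H = 0 := by
  classical
  set W := Polynomial.derivative (φ 0) * φ 2 - φ 0 * Polynomial.derivative (φ 2) with hW
  have hW0 : W ≠ 0 := e7_wronskian h
  let bad : Finset ℂ := insert σ (Finset.univ.image (fun j => (sb j : ℂ)) ∪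
    W.roots.toFinset.image (fun τ => (φ 0).eval τ / (φ 2).eval τ))
  have hgood : ∀ lam : ℂ, lam ∉ bad → ∀ Y, MvPolynomial.eval ![lam, Y, 1] H = 0 := by
    intro lam hl Y
    simp only [bad, Finset.mem_insert, Finset.mem_union, Finset.mem_image, Finset.mem_univ,
      true_and, not_or, not_exists, not_and] at hl
    refine e7_line h hK hH h0 hl.1 (fun j hj => hl.2.1 j hj.symm) (fun τ hτ hc => ?_) Y
    have h5 : (φ 2).eval τ ≠ 0 := fun h5 => e7_copr h τ (by rw [hc, h5, mul_zero]) h5
    refine hl.2.2 τ ?_ ?_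
    · rw [Multiset.mem_toFinset, Polynomial.mem_roots hW0]
      exact hτ
    · rw [hc]
      field_simp
  have hprod : H * (MvPolynomial.X 2 *
      ∏ μ ∈ bad, (MvPolynomial.X 0 - MvPolynomial.C μ * MvPolynomial.X 2)) = 0 := by
    refine MvPolynomial.funext fun v => ?_
    rw [map_mul, map_zero]
    by_cases hv : v 2 = 0
    · simp [hv]
    by_cases hv' : v 0 / v 2 ∈ bad
    · rw [map_mul, map_prod, Finset.prod_eq_zero hv' (by simp; field_simp; ring), mul_zero, mul_zero]
    · have h12 := e7_eval_smul hH (v 2) ![v 0 / v 2, v 1 / v 2, 1]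
      have h13 : (fun i => v 2 * (![v 0 / v 2, v 1 / v 2, 1] : Fin 3 → ℂ) i) = v := by
        ext i
        fin_cases i
        · simp only [Fin.zero_eta, Matrix.cons_val_zero]
          field_simp
        · simp only [Fin.mk_one, Matrix.cons_val_one, Matrix.cons_val_zero]
          field_simp
        · simp
      rw [h13, hgood _ hv', mul_zero] at h12
      rw [h12, zero_mul]
  have hne : (MvPolynomial.X 2 *
      ∏ μ ∈ bad, (MvPolynomial.X 0 - MvPolynomial.C μ * MvPolynomial.X 2) :
        MvPolynomial (Fin 3) ℂ) ≠ 0 := by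
    refine mul_ne_zero (MvPolynomial.X_ne_zero _) (Finset.prod_ne_zero_iff.2 fun μ _ hc => ?_)
    have := congrArg (MvPolynomial.eval ![1, 0, 0]) hc
    simp at this
  exact (mul_eq_zero.1 hprod).resolve_right hne

end

end Pool.Agent.H66.CY
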