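import Pool.Agent.H66.CY.E3
import Pool.Agent.H66.CY.E4
import Pool.Agent.H66.CY.E5d
import Pool.Agent.H66.CY.E6
import Pool.Agent.H66.CY.E7

/-!
The summary of part E. For every `r` take `φ` from `sections`, `δ` from `exists_delta`, `lam` from
`exists_lam`, `f r = (φ 0, φ 1, φ 2, - δ)`. If `lam (F(φ)) = 0` for a quartic form `F` then
`F(φ) = dsub qq f g`, so by `relation` (`σ = -6`) `S_r(F) = ∑ m_j F(pt s_j) / Jc s_j + F(pt (-6)) / Jc (-6) = 0`.
Put `F₁ = X 2 * b3` and `F₂ = l₁₂ l₃₄ l₅₆ l₇₈`, `l_ij = det3 (pt s_i) (pt s_j) X`: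
`S_r(F₁) = b3 (pt (-6)) / Jc (-6) = β ≠ 0`, `S_r(F₂) = m_8 F₂(pt 12) / Jc 12 = 2 r² α`, `α ≠ 0` (`F₂` vanishes
at `pt (-6)` because `-6 + 2 + 4 = 0`). First: `lam (F₁(φ)) ≠ 0`. Second: if `L_r = c L_{r'}` on the quartic
forms, put `F = L_{r'}(F₂) F₁ - L_{r'}(F₁) F₂`: `L_{r'}(F) = L_r(F) = 0`, so
`L_{r'}(F₂) β = L_{r'}(F₁) 2 r² α = L_{r'}(F₁) 2 r'² α`, so `L_{r'}(F₁) = 0`, a contradiction.
-/

set_option autoImplicit false

open Polynomial

namespace Pool.Agent.H66.CY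

/-- the form `z b3` -/
private noncomputable def esF1 : MvPolynomial (Fin 3) ℂ :=
  MvPolynomial.X 2 * b3 (fun i => MvPolynomial.X i)

/-- the line through `pt s` and `pt s'` -/
private noncomputable def esL (s s' : ℤ) : MvPolynomial (Fin 3) ℂ :=
  det3 (pt (MvPolynomial.C (s : ℂ))) (pt (MvPolynomial.C (s' : ℂ))) (fun i => MvPolynomial.X i)

/-- the product of four lines -/
private noncomputable def esF2 : MvPolynomial (Fin 3) ℂ :=
  esL (-12) (-7) * esL (-10) (-9) * esL 2 4 * esL 9 11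

private theorem es_b3_hom :
    (b3 (fun i => MvPolynomial.X i) : MvPolynomial (Fin 3) ℂ).IsHomogeneous 3 := by
  have hX := fun i : Fin 3 => MvPolynomial.isHomogeneous_X ℂ i
  have hC : ∀ (r : ℂ) (a b c : ℕ), a + b + c = 3 →
      (MvPolynomial.C r * (MvPolynomial.X 0 ^ a * MvPolynomial.X 1 ^ b * MvPolynomial.X 2 ^ c) :
        MvPolynomial (Fin 3) ℂ).IsHomogeneous 3 := by
    intro r a b c h
    have h1 := (((hX 0).pow a).mul ((hX 1).pow b)).mul ((hX 2).pow c)
    have := (MvPolynomial.isHomogeneous_C (Fin 3) r).mul h1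
    simpa [h] using this
  have key : (b3 (fun i => MvPolynomial.X i) : MvPolynomial (Fin 3) ℂ) =
      MvPolynomial.C 1 * (MvPolynomial.X 0 ^ 0 * MvPolynomial.X 1 ^ 3 * MvPolynomial.X 2 ^ 0)
      + MvPolynomial.C (-370) * (MvPolynomial.X 0 ^ 1 * MvPolynomial.X 1 ^ 2 * MvPolynomial.X 2 ^ 0)
      + MvPolynomial.C (-20) * (MvPolynomial.X 0 ^ 0 * MvPolynomial.X 1 ^ 2 * MvPolynomial.X 2 ^ 1)
      + MvPolynomial.C 47973 * (MvPolynomial.X 0 ^ 2 * MvPolynomial.X 1 ^ 1 * MvPolynomial.X 2 ^ 0)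
      + MvPolynomial.C (-1660) *
        (MvPolynomial.X 0 ^ 1 * MvPolynomial.X 1 ^ 1 * MvPolynomial.X 2 ^ 1)
      + MvPolynomial.C (-2520180) *
        (MvPolynomial.X 0 ^ 0 * MvPolynomial.X 1 ^ 1 * MvPolynomial.X 2 ^ 2)
      + MvPolynomial.C 1152720 *
        (MvPolynomial.X 0 ^ 2 * MvPolynomial.X 1 ^ 0 * MvPolynomial.X 2 ^ 1)
      + MvPolynomial.C 42970176 *
        (MvPolynomial.X 0 ^ 1 * MvPolynomial.X 1 ^ 0 * MvPolynomial.X 2 ^ 2)
      + MvPolynomial.C (-71850240) *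
        (MvPolynomial.X 0 ^ 0 * MvPolynomial.X 1 ^ 0 * MvPolynomial.X 2 ^ 3) := by
    simp only [b3, map_neg, map_ofNat, map_one]
    ring
  rw [key]
  exact ((((((((hC _ _ _ _ rfl).add (hC _ _ _ _ rfl)).add (hC _ _ _ _ rfl)).add
    (hC _ _ _ _ rfl)).add (hC _ _ _ _ rfl)).add (hC _ _ _ _ rfl)).add (hC _ _ _ _ rfl)).add
    (hC _ _ _ _ rfl)).add (hC _ _ _ _ rfl)

private theorem es_F1_hom : esF1.IsHomogeneous 4 := by
  have := (MvPolynomial.isHomogeneous_X ℂ (2 : Fin 3)).mul es_b3_hom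
  simpa [esF1] using this

private theorem es_L_hom (s s' : ℤ) : (esL s s').IsHomogeneous 1 := by
  have hX := fun i : Fin 3 => MvPolynomial.isHomogeneous_X ℂ i
  have hC : ∀ (r : ℂ) (i : Fin 3),
      (MvPolynomial.C r * MvPolynomial.X i : MvPolynomial (Fin 3) ℂ).IsHomogeneous 1 := by
    intro r i
    have := (MvPolynomial.isHomogeneous_C (Fin 3) r).mul (hX i)
    simpa using this
  have key : esL s s' = MvPolynomial.C ((s : ℂ) ^ 3 - (s' : ℂ) ^ 3) * MvPolynomial.X 0 +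
      MvPolynomial.C ((s' : ℂ) - s) * MvPolynomial.X 1 +
      MvPolynomial.C ((s : ℂ) * (s' : ℂ) ^ 3 - (s : ℂ) ^ 3 * s') * MvPolynomial.X 2 := by
    simp only [esL, det3, pt, Matrix.cons_val_zero, Matrix.cons_val_one, Matrix.cons_val, map_sub,
      map_mul, map_pow]
    ring
  rw [key]
  exact ((hC _ _).add (hC _ _)).add (hC _ _)

private theorem es_F2_hom : esF2.IsHomogeneous 4 :=
  (((es_L_hom _ _).mul (es_L_hom _ _)).mul (es_L_hom _ _)).mul (es_L_hom _ _)

private theorem es_F1_eval (v : Fin 3 → ℂ) : MvPolynomial.eval v esF1 = v 2 * b3 v := by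
  rw [esF1, map_mul, MvPolynomial.eval_X, map_b3]
  simp only [MvPolynomial.eval_X]

private theorem es_L_eval (s s' : ℤ) (x : ℂ) : MvPolynomial.eval (pt x) (esL s s') =
    ((s : ℂ) - s') * (s' - x) * (x - s) * (s + s' + x) := by
  simp only [esL, det3, pt, Matrix.cons_val_zero, Matrix.cons_val_one, Matrix.cons_val, map_sub,
    map_mul, map_pow, map_add, MvPolynomial.eval_C, MvPolynomial.eval_X, map_one]
  ring

private theorem es_F2_eval (x : ℂ) : MvPolynomial.eval (pt x) esF2 =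
    ((-12 - -7) * (-7 - x) * (x - -12) * (-12 + -7 + x)) *
    ((-10 - -9) * (-9 - x) * (x - -10) * (-10 + -9 + x)) *
    ((2 - 4) * (4 - x) * (x - 2) * (2 + 4 + x)) *
    ((9 - 11) * (11 - x) * (x - 9) * (9 + 11 + x)) := by
  rw [esF2, map_mul, map_mul, map_mul, es_L_eval, es_L_eval, es_L_eval, es_L_eval]
  push_cast
  ring

private theorem es_qq_hom : qq.IsHomogeneous 4 := by
  have h3 : qq = MvPolynomial.X 3 * MvPolynomial.rename Fin.castSucc e7_c3 +
      MvPolynomial.rename Fin.castSucc e7_c4 := by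
    simp only [qq, e7_c3, e7_c4, c3, c4, Matrix.cons_val_zero, Matrix.cons_val_one,
      Matrix.cons_val, map_sub, map_add, map_mul, map_pow, map_ofNat, MvPolynomial.rename_X]
    rfl
  rw [h3]
  have h4 := (MvPolynomial.isHomogeneous_X ℂ (3 : Fin 4)).mul
    (MvPolynomial.IsHomogeneous.rename_isHomogeneous (f := Fin.castSucc) e7_c3_hom)
  exact h4.add (MvPolynomial.IsHomogeneous.rename_isHomogeneous (f := Fin.castSucc) e7_c4_hom)

private theorem es_qq_w : ∃ m, m 3 ≠ 0 ∧ qq.coeff m ≠ 0 := by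
  by_contra hcon
  push Not at hcon
  -- `qq` does not depend on the last variable
  have h1 : ∀ u : Fin 4 → ℂ, ∀ t : ℂ, MvPolynomial.eval (Function.update u 3 t) qq =
      MvPolynomial.eval u qq := by
    intro u t
    rw [MvPolynomial.eval_eq', MvPolynomial.eval_eq']
    refine Finset.sum_congr rfl fun m hm => ?_
    congr 1
    have hm3 : m 3 = 0 := by
      by_contra h
      exact (MvPolynomial.mem_support_iff.1 hm) (hcon m h)
    refine Finset.prod_congr rfl fun i _ => ?_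
    by_cases hi : i = 3
    · subst hi
      rw [hm3, pow_zero, pow_zero]
    · rw [Function.update_of_ne hi]
  have h2 : ∀ u : Fin 4 → ℂ, MvPolynomial.eval u qq = u 3 * c3 ![u 0, u 1, u 2] +
      c4 ![u 0, u 1, u 2] := by
    intro u
    simp only [qq, c3, c4, Matrix.cons_val_zero, Matrix.cons_val_one, Matrix.cons_val, map_sub,
      map_add, map_mul, map_pow, map_ofNat, MvPolynomial.eval_X]
  have h3 := h1 ![0, 1, 1, 0] 1
  rw [h2, h2] at h3
  have e0 : Function.update (![0, 1, 1, 0] : Fin 4 → ℂ) 3 1 = ![0, 1, 1, 1] := by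
    funext i
    fin_cases i <;> simp [Function.update]
  rw [e0] at h3
  simp only [Matrix.cons_val_zero, Matrix.cons_val_one, Matrix.cons_val] at h3
  have e1 : c3 (![0, 1, 1] : Fin 3 → ℂ) = 1 := by
    simp only [c3, Matrix.cons_val_zero, Matrix.cons_val_one, Matrix.cons_val]
    norm_num
  rw [e1] at h3
  have : (1 : ℂ) = 0 := by linear_combination h3
  exact one_ne_zero this

/-- the data of one curve -/
private theorem es_one (r : ℕ) : ∃ (φ : Fin 3 → ℂ[X]) (δ : ℂ[X]) (lam : ℂ[X] →ₗ[ℂ] ℂ)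
    (m : Fin 9 → ℕ), m 8 = 2 * r ^ 2 ∧
    CurveData qq (1 + 6 * r ^ 2) ![φ 0, φ 1, φ 2, -δ] lam ∧
    ∀ F : MvPolynomial (Fin 3) ℂ, F.IsHomogeneous 4 → lam (MvPolynomial.aeval φ F) = 0 →
      ∑ j, (m j : ℂ) * (MvPolynomial.eval (pt (sb j : ℂ)) F / Jc (sb j : ℂ)) +
        MvPolynomial.eval (pt (-6 : ℂ)) F / Jc (-6 : ℂ) = 0 := by
  obtain ⟨φ, m, hS, hM, -, -, -, -, -, -, -, -, hm8⟩ := sections r
  choose ε a b hM hd using hM
  obtain ⟨δ, hδ, hδe⟩ := exists_delta hS hM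
  obtain ⟨lam, hlam⟩ := exists_lam hS hM hδ hδe
  have hv : (fun i : Fin 3 => (![φ 0, φ 1, φ 2, -δ] : Fin 4 → ℂ[X]) i.castSucc) = φ := by
    funext i
    fin_cases i <;> rfl
  refine ⟨φ, δ, lam, m, hm8, ?_, ?_⟩
  · refine ⟨hS.one_le, ?_, ?_, ?_, ?_, ?_, ?_⟩
    · intro i
      fin_cases i
      · exact hS.deg 0
      · exact hS.deg 1
      · exact hS.deg 2
      · change (-δ).natDegree ≤ _
        rw [natDegree_neg]
        exact hδe
    · have h1 : MvPolynomial.aeval ![φ 0, φ 1, φ 2, -δ] qq = -δ * c3 φ + c4 φ := by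
        simp only [qq, c3, c4, Matrix.cons_val_zero, Matrix.cons_val_one, Matrix.cons_val,
          map_sub, map_add, map_mul, map_pow, map_ofNat, MvPolynomial.aeval_X]
      rw [h1, hδ]
      ring
    · intro p hp hp0
      exact hlam p hp hp0
    · change (φ 0).coeff _ ≠ 0
      rw [hS.lead0]
      exact mul_ne_zero (by norm_num) hS.lead
    · intro z
      obtain ⟨i, hi⟩ := hS.prim z
      refine ⟨i, ?_⟩
      rw [show (![φ 0, φ 1, φ 2, -δ] : Fin 4 → ℂ[X]) i.castSucc = φ i from congrFun hv i]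
      exact hi
    · intro k hk G hG h0
      exact detects hS hδ hk hG h0
  · intro F hF h0
    have hdeg : (MvPolynomial.aeval φ F).natDegree ≤ 4 * (1 + 6 * r ^ 2) := by
      rw [MvPolynomial.aeval_def, MvPolynomial.eval₂_eq']
      refine natDegree_sum_le_of_forall_le _ _ fun d hd => ?_
      have h1 : (algebraMap ℂ ℂ[X]) (MvPolynomial.coeff d F) = C (MvPolynomial.coeff d F) := rfl
      rw [h1]
      refine (natDegree_C_mul_le _ _).trans ?_
      refine (natDegree_prod_le _ _).trans ?_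
      have h2 : ∑ i, d i = 4 := by
        have h3 := hF (MvPolynomial.mem_support_iff.1 hd)
        rw [Finsupp.weight_apply, Finsupp.sum_fintype _ _ (by simp)] at h3
        simpa using h3
      calc ∑ i, (φ i ^ d i).natDegree ≤ ∑ i, d i * (1 + 6 * r ^ 2) := by
            refine Finset.sum_le_sum fun i _ => ?_
            exact natDegree_pow_le.trans (Nat.mul_le_mul_left _ (hS.deg i))
        _ = 4 * (1 + 6 * r ^ 2) := by rw [← Finset.sum_mul, h2]
    obtain ⟨g, hg, hg'⟩ := hlam _ hdeg h0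
    rw [dsub_qq] at hg'
    have h4 := relation hS hM c4_six Jc_six hδ hδe hF (η := ![g 0, g 1, g 2]) (ω := g 3)
      (by
        intro i
        fin_cases i
        · exact hg 0
        · exact hg 1
        · exact hg 2) (hg 3) hg'
    simpa only [hd] using h4

private theorem es_S1 (m : Fin 9 → ℕ) :
    ∑ j, (m j : ℂ) * (MvPolynomial.eval (pt (sb j : ℂ)) esF1 / Jc (sb j : ℂ)) = 0 := by
  refine Finset.sum_eq_zero fun j _ => ?_
  rw [es_F1_eval, b3_sb, mul_zero, zero_div, mul_zero]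

private theorem es_b : MvPolynomial.eval (pt (-6 : ℂ)) esF1 / Jc (-6 : ℂ) ≠ 0 := by
  refine div_ne_zero ?_ Jc_six
  rw [es_F1_eval]
  refine mul_ne_zero ?_ (b3_ne ?_)
  · simp [pt]
  · intro j
    fin_cases j <;> norm_num [sb]

private theorem es_S2 (m : Fin 9 → ℕ) :
    ∑ j, (m j : ℂ) * (MvPolynomial.eval (pt (sb j : ℂ)) esF2 / Jc (sb j : ℂ)) =
      (m 8 : ℂ) * (MvPolynomial.eval (pt (sb 8 : ℂ)) esF2 / Jc (sb 8 : ℂ)) := by
  refine Finset.sum_eq_single_of_mem 8 (Finset.mem_univ 8) fun j _ hj => ?_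
  have h1 : MvPolynomial.eval (pt (sb j : ℂ)) esF2 = 0 := by
    rw [es_F2_eval]
    fin_cases j
    · norm_num [sb]
    · norm_num [sb]
    · norm_num [sb]
    · norm_num [sb]
    · norm_num [sb]
    · norm_num [sb]
    · norm_num [sb]
    · norm_num [sb]
    · exact absurd rfl hj
  rw [h1, zero_div, mul_zero]

private theorem es_a : MvPolynomial.eval (pt (sb 8 : ℂ)) esF2 / Jc (sb 8 : ℂ) ≠ 0 := by
  refine div_ne_zero ?_ (Jc_pt 8)
  rw [es_F2_eval]
  have h8 : sb 8 = 12 := rfl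
  rw [h8]
  norm_num

private theorem es_F2_six : MvPolynomial.eval (pt (-6 : ℂ)) esF2 = 0 := by
  rw [es_F2_eval]
  norm_num

theorem exists_curves : ∃ (q : MvPolynomial (Fin 4) ℂ) (f : ℕ → Fin 4 → ℂ[X])
    (lam : ℕ → ℂ[X] →ₗ[ℂ] ℂ), q.IsHomogeneous 4 ∧ (∃ m, m 3 ≠ 0 ∧ q.coeff m ≠ 0) ∧
    (∀ r, CurveData q (1 + 6 * r ^ 2) (f r) (lam r)) ∧
    (∀ r, ∃ F : MvPolynomial (Fin 3) ℂ, F.IsHomogeneous 4 ∧
      lam r (MvPolynomial.aeval (fun i => f r i.castSucc) F) ≠ 0) ∧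
    (∀ r r', r ≠ r' → ∀ c : ℂ, ∃ F : MvPolynomial (Fin 3) ℂ, F.IsHomogeneous 4 ∧
      lam r (MvPolynomial.aeval (fun i => f r i.castSucc) F) ≠
        c * lam r' (MvPolynomial.aeval (fun i => f r' i.castSucc) F)) := by
  choose φ δ lam m hm8 hC hrel using es_one
  have hv : ∀ r, (fun i : Fin 3 => (![φ r 0, φ r 1, φ r 2, -δ r] : Fin 4 → ℂ[X]) i.castSucc) =
      φ r := by
    intro r
    funext i
    fin_cases i <;> rfl
  have hfirst : ∀ r, lam r (MvPolynomial.aeval (φ r) esF1) ≠ 0 := by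
    intro r h0
    have h1 := hrel r esF1 es_F1_hom h0
    rw [es_S1, zero_add] at h1
    exact es_b h1
  refine ⟨qq, fun r => ![φ r 0, φ r 1, φ r 2, -δ r], lam, es_qq_hom, es_qq_w, hC, ?_, ?_⟩
  · intro r
    refine ⟨esF1, es_F1_hom, ?_⟩
    rw [hv r]
    exact hfirst r
  · intro r r' hrr c
    by_contra hcon
    push Not at hcon
    simp only [hv] at hcon
    set x1 := lam r' (MvPolynomial.aeval (φ r') esF1) with hx1
    set x2 := lam r' (MvPolynomial.aeval (φ r') esF2) with hx2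
    set F : MvPolynomial (Fin 3) ℂ := MvPolynomial.C x2 * esF1 - MvPolynomial.C x1 * esF2 with hF
    have hFh : F.IsHomogeneous 4 := by
      have h1 := (MvPolynomial.isHomogeneous_C (Fin 3) x2).mul es_F1_hom
      have h2 := (MvPolynomial.isHomogeneous_C (Fin 3) x1).mul es_F2_hom
      rw [zero_add] at h1 h2
      exact h1.sub h2
    have hlin : ∀ k, lam k (MvPolynomial.aeval (φ k) F) =
        x2 * lam k (MvPolynomial.aeval (φ k) esF1) - x1 * lam k (MvPolynomial.aeval (φ k) esF2) := by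
      intro k
      have h1 : MvPolynomial.aeval (φ k) F = x2 • MvPolynomial.aeval (φ k) esF1 -
          x1 • MvPolynomial.aeval (φ k) esF2 := by
        rw [hF, map_sub, map_mul, map_mul, MvPolynomial.aeval_C, MvPolynomial.aeval_C,
          ← Algebra.smul_def, ← Algebra.smul_def]
      rw [h1, map_sub, map_smul, map_smul, smul_eq_mul, smul_eq_mul]
    have h0' : lam r' (MvPolynomial.aeval (φ r') F) = 0 := by
      rw [hlin, ← hx1, ← hx2]
      ring
    have h0 : lam r (MvPolynomial.aeval (φ r) F) = 0 := by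
      rw [hcon F hFh, h0', mul_zero]
    have hS : ∀ k, lam k (MvPolynomial.aeval (φ k) F) = 0 →
        x2 * (MvPolynomial.eval (pt (-6 : ℂ)) esF1 / Jc (-6 : ℂ)) =
          x1 * ((m k 8 : ℂ) * (MvPolynomial.eval (pt (sb 8 : ℂ)) esF2 / Jc (sb 8 : ℂ))) := by
      intro k hk
      have h1 := hrel k F hFh hk
      have e1 : ∀ v, MvPolynomial.eval v F = x2 * MvPolynomial.eval v esF1 -
          x1 * MvPolynomial.eval v esF2 := by
        intro v
        rw [hF, map_sub, map_mul, map_mul, MvPolynomial.eval_C, MvPolynomial.eval_C]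
      have h2 : ∑ j, (m k j : ℂ) * (MvPolynomial.eval (pt (sb j : ℂ)) F / Jc (sb j : ℂ)) =
          x2 * ∑ j, (m k j : ℂ) * (MvPolynomial.eval (pt (sb j : ℂ)) esF1 / Jc (sb j : ℂ)) -
          x1 * ∑ j, (m k j : ℂ) * (MvPolynomial.eval (pt (sb j : ℂ)) esF2 / Jc (sb j : ℂ)) := by
        rw [Finset.mul_sum, Finset.mul_sum, ← Finset.sum_sub_distrib]
        refine Finset.sum_congr rfl fun j _ => ?_
        rw [e1]
        ring
      rw [h2, es_S1, es_S2, e1, es_F2_six] at h1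
      linear_combination h1
    have g1 := hS r h0
    have g2 := hS r' h0'
    rw [hm8] at g1 g2
    have h5 : x1 * ((((2 * r ^ 2 : ℕ) : ℂ) - ((2 * r' ^ 2 : ℕ) : ℂ)) *
        (MvPolynomial.eval (pt (sb 8 : ℂ)) esF2 / Jc (sb 8 : ℂ))) = 0 := by
      linear_combination g2 - g1
    rcases mul_eq_zero.1 h5 with h6 | h6
    · exact hfirst r' h6
    · rcases mul_eq_zero.1 h6 with h7 | h7
      · apply hrr
        have h8 : 2 * r ^ 2 = 2 * r' ^ 2 := by exact_mod_cast sub_eq_zero.1 h7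
        have h9 : r ^ 2 = r' ^ 2 := by omega
        exact Nat.pow_left_injective (n := 2) (by norm_num) h9
      · exact es_a h7

end Pool.Agent.H66.CY
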