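import Pool.Agent.H66.CY.Coord

/-!
# Differentiability of the evaluation map

Row text. `phi (a, c)` is the tuple of values at `0, …, d e` of `F(f)`, `F = formOf a`,
`f = polyOf c`; it vanishes iff `F(f) = 0`.

* `contDiff_phi`: by `contDiff_pi`; the `k`-th component is
  `∑ m, a m * ∏ i, (∑ j, c i j * k ^ j) ^ m i` (`eval_aeval`, `MvPolynomial.eval_monomial`,
  `Finsupp.prod_fintype`), so `ContDiff.sum`, `ContDiff.mul`, `contDiff_prod`, `ContDiff.pow`,
  `contDiff_apply_apply`.
* `hasDerivAt_eval`: `s ↦ F(x + s y)` has derivative `∑ i, (∂_i F)(x) y_i` at `0`; induction on `F`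
  (`MvPolynomial.induction_on`) for the statement at all points of the line.
* `hasDerivAt_phi`: put the components together (`hasDerivAt_pi`), with `polyOf_add`,
  `polyOf_smul` and `eval_aeval` for the partial derivatives.
* `continuous_eval_dsub`: `(a, c) ↦ (dsub (formOf a) (polyOf c) g).eval z` is continuous for fixed
  `g`, `z`.
* `continuous_eval_aeval`: `c ↦ (G(polyOf c)).eval z` is continuous for fixed `G`, `z`.
-/

noncomputable section

open Topology

namespace Pool.Agent.H66.CY

variable {N : ℕ}

/-- The values of `F(f)` at `0, …, d e`. -/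
def phi (N d e : ℕ) (x : (Ix N d → ℂ) × (Fin N → Fin (e + 1) → ℂ)) : Fin (d * e + 1) → ℂ :=
  fun k => (MvPolynomial.aeval (polyOf x.2) (formOf x.1)).eval (k : ℂ)

private theorem eval_formOf {d : ℕ} (a : Ix N d → ℂ) (x : Fin N → ℂ) :
    MvPolynomial.eval x (formOf a) = ∑ m : Ix N d, a m * ∏ i, x i ^ m.1 i := by
  unfold formOf
  rw [map_sum]
  refine Finset.sum_congr rfl fun m _ => ?_
  rw [MvPolynomial.eval_monomial, Finsupp.prod_fintype]
  intro i
  exact pow_zero _

private theorem eval_polyOf {e : ℕ} (c : Fin N → Fin (e + 1) → ℂ) (i : Fin N) (z : ℂ) :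
    (polyOf c i).eval z = ∑ j : Fin (e + 1), c i j * z ^ (j : ℕ) := by
  unfold polyOf
  rw [Polynomial.eval_finsetSum]
  refine Finset.sum_congr rfl fun j _ => ?_
  simp

theorem contDiff_phi (N d e : ℕ) : ContDiff ℂ 1 (phi N d e) := by
  rw [contDiff_pi]
  intro k
  have h1 : (fun x : (Ix N d → ℂ) × (Fin N → Fin (e + 1) → ℂ) => phi N d e x k) =
      fun x => ∑ m : Ix N d, x.1 m * ∏ i, (∑ j : Fin (e + 1), x.2 i j * (k : ℂ) ^ (j : ℕ)) ^ m.1 i := by
    funext x
    unfold phi
    rw [eval_aeval, eval_formOf]
    refine Finset.sum_congr rfl fun m _ => ?_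
    congr 1
    refine Finset.prod_congr rfl fun i _ => ?_
    rw [eval_polyOf]
  rw [h1]
  refine ContDiff.sum fun m _ => ?_
  refine ContDiff.mul ?_ ?_
  · exact (contDiff_apply ℂ ℂ m).comp contDiff_fst
  · refine contDiff_prod fun i _ => ?_
    refine ContDiff.pow ?_ _
    refine ContDiff.sum fun j _ => ?_
    refine ContDiff.mul ?_ contDiff_const
    exact (contDiff_apply_apply ℂ ℂ i j).comp contDiff_snd

theorem hasDerivAt_eval (F : MvPolynomial (Fin N) ℂ) (x y : Fin N → ℂ) (s : ℂ) :
    HasDerivAt (fun s : ℂ => MvPolynomial.eval (fun i => x i + s * y i) F)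
      (∑ i, MvPolynomial.eval (fun i => x i + s * y i) (MvPolynomial.pderiv i F) * y i) s := by
  induction F using MvPolynomial.induction_on with
  | C a =>
    simp only [MvPolynomial.eval_C, MvPolynomial.pderiv_C, map_zero, zero_mul,
      Finset.sum_const_zero]
    exact hasDerivAt_const _ _
  | add p q hp hq =>
    have h := hp.add hq
    refine (h.congr_deriv ?_).congr_of_eventuallyEq (Filter.Eventually.of_forall fun s => ?_)
    · rw [← Finset.sum_add_distrib]
      refine Finset.sum_congr rfl fun i _ => ?_
      rw [map_add, map_add, add_mul]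
    · simp
  | mul_X p j hp =>
    have hj : HasDerivAt (fun s : ℂ => x j + s * y j) (y j) s := by
      have h1 : HasDerivAt (fun s : ℂ => s * y j) (1 * y j) s := (hasDerivAt_id s).mul_const _
      rw [one_mul] at h1
      exact h1.const_add _
    have h := hp.mul hj
    refine (h.congr_deriv ?_).congr_of_eventuallyEq (Filter.Eventually.of_forall fun s => ?_)
    · have h2 : ∀ i, MvPolynomial.eval (fun i => x i + s * y i)
          (MvPolynomial.pderiv i (p * MvPolynomial.X j)) * y i =
          MvPolynomial.eval (fun i => x i + s * y i) (MvPolynomial.pderiv i p) * y i *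
            (x j + s * y j) +
          (if i = j then MvPolynomial.eval (fun i => x i + s * y i) p * y j else 0) := by
        intro i
        rw [MvPolynomial.pderiv_mul, map_add, map_mul, map_mul, MvPolynomial.eval_X]
        by_cases hij : i = j
        · subst hij
          rw [MvPolynomial.pderiv_X_self, if_pos rfl, map_one]
          ring
        · rw [MvPolynomial.pderiv_X_of_ne (fun h => hij h.symm), if_neg hij, map_zero]
          ring
      rw [Finset.sum_congr rfl fun i _ => h2 i, Finset.sum_add_distrib, ← Finset.sum_mul]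
      simp
    · simp

theorem hasDerivAt_phi {d e : ℕ} (a : Ix N d → ℂ) (c b : Fin N → Fin (e + 1) → ℂ) :
    HasDerivAt (fun s : ℂ => phi N d e (a, c + s • b))
      (fun k => (dsub (formOf a) (polyOf c) (polyOf b)).eval (k : ℂ)) 0 := by
  rw [hasDerivAt_pi]
  intro k
  have h := hasDerivAt_eval (formOf a) (fun i => (polyOf c i).eval (k : ℂ))
    (fun i => (polyOf b i).eval (k : ℂ)) 0
  refine (h.congr_deriv ?_).congr_of_eventuallyEq (Filter.Eventually.of_forall fun s => ?_)
  · unfold dsub
    rw [Polynomial.eval_finsetSum]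
    refine Finset.sum_congr rfl fun i _ => ?_
    rw [Polynomial.eval_mul, eval_aeval]
    simp
  · show phi N d e (a, c + s • b) k = _
    unfold phi
    rw [eval_aeval]
    congr 1
    congr 1
    funext i
    show (polyOf (c + s • b) i).eval (k : ℂ) = _
    rw [polyOf_add, Pi.add_apply, polyOf_smul, Polynomial.eval_add, Polynomial.eval_mul,
      Polynomial.eval_C]

theorem phi_eq_zero_iff {d e : ℕ} (a : Ix N d → ℂ) (c : Fin N → Fin (e + 1) → ℂ) :
    phi N d e (a, c) = 0 ↔ MvPolynomial.aeval (polyOf c) (formOf a) = 0 := by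
  constructor
  · intro h
    refine eq_of_eval (D := d * e)
      (natDegree_aeval_le (isHomogeneous_formOf a) (degLE_polyOf c)) (by simp) fun k => ?_
    have h1 := congrFun h k
    rw [Polynomial.eval_zero]
    exact h1
  · intro h
    funext k
    show (MvPolynomial.aeval (polyOf c) (formOf a)).eval (k : ℂ) = 0
    rw [h, Polynomial.eval_zero]

theorem continuous_eval_dsub {d e : ℕ} (g : Fin N → Polynomial ℂ) (z : ℂ) :
    Continuous fun x : (Ix N d → ℂ) × (Fin N → Fin (e + 1) → ℂ) =>
      (dsub (formOf x.1) (polyOf x.2) g).eval z := by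
  have h0 : ∀ i, Continuous fun x : (Ix N d → ℂ) × (Fin N → Fin (e + 1) → ℂ) =>
      (polyOf x.2 i).eval z := by
    intro i
    simp only [eval_polyOf]
    refine continuous_finsetSum _ fun j _ => ?_
    exact ((continuous_apply_apply i j).comp continuous_snd).mul continuous_const
  have h1 : (fun x : (Ix N d → ℂ) × (Fin N → Fin (e + 1) → ℂ) =>
      (dsub (formOf x.1) (polyOf x.2) g).eval z) = fun x => ∑ i, (∑ m : Ix N d,
        x.1 m * MvPolynomial.eval (fun i => (polyOf x.2 i).eval z)
          (MvPolynomial.pderiv i (MvPolynomial.monomial m.1 1))) * (g i).eval z := by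
    funext x
    unfold dsub
    rw [Polynomial.eval_finsetSum]
    refine Finset.sum_congr rfl fun i _ => ?_
    rw [Polynomial.eval_mul, eval_aeval]
    congr 1
    unfold formOf
    rw [map_sum, map_sum]
    refine Finset.sum_congr rfl fun m _ => ?_
    have h2 : MvPolynomial.monomial m.1 (x.1 m) =
        MvPolynomial.C (x.1 m) * MvPolynomial.monomial m.1 (1 : ℂ) := by
      rw [MvPolynomial.C_mul_monomial, mul_one]
    rw [h2, MvPolynomial.pderiv_C_mul, map_mul, MvPolynomial.eval_C]
  rw [h1]
  refine continuous_finsetSum _ fun i _ => ?_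
  refine Continuous.mul ?_ continuous_const
  refine continuous_finsetSum _ fun m _ => ?_
  refine ((continuous_apply m).comp continuous_fst).mul ?_
  exact (MvPolynomial.continuous_eval _).comp (continuous_pi fun i => h0 i)

theorem continuous_eval_aeval {e : ℕ} (G : MvPolynomial (Fin N) ℂ) (z : ℂ) :
    Continuous fun c : Fin N → Fin (e + 1) → ℂ => (MvPolynomial.aeval (polyOf c) G).eval z := by
  simp only [eval_aeval]
  refine (MvPolynomial.continuous_eval _).comp (continuous_pi fun i => ?_)
  simp only [eval_polyOf]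
  refine continuous_finsetSum _ fun j _ => ?_
  exact (continuous_apply_apply i j).mul continuous_const

end Pool.Agent.H66.CY
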