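import Pool.Agent.H66.CY.Induct

/-!
# CY FBase: the bases of the induction in degree one and two (helper13)

* `good_linear`: `F = x_0` in `N + 2` variables. One curve `f = (0, 1, t, t^(k+1), t^((k+1)^2), …)`, i.e. `f 0 = 0`, `f 1 = 1`, `f (i+2) = t ^ ((k+1)^i)`, `e = (k+1)^N`. `dsub F f g = g 0`, so it is onto. A form `G` of degree `k` with `G(f) = 0`: put `x_0 = 0`, `x_1 = 1`; all exponents of the
  remaining polynomial are `≤ k`, so the substitution is injective on monomials (digits in base `k + 1`; for `N = 0` there is nothing to do); so `G(0, x_1, …) = 0` (homogeneity) and `x_0 ∣ G`.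
* `good_quadric`: `F = x_0 x_1 + ∑_{i ≥ 2} x_i²` in `N + 3` variables, `q(a) = ∑ a_i²`. Curves `f_a = (-q(a), t², a_i t)`, `e = 2`, for `a ∈ ℂ^(N+1)` with `q(a) ≠ 0`: `F(f_a) = 0`; `dsub F f_a g = t² g_0 - q(a) g_1 + …` (take the other `g_i = 0`) is onto the polynomials of degree
  `≤ 4`. Let `G` be a form of degree `k` with `G(f_a) = 0` for all these `a`. Then `G(-q(x'), x_1², x_1 x') = 0` as a polynomial in `x_1, x'` (multiply by `q`, `MvPolynomial.funext`). Modulo `F`: `x_1^k G = G(x_0 x_1, x_1², x_1 x') ≡ G(-q(x'), x_1², x_1 x') = 0`, so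
  `F ∣ x_1^k G`; `x_1` is prime and does not divide `F`, so `F ∣ G` (`Prime.pow_dvd_of_dvd_mul_left`). Finitely many `a` suffice: the forms of degree `k` are a finite-dimensional space, and the infimum of the kernels of `G ↦ G(f_a)` is the infimum of finitely many of
  them (`Submodule.exists_finset_iInf_eq`-like lemma, artinian; or choose `a`'s which decrease the dimension).
* `good_low`: induction on `d`: `d = 2` from `good_quadric` and `good_of_generic`; step: `induct` with `M = n - 1 + 1`, `D = d`.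
-/

set_option autoImplicit false

noncomputable section

namespace Pool.Agent.H66.CY

private theorem FBase_prod {M : ℕ} (f : Fin (M + 2) → Polynomial ℂ) (h0 : f 0 = 0) (h1 : f 1 = 1)
    (c : Fin M → ℕ) (hc : ∀ i : Fin M, f i.succ.succ = Polynomial.X ^ c i) (μ : Fin (M + 2) →₀ ℕ) :
    ∏ i, f i ^ μ i = if μ 0 = 0 then Polynomial.X ^ (∑ i : Fin M, μ i.succ.succ * c i) else 0 := by
  rw [Fin.prod_univ_succ, Fin.prod_univ_succ, h0]
  have e1 : f (Fin.succ 0) = 1 := h1
  rw [e1, one_pow, one_mul]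
  have e2 : ∏ i : Fin M, f i.succ.succ ^ μ i.succ.succ = Polynomial.X ^ (∑ i : Fin M, μ i.succ.succ * c i) := by
    rw [← Finset.prod_pow_eq_pow_sum]
    refine Finset.prod_congr rfl fun i _ => ?_
    rw [hc, ← pow_mul, mul_comm]
  rw [e2]
  by_cases h : μ 0 = 0
  · rw [if_pos h, h, pow_zero, one_mul]
  · rw [if_neg h, zero_pow h, zero_mul]

private theorem FBase_digits {M k : ℕ} {a b : Fin M → ℕ} (ha : ∀ i, a i ≤ k) (hb : ∀ i, b i ≤ k)
    (h : ∑ i : Fin M, a i * (k + 1) ^ (i : ℕ) = ∑ i : Fin M, b i * (k + 1) ^ (i : ℕ)) : a = b := by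
  have e : finFunctionFinEquiv (fun i : Fin M => (⟨a i, Nat.lt_succ_of_le (ha i)⟩ : Fin (k + 1))) =
      finFunctionFinEquiv (fun i : Fin M => (⟨b i, Nat.lt_succ_of_le (hb i)⟩ : Fin (k + 1))) := by
    apply Fin.ext
    rw [finFunctionFinEquiv_apply, finFunctionFinEquiv_apply]
    exact h
  have e2 := finFunctionFinEquiv.injective e
  funext i
  have := congrFun e2 i
  simpa using this

theorem good_linear (N k : ℕ) : Good 1 k (MvPolynomial.X 0 : MvPolynomial (Fin (N + 2)) ℂ) := by
  classical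
  set f : Fin (N + 2) → Polynomial ℂ := Fin.cons 0 (Fin.cons 1 fun i : Fin N => Polynomial.X ^ (k + 1) ^ (i : ℕ)) with hf
  have hf0 : f 0 = 0 := by rw [hf, Fin.cons_zero]
  have hf1 : f 1 = 1 := by
    rw [hf, show (1 : Fin (N + 2)) = Fin.succ 0 from rfl, Fin.cons_succ, Fin.cons_zero]
  have hf2 : ∀ i : Fin N, f i.succ.succ = Polynomial.X ^ (k + 1) ^ (i : ℕ) := by
    intro i
    rw [hf, Fin.cons_succ, Fin.cons_succ]
  refine ⟨Unit, inferInstance, fun _ => (k + 1) ^ N, fun _ => f, fun _ => ⟨?_, ?_, ?_, ?_⟩, ?_⟩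
  · exact Nat.one_le_pow _ _ (Nat.succ_pos k)
  · intro i
    show (f i).natDegree ≤ (k + 1) ^ N
    refine Fin.cases ?_ (fun i => ?_) i
    · rw [hf0, Polynomial.natDegree_zero]
      exact Nat.zero_le _
    · refine Fin.cases ?_ (fun i => ?_) i
      · have : f (Fin.succ 0) = 1 := hf1
        rw [this, Polynomial.natDegree_one]
        exact Nat.zero_le _
      · rw [hf2, Polynomial.natDegree_X_pow]
        exact Nat.pow_le_pow_right (Nat.succ_pos k) i.2.le
  · show MvPolynomial.aeval f (MvPolynomial.X 0) = 0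
    rw [MvPolynomial.aeval_X, hf0]
  · intro h hh
    refine ⟨Pi.single 0 h, ?_, ?_⟩
    · intro i
      by_cases hi : i = 0
      · subst hi
        rw [Pi.single_eq_same]
        rw [one_mul] at hh
        exact hh
      · rw [Pi.single_eq_of_ne hi, Polynomial.natDegree_zero]
        exact Nat.zero_le _
    · rw [dsub, Finset.sum_eq_single 0]
      · rw [MvPolynomial.pderiv_X_self, map_one, Pi.single_eq_same, one_mul]
      · intro i _ hi
        rw [Pi.single_eq_of_ne hi, mul_zero]
      · intro h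
        exact absurd (Finset.mem_univ _) h
  · intro G hG hv
    have hv := hv ()
    rw [MvPolynomial.X_dvd_iff_modMonomial_eq_zero]
    by_contra hne
    obtain ⟨μ, hμ⟩ := MvPolynomial.ne_zero_iff.mp hne
    have hμ0 : μ 0 = 0 := by
      by_contra h0
      apply hμ
      refine MvPolynomial.coeff_modMonomial_of_le _ ?_
      rw [Finsupp.single_le_iff]
      omega
    rw [MvPolynomial.coeff_modMonomial_of_not_le _ (by
      rw [Finsupp.single_le_iff]
      omega)] at hμ
    have hdeg : ∀ ν : Fin (N + 2) →₀ ℕ, MvPolynomial.coeff ν G ≠ 0 →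
        ν 0 + (ν 1 + ∑ i : Fin N, ν i.succ.succ) = k := by
      intro ν hν
      have h1 : ν.degree = k := by
        rw [Finsupp.degree_eq_weight_one]
        exact hG hν
      rw [Finsupp.degree_eq_sum, Fin.sum_univ_succ, Fin.sum_univ_succ] at h1
      exact h1
    have hle : ∀ ν : Fin (N + 2) →₀ ℕ, MvPolynomial.coeff ν G ≠ 0 → ∀ i : Fin N, ν i.succ.succ ≤ k := by
      intro ν hν i
      have h1 := hdeg ν hν
      have h2 : ν i.succ.succ ≤ ∑ i : Fin N, ν i.succ.succ :=
        Finset.single_le_sum (f := fun i : Fin N => ν i.succ.succ) (fun _ _ => Nat.zero_le _) (Finset.mem_univ i)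
      omega
    apply hμ
    have h3 : (MvPolynomial.aeval f G).coeff (∑ i : Fin N, μ i.succ.succ * (k + 1) ^ (i : ℕ)) =
        MvPolynomial.coeff μ G := by
      rw [MvPolynomial.aeval_def, MvPolynomial.eval₂_eq', Polynomial.finsetSum_coeff,
        Finset.sum_eq_single μ]
      · rw [FBase_prod f hf0 hf1 _ hf2, if_pos hμ0, Polynomial.algebraMap_eq, Polynomial.coeff_C_mul,
          Polynomial.coeff_X_pow_self, mul_one]
      · intro ν hν hνμ
        have hν' := MvPolynomial.mem_support_iff.mp hν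
        rw [FBase_prod f hf0 hf1 _ hf2]
        by_cases h0 : ν 0 = 0
        · rw [if_pos h0, Polynomial.algebraMap_eq, Polynomial.coeff_C_mul, Polynomial.coeff_X_pow, if_neg, mul_zero]
          intro heq
          apply hνμ
          have h4 := FBase_digits (hle μ hμ) (hle ν hν') heq
          have h5 := hdeg μ hμ
          have h6 := hdeg ν hν'
          have h7 : ∑ i : Fin N, μ i.succ.succ = ∑ i : Fin N, ν i.succ.succ :=
            Finset.sum_congr rfl fun i _ => congrFun h4 i
          ext i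
          refine Fin.cases ?_ (fun i => ?_) i
          · rw [h0, hμ0]
          · refine Fin.cases ?_ (fun i => ?_) i
            · show ν 1 = μ 1
              omega
            · exact (congrFun h4 i).symm
        · rw [if_neg h0, mul_zero, Polynomial.coeff_zero]
      · intro h
        exact absurd (MvPolynomial.mem_support_iff.mpr hμ) h
    rw [← h3, hv, Polynomial.coeff_zero]

private theorem FBase_fin {V W : Type} [AddCommGroup V] [Module ℂ V] [FiniteDimensional ℂ V] [AddCommGroup W]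
    [Module ℂ W] {α : Type} (φ : α → V →ₗ[ℂ] W) :
    ∃ T : Finset α, ∀ v, (∀ a ∈ T, φ a v = 0) → ∀ a, φ a v = 0 := by
  classical
  let S : Finset α → Submodule ℂ V := fun T => ⨅ a ∈ T, LinearMap.ker (φ a)
  obtain ⟨T, hT⟩ : ∃ T : Finset α, ∀ T' : Finset α, Module.finrank ℂ (S T) ≤ Module.finrank ℂ (S T') := by
    have hne : (Set.range fun T : Finset α => Module.finrank ℂ (S T)).Nonempty := ⟨_, ∅, rfl⟩
    obtain ⟨T, hT⟩ := Nat.sInf_mem hne
    refine ⟨T, fun T' => ?_⟩
    have h1 : Module.finrank ℂ (S T) = sInf (Set.range fun T : Finset α => Module.finrank ℂ (S T)) := hT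
    rw [h1]
    exact Nat.sInf_le ⟨T', rfl⟩
  refine ⟨T, fun v hv a => ?_⟩
  have hle : S (insert a T) ≤ S T := by
    intro w hw
    simp only [S, Submodule.mem_iInf, LinearMap.mem_ker] at hw ⊢
    exact fun b hb => hw b (Finset.mem_insert_of_mem hb)
  have heq := Submodule.eq_of_le_of_finrank_le hle (hT _)
  have hvS : v ∈ S T := by
    simp only [S, Submodule.mem_iInf, LinearMap.mem_ker]
    exact hv
  rw [← heq] at hvS
  simp only [S, Submodule.mem_iInf, LinearMap.mem_ker] at hvS
  exact hvS a (Finset.mem_insert_self a T)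

/-- The curves in the quadric. -/
private def FBase_curve {N : ℕ} (a : Fin (N + 1) → ℂ) : Fin (N + 3) → Polynomial ℂ :=
  Fin.cons (Polynomial.C (-∑ i, a i ^ 2)) (Fin.cons (Polynomial.X ^ 2) fun i => Polynomial.C (a i) * Polynomial.X)

private theorem FBase_curve0 {N : ℕ} (a : Fin (N + 1) → ℂ) : FBase_curve a 0 = Polynomial.C (-∑ i, a i ^ 2) := rfl

private theorem FBase_curve1 {N : ℕ} (a : Fin (N + 1) → ℂ) : FBase_curve a 1 = Polynomial.X ^ 2 := rfl

private theorem FBase_curve2 {N : ℕ} (a : Fin (N + 1) → ℂ) (i : Fin (N + 1)) :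
    FBase_curve a i.succ.succ = Polynomial.C (a i) * Polynomial.X := rfl

/-- The quadric. -/
private abbrev FBase_Q (N : ℕ) : MvPolynomial (Fin (N + 3)) ℂ :=
  MvPolynomial.X 0 * MvPolynomial.X 1 + ∑ i : Fin (N + 1), MvPolynomial.X i.succ.succ ^ 2

private theorem FBase_ne0 {N : ℕ} (i : Fin (N + 1)) : (i.succ.succ : Fin (N + 3)) ≠ 0 := Fin.succ_ne_zero _

private theorem FBase_ne1 {N : ℕ} (i : Fin (N + 1)) : (i.succ.succ : Fin (N + 3)) ≠ 1 := by
  show (i.succ.succ : Fin (N + 3)) ≠ Fin.succ 0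
  exact fun h => Fin.succ_ne_zero i (Fin.succ_injective _ h)

private theorem FBase_ne2 {N : ℕ} (i : Fin N) : (i.succ.succ.succ : Fin (N + 3)) ≠ Fin.succ (Fin.succ 0) :=
  fun h => Fin.succ_ne_zero i (Fin.succ_injective _ (Fin.succ_injective _ h))

private theorem FBase_unobst {N : ℕ} (a : Fin (N + 1) → ℂ) (ha : ∑ i, a i ^ 2 ≠ 0) :
    Unobst 2 2 (FBase_Q N) (FBase_curve a) := by
  classical
  refine ⟨by norm_num, ?_, ?_, ?_⟩
  · intro i
    refine Fin.cases ?_ (fun i => ?_) i
    · rw [FBase_curve0, Polynomial.natDegree_C]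
      norm_num
    · refine Fin.cases ?_ (fun i => ?_) i
      · show (FBase_curve a 1).natDegree ≤ 2
        rw [FBase_curve1, Polynomial.natDegree_X_pow]
      · rw [FBase_curve2]
        refine (Polynomial.natDegree_C_mul_le _ _).trans ?_
        rw [Polynomial.natDegree_X]
        norm_num
  · rw [map_add, map_mul, MvPolynomial.aeval_X, MvPolynomial.aeval_X, map_sum, FBase_curve0, FBase_curve1]
    have h1 : ∀ i : Fin (N + 1), MvPolynomial.aeval (FBase_curve a) (MvPolynomial.X i.succ.succ ^ 2 :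
        MvPolynomial (Fin (N + 3)) ℂ) = Polynomial.C (a i ^ 2) * Polynomial.X ^ 2 := by
      intro i
      rw [map_pow, MvPolynomial.aeval_X, FBase_curve2, mul_pow, ← Polynomial.C_pow]
    rw [Finset.sum_congr rfl fun i _ => h1 i, ← Finset.sum_mul, ← map_sum, ← add_mul, ← Polynomial.C_add,
      neg_add_cancel, Polynomial.C_0, zero_mul]
  · intro h hh
    set s : ℂ := ∑ i, a i ^ 2 with hs
    set g : Fin (N + 3) → Polynomial ℂ := Fin.cons (h /ₘ Polynomial.X ^ 2)
      (Fin.cons (Polynomial.C (-s⁻¹) * (h %ₘ Polynomial.X ^ 2)) 0) with hg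
    have hg0 : g 0 = h /ₘ Polynomial.X ^ 2 := rfl
    have hg1 : g (Fin.succ 0) = Polynomial.C (-s⁻¹) * (h %ₘ Polynomial.X ^ 2) := rfl
    have hg2 : ∀ i : Fin (N + 1), g i.succ.succ = 0 := fun i => rfl
    have hmon : (Polynomial.X ^ 2 : Polynomial ℂ).Monic := Polynomial.monic_X_pow 2
    refine ⟨g, ?_, ?_⟩
    · intro i
      refine Fin.cases ?_ (fun i => ?_) i
      · rw [hg0, Polynomial.natDegree_divByMonic _ hmon, Polynomial.natDegree_X_pow]
        omega
      · refine Fin.cases ?_ (fun i => ?_) i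
        · rw [hg1]
          refine (Polynomial.natDegree_C_mul_le _ _).trans ?_
          have h1 := Polynomial.natDegree_modByMonic_le h hmon
          rw [Polynomial.natDegree_X_pow] at h1
          exact h1
        · rw [hg2, Polynomial.natDegree_zero]
          norm_num
    · rw [dsub, Fin.sum_univ_succ, Fin.sum_univ_succ, hg0, hg1]
      rw [Finset.sum_eq_zero (fun i _ => by rw [hg2, mul_zero]), add_zero]
      have d0 : MvPolynomial.pderiv 0 (FBase_Q N) = MvPolynomial.X 1 := by
        rw [map_add, Derivation.leibniz, MvPolynomial.pderiv_X_self, MvPolynomial.pderiv_X_of_ne (by simp), map_sum,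
          Finset.sum_eq_zero, smul_zero, zero_add, add_zero, smul_eq_mul, mul_one]
        intro i _
        rw [Derivation.leibniz_pow, MvPolynomial.pderiv_X_of_ne (FBase_ne0 i)]
        simp
      have d1 : MvPolynomial.pderiv (Fin.succ 0) (FBase_Q N) = MvPolynomial.X 0 := by
        have e1 : (Fin.succ 0 : Fin (N + 3)) = 1 := rfl
        rw [e1, map_add, Derivation.leibniz, MvPolynomial.pderiv_X_self, MvPolynomial.pderiv_X_of_ne (by simp), map_sum,
          Finset.sum_eq_zero, smul_zero, add_zero, add_zero, smul_eq_mul, mul_one]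
        intro i _
        rw [Derivation.leibniz_pow, MvPolynomial.pderiv_X_of_ne (FBase_ne1 i)]
        simp
      rw [d0, d1, MvPolynomial.aeval_X, MvPolynomial.aeval_X, FBase_curve0, FBase_curve1, ← hs, ← mul_assoc,
        ← Polynomial.C_mul, neg_mul_neg, mul_inv_cancel₀ ha, Polynomial.C_1, one_mul, add_comm]
      exact Polynomial.modByMonic_add_div h _

private theorem FBase_detect {N k : ℕ} (G : MvPolynomial (Fin (N + 3)) ℂ) (hG : G.IsHomogeneous k)
    (h : ∀ a : Fin (N + 1) → ℂ, ∑ i, a i ^ 2 ≠ 0 → MvPolynomial.aeval (FBase_curve a) G = 0) :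
    FBase_Q N ∣ G := by
  classical
  set ρ : Fin (N + 3) → MvPolynomial (Fin (N + 3)) ℂ := Fin.cons (-∑ i : Fin (N + 1), MvPolynomial.X i.succ.succ ^ 2)
    (Fin.cons (MvPolynomial.X 1 ^ 2) fun i : Fin (N + 1) => MvPolynomial.X 1 * MvPolynomial.X i.succ.succ) with hρ
  have hρ0 : ρ 0 = -∑ i : Fin (N + 1), MvPolynomial.X i.succ.succ ^ 2 := rfl
  have hρ1 : ρ (Fin.succ 0) = MvPolynomial.X 1 ^ 2 := rfl
  have hρ2 : ∀ i : Fin (N + 1), ρ i.succ.succ = MvPolynomial.X 1 * MvPolynomial.X i.succ.succ := fun i => rfl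
  set q : MvPolynomial (Fin (N + 3)) ℂ := ∑ i : Fin (N + 1), MvPolynomial.X i.succ.succ ^ 2 with hq
  have hevq : ∀ z : Fin (N + 3) → ℂ, MvPolynomial.eval z q = ∑ i : Fin (N + 1), z i.succ.succ ^ 2 := by
    intro z
    rw [hq, map_sum]
    refine Finset.sum_congr rfl fun i _ => ?_
    rw [map_pow, MvPolynomial.eval_X]
  have hP : MvPolynomial.aeval ρ G * q = 0 := by
    refine MvPolynomial.funext fun z => ?_
    rw [map_mul, map_zero, hevq]
    by_cases hz : ∑ i : Fin (N + 1), z i.succ.succ ^ 2 = 0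
    · rw [hz, mul_zero]
    · have h1 := congrArg (Polynomial.eval (z 1)) (h (fun i => z i.succ.succ) hz)
      rw [Polynomial.eval_zero] at h1
      have h2 : MvPolynomial.eval z (MvPolynomial.aeval ρ G) =
          Polynomial.eval (z 1) (MvPolynomial.aeval (FBase_curve fun i => z i.succ.succ) G) := by
        have e1 : MvPolynomial.eval z (MvPolynomial.aeval ρ G) =
            MvPolynomial.eval₂ (RingHom.id ℂ) (fun i => MvPolynomial.eval z (ρ i)) G := by
          rw [MvPolynomial.map_aeval, MvPolynomial.coe_eval₂Hom]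
          congr 1
          ext c
          simp
        have e2 : Polynomial.eval (z 1) (MvPolynomial.aeval (FBase_curve fun i => z i.succ.succ) G) =
            MvPolynomial.eval₂ (RingHom.id ℂ)
              (fun i => Polynomial.eval (z 1) (FBase_curve (fun i => z i.succ.succ) i)) G := by
          rw [← Polynomial.coe_evalRingHom, MvPolynomial.map_aeval, MvPolynomial.coe_eval₂Hom]
          congr 1
          ext c
          simp
        rw [e1, e2]
        congr 1
        funext i
        refine Fin.cases ?_ (fun i => ?_) i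
        · rw [hρ0, FBase_curve0, map_neg, hevq, Polynomial.eval_C]
        · refine Fin.cases ?_ (fun i => ?_) i
          · show MvPolynomial.eval z (ρ (Fin.succ 0)) =
              Polynomial.eval (z 1) (FBase_curve (fun i => z i.succ.succ) 1)
            rw [hρ1, FBase_curve1, map_pow, MvPolynomial.eval_X, Polynomial.eval_pow, Polynomial.eval_X]
          · rw [hρ2, FBase_curve2, map_mul, MvPolynomial.eval_X, MvPolynomial.eval_X, Polynomial.eval_mul,
              Polynomial.eval_C, Polynomial.eval_X, mul_comm]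
      rw [h2, h1, zero_mul]
  have hq0 : q ≠ 0 := by
    intro h0
    have h1 := hevq (Pi.single (Fin.succ (Fin.succ 0)) 1)
    rw [h0, map_zero, Fin.sum_univ_succ, Pi.single_eq_same, one_pow, Finset.sum_eq_zero, add_zero] at h1
    · exact zero_ne_one h1
    · intro i _
      rw [Pi.single_eq_of_ne (FBase_ne2 i), zero_pow (by norm_num)]
  have hP0 : MvPolynomial.aeval ρ G = 0 := (mul_eq_zero.mp hP).resolve_right hq0
  have hX : MvPolynomial.aeval (fun i : Fin (N + 3) => (MvPolynomial.X 1 * MvPolynomial.X i :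
      MvPolynomial (Fin (N + 3)) ℂ)) G = MvPolynomial.X 1 ^ k * G := by
    rw [MvPolynomial.aeval_def, MvPolynomial.eval₂_eq']
    conv_rhs => rw [MvPolynomial.as_sum G, Finset.mul_sum]
    refine Finset.sum_congr rfl fun μ hμ => ?_
    have h1 : μ.degree = k := by
      rw [Finsupp.degree_eq_weight_one]
      exact hG (MvPolynomial.mem_support_iff.mp hμ)
    rw [Finsupp.degree_eq_sum] at h1
    have h2 : ∏ i, (MvPolynomial.X 1 * MvPolynomial.X i : MvPolynomial (Fin (N + 3)) ℂ) ^ μ i =
        MvPolynomial.X 1 ^ k * ∏ i, (MvPolynomial.X i : MvPolynomial (Fin (N + 3)) ℂ) ^ μ i := by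
      rw [← h1, ← Finset.prod_pow_eq_pow_sum, ← Finset.prod_mul_distrib]
      exact Finset.prod_congr rfl fun i _ => mul_pow _ _ _
    rw [h2, MvPolynomial.monomial_eq, Finsupp.prod_fintype _ _ (fun i => pow_zero _), MvPolynomial.algebraMap_eq]
    ring
  have hmod : FBase_Q N ∣ MvPolynomial.X 1 ^ k * G := by
    rw [← Ideal.mem_span_singleton, ← Ideal.Quotient.eq_zero_iff_mem, ← hX]
    have e1 : ∀ u : Fin (N + 3) → MvPolynomial (Fin (N + 3)) ℂ,
        Ideal.Quotient.mk (Ideal.span {FBase_Q N}) (MvPolynomial.aeval u G) =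
        MvPolynomial.eval₂ ((Ideal.Quotient.mk (Ideal.span {FBase_Q N})).comp (algebraMap ℂ _))
          (fun i => Ideal.Quotient.mk (Ideal.span {FBase_Q N}) (u i)) G := by
      intro u
      rw [MvPolynomial.map_aeval, MvPolynomial.coe_eval₂Hom]
    have e2 : (fun i : Fin (N + 3) => Ideal.Quotient.mk (Ideal.span {FBase_Q N})
        (MvPolynomial.X 1 * MvPolynomial.X i)) = fun i => Ideal.Quotient.mk (Ideal.span {FBase_Q N}) (ρ i) := by
      funext i
      refine Fin.cases ?_ (fun i => ?_) i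
      · rw [Ideal.Quotient.mk_eq_mk_iff_sub_mem, hρ0, Ideal.mem_span_singleton]
        exact ⟨1, by ring⟩
      · refine Fin.cases ?_ (fun i => ?_) i
        · rw [hρ1, sq]
          rfl
        · rw [hρ2]
    rw [e1, e2, ← e1, hP0, map_zero]
  obtain ⟨H, hH⟩ := hmod
  have hnd : ¬ (MvPolynomial.X 1 : MvPolynomial (Fin (N + 3)) ℂ) ∣ FBase_Q N := by
    rintro ⟨R, hR⟩
    have h1 := congrArg (MvPolynomial.eval (Pi.single (Fin.succ (Fin.succ 0)) (1 : ℂ))) hR
    have e10 : (Pi.single (Fin.succ (Fin.succ 0)) (1 : ℂ) : Fin (N + 3) → ℂ) 1 = 0 := by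
      rw [Pi.single_eq_of_ne (FBase_ne1 0).symm]
    rw [map_mul, map_add, map_mul, MvPolynomial.eval_X, MvPolynomial.eval_X, e10, hevq, zero_mul, mul_zero, zero_add,
      Fin.sum_univ_succ, Pi.single_eq_same, one_pow, Finset.sum_eq_zero, add_zero] at h1
    · exact one_ne_zero h1
    · intro i _
      rw [Pi.single_eq_of_ne (FBase_ne2 i), zero_pow (by norm_num)]
  have hH' : (MvPolynomial.X 1 : MvPolynomial (Fin (N + 3)) ℂ) ^ k ∣ H :=
    Prime.pow_dvd_of_dvd_mul_left MvPolynomial.X_prime k hnd (hH ▸ Dvd.intro _ rfl)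
  obtain ⟨H₂, hH₂⟩ := hH'
  refine ⟨H₂, ?_⟩
  have hne : (MvPolynomial.X 1 : MvPolynomial (Fin (N + 3)) ℂ) ^ k ≠ 0 := pow_ne_zero _ (MvPolynomial.X_ne_zero 1)
  apply mul_left_cancel₀ hne
  rw [hH, hH₂]
  ring

theorem good_quadric (N k : ℕ) : Good 2 k (MvPolynomial.X 0 * MvPolynomial.X 1 +
    ∑ i : Fin (N + 1), MvPolynomial.X i.succ.succ ^ 2 : MvPolynomial (Fin (N + 3)) ℂ) := by
  classical
  let α : Type := {a : Fin (N + 1) → ℂ // ∑ i, a i ^ 2 ≠ 0}
  let φ : α → (MvPolynomial.restrictTotalDegree (Fin (N + 3)) ℂ k) →ₗ[ℂ] Polynomial ℂ := fun a =>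
    (MvPolynomial.aeval (FBase_curve a.1)).toLinearMap ∘ₗ Submodule.subtype _
  obtain ⟨T, hT⟩ := FBase_fin φ
  refine ⟨T, inferInstance, fun _ => 2, fun a => FBase_curve a.1.1, fun a => FBase_unobst a.1.1 a.1.2, ?_⟩
  intro G hG hv
  refine FBase_detect G hG fun a ha => ?_
  have hGm : G ∈ MvPolynomial.restrictTotalDegree (Fin (N + 3)) ℂ k := by
    rw [MvPolynomial.mem_restrictTotalDegree]
    exact hG.totalDegree_le
  exact hT ⟨G, hGm⟩ (fun b hb => hv ⟨b, hb⟩) ⟨a, ha⟩

theorem good_low {n d : ℕ} (hn : 1 ≤ n) (hd : 1 ≤ d) (hdn : d ≤ n + 1) (k : ℕ)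
    {F : MvPolynomial (Fin (n + 2)) ℂ} (hF : F.IsHomogeneous d) (gF : Generic d F) : Good d k F := by
  classical
  have key : ∀ d : ℕ, 2 ≤ d → ∀ n : ℕ, d ≤ n + 1 → ∀ k, ∀ F : MvPolynomial (Fin (n + 2)) ℂ, F.IsHomogeneous d →
      Generic d F → Good d k F := by
    intro d hd
    induction d, hd using Nat.le_induction with
    | base =>
      intro n hn k F hF gF
      obtain ⟨N, rfl⟩ : ∃ N, n = N + 1 := ⟨n - 1, by omega⟩
      refine good_of_generic (F₀ := FBase_Q N) ?_ ?_ (good_quadric N k) hF gF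
      · refine MvPolynomial.IsHomogeneous.add ?_ ?_
        · exact (MvPolynomial.isHomogeneous_X _ _).mul (MvPolynomial.isHomogeneous_X _ _)
        · refine MvPolynomial.IsHomogeneous.sum _ _ _ fun i _ => ?_
          exact MvPolynomial.isHomogeneous_X_pow _ _
      · intro h0
        have h1 := congrArg (MvPolynomial.eval (fun j : Fin (N + 3) => if j = 0 then (1 : ℂ) else if j = 1 then 1 else 0)) h0
        rw [map_zero, map_add, map_mul, MvPolynomial.eval_X, MvPolynomial.eval_X, map_sum, Finset.sum_eq_zero] at h1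
        · simp at h1
        · intro i _
          rw [map_pow, MvPolynomial.eval_X, if_neg (FBase_ne0 i), if_neg (FBase_ne1 i),
            zero_pow (by norm_num)]
    | succ d hd ih =>
      intro n hn k F hF gF
      obtain ⟨m, rfl⟩ : ∃ m, n = m + 1 := ⟨n - 1, by omega⟩
      exact induct (M := m + 1) (D := d) (by omega) hd (fun k F hF gF => ih m (by omega) k F hF gF) k F hF gF
  rcases Nat.lt_or_ge d 2 with h | h
  · obtain rfl : d = 1 := by omega
    exact good_of_generic (MvPolynomial.isHomogeneous_X _ _) (MvPolynomial.X_ne_zero 0) (good_linear n k) hF gF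
  · exact key d h n hdn k F hF gF

end Pool.Agent.H66.CY
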