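import Pool.Agent.H66.CY.Defs
import Pool.Agent.H66.CY.Avoid
import Pool.Agent.H62.FC.Special

/-!
# CY FCurve: rational curves (helper13)

`rationalCurves X` = the union of the images of the non-constant morphisms `ℙ¹ → X`, given by binary forms of degree `e ≥ 1` without common zero (`e ≥ 1` and no common zero imply that the morphism is not constant).
* `homog`: `f : ℂ[t]` of degree `≤ e` gives the binary form `∑_{j ≤ e} f_j X_0^j X_1^(e-j)`; its value at `(t, 1)` is `f(t)`, at `(1, 0)` the coefficient of `t^e`.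
* `unobst_ne`: an unobstructed curve has no common zero. At `a ∈ ℂ`: all `∂F/∂x_i(f)` are forms of degree `d - 1` evaluated at `f`. If `d ≥ 2` they vanish at `a`, so all `dsub F f g` vanish at `a`, contradiction to `Onto` (`h = 1`). If `d = 1`: `F` is linear, and the statement can be false: so
  the hypothesis is `2 ≤ d`; for `d = 1` see `exists_curve_linear`. At infinity: if all coefficients of `t^e` vanish then `natDegree (∂F/∂x_i (f)) ≤ (d-1)(e-1)` and `natDegree (dsub F f g) ≤ (d-1)(e-1) + e < d e`; take `h = X ^ (d e)`.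
* `curve_dense`: if `Q` vanishes on `rationalCurves X`, `X = {F = 0}`, then `aeval f Q = 0` for every unobstructed `f` (`Q(f(t)) = 0` for all `t ∈ ℂ`, `Polynomial.funext`; `VanishesAt`, `vanishesAt_mk_iff`).
* `dense_of_good`: `Good d k F` for all `k`: a form `Q` of degree `k` which vanishes on all rational curves of `X` is divisible by `F`, so it vanishes on `X`.
* `linear`: for `d = 1`, `F ≠ 0` in at least three variables: every point of the hyperplane is on a line in it (two-dimensional subspace), `rationalCurves X = X`.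
* `special_of_dense`: `rationalCurves X ⊆ closure of unionImages X` in the sense of `closureIn`: for a morphism `ℙ¹ → X` the map `ℂ → X`, `z ↦ [f(exp z, 1)]` is `2πi`-periodic and gives a `SemiAbelianMap` (`mapOfPeriodic`, the source is `𝔾_m`); it is not constant;
  a form which vanishes on its image vanishes on the whole curve.
-/

set_option autoImplicit false

noncomputable section

namespace Pool.Agent.H66.CY

open Pool.Agent.H17 (PN VanishesAt zeroLocus)
open Pool.Agent.H62.FC (closureIn specialSet unionImages)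

variable {N : ℕ}

/-- A morphism `ℙ¹ → ℙ^N` of degree `e ≥ 1`: binary forms of degree `e` without common zero. -/
structure Morphism (N e : ℕ) where
  form : Fin (N + 1) → MvPolynomial (Fin 2) ℂ
  homog : ∀ i, (form i).IsHomogeneous e
  ne : ∀ a : Fin 2 → ℂ, a ≠ 0 → (fun i => MvPolynomial.eval a (form i)) ≠ 0

/-- Its value at the point with homogeneous coordinates `a`. -/
def Morphism.val {e : ℕ} (f : Morphism N e) (a : Fin 2 → ℂ) (ha : a ≠ 0) : PN N :=
  Projectivization.mk ℂ (fun i => MvPolynomial.eval a (f.form i)) (f.ne a ha)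

/-- The union of the images of the morphisms `ℙ¹ → X` of degree `e ≥ 1` (that is, the non-constant morphisms). -/
def rationalCurves (X : Set (PN N)) : Set (PN N) :=
  {x | ∃ (e : ℕ) (f : Morphism N e), 1 ≤ e ∧ (∀ a ha, f.val a ha ∈ X) ∧ ∃ a ha, x = f.val a ha}

private theorem eval_aeval2 {m n : ℕ} (G : MvPolynomial (Fin m) ℂ) (g : Fin m → MvPolynomial (Fin n) ℂ)
    (a : Fin n → ℂ) : MvPolynomial.eval a (MvPolynomial.aeval g G) =
      MvPolynomial.eval (fun i => MvPolynomial.eval a (g i)) G := by
  induction G using MvPolynomial.induction_on with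
  | C c => simp
  | add p q hp hq => rw [map_add, map_add, hp, hq, map_add]
  | mul_X p i hp => rw [map_mul, map_mul, hp, map_mul]; simp

private theorem eval_dehom (G : MvPolynomial (Fin 2) ℂ) (t : ℂ) :
    (MvPolynomial.aeval ![Polynomial.X, (1 : Polynomial ℂ)] G).eval t =
      MvPolynomial.eval ![t, 1] G := by
  rw [eval_aeval]
  congr 2
  funext i
  fin_cases i
  · simp
  · simp

/-- A binary form with infinitely many zeros vanishes. -/
private theorem form_zero {e : ℕ} {G : MvPolynomial (Fin 2) ℂ} (hG : G.IsHomogeneous e) {T : Set ℂ}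
    (hT : T.Infinite) (h : ∀ t ∈ T, MvPolynomial.eval ![t, 1] G = 0) : G = 0 := by
  have h1 : MvPolynomial.aeval ![Polynomial.X, (1 : Polynomial ℂ)] G = 0 := by
    apply Polynomial.eq_zero_of_infinite_isRoot
    refine hT.mono fun t ht => ?_
    show (MvPolynomial.aeval ![Polynomial.X, (1 : Polynomial ℂ)] G).eval t = 0
    rw [eval_dehom]
    exact h t ht
  have h2 : ∀ t : ℂ, MvPolynomial.eval ![t, 1] G = 0 := by
    intro t
    rw [← eval_dehom, h1, Polynomial.eval_zero]
  have h3 : MvPolynomial.X 1 * G = 0 := by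
    apply MvPolynomial.funext
    intro a
    rw [map_mul, MvPolynomial.eval_X, map_zero]
    by_cases ha : a 1 = 0
    · rw [ha, zero_mul]
    · have h4 : a = fun i => a 1 * ![a 0 / a 1, 1] i := by
        funext i
        fin_cases i
        · simp
          field_simp
        · simp
      rw [mul_eq_zero]
      right
      rw [h4, Pool.Agent.H17.eval_smul_of_isHomogeneous hG, h2, mul_zero]
  exact (mul_eq_zero.1 h3).resolve_left (MvPolynomial.X_ne_zero 1)

private theorem ne_pt (t : ℂ) : (![t, 1] : Fin 2 → ℂ) ≠ 0 := fun h => one_ne_zero (congrFun h 1)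

private theorem minors_of_mk_eq {v w : Fin (N + 1) → ℂ} (hv : v ≠ 0) (hw : w ≠ 0)
    (h : Projectivization.mk ℂ v hv = Projectivization.mk ℂ w hw) (i j : Fin (N + 1)) :
    v i * w j = v j * w i := by
  rw [Projectivization.mk_eq_mk_iff'] at h
  obtain ⟨c, hc⟩ := h
  have h1 := congrFun hc i
  have h2 := congrFun hc j
  simp only [Pi.smul_apply, smul_eq_mul] at h1 h2
  rw [← h1, ← h2]
  ring

/-- A morphism of degree `e ≥ 1` is not constant. -/
theorem Morphism.nonconst {e : ℕ} (he : 1 ≤ e) (f : Morphism N e) (T : Set ℂ) (hT : T.Infinite) :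
    ∃ s ∈ T, ∃ t ∈ T, f.val ![s, 1] (fun h => one_ne_zero (congrFun h 1)) ≠
      f.val ![t, 1] (fun h => one_ne_zero (congrFun h 1)) := by
  obtain ⟨s, hs⟩ := hT.nonempty
  by_contra hcon
  push Not at hcon
  set v : Fin (N + 1) → ℂ := fun i => MvPolynomial.eval ![s, 1] (f.form i) with hv
  have hv0 : v ≠ 0 := f.ne _ (ne_pt s)
  obtain ⟨i, hi⟩ := Function.ne_iff.1 hv0
  have hi' : v i ≠ 0 := hi
  have key : ∀ j, MvPolynomial.C (v i) * f.form j - MvPolynomial.C (v j) * f.form i = 0 := by
    intro j
    refine form_zero (((f.homog j).C_mul _).sub ((f.homog i).C_mul _)) hT fun t ht => ?_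
    have h1 := minors_of_mk_eq (f.ne _ (ne_pt s)) (f.ne _ (ne_pt t)) (hcon s hs t ht) i j
    rw [map_sub, map_mul, map_mul, MvPolynomial.eval_C, MvPolynomial.eval_C, sub_eq_zero]
    exact h1
  obtain ⟨a, ha, ha0⟩ := Pool.Agent.H17.exists_ne_zero_common_zero (Fin 2) (Fin 1) (by simp)
    (fun _ => f.form i) (by
      intro _
      rw [MvPolynomial.eval_zero]
      show MvPolynomial.constantCoeff (f.form i) = 0
      rw [MvPolynomial.constantCoeff_eq]
      apply (f.homog i).coeff_eq_zero
      rw [map_zero]
      omega)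
  apply f.ne a ha
  funext j
  have h1 := congrArg (MvPolynomial.eval a) (key j)
  rw [map_sub, map_mul, map_mul, MvPolynomial.eval_C, MvPolynomial.eval_C, ha0 0, mul_zero,
    sub_zero, map_zero] at h1
  exact (mul_eq_zero.1 h1).resolve_left hi'

private def hform (e : ℕ) (p : Polynomial ℂ) : MvPolynomial (Fin 2) ℂ :=
  ∑ j ∈ Finset.range (e + 1), MvPolynomial.C (p.coeff j) *
    (MvPolynomial.X 0 ^ j * MvPolynomial.X 1 ^ (e - j))

private theorem hform_homog (e : ℕ) (p : Polynomial ℂ) : (hform e p).IsHomogeneous e := by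
  apply MvPolynomial.IsHomogeneous.sum
  intro j hj
  rw [Finset.mem_range] at hj
  apply MvPolynomial.IsHomogeneous.C_mul
  have h1 := (MvPolynomial.isHomogeneous_X_pow (R := ℂ) (0 : Fin 2) j).mul
    (MvPolynomial.isHomogeneous_X_pow (R := ℂ) (1 : Fin 2) (e - j))
  have h2 : j + (e - j) = e := by omega
  rwa [h2] at h1

private theorem hform_eval {e : ℕ} {p : Polynomial ℂ} (hp : p.natDegree ≤ e) (t : ℂ) :
    MvPolynomial.eval ![t, 1] (hform e p) = p.eval t := by
  unfold hform
  rw [map_sum, Polynomial.eval_eq_sum_range' (Nat.lt_succ_of_le hp)]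
  refine Finset.sum_congr rfl fun j _ => ?_
  simp

private theorem hform_infty {e : ℕ} (p : Polynomial ℂ) (c : ℂ) :
    MvPolynomial.eval ![c, 0] (hform e p) = p.coeff e * c ^ e := by
  unfold hform
  rw [map_sum, Finset.sum_eq_single e]
  · simp
  · intro j hj hje
    rw [Finset.mem_range] at hj
    have h1 : e - j ≠ 0 := by omega
    simp [h1]
  · intro h
    exact absurd (Finset.mem_range.2 (Nat.lt_succ_self e)) h

theorem exists_morphism {d e : ℕ} (hd : 2 ≤ d) {F : MvPolynomial (Fin (N + 1)) ℂ} (hF : F.IsHomogeneous d)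
    {f : Fin (N + 1) → Polynomial ℂ} (hf : Unobst d e F f) :
    ∃ g : Morphism N e, (∀ a ha, g.val a ha ∈ zeroLocus fun _ : Fin 1 => F) ∧
      ∀ t i, MvPolynomial.eval ![t, 1] (g.form i) = (f i).eval t := by
  let g : Morphism N e :=
    { form := fun i => hform e (f i)
      homog := fun i => hform_homog e (f i)
      ne := by
        intro a ha h0
        by_cases ha1 : a 1 = 0
        · have h1 : a = ![a 0, 0] := by
            funext i
            fin_cases i
            · rfl
            · exact ha1
          have ha0 : a 0 ≠ 0 := by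
            intro h2
            apply ha
            funext i
            fin_cases i
            · exact h2
            · exact ha1
          apply no_zero_infty hd hF hf
          funext i
          have h2 : MvPolynomial.eval a (hform e (f i)) = 0 := congrFun h0 i
          rw [h1, hform_infty] at h2
          exact (mul_eq_zero.1 h2).resolve_right (pow_ne_zero _ ha0)
        · have h4 : a = fun i => a 1 * ![a 0 / a 1, 1] i := by
            funext i
            fin_cases i
            · simp
              field_simp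
            · simp
          apply no_zero hd hF hf (a 0 / a 1)
          funext i
          have h2 : MvPolynomial.eval a (hform e (f i)) = 0 := congrFun h0 i
          rw [h4, Pool.Agent.H17.eval_smul_of_isHomogeneous (hform_homog e (f i)),
            hform_eval (hf.deg i)] at h2
          exact (mul_eq_zero.1 h2).resolve_left (pow_ne_zero _ ha1) }
  have hg : ∀ t i, MvPolynomial.eval ![t, 1] (g.form i) = (f i).eval t :=
    fun t i => hform_eval (hf.deg i) t
  have hzero : MvPolynomial.aeval g.form F = 0 := by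
    refine form_zero (hF.aeval _ g.homog) Set.infinite_univ fun t _ => ?_
    rw [eval_aeval2]
    have h1 : (fun i => MvPolynomial.eval ![t, 1] (g.form i)) = fun i => (f i).eval t :=
      funext fun i => hg t i
    rw [h1, ← eval_aeval, hf.zero, Polynomial.eval_zero]
  refine ⟨g, fun a ha l => ?_, hg⟩
  show VanishesAt F (Projectivization.mk ℂ _ _)
  rw [Pool.Agent.H17.vanishesAt_mk_iff hF, ← eval_aeval2, hzero, map_zero]

theorem dense_of_good {d : ℕ} (hd : 2 ≤ d) {F : MvPolynomial (Fin (N + 1)) ℂ} (hF : F.IsHomogeneous d)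
    (h : ∀ k, Good d k F) : closureIn (zeroLocus fun _ : Fin 1 => F) (rationalCurves (zeroLocus fun _ : Fin 1 => F)) =
      zeroLocus fun _ : Fin 1 => F := by
  refine Set.Subset.antisymm (fun x hx => hx.1) fun x hx => ⟨hx, fun k Q hQ hQ0 => ?_⟩
  obtain ⟨ι, _, e, f, hf, hD⟩ := h k
  obtain ⟨R, hR⟩ := hD Q hQ (by
    intro j
    obtain ⟨g, hg1, hg2⟩ := exists_morphism hd hF (hf j)
    refine Polynomial.funext fun t => ?_
    have h1 := hQ0 (g.val ![t, 1] (ne_pt t)) ⟨e j, g, (hf j).one_le, hg1, _, _, rfl⟩
    have h2 : VanishesAt Q (Projectivization.mk ℂ (fun i => MvPolynomial.eval ![t, 1] (g.form i))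
      (g.ne _ (ne_pt t))) := h1
    rw [Pool.Agent.H17.vanishesAt_mk_iff hQ] at h2
    have h3 : (fun i => MvPolynomial.eval ![t, 1] (g.form i)) = fun i => (f j i).eval t :=
      funext fun i => hg2 t i
    rw [h3, ← eval_aeval] at h2
    rw [h2, Polynomial.eval_zero])
  have h4 : MvPolynomial.eval x.rep F = 0 := hx 0
  show MvPolynomial.eval x.rep Q = 0
  rw [hR, map_mul, h4, zero_mul]

private theorem linear_eval {F : MvPolynomial (Fin (N + 1)) ℂ} (hF : F.IsHomogeneous 1) :
    ∃ c : Fin (N + 1) → ℂ, ∀ x, MvPolynomial.eval x F = ∑ i, x i * c i := by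
  refine ⟨fun i => (MvPolynomial.pderiv i F).coeff 0, fun x => ?_⟩
  have h1 := hF.sum_X_mul_pderiv
  rw [one_smul] at h1
  conv_lhs => rw [← h1]
  rw [map_sum]
  refine Finset.sum_congr rfl fun i _ => ?_
  rw [map_mul, MvPolynomial.eval_X]
  congr 1
  have h2 : (MvPolynomial.pderiv i F).IsHomogeneous 0 := hF.pderiv
  have h3 : MvPolynomial.pderiv i F = MvPolynomial.C ((MvPolynomial.pderiv i F).coeff 0) := by
    apply MvPolynomial.totalDegree_eq_zero_iff_eq_C.1
    exact Nat.le_zero.1 h2.totalDegree_le
  conv_lhs => rw [h3]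
  rw [MvPolynomial.eval_C]

theorem dense_linear (hN : 2 ≤ N) {F : MvPolynomial (Fin (N + 1)) ℂ} (hF : F.IsHomogeneous 1) :
    closureIn (zeroLocus fun _ : Fin 1 => F) (rationalCurves (zeroLocus fun _ : Fin 1 => F)) =
      zeroLocus fun _ : Fin 1 => F := by
  refine Set.Subset.antisymm (fun x hx => hx.1) fun x hx => ⟨hx, fun k Q hQ hQ0 => hQ0 x ?_⟩
  obtain ⟨c, hc⟩ := linear_eval hF
  set v := x.rep with hv
  have hv0 : v ≠ 0 := x.rep_nonzero
  have hFv : MvPolynomial.eval v F = 0 := hx 0
  obtain ⟨i, hi⟩ := Function.ne_iff.1 hv0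
  have hi' : v i ≠ 0 := hi
  obtain ⟨w, hw, hw0⟩ := Pool.Agent.H17.exists_ne_zero_common_zero (Fin (N + 1)) (Fin 2)
    (by simp; omega) ![F, MvPolynomial.X i] (by
      intro k
      fin_cases k
      · show MvPolynomial.eval 0 F = 0
        rw [hc]
        simp
      · show MvPolynomial.eval (0 : Fin (N + 1) → ℂ) (MvPolynomial.X i) = 0
        simp)
  have hFw : MvPolynomial.eval w F = 0 := hw0 0
  have hwi : w i = 0 := by
    have h1 : MvPolynomial.eval w (MvPolynomial.X i) = 0 := hw0 1
    rwa [MvPolynomial.eval_X] at h1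
  have hval : ∀ (a : Fin 2 → ℂ) (j : Fin (N + 1)), MvPolynomial.eval a
      (MvPolynomial.C (v j) * MvPolynomial.X 0 + MvPolynomial.C (w j) * MvPolynomial.X 1) =
      v j * a 0 + w j * a 1 := by
    intro a j
    simp
  let g : Morphism N 1 :=
    { form := fun j => MvPolynomial.C (v j) * MvPolynomial.X 0 +
        MvPolynomial.C (w j) * MvPolynomial.X 1
      homog := fun j => ((MvPolynomial.isHomogeneous_X ℂ (0 : Fin 2)).C_mul _).add
        ((MvPolynomial.isHomogeneous_X ℂ (1 : Fin 2)).C_mul _)
      ne := by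
        intro a ha h0
        have h1 := congrFun h0 i
        simp only [hval, Pi.zero_apply] at h1
        rw [hwi, zero_mul, add_zero] at h1
        have ha0 : a 0 = 0 := (mul_eq_zero.1 h1).resolve_left hi'
        have ha1 : a 1 ≠ 0 := by
          intro h2
          apply ha
          funext j
          fin_cases j
          · exact ha0
          · exact h2
        apply hw
        funext j
        have h2 := congrFun h0 j
        simp only [hval, Pi.zero_apply] at h2
        rw [ha0, mul_zero, zero_add] at h2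
        exact (mul_eq_zero.1 h2).resolve_right ha1 }
  have hne : (![1, 0] : Fin 2 → ℂ) ≠ 0 := fun h => one_ne_zero (congrFun h 0)
  refine ⟨1, g, le_rfl, ?_, ![1, 0], hne, ?_⟩
  · intro a ha l
    show VanishesAt F (Projectivization.mk ℂ _ _)
    rw [Pool.Agent.H17.vanishesAt_mk_iff hF, hc]
    rw [hc] at hFv hFw
    have h1 : ∀ j, MvPolynomial.eval a (g.form j) = v j * a 0 + w j * a 1 := hval a
    simp only [h1]
    have h2 : ∑ j, (v j * a 0 + w j * a 1) * c j = a 0 * ∑ j, v j * c j + a 1 * ∑ j, w j * c j := by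
      rw [Finset.mul_sum, Finset.mul_sum, ← Finset.sum_add_distrib]
      refine Finset.sum_congr rfl fun j _ => ?_
      ring
    rw [h2, hFv, hFw]
    ring
  · show x = Projectivization.mk ℂ (fun j => MvPolynomial.eval ![1, 0] (g.form j)) (g.ne _ hne)
    have h1 : (fun j => MvPolynomial.eval ![1, 0] (g.form j)) = v := by
      funext j
      have h2 := hval ![1, 0] j
      rw [show MvPolynomial.eval ![1, 0] (g.form j) = v j * (![1, 0] : Fin 2 → ℂ) 0 +
        w j * (![1, 0] : Fin 2 → ℂ) 1 from h2]
      simp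
    have h3 : Projectivization.mk ℂ (fun j => MvPolynomial.eval ![1, 0] (g.form j)) (g.ne _ hne) =
        Projectivization.mk ℂ v hv0 := by
      congr 1
    rw [h3]
    exact x.mk_rep.symm

theorem special_of_dense {X : Set (PN N)} (h : closureIn X (rationalCurves X) = X) : specialSet X = X := by
  refine Set.Subset.antisymm (fun x hx => hx.1) fun x hx => ⟨hx, fun k Q hQ hQ0 => ?_⟩
  have hx' : x ∈ closureIn X (rationalCurves X) := by rw [h]; exact hx
  refine hx'.2 k Q hQ ?_
  rintro y ⟨e, g, he, hgX, a, ha, rfl⟩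
  have hne : ∀ z : ℂ, (fun i => MvPolynomial.eval ![Complex.exp z, 1] (g.form i)) ≠ 0 :=
    fun z => g.ne _ (ne_pt _)
  set S := Pool.Agent.H62.FC.mapOfPeriodic
    (fun z i => MvPolynomial.eval ![Complex.exp z, 1] (g.form i)) hne
    (by
      intro j z
      have h1 : (fun z => MvPolynomial.eval ![Complex.exp z, 1] (g.form j)) = fun z =>
          (MvPolynomial.aeval ![Polynomial.X, (1 : Polynomial ℂ)] (g.form j)).eval
            (Complex.exp z) := by
        funext z
        rw [eval_dehom]
      rw [h1]
      exact ((Polynomial.differentiable _).comp Complex.differentiable_exp).analyticAt z)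
    (by
      intro z
      funext i
      have h1 : Complex.exp (z + 2 * Real.pi * Complex.I) = Complex.exp z := by
        rw [Complex.exp_add, Complex.exp_two_pi_mul_I, mul_one]
      simp only [h1]) with hS
  have hSf : ∀ p : Fin 1 → ℂ, S.f p = g.val ![Complex.exp (p 0), 1] (ne_pt _) := fun p => rfl
  have hSX : S.image ⊆ X := by
    rintro _ ⟨p, -, rfl⟩
    exact hgX _ (ne_pt _)
  have hT : ({0}ᶜ : Set ℂ).Infinite := Set.Finite.infinite_compl (Set.finite_singleton 0)
  have hmem : ∀ t : ℂ, t ≠ 0 → g.val ![t, 1] (ne_pt _) ∈ S.image := by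
    intro t ht
    refine ⟨fun _ => Complex.log t, Set.notMem_empty _, ?_⟩
    have h1 : Complex.exp (Complex.log t) = t := Complex.exp_log ht
    refine (hSf fun _ => Complex.log t).trans ?_
    simp only [h1]
  obtain ⟨s, hs, t, ht, hst⟩ := g.nonconst he _ hT
  have hQS : ∀ t : ℂ, t ≠ 0 → VanishesAt Q (g.val ![t, 1] (ne_pt _)) := by
    intro u hu
    exact hQ0 _ ⟨S, hSX, ⟨_, hmem s hs, _, hmem t ht, hst⟩, hmem u hu⟩
  have hzero : MvPolynomial.aeval g.form Q = 0 := by
    refine form_zero (hQ.aeval _ g.homog) hT fun t ht => ?_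
    have h1 : VanishesAt Q (Projectivization.mk ℂ (fun i => MvPolynomial.eval ![t, 1] (g.form i))
      (g.ne _ (ne_pt t))) := hQS t ht
    rw [Pool.Agent.H17.vanishesAt_mk_iff hQ] at h1
    rw [eval_aeval2, h1]
  show VanishesAt Q (Projectivization.mk ℂ _ _)
  rw [Pool.Agent.H17.vanishesAt_mk_iff hQ, ← eval_aeval2, hzero, map_zero]

end Pool.Agent.H66.CY
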