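import Pool.Agent.H17LG.Variety

/-!
# CY FForm: changes of coordinates for top forms (helper13)

`Form.mk c a = c • d(a_0) ∧ … ∧ d(a_k)` (`exteriorPower.ιMulti`, an alternating map).
* `mk_succAbove`: `Fin.cons (y m) (fun i => y (m.succAbove i)) = y ∘ σ` for a permutation `σ` (`Fin.cycleRange`), `AlternatingMap.map_perm`.
* `mk_chart`: `d(1/y_0) = -y_0⁻² dy_0`, `d(y_i/y_0) = y_0⁻¹ dy_i - y_i y_0⁻² dy_0`. The wedge is `(-y_0⁻²) y_0⁻ᵏ dy_0 ∧ … ∧ dy_k`: the terms with `dy_0` in a place `i ≥ 1` vanish (subtract multiples of the first entry: `AlternatingMap.map_add_smul`-type lemmas,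
  induction, or the determinant of a triangular matrix, `AlternatingMap.map_linearDependent`, `exteriorPower` of a matrix: `Pool.Agent.H23.ιMulti_eq` with a basis is NOT needed).
* `poleAtMost_smul`: `c • ω = g • η` iff `ω = (g / c) • η`, and `(u c ^ m) (g/c) ^ m = u g ^ m`.
-/

set_option autoImplicit false

noncomputable section

namespace Pool.Agent.H66.CY

open Pool.Agent.H23.Fano (PrimeDivisorOver Form)
open Pool.Agent.H17LG.Variety (PoleAtMost)

variable {K : Type} [Field K] [Algebra ℂ K] {k : ℕ}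

omit [Algebra ℂ K] in
private theorem fform_alt {M N : Type} [AddCommGroup M] [Module K M] [AddCommGroup N] [Module K N]
    (f : M [⋀^Fin (k + 1)]→ₗ[K] N) (x : M) (z : Fin k → M) (a d : K) (c : Fin k → K) :
    f (Fin.cons (a • x) (fun i => d • z i + c i • x) : Fin (k + 1) → M) =
      (a * d ^ k) • f (Fin.cons x z : Fin (k + 1) → M) := by
  have h1 : ∀ w : Fin k → M, f (Fin.cons (a • x) w : Fin (k + 1) → M) =
      a • f (Fin.cons x w : Fin (k + 1) → M) := by
    intro w
    have h : (Fin.cons (a • x) w : Fin (k + 1) → M) =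
        Function.update (Fin.cons x w : Fin (k + 1) → M) 0 (a • x) := by
      rw [Fin.update_cons_zero]
    rw [h, AlternatingMap.map_update_smul, Fin.update_cons_zero]
  set g : MultilinearMap K (fun _ : Fin k => M) N := (f.curryLeft x).toMultilinearMap with hg
  have h2 : ∀ w : Fin k → M, f (Fin.cons x w : Fin (k + 1) → M) = g w := fun w => rfl
  have h3 : g (fun i => d • z i + c i • x) = d ^ k • g z := by
    have h4 := g.map_add_univ (fun i => d • z i) (fun i => c i • x)
    have h5 : (fun i => d • z i + c i • x) = (fun i => d • z i) + (fun i => c i • x) := rfl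
    rw [h5, h4, Finset.sum_eq_single Finset.univ]
    · rw [Finset.piecewise_univ]
      have h6 := g.map_smul_univ (fun _ => d) z
      rw [Finset.prod_const, Finset.card_univ, Fintype.card_fin] at h6
      exact h6
    · intro s _ hs
      obtain ⟨i, hi⟩ : ∃ i, i ∉ s := by
        by_contra hcon
        push Not at hcon
        exact hs (Finset.eq_univ_of_forall hcon)
      set w : Fin k → M := s.piecewise (fun i => d • z i) (fun i => c i • x) with hw
      have hwi : w i = c i • x := by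
        rw [hw, Finset.piecewise_eq_of_notMem _ _ _ hi]
      rw [← h2]
      have h7 : (Fin.cons x w : Fin (k + 1) → M) =
          Function.update (Fin.cons x w : Fin (k + 1) → M) i.succ (c i • x) := by
        rw [← hwi]
        have h8 : w i = (Fin.cons x w : Fin (k + 1) → M) i.succ := by rw [Fin.cons_succ]
        rw [h8, Function.update_eq_self]
      rw [h7, AlternatingMap.map_update_smul]
      have h9 := f.map_update_self (Fin.cons x w : Fin (k + 1) → M) (i := i.succ) (j := 0)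
        (Fin.succ_ne_zero i)
      rw [Fin.cons_zero] at h9
      rw [h9, smul_zero]
    · intro h
      exact absurd (Finset.mem_univ _) h
  rw [h1, h2, h2, h3, smul_smul]

theorem mk_succAbove (y : Fin (k + 1) → K) (m : Fin (k + 1)) : ∃ ε : K, (ε = 1 ∨ ε = -1) ∧
    Form.mk 1 y = ε • Form.mk 1 (Fin.cons (y m) (fun i : Fin k => y (m.succAbove i)) : Fin (k + 1) → K) := by
  set σ : Equiv.Perm (Fin (k + 1)) := m.cycleRange.symm with hσ
  have h1 : (Fin.cons (y m) (fun i : Fin k => y (m.succAbove i)) : Fin (k + 1) → K) = y ∘ σ := by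
    funext i
    refine Fin.cases ?_ (fun j => ?_) i
    · rw [Fin.cons_zero, Function.comp_apply, hσ, Fin.cycleRange_symm_zero]
    · rw [Fin.cons_succ, Function.comp_apply, hσ, Fin.cycleRange_symm_succ]
  have h2 := AlternatingMap.map_perm (exteriorPower.ιMulti K (k + 1) (M := Ω[K⁄ℂ]))
    (fun i => KaehlerDifferential.D ℂ K (y i)) σ
  rcases Int.units_eq_one_or (Equiv.Perm.sign σ) with h | h
  · refine ⟨1, Or.inl rfl, ?_⟩
    rw [h, one_smul] at h2
    rw [one_smul, h1]
    exact congrArg (fun z : ⋀[K]^(k + 1) Ω[K⁄ℂ] => (1 : K) • z) h2.symm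
  · refine ⟨-1, Or.inr rfl, ?_⟩
    rw [h, Units.neg_smul, one_smul] at h2
    rw [neg_smul, one_smul, h1]
    have h3 : Form.mk 1 (y ∘ σ) = -Form.mk 1 y := by
      have h4 := congrArg (fun z : ⋀[K]^(k + 1) Ω[K⁄ℂ] => (1 : K) • z) h2
      simp only [smul_neg] at h4
      exact h4
    rw [h3, neg_neg]

theorem mk_chart (y : Fin (k + 1) → K) (h0 : y 0 ≠ 0) :
    Form.mk 1 y = (-(y 0) ^ (k + 2)) • Form.mk 1 (Fin.cons (y 0)⁻¹ (fun i : Fin k => y i.succ / y 0) : Fin (k + 1) → K) := by
  have h1 := fform_alt (exteriorPower.ιMulti K (k + 1) (M := Ω[K⁄ℂ]))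
    (KaehlerDifferential.D ℂ K (y 0)) (fun i => KaehlerDifferential.D ℂ K (y i.succ))
    (-((y 0)⁻¹ ^ 2)) (y 0)⁻¹ (fun i => -(y i.succ * (y 0)⁻¹ ^ 2))
  have h2 : (fun i => KaehlerDifferential.D ℂ K
      ((Fin.cons (y 0)⁻¹ (fun i : Fin k => y i.succ / y 0) : Fin (k + 1) → K) i)) =
      (Fin.cons (-((y 0)⁻¹ ^ 2) • KaehlerDifferential.D ℂ K (y 0))
        (fun i => (y 0)⁻¹ • KaehlerDifferential.D ℂ K (y i.succ) +
          (-(y i.succ * (y 0)⁻¹ ^ 2)) • KaehlerDifferential.D ℂ K (y 0)) :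
            Fin (k + 1) → Ω[K⁄ℂ]) := by
    funext i
    refine Fin.cases ?_ (fun j => ?_) i
    · rw [Fin.cons_zero, Fin.cons_zero, Derivation.leibniz_inv]
    · rw [Fin.cons_succ, Fin.cons_succ, div_eq_mul_inv, Derivation.leibniz, Derivation.leibniz_inv,
        smul_smul, mul_neg, add_comm]
  have h3 : (fun i => KaehlerDifferential.D ℂ K (y i)) =
      (Fin.cons (KaehlerDifferential.D ℂ K (y 0)) (fun i => KaehlerDifferential.D ℂ K (y i.succ)) :
        Fin (k + 1) → Ω[K⁄ℂ]) := by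
    funext i
    refine Fin.cases ?_ (fun j => ?_) i
    · rw [Fin.cons_zero]
    · rw [Fin.cons_succ]
  rw [← h2, ← h3] at h1
  have h4 : Form.mk 1 (Fin.cons (y 0)⁻¹ (fun i : Fin k => y i.succ / y 0) : Fin (k + 1) → K) =
      (-((y 0)⁻¹ ^ 2) * (y 0)⁻¹ ^ k) • Form.mk 1 y := by
    have h5 := congrArg (fun z : ⋀[K]^(k + 1) Ω[K⁄ℂ] => (1 : K) • z) h1
    rw [smul_comm] at h5
    exact h5
  rw [h4, smul_smul]
  have h6 : -y 0 ^ (k + 2) * (-((y 0)⁻¹ ^ 2) * (y 0)⁻¹ ^ k) = 1 := by
    rw [inv_pow, inv_pow]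
    field_simp
    ring
  rw [h6, one_smul]

theorem poleAtMost_smul {n p m : ℕ} {E : PrimeDivisorOver K n} {u c : K} (hc : c ≠ 0) {ω : Form K n} :
    PoleAtMost p E m u (c • ω) ↔ PoleAtMost p E m (u * c ^ m) ω := by
  constructor
  · rintro ⟨g, η, hη, h1, h2⟩
    refine ⟨g / c, η, hη, ?_, ?_⟩
    · have h3 := congrArg (fun z => c⁻¹ • z) h1
      simp only [smul_smul] at h3
      rw [inv_mul_cancel₀ hc, one_smul] at h3
      rw [h3, div_eq_inv_mul]
    · have h3 : u * c ^ m * (g / c) ^ m = u * g ^ m := by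
        rw [mul_assoc, ← mul_pow, mul_div_cancel₀ _ hc]
      rw [h3]
      exact h2
  · rintro ⟨g, η, hη, h1, h2⟩
    refine ⟨c * g, η, hη, ?_, ?_⟩
    · rw [h1, smul_smul]
    · rw [mul_pow, ← mul_assoc]
      exact h2

end Pool.Agent.H66.CY
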