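import Pool.Agent.H66.CY.FCurve

/-!
# CY FGGL: dense rational curves contradict pseudo Brody and pseudo Picard hyperbolicity (helper13)

`Ξ` Zariski closed in `X`, `Ξ ≠ X`. By density there are a rational curve and a form of the set `S` defining `Ξ` which does not vanish on it: `f : ℙ¹ → X` with image not contained in `Ξ`; then only finitely many points `[t : 1]` are mapped into `Ξ`.
* Brody: `z ↦ f[z : 1]` is holomorphic (polynomials), not constant, not into `Ξ`.
* Picard: `g₀(z) = f[exp(1/z) : 1]` on the punctured disc is holomorphic, its image `f(ℂ*)` is not contained in `Ξ`. If `g` is a holomorphic extension with a lift `φ` near 0: for every `t ≠ 0` there are `z_n → 0` with `exp (1/z_n) = t`, `[φ(z_n)] = f[t : 1]`, so the `2 × 2` minors of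
  `(φ(0), f(t, 1))` vanish, `[φ(0)] = f[t : 1]` for all `t ≠ 0`: `f` would be constant on `ℂ*`, contradiction to `Morphism.nonconst`.
* Strongly of log general type: if the variety itself (`Q = P`, dimension `n ≥ 1`) is not of log general type, `Ξ ≠ X` shows that `W = X` is a counterexample.
-/

set_option autoImplicit false

noncomputable section

namespace Pool.Agent.H66.CY

open Pool.Agent.H17 (PN VanishesAt zeroLocus PseudoBrodyHyperbolic PseudoPicardHyperbolic)
open Pool.Agent.H62.FC (closureIn primeLocus Homog LogGeneralType StronglyLogGeneralType)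
open Pool.Agent.H17LG.Variety (FunField)

variable {N : ℕ}

private theorem eval_aeval2' {m n : ℕ} (G : MvPolynomial (Fin m) ℂ) (g : Fin m → MvPolynomial (Fin n) ℂ)
    (a : Fin n → ℂ) : MvPolynomial.eval a (MvPolynomial.aeval g G) =
      MvPolynomial.eval (fun i => MvPolynomial.eval a (g i)) G := by
  induction G using MvPolynomial.induction_on with
  | C c => simp
  | add p q hp hq => rw [map_add, map_add, hp, hq, map_add]
  | mul_X p i hp => rw [map_mul, map_mul, hp, map_mul]; simp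

private theorem eval_dehom' (G : MvPolynomial (Fin 2) ℂ) (t : ℂ) :
    (MvPolynomial.aeval ![Polynomial.X, (1 : Polynomial ℂ)] G).eval t =
      MvPolynomial.eval ![t, 1] G := by
  rw [eval_aeval]
  congr 2
  funext i
  fin_cases i
  · simp
  · simp

private theorem form_zero' {e : ℕ} {G : MvPolynomial (Fin 2) ℂ} (hG : G.IsHomogeneous e) {T : Set ℂ}
    (hT : T.Infinite) (h : ∀ t ∈ T, MvPolynomial.eval ![t, 1] G = 0) : G = 0 := by
  have h1 : MvPolynomial.aeval ![Polynomial.X, (1 : Polynomial ℂ)] G = 0 := by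
    apply Polynomial.eq_zero_of_infinite_isRoot
    refine hT.mono fun t ht => ?_
    show (MvPolynomial.aeval ![Polynomial.X, (1 : Polynomial ℂ)] G).eval t = 0
    rw [eval_dehom']
    exact h t ht
  have h2 : ∀ t : ℂ, MvPolynomial.eval ![t, 1] G = 0 := by
    intro t
    rw [← eval_dehom', h1, Polynomial.eval_zero]
  have h3 : MvPolynomial.X 1 * G = 0 := by
    apply MvPolynomial.funext
    intro a
    rw [map_mul, MvPolynomial.eval_X, map_zero]
    by_cases ha : a 1 = 0
    · rw [ha, zero_mul]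
    · have h4 : a = fun i => a 1 * ![a 0 / a 1, 1] i := by
        funext i
        fin_cases i
        · simp
          field_simp
        · simp
      rw [mul_eq_zero]
      right
      rw [h4, Pool.Agent.H17.eval_smul_of_isHomogeneous hG, h2, mul_zero]
  exact (mul_eq_zero.1 h3).resolve_left (MvPolynomial.X_ne_zero 1)

private theorem ne_pt' (t : ℂ) : (![t, 1] : Fin 2 → ℂ) ≠ 0 := fun h => one_ne_zero (congrFun h 1)

/-- A rational curve outside a proper Zariski closed subset. -/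
private theorem exists_curve {X Ξ : Set (PN N)} (h : closureIn X (rationalCurves X) = X)
    (hΞ : Pool.Agent.H17.ZariskiClosedIn X Ξ) (hne : Ξ ≠ X) :
    ∃ (e : ℕ) (g : Morphism N e), 1 ≤ e ∧ (∀ a ha, g.val a ha ∈ X) ∧
      ∀ T : Set ℂ, T.Infinite → ∃ t ∈ T, g.val ![t, 1] (ne_pt' t) ∉ Ξ := by
  obtain ⟨S, hS, hΞS⟩ := hΞ
  have hsub : Ξ ⊆ X := by
    rw [hΞS]
    exact fun x hx => hx.1
  obtain ⟨x, hx, hxΞ⟩ : ∃ x ∈ X, x ∉ Ξ := by
    by_contra hcon
    push Not at hcon
    exact hne (Set.Subset.antisymm hsub hcon)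
  obtain ⟨P, hPS, hPx⟩ : ∃ P ∈ S, ¬ VanishesAt P x := by
    by_contra hcon
    push Not at hcon
    apply hxΞ
    rw [hΞS]
    exact ⟨hx, hcon⟩
  obtain ⟨n, hn⟩ := hS P hPS
  obtain ⟨y, hy, hPy⟩ : ∃ y ∈ rationalCurves X, ¬ VanishesAt P y := by
    by_contra hcon
    push Not at hcon
    have hx' : x ∈ closureIn X (rationalCurves X) := by rw [h]; exact hx
    exact hPx (hx'.2 n P hn hcon)
  obtain ⟨e, g, he, hgX, a, ha, rfl⟩ := hy
  refine ⟨e, g, he, hgX, fun T hT => ?_⟩
  by_contra hcon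
  push Not at hcon
  apply hPy
  have hzero : MvPolynomial.aeval g.form P = 0 := by
    refine form_zero' (hn.aeval _ g.homog) hT fun t ht => ?_
    have h1 := hcon t ht
    rw [hΞS] at h1
    have h2 : VanishesAt P (Projectivization.mk ℂ (fun i => MvPolynomial.eval ![t, 1] (g.form i))
      (g.ne _ (ne_pt' t))) := h1.2 P hPS
    rw [Pool.Agent.H17.vanishesAt_mk_iff hn] at h2
    rw [eval_aeval2', h2]
  show VanishesAt P (Projectivization.mk ℂ _ _)
  rw [Pool.Agent.H17.vanishesAt_mk_iff hn, ← eval_aeval2', hzero, map_zero]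

private theorem analytic_form {e : ℕ} (g : Morphism N e) {u : ℂ → ℂ} {z : ℂ}
    (hu : AnalyticAt ℂ u z) :
    AnalyticAt ℂ (fun z i => MvPolynomial.eval ![u z, 1] (g.form i)) z := by
  rw [analyticAt_pi_iff]
  intro j
  have h1 : (fun z => MvPolynomial.eval ![u z, 1] (g.form j)) = fun z =>
      (MvPolynomial.aeval ![Polynomial.X, (1 : Polynomial ℂ)] (g.form j)).eval (u z) := by
    funext z
    rw [eval_dehom']
  rw [h1]
  have h2 : AnalyticAt ℂ (fun w =>
      (MvPolynomial.aeval ![Polynomial.X, (1 : Polynomial ℂ)] (g.form j)).eval w) (u z) :=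
    (Polynomial.differentiable _).analyticAt (u z)
  exact h2.comp hu

theorem not_brody {X : Set (PN N)} (h : closureIn X (rationalCurves X) = X) : ¬ PseudoBrodyHyperbolic X := by
  rintro ⟨Ξ, hΞ, hne, hbr⟩
  obtain ⟨e, g, he, hgX, hg⟩ := exists_curve h hΞ hne
  obtain ⟨t, -, ht⟩ := hg Set.univ Set.infinite_univ
  apply ht
  refine hbr (fun z => g.val ![z, 1] (ne_pt' z)) ?_ (fun z => hgX _ _) ?_ t
  · intro z₀ _
    exact ⟨fun z i => MvPolynomial.eval ![z, 1] (g.form i), analytic_form g analyticAt_id,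
      Filter.Eventually.of_forall fun z => ⟨g.ne _ (ne_pt' z), rfl⟩⟩
  · obtain ⟨s, -, t, -, hst⟩ := g.nonconst he Set.univ Set.infinite_univ
    exact ⟨s, t, hst⟩

/-- Points near `0` with `exp (1 / z) = t`. -/
private theorem exists_seq {t : ℂ} (ht : t ≠ 0) : ∃ z : ℕ → ℂ, (∀ n, z n ≠ 0) ∧
    (∀ n, Complex.exp (z n)⁻¹ = t) ∧ Filter.Tendsto z Filter.atTop (nhds 0) := by
  set K : ℕ := ⌈‖Complex.log t‖⌉₊ with hK
  have hKle : ‖Complex.log t‖ ≤ K := Nat.le_ceil _
  set w : ℕ → ℂ := fun n => Complex.log t + ((n + K + 1 : ℕ) : ℂ) *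
    (2 * Real.pi * Complex.I) with hw
  have hexp : ∀ n, Complex.exp (w n) = t := by
    intro n
    rw [hw]
    simp only
    rw [Complex.exp_add, Complex.exp_nat_mul_two_pi_mul_I, mul_one, Complex.exp_log ht]
  have hnorm : ∀ n : ℕ, (n : ℝ) + 1 ≤ ‖w n‖ := by
    intro n
    have h1 : ‖((n + K + 1 : ℕ) : ℂ) * (2 * Real.pi * Complex.I)‖ =
        ((n : ℝ) + K + 1) * (2 * Real.pi) := by
      rw [norm_mul, norm_mul, norm_mul, Complex.norm_I, mul_one, Complex.norm_natCast,
        Complex.norm_two, Complex.norm_real, Real.norm_of_nonneg Real.pi_pos.le]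
      push_cast
      ring
    have h2 : ((n + K + 1 : ℕ) : ℂ) * (2 * Real.pi * Complex.I) = w n - Complex.log t := by
      rw [hw]
      ring
    have h3 : ‖((n + K + 1 : ℕ) : ℂ) * (2 * Real.pi * Complex.I)‖ ≤ ‖w n‖ + ‖Complex.log t‖ := by
      rw [h2]
      exact norm_sub_le _ _
    rw [h1] at h3
    have h4 := Real.pi_gt_three
    have h5 : (0 : ℝ) ≤ n := Nat.cast_nonneg n
    have h6 : (0 : ℝ) ≤ K := Nat.cast_nonneg K
    nlinarith
  have hw0 : ∀ n, w n ≠ 0 := by
    intro n h0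
    have h1 := hnorm n
    rw [h0, norm_zero] at h1
    have h5 : (0 : ℝ) ≤ n := Nat.cast_nonneg n
    linarith
  refine ⟨fun n => (w n)⁻¹, fun n => inv_ne_zero (hw0 n), fun n => ?_, ?_⟩
  · simp only [inv_inv]
    exact hexp n
  · refine squeeze_zero_norm (fun n => ?_) tendsto_one_div_add_atTop_nhds_zero_nat
    rw [norm_inv, one_div]
    have h5 : (0 : ℝ) ≤ n := Nat.cast_nonneg n
    exact inv_anti₀ (by linarith) (hnorm n)

theorem not_picard {X : Set (PN N)} (h : closureIn X (rationalCurves X) = X) : ¬ PseudoPicardHyperbolic X := by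
  rintro ⟨Ξ, hΞ, hne, hpic⟩
  obtain ⟨e, g, he, hgX, hg⟩ := exists_curve h hΞ hne
  have hT : ({0}ᶜ : Set ℂ).Infinite := Set.Finite.infinite_compl (Set.finite_singleton 0)
  obtain ⟨t, ht, htΞ⟩ := hg _ hT
  obtain ⟨G, hG, hGf⟩ := hpic (fun z => g.val ![Complex.exp z⁻¹, 1] (ne_pt' _)) (by
      intro z₀ hz₀
      have hz0 : z₀ ≠ 0 := hz₀.2
      exact ⟨fun z i => MvPolynomial.eval ![Complex.exp z⁻¹, 1] (g.form i),
        analytic_form g (analyticAt_cexp.comp (analyticAt_inv hz0)),
        Filter.Eventually.of_forall fun z => ⟨g.ne _ (ne_pt' _), rfl⟩⟩)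
    (fun z _ => hgX _ _) (by
      obtain ⟨z, hz0, hz1, hz2⟩ := exists_seq ht
      have h1 : ∀ᶠ n in Filter.atTop, z n ∈ Metric.ball (0 : ℂ) 1 :=
        hz2.eventually_mem (Metric.ball_mem_nhds _ one_pos)
      obtain ⟨n, hn⟩ := h1.exists
      refine ⟨z n, ⟨hn, hz0 n⟩, ?_⟩
      simp only [hz1]
      exact htΞ)
  obtain ⟨φ, hφ, hev⟩ := hG 0 (Metric.mem_ball_self one_pos)
  obtain ⟨hφ0, -⟩ := hev.self_of_nhds
  have key : ∀ t : ℂ, t ≠ 0 → Projectivization.mk ℂ (φ 0) hφ0 = g.val ![t, 1] (ne_pt' t) := by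
    intro t ht
    obtain ⟨z, hz0, hz1, hz2⟩ := exists_seq ht
    refine Pool.Agent.H17.mk_eq_of_minors hφ0 (g.ne _ (ne_pt' t)) ?_
    funext ⟨i, j⟩
    show φ 0 i * MvPolynomial.eval ![t, 1] (g.form j) - φ 0 j * MvPolynomial.eval ![t, 1] (g.form i) = 0
    have hcont : ∀ i, Filter.Tendsto (fun n => φ (z n) i) Filter.atTop (nhds (φ 0 i)) := fun i =>
      ((continuous_apply i).tendsto _).comp (hφ.continuousAt.tendsto.comp hz2)
    have hlim : Filter.Tendsto (fun n => φ (z n) i * MvPolynomial.eval ![t, 1] (g.form j) -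
        φ (z n) j * MvPolynomial.eval ![t, 1] (g.form i)) Filter.atTop
        (nhds (φ 0 i * MvPolynomial.eval ![t, 1] (g.form j) -
          φ 0 j * MvPolynomial.eval ![t, 1] (g.form i))) :=
      ((hcont i).mul_const _).sub ((hcont j).mul_const _)
    refine tendsto_nhds_unique (hlim.congr' ?_) tendsto_const_nhds
    have h1 : ∀ᶠ n in Filter.atTop, z n ∈ Metric.ball (0 : ℂ) 1 :=
      hz2.eventually_mem (Metric.ball_mem_nhds _ one_pos)
    filter_upwards [h1, hz2.eventually hev] with n hn1 hn2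
    obtain ⟨hn3, hn4⟩ := hn2
    have h2 := hGf (z n) ⟨hn1, hz0 n⟩
    rw [hn4] at h2
    simp only [hz1] at h2
    have h3 : Projectivization.mk ℂ (φ (z n)) hn3 = Projectivization.mk ℂ
      (fun i => MvPolynomial.eval ![t, 1] (g.form i)) (g.ne _ (ne_pt' t)) := h2
    rw [Projectivization.mk_eq_mk_iff'] at h3
    obtain ⟨c, hc⟩ := h3
    have h4 := congrFun hc i
    have h5 := congrFun hc j
    simp only [Pi.smul_apply, smul_eq_mul] at h4 h5
    rw [← h4, ← h5]
    ring
  obtain ⟨s, hs, t', ht', hst⟩ := g.nonconst he _ hT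
  exact hst ((key s hs).symm.trans (key t' ht'))

theorem not_strongly {P : Ideal (MvPolynomial (Fin (N + 1)) ℂ)} [P.IsPrime] (hP : Homog P) {n : ℕ} (hn : 1 ≤ n)
    (hz : ∃ z : Fin n → FunField P, IsTranscendenceBasis ℂ z) (h : ¬ LogGeneralType P ∅ n) :
    ¬ StronglyLogGeneralType P ∅ := by
  rintro ⟨Ξ, ⟨S, -, hΞS⟩, hne, hlg⟩
  refine h (hlg P hP le_rfl (fun i hi => absurd hi (Finset.notMem_empty i)) ?_ n hn hz)
  intro hsub
  apply hne
  refine Set.Subset.antisymm ?_ hsub
  rw [hΞS]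
  exact fun x hx => hx.1

theorem primeLocus_span {F : MvPolynomial (Fin (N + 1)) ℂ} {d : ℕ} (hF : F.IsHomogeneous d) :
    primeLocus (Ideal.span {F}) ∅ = zeroLocus fun _ : Fin 1 => F := by
  ext x
  constructor
  · intro h _
    exact h.1 F (Ideal.mem_span_singleton_self F) d hF
  · intro h
    refine ⟨fun Q hQ n _ => ?_, fun i hi => absurd hi (Finset.notMem_empty i)⟩
    obtain ⟨R, rfl⟩ := Ideal.mem_span_singleton'.1 hQ
    have h1 : MvPolynomial.eval x.rep F = 0 := h 0
    show MvPolynomial.eval x.rep (R * F) = 0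
    rw [map_mul, h1, mul_zero]

theorem homog_span {F : MvPolynomial (Fin (N + 1)) ℂ} {d : ℕ} (hF : F.IsHomogeneous d) :
    Homog (Ideal.span {F}) := by
  intro p hp n
  obtain ⟨R, rfl⟩ := Ideal.mem_span_singleton'.1 hp
  have h1 : R * F = ∑ k ∈ Finset.range (R.totalDegree + 1),
      MvPolynomial.homogeneousComponent k R * F := by
    rw [← Finset.sum_mul, MvPolynomial.sum_homogeneousComponent]
  rw [h1, map_sum]
  refine Ideal.sum_mem _ fun k _ => ?_
  have h2 : (MvPolynomial.homogeneousComponent k R * F).IsHomogeneous (k + d) :=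
    (MvPolynomial.homogeneousComponent_isHomogeneous k R).mul hF
  rw [MvPolynomial.homogeneousComponent_of_mem ((MvPolynomial.mem_homogeneousSubmodule _ _).2 h2)]
  split_ifs
  · exact Ideal.mul_mem_left _ _ (Ideal.mem_span_singleton_self F)
  · exact Ideal.zero_mem _

end Pool.Agent.H66.CY
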