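import Pool.Agent.H66.CY.FPole

/-!
# CY FPoly: a form as a monic polynomial in its last variable (helper13)

`f` = the image of `F` under `x_last ↦ X` (outer variable), `x_m ↦ C X` (inner variable), `x_i ↦ C (C (r i))` for the other `i`, divided by the coefficient `c` of `x_last ^ d`:
`MvPolynomial.aeval (fun i => if i = last then X else if h : i = m then C X else C (C ⟨r i, _⟩)) F : L[X][X]`. Every monomial of `F` has degree `d`, so its degree in `x_last` is `≤ d`, and `= d` only for `x_last ^ d`: `f` is monic of degree `d`.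
`ev2` and the derivative: `MvPolynomial.aeval` composed with ring homomorphisms (`MvPolynomial.ringHom_ext`/induction on `F`), derivative: `MvPolynomial.pderiv` (induction on `F`, or on monomials).
-/

set_option autoImplicit false

noncomputable section

namespace Pool.Agent.H66.CY

open Polynomial

private theorem FPoly_der {L : Type} [Field L] [Algebra ℂ L] {N : ℕ} (s : Fin (N + 1) → L[X][X])
    (hs : ∀ i, i ≠ Fin.last N → derivative (s i) = 0) (hl : derivative (s (Fin.last N)) = 1)
    (P : MvPolynomial (Fin (N + 1)) ℂ) :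
    derivative (MvPolynomial.aeval s P) = MvPolynomial.aeval s (MvPolynomial.pderiv (Fin.last N) P) := by
  induction P using MvPolynomial.induction_on with
  | C a =>
    rw [MvPolynomial.algHom_C, MvPolynomial.pderiv_C, map_zero]
    rw [IsScalarTower.algebraMap_apply ℂ L[X] L[X][X], Polynomial.algebraMap_eq, derivative_C]
  | add p q hp hq => rw [map_add, map_add, map_add, map_add, hp, hq]
  | mul_X p i hp =>
    rw [map_mul, derivative_mul, hp, Derivation.leibniz, map_add, smul_eq_mul, smul_eq_mul, map_mul, map_mul,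
      MvPolynomial.aeval_X]
    by_cases hi : i = Fin.last N
    · subst hi
      rw [hl, MvPolynomial.pderiv_X_self, map_one]
      ring
    · rw [hs i hi, MvPolynomial.pderiv_X_of_ne hi, map_zero]
      ring

private theorem FPoly_prod {L : Type} [Field L] {N : ℕ} (s : Fin (N + 1) → L[X][X])
    (t : Fin N → L[X]) (hs : ∀ i : Fin N, s i.castSucc = C (t i)) (hl : s (Fin.last N) = X)
    (μ : Fin (N + 1) →₀ ℕ) :
    (μ.prod fun i k => s i ^ k) = C (∏ i : Fin N, t i ^ μ i.castSucc) * X ^ μ (Fin.last N) := by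
  rw [Finsupp.prod_fintype _ _ (fun i => pow_zero _), Fin.prod_univ_castSucc, hl]
  congr 1
  rw [map_prod]
  refine Finset.prod_congr rfl fun i _ => ?_
  rw [hs, map_pow]

private theorem FPoly_last {N : ℕ} {d : ℕ} {μ : Fin (N + 1) →₀ ℕ} (hμ : μ.degree = d) :
    μ (Fin.last N) ≤ d ∧ (μ (Fin.last N) = d → μ = Finsupp.single (Fin.last N) d) := by
  have h1 : ∑ i : Fin N, μ i.castSucc + μ (Fin.last N) = d := by
    rw [← Fin.sum_univ_castSucc (fun i => μ i), ← hμ, Finsupp.degree_eq_sum]
  refine ⟨by omega, fun h => ?_⟩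
  have h2 : ∑ i : Fin N, μ i.castSucc = 0 := by omega
  rw [Finset.sum_eq_zero_iff] at h2
  ext i
  refine Fin.lastCases ?_ (fun j => ?_) i
  · rw [Finsupp.single_eq_same, h]
  · rw [h2 j (Finset.mem_univ _), Finsupp.single_eq_of_ne (Fin.castSucc_ne_last j)]

private theorem FPoly_monic {L : Type} [Field L] [Algebra ℂ L] {N : ℕ} {F : MvPolynomial (Fin (N + 1)) ℂ} {d : ℕ}
    (hF : F.IsHomogeneous d) (hc : F.coeff (Finsupp.single (Fin.last N) d) ≠ 0) (s : Fin (N + 1) → L[X][X])
    (t : Fin N → L[X]) (hs : ∀ i : Fin N, s i.castSucc = C (t i)) (hl : s (Fin.last N) = X) :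
    (C (C (algebraMap ℂ L (F.coeff (Finsupp.single (Fin.last N) d))⁻¹)) * MvPolynomial.aeval s F).Monic := by
  classical
  have e1 : MvPolynomial.aeval s F = ∑ μ ∈ F.support, C (C (algebraMap ℂ L (F.coeff μ)) *
      ∏ i : Fin N, t i ^ μ i.castSucc) * X ^ μ (Fin.last N) := by
    rw [MvPolynomial.aeval_def, MvPolynomial.eval₂_eq']
    refine Finset.sum_congr rfl fun μ _ => ?_
    have := FPoly_prod s t hs hl μ
    rw [Finsupp.prod_fintype _ _ (fun i => pow_zero _)] at this
    rw [this, IsScalarTower.algebraMap_apply ℂ L[X] L[X][X], Polynomial.algebraMap_eq,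
      IsScalarTower.algebraMap_apply ℂ L L[X], Polynomial.algebraMap_eq, ← mul_assoc, map_mul]
  have hdeg : ∀ μ ∈ F.support, μ.degree = d := by
    intro μ hμ
    have := hF (MvPolynomial.mem_support_iff.mp hμ)
    rw [Finsupp.degree_eq_weight_one]
    exact this
  have hcoef : (MvPolynomial.aeval s F).coeff d = C (algebraMap ℂ L (F.coeff (Finsupp.single (Fin.last N) d))) := by
    rw [e1, finsetSum_coeff]
    rw [Finset.sum_eq_single (Finsupp.single (Fin.last N) d)]
    · rw [coeff_C_mul, Finsupp.single_eq_same, coeff_X_pow_self, mul_one]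
      have : ∏ i : Fin N, t i ^ (Finsupp.single (Fin.last N) d : Fin (N + 1) →₀ ℕ) i.castSucc = 1 := by
        refine Finset.prod_eq_one fun i _ => ?_
        rw [Finsupp.single_eq_of_ne (Fin.castSucc_ne_last i), pow_zero]
      rw [this, mul_one]
    · intro μ hμ hne
      rw [coeff_C_mul, coeff_X_pow, if_neg, mul_zero]
      intro h
      exact hne ((FPoly_last (hdeg μ hμ)).2 h.symm)
    · intro h
      exact absurd (MvPolynomial.mem_support_iff.mpr hc) h
  refine monic_of_natDegree_le_of_coeff_eq_one d ?_ ?_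
  · refine (natDegree_C_mul_le _ _).trans ?_
    rw [e1]
    refine natDegree_sum_le_of_forall_le _ _ fun μ hμ => ?_
    refine (natDegree_C_mul_le _ _).trans ?_
    rw [natDegree_X_pow]
    exact (FPoly_last (hdeg μ hμ)).1
  · rw [coeff_C_mul, hcoef, ← map_mul, ← map_mul, inv_mul_cancel₀ hc, map_one, map_one]

theorem exists_poly {K : Type} [Field K] [Algebra ℂ K] {N : ℕ} (L : IntermediateField ℂ K)
    {F : MvPolynomial (Fin (N + 1)) ℂ} {d : ℕ} (hF : F.IsHomogeneous d)
    (hc : F.coeff (Finsupp.single (Fin.last N) d) ≠ 0) {m : Fin (N + 1)} (hm : m ≠ Fin.last N)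
    (r : Fin (N + 1) → K) (hr : ∀ i, i ≠ m → i ≠ Fin.last N → r i ∈ L) :
    ∃ f : L[X][X], f.Monic ∧
      ev2 (r m) (r (Fin.last N)) f = (algebraMap ℂ K (F.coeff (Finsupp.single (Fin.last N) d)))⁻¹ * MvPolynomial.aeval r F ∧
      ev2 (r m) (r (Fin.last N)) (derivative f) = (algebraMap ℂ K (F.coeff (Finsupp.single (Fin.last N) d)))⁻¹ *
        MvPolynomial.aeval r (MvPolynomial.pderiv (Fin.last N) F) := by
  classical
  set t : Fin N → L[X] := fun i => if h : i.castSucc = m then X else C ⟨r i.castSucc, hr _ h (Fin.castSucc_ne_last i)⟩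
    with ht
  set s : Fin (N + 1) → L[X][X] := Fin.lastCases X (fun i => C (t i)) with hs
  have hs1 : ∀ i : Fin N, s i.castSucc = C (t i) := fun i => by simp [hs]
  have hs2 : s (Fin.last N) = X := by simp [hs]
  set E : L[X][X] →+* K := eval₂RingHom (Polynomial.aeval (r m) : L[X] →ₐ[L] K).toRingHom (r (Fin.last N)) with hE
  have hEe : ∀ f : L[X][X], ev2 (r m) (r (Fin.last N)) f = E f := fun f => rfl
  have hEs : ∀ i, E (s i) = r i := by
    intro i
    refine Fin.lastCases ?_ (fun j => ?_) i
    · rw [hs2, hE]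
      simp
    · rw [hs1, hE, coe_eval₂RingHom, eval₂_C]
      by_cases h : j.castSucc = m
      · simp [ht, h]
      · simp [ht, h]
  have hEC : E.comp (algebraMap ℂ L[X][X]) = algebraMap ℂ K := by
    ext a
    rw [RingHom.comp_apply, IsScalarTower.algebraMap_apply ℂ L[X] L[X][X], Polynomial.algebraMap_eq,
      IsScalarTower.algebraMap_apply ℂ L L[X], Polynomial.algebraMap_eq, hE, coe_eval₂RingHom, eval₂_C]
    simp
  have hEa : ∀ P : MvPolynomial (Fin (N + 1)) ℂ, E (MvPolynomial.aeval s P) = MvPolynomial.aeval r P := by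
    intro P
    rw [MvPolynomial.map_aeval, hEC]
    rw [MvPolynomial.aeval_def, MvPolynomial.coe_eval₂Hom]
    congr 1
    funext i
    exact hEs i
  have hECC : ∀ a : ℂ, E (C (C (algebraMap ℂ L a))) = algebraMap ℂ K a := by
    intro a
    rw [hE, coe_eval₂RingHom, eval₂_C]
    simp
  refine ⟨C (C (algebraMap ℂ L (F.coeff (Finsupp.single (Fin.last N) d))⁻¹)) * MvPolynomial.aeval s F,
    FPoly_monic hF hc s t hs1 hs2, ?_, ?_⟩
  · rw [hEe, map_mul, hEa, hECC, map_inv₀]
  · rw [derivative_C_mul, FPoly_der s (fun i hi => ?_) (by rw [hs2, derivative_X]), hEe, map_mul, hEa, hECC, map_inv₀]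
    obtain ⟨j, rfl⟩ := Fin.exists_castSucc_eq.mpr hi
    rw [hs1, derivative_C]

end Pool.Agent.H66.CY
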