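import Pool.Agent.H17LG.Variety
import Pool.Agent.H66.CY.FPoly

/-!
# CY FHyp: the function field of a hypersurface (helper13)

`P = (F)` prime, `F` homogeneous of degree `d` with nonzero coefficient `c` at `x_last ^ d`; `K = FunField P ⊆ Frac(ℂ[x]/P)`, `ratio P i j = x_i / x_j`. `coordFun P j ≠ 0` for `j ≠ last` (`x_j ∈ (F)` would give `F ∣ x_j`, but `F` contains `x_last ^ d`, `d ≥ 1`).
* `ratio_self`, `ratio_div`, `ratio_ne`: in `Frac`.
* `aeval_ratio`: for a form `G` of degree `e`: `aeval (ratio · j) G = (G mod P) / x_j ^ e` in `Frac`; it is zero iff `G ∈ P`.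
* `hyp_top`: by definition of `functionField` (`IntermediateField.adjoin`), `x_i/x_j = (x_i/x_0)/(x_j/x_0)` (if `coordFun P j = 0` the quotient is 0).
* `hyp_basis`: algebraic independence of `x_1/x_0, …, x_{k+1}/x_0`: a polynomial `g ≠ 0` with `g(y) = 0`, homogenised with `x_0` to a form `G` in `x_0, …, x_{k+1}` (not `x_last`) of some degree `e`, gives `G ∈ P`, `F ∣ G`, impossible for the degree in `x_last`
  (`F = c x_last ^ d + lower`, `d ≥ 1`: `MvPolynomial.degreeOf_mul`). `K` is algebraic over `ℂ(y)`: it is generated by `y` and `z = x_last/x_0`, and `F(1, y, z) = 0` is a nonzero polynomial equation for `z`.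
* `hyp_deriv_ne`: `∂F/∂x_last` is a form of degree `d - 1` with the coefficient `d c ≠ 0` at `x_last ^ (d-1)`, so it is not 0 and not divisible by `F`.
* `hyp_deriv_chart`: `aeval (ratio · 1) G = (x_1/x_0) ^ (-e) aeval (ratio · 0) G` for a form of degree `e` (`MvPolynomial.IsHomogeneous.eval₂`/`aeval` of a scaled vector).
-/

set_option autoImplicit false

noncomputable section

namespace Pool.Agent.H66.CY

open MvPolynomial
open Pool.Agent.H17LG.Variety (FunField ratio)
open Pool.Agent.H17GT (coordFun functionField)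

variable {N : ℕ} {F : MvPolynomial (Fin (N + 1)) ℂ} {d : ℕ}

instance essFiniteType_funField (P : Ideal (MvPolynomial (Fin (N + 1)) ℂ)) [P.IsPrime] :
    Algebra.EssFiniteType ℂ (FunField P) := by
  change Algebra.EssFiniteType ℂ (functionField P)
  rw [IntermediateField.essFiniteType_iff]
  have hfin : Set.Finite {y | ∃ i j, y = coordFun P i / coordFun P j} := by
    have : {y | ∃ i j, y = coordFun P i / coordFun P j} =
        Set.range fun p : Fin (N + 1) × Fin (N + 1) => coordFun P p.1 / coordFun P p.2 := by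
      ext y
      constructor
      · rintro ⟨i, j, rfl⟩
        exact ⟨(i, j), rfl⟩
      · rintro ⟨p, rfl⟩
        exact ⟨p.1, p.2, rfl⟩
    rw [this]
    exact Set.finite_range _
  refine ⟨hfin.toFinset, ?_⟩
  rw [Set.Finite.coe_toFinset]
  rfl

/-- The embedding of the function field in the fraction field of the coordinate ring. -/
private def FHyp_val (P : Ideal (MvPolynomial (Fin (N + 1)) ℂ)) [P.IsPrime] :
    FunField P →ₐ[ℂ] FractionRing (MvPolynomial (Fin (N + 1)) ℂ ⧸ P) :=
  (functionField P).val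

private theorem FHyp_val_injective (P : Ideal (MvPolynomial (Fin (N + 1)) ℂ)) [P.IsPrime] :
    Function.Injective (FHyp_val P) := Subtype.val_injective

private theorem FHyp_val_ratio (P : Ideal (MvPolynomial (Fin (N + 1)) ℂ)) [P.IsPrime]
    (i j : Fin (N + 1)) : FHyp_val P (ratio P i j) = coordFun P i / coordFun P j := rfl

private theorem FHyp_val_aeval (P : Ideal (MvPolynomial (Fin (N + 1)) ℂ)) [P.IsPrime]
    (j : Fin (N + 1)) {e : ℕ} {G : MvPolynomial (Fin (N + 1)) ℂ} (hG : G.IsHomogeneous e) :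
    FHyp_val P (aeval (fun i => ratio P i j) G) =
      (coordFun P j)⁻¹ ^ e * algebraMap (MvPolynomial (Fin (N + 1)) ℂ ⧸ P)
        (FractionRing (MvPolynomial (Fin (N + 1)) ℂ ⧸ P)) (Ideal.Quotient.mk P G) := by
  have h3 : FHyp_val P (aeval (fun i => ratio P i j) G) =
      aeval (fun i => FHyp_val P (ratio P i j)) G := by
    rw [← MvPolynomial.comp_aeval]
    rfl
  rw [h3]
  have h1 : (fun i => FHyp_val P (ratio P i j)) = fun i => (coordFun P j)⁻¹ * coordFun P i := by
    funext i
    rw [FHyp_val_ratio, div_eq_inv_mul]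
  rw [h1]
  have h4 : aeval (fun i => (coordFun P j)⁻¹ * coordFun P i) G =
      (coordFun P j)⁻¹ ^ e * aeval (coordFun P) G := by
    rw [aeval_def, aeval_def, eval₂_eq, eval₂_eq, Finset.mul_sum]
    refine Finset.sum_congr rfl fun m hm => ?_
    have h5 : ∑ i ∈ m.support, m i = e := by
      have := hG (mem_support_iff.1 hm)
      rw [Finsupp.weight_apply, Finsupp.sum] at this
      simpa using this
    simp only [mul_pow, Finset.prod_mul_distrib]
    rw [Finset.prod_pow_eq_pow_sum, h5]
    ring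
  rw [h4]
  congr 1
  have h8 : (aeval (coordFun P) : MvPolynomial (Fin (N + 1)) ℂ →ₐ[ℂ] _) =
      (IsScalarTower.toAlgHom ℂ (MvPolynomial (Fin (N + 1)) ℂ ⧸ P)
        (FractionRing (MvPolynomial (Fin (N + 1)) ℂ ⧸ P))).comp (Ideal.Quotient.mkₐ ℂ P) := by
    apply MvPolynomial.algHom_ext
    intro i
    rw [aeval_X]
    rfl
  rw [h8]
  rfl

private theorem FHyp_zero_iff (P : Ideal (MvPolynomial (Fin (N + 1)) ℂ)) [P.IsPrime]
    {j : Fin (N + 1)} (hj : coordFun P j ≠ 0) {e : ℕ} {G : MvPolynomial (Fin (N + 1)) ℂ}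
    (hG : G.IsHomogeneous e) : aeval (fun i => ratio P i j) G = 0 ↔ G ∈ P := by
  have h1 := FHyp_val_aeval P j hG
  constructor
  · intro h
    rw [h, map_zero] at h1
    have h2 := (mul_eq_zero.1 h1.symm).resolve_left (pow_ne_zero _ (inv_ne_zero hj))
    rw [FaithfulSMul.algebraMap_eq_zero_iff] at h2
    exact Ideal.Quotient.eq_zero_iff_mem.1 h2
  · intro h
    rw [Ideal.Quotient.eq_zero_iff_mem.2 h, map_zero, mul_zero] at h1
    exact FHyp_val_injective P (by rw [h1, map_zero])

theorem hyp_degree [(Ideal.span {F}).IsPrime] (hF : F.IsHomogeneous d) (hc : F.coeff (Finsupp.single (Fin.last N) d) ≠ 0) :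
    1 ≤ d := by
  by_contra hd
  have hd0 : d = 0 := by omega
  subst hd0
  rw [← totalDegree_zero_iff_isHomogeneous, totalDegree_eq_zero_iff_eq_C] at hF
  rw [Finsupp.single_zero] at hc
  apply (inferInstance : (Ideal.span {F}).IsPrime).ne_top
  rw [Ideal.eq_top_iff_one, Ideal.mem_span_singleton, hF]
  refine ⟨C (coeff 0 F)⁻¹, ?_⟩
  rw [← C_mul, mul_inv_cancel₀ hc, C_1]

private theorem FHyp_degreeOf (hc : F.coeff (Finsupp.single (Fin.last N) d) ≠ 0) :
    d ≤ degreeOf (Fin.last N) F := by
  have h := monomial_le_degreeOf (Fin.last N) (mem_support_iff.2 hc)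
  simpa using h

/-- A nonzero polynomial without `x_last` is not in `(F)`. -/
private theorem FHyp_not_mem [(Ideal.span {F}).IsPrime] (hF : F.IsHomogeneous d)
    (hc : F.coeff (Finsupp.single (Fin.last N) d) ≠ 0) {G : MvPolynomial (Fin (N + 1)) ℂ}
    (hG : G ∈ Ideal.span {F}) (hG0 : degreeOf (Fin.last N) G = 0) : G = 0 := by
  by_contra hne
  obtain ⟨H, hH⟩ := Ideal.mem_span_singleton.1 hG
  have hF0 : F ≠ 0 := by
    rintro rfl
    exact hne (by rw [hH, zero_mul])
  have hH0 : H ≠ 0 := by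
    rintro rfl
    exact hne (by rw [hH, mul_zero])
  have h1 := degreeOf_mul_eq (n := Fin.last N) hF0 hH0
  rw [← hH, hG0] at h1
  have h2 := hyp_degree hF hc
  have h3 := FHyp_degreeOf hc
  omega

theorem hyp_coord [(Ideal.span {F}).IsPrime] (hF : F.IsHomogeneous d) (hc : F.coeff (Finsupp.single (Fin.last N) d) ≠ 0)
    {j : Fin (N + 1)} (hj : j ≠ Fin.last N) : coordFun (Ideal.span {F}) j ≠ 0 := by
  intro h
  rw [coordFun, FaithfulSMul.algebraMap_eq_zero_iff, Ideal.Quotient.eq_zero_iff_mem] at h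
  refine X_ne_zero (R := ℂ) j (FHyp_not_mem hF hc h ?_)
  rw [degreeOf_X, if_neg (Ne.symm hj)]

theorem ratio_self {P : Ideal (MvPolynomial (Fin (N + 1)) ℂ)} [P.IsPrime] {j : Fin (N + 1)} (hj : coordFun P j ≠ 0) :
    ratio P j j = 1 := by
  apply FHyp_val_injective P
  rw [FHyp_val_ratio, map_one, div_self hj]

theorem ratio_ne {P : Ideal (MvPolynomial (Fin (N + 1)) ℂ)} [P.IsPrime] {i j : Fin (N + 1)} (hi : coordFun P i ≠ 0)
    (hj : coordFun P j ≠ 0) : ratio P i j ≠ 0 := by
  intro h
  have h1 := FHyp_val_ratio P i j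
  rw [h, map_zero] at h1
  exact div_ne_zero hi hj h1.symm

theorem ratio_div {P : Ideal (MvPolynomial (Fin (N + 1)) ℂ)} [P.IsPrime] {j j' : Fin (N + 1)} (hj : coordFun P j ≠ 0)
    (i : Fin (N + 1)) : ratio P i j' = ratio P i j / ratio P j' j := by
  apply FHyp_val_injective P
  rw [map_div₀, FHyp_val_ratio, FHyp_val_ratio, FHyp_val_ratio, div_div_div_cancel_right₀ hj]

theorem hyp_zero [(Ideal.span {F}).IsPrime] (hF : F.IsHomogeneous d) (j : Fin (N + 1)) :
    coordFun (Ideal.span {F}) j ≠ 0 → aeval (fun i => ratio (Ideal.span {F}) i j) F = 0 :=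
  fun hj => (FHyp_zero_iff _ hj hF).2 (Ideal.mem_span_singleton_self F)

theorem hyp_deriv_ne [(Ideal.span {F}).IsPrime] (hF : F.IsHomogeneous d)
    (hc : F.coeff (Finsupp.single (Fin.last N) d) ≠ 0) {j : Fin (N + 1)} (hj : coordFun (Ideal.span {F}) j ≠ 0) :
    aeval (fun i => ratio (Ideal.span {F}) i j) (pderiv (Fin.last N) F) ≠ 0 := by
  intro h
  rw [FHyp_zero_iff _ hj hF.pderiv] at h
  have hd := hyp_degree hF hc
  obtain ⟨H, hH⟩ := Ideal.mem_span_singleton.1 h
  have h1 : coeff (Finsupp.single (Fin.last N) (d - 1)) (pderiv (Fin.last N) F) ≠ 0 := by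
    rw [coeff_pderiv, ← Finsupp.single_add, Nat.sub_add_cancel hd, Finsupp.single_eq_same]
    exact mul_ne_zero hc (Nat.cast_add_one_ne_zero _)
  have h0 : pderiv (Fin.last N) F ≠ 0 := by
    rintro h2
    rw [h2, coeff_zero] at h1
    exact h1 rfl
  have hF0 : F ≠ 0 := by
    rintro rfl
    exact h0 (by rw [hH, zero_mul])
  have hH0 : H ≠ 0 := by
    rintro rfl
    exact h0 (by rw [hH, mul_zero])
  have h3 := hF.pderiv (i := Fin.last N) |>.totalDegree h0
  rw [hH, totalDegree_mul_of_isDomain hF0 hH0, hF.totalDegree hF0] at h3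
  omega

theorem hyp_deriv_chart [(Ideal.span {F}).IsPrime] (hF : F.IsHomogeneous d) {j j' : Fin (N + 1)}
    (hj : coordFun (Ideal.span {F}) j ≠ 0) (hj' : coordFun (Ideal.span {F}) j' ≠ 0) :
    aeval (fun i => ratio (Ideal.span {F}) i j') (pderiv (Fin.last N) F) * ratio (Ideal.span {F}) j' j ^ (d - 1) =
      aeval (fun i => ratio (Ideal.span {F}) i j) (pderiv (Fin.last N) F) := by
  apply FHyp_val_injective
  rw [map_mul, map_pow, FHyp_val_ratio, FHyp_val_aeval _ _ hF.pderiv, FHyp_val_aeval _ _ hF.pderiv,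
    mul_right_comm, ← mul_pow]
  congr 2
  field_simp

theorem hyp_top (P : Ideal (MvPolynomial (Fin (N + 1)) ℂ)) [P.IsPrime] {j : Fin (N + 1)} (hj : coordFun P j ≠ 0) :
    IntermediateField.adjoin ℂ (Set.range fun i => ratio P i j) = ⊤ := by
  rw [eq_top_iff]
  intro x _
  have hx : FHyp_val P x ∈ functionField P := x.2
  have hle : functionField P ≤ IntermediateField.map (FHyp_val P)
      (IntermediateField.adjoin ℂ (Set.range fun i => ratio P i j)) := by
    rw [functionField, IntermediateField.adjoin_le_iff]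
    rintro y ⟨i, k, rfl⟩
    refine ⟨ratio P i j / ratio P k j, ?_, ?_⟩
    · exact (IntermediateField.adjoin ℂ (Set.range fun i => ratio P i j)).div_mem
        (IntermediateField.subset_adjoin _ _ ⟨i, rfl⟩)
        (IntermediateField.subset_adjoin _ _ ⟨k, rfl⟩)
    · change FHyp_val P (ratio P i j / ratio P k j) = _
      rw [map_div₀, FHyp_val_ratio, FHyp_val_ratio, div_div_div_cancel_right₀ hj]
  obtain ⟨x', hx', hxx⟩ := hle hx
  have : x' = x := FHyp_val_injective P hxx
  rw [← this]
  exact hx'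

/-- Homogenisation with `x_0`. -/
private def FHyp_hom {k : ℕ} (g : MvPolynomial (Fin (k + 1)) ℂ) : MvPolynomial (Fin (k + 2)) ℂ :=
  ∑ m ∈ g.support, C (coeff m g) * (X 0 ^ (g.totalDegree - m.degree) * ∏ i, X i.succ ^ m i)

private theorem FHyp_hom_aeval {k : ℕ} (g : MvPolynomial (Fin (k + 1)) ℂ) {A : Type*} [CommRing A]
    [Algebra ℂ A] (y : Fin (k + 2) → A) (hy : y 0 = 1) :
    aeval y (FHyp_hom g) = aeval (fun i => y i.succ) g := by
  rw [FHyp_hom, map_sum, aeval_def (fun i => y (Fin.succ i)), eval₂_eq']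
  refine Finset.sum_congr rfl fun m _ => ?_
  rw [map_mul, map_mul, map_pow, map_prod, aeval_X, hy, one_pow, one_mul,
    algHom_C]
  congr 1
  exact Finset.prod_congr rfl fun i _ => by rw [map_pow, aeval_X]

private theorem FHyp_hom_isHomogeneous {k : ℕ} (g : MvPolynomial (Fin (k + 1)) ℂ) :
    (FHyp_hom g).IsHomogeneous g.totalDegree := by
  refine IsHomogeneous.sum _ _ _ fun m hm => ?_
  have h1 : m.degree ≤ g.totalDegree := by
    have := le_totalDegree hm
    rwa [Finsupp.sum, ← Finsupp.degree_apply] at this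
  have h2 : (X 0 ^ (g.totalDegree - m.degree) * ∏ i, X i.succ ^ m i :
      MvPolynomial (Fin (k + 2)) ℂ).IsHomogeneous
        (g.totalDegree - m.degree + ∑ i, m i) := by
    refine (isHomogeneous_X_pow _ _).mul ?_
    exact IsHomogeneous.prod _ _ _ fun i _ => isHomogeneous_X_pow _ _
  have h3 : ∑ i, m i = m.degree := by
    rw [Finsupp.degree_eq_sum]
  rw [h3, Nat.sub_add_cancel h1] at h2
  have h4 := (isHomogeneous_C (Fin (k + 2)) (coeff m g)).mul h2
  rwa [zero_add] at h4

private theorem FHyp_indep {k : ℕ} {F : MvPolynomial (Fin (k + 3)) ℂ} [(Ideal.span {F}).IsPrime]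
    (hF : F.IsHomogeneous d) (hc : F.coeff (Finsupp.single (Fin.last (k + 2)) d) ≠ 0) :
    AlgebraicIndependent ℂ
      (fun i : Fin (k + 1) => ratio (Ideal.span {F}) i.succ.castSucc 0) := by
  rw [algebraicIndependent_iff]
  intro g hg
  have h0 : coordFun (Ideal.span {F}) 0 ≠ 0 := hyp_coord hF hc (by
    intro h
    exact absurd (congrArg Fin.val h) (by simp))
  have hdeg : degreeOf (Fin.last (k + 2)) (rename Fin.castSucc (FHyp_hom g)) = 0 := by
    rw [degreeOf_eq_sup, ← Nat.le_zero, ← Nat.bot_eq_zero]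
    refine Finset.sup_le fun m hm => le_of_eq ?_
    rw [support_rename_of_injective (Fin.castSucc_injective _)] at hm
    obtain ⟨m', -, rfl⟩ := Finset.mem_image.1 hm
    refine Finsupp.mapDomain_of_notMem_range _ _ ?_
    rintro ⟨i, hi⟩
    exact absurd hi (Fin.castSucc_ne_last i)
  have hhom : (rename Fin.castSucc (FHyp_hom g) : MvPolynomial (Fin (k + 3)) ℂ).IsHomogeneous
      g.totalDegree := (FHyp_hom_isHomogeneous g).rename_isHomogeneous
  have hval : aeval (fun i => ratio (Ideal.span {F}) i 0)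
      (rename Fin.castSucc (FHyp_hom g)) = 0 := by
    rw [aeval_rename, FHyp_hom_aeval]
    · exact hg
    · exact ratio_self h0
  have hG0 : FHyp_hom g = 0 := by
    have h1 := FHyp_not_mem hF hc ((FHyp_zero_iff _ h0 hhom).1 hval) hdeg
    exact rename_injective _ (Fin.castSucc_injective _) (by rw [h1, map_zero])
  have h2 := FHyp_hom_aeval g (Fin.cons 1 X : Fin (k + 2) → MvPolynomial (Fin (k + 1)) ℂ) rfl
  rw [hG0, map_zero] at h2
  simp only [Fin.cons_succ] at h2
  rw [h2]
  exact (aeval_X_left_apply g).symm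

open scoped IntermediateField.algebraAdjoinAdjoin in
theorem hyp_basis {k : ℕ} {F : MvPolynomial (Fin (k + 3)) ℂ} [(Ideal.span {F}).IsPrime] (hF : F.IsHomogeneous d)
    (hc : F.coeff (Finsupp.single (Fin.last (k + 2)) d) ≠ 0) :
    IsTranscendenceBasis ℂ (fun i : Fin (k + 1) => ratio (Ideal.span {F}) i.succ.castSucc 0) := by
  have h0 : coordFun (Ideal.span {F}) 0 ≠ 0 := hyp_coord hF hc (by
    intro h
    exact absurd (congrArg Fin.val h) (by simp))
  have hind := FHyp_indep hF hc
  rw [hind.isTranscendenceBasis_iff_isAlgebraic]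
  set y : Fin (k + 1) → FunField (Ideal.span {F}) :=
    fun i => ratio (Ideal.span {F}) i.succ.castSucc 0 with hy
  set L := IntermediateField.adjoin ℂ (Set.range y) with hL
  have hself : ratio (Ideal.span {F}) 0 0 = 1 := ratio_self h0
  have hmem : ∀ i : Fin (k + 3), i ≠ 0 → i ≠ Fin.last (k + 2) →
      ratio (Ideal.span {F}) i 0 ∈ L := by
    intro i hi hi'
    refine IntermediateField.subset_adjoin _ _ ?_
    obtain ⟨i', rfl⟩ := Fin.exists_castSucc_eq.2 hi'
    have hi0 : i' ≠ 0 := by
      rintro rfl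
      exact hi rfl
    obtain ⟨i'', rfl⟩ := Fin.exists_succ_eq.2 hi0
    exact ⟨i'', rfl⟩
  obtain ⟨f, hf, hf0, -⟩ := exists_poly L hF hc (m := 0)
    (by
      intro h
      exact absurd (congrArg Fin.val h) (by simp))
    (fun i => ratio (Ideal.span {F}) i 0) hmem
  rw [hyp_zero hF 0 h0, mul_zero] at hf0
  have hzint : IsIntegral L (ratio (Ideal.span {F}) (Fin.last (k + 2)) 0) := by
    refine ⟨f.map (Polynomial.evalRingHom 1), hf.map _, ?_⟩
    rw [Polynomial.eval₂_map]
    rw [ev2, hself] at hf0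
    rw [← hf0]
    congr 1
    refine Polynomial.ringHom_ext (fun a => ?_) ?_
    · simp
    · simp
  have hAlg : Algebra.IsAlgebraic L (FunField (Ideal.span {F})) := by
    have h1 : ∀ x ∈ Set.range (fun i => ratio (Ideal.span {F}) i 0), IsIntegral L x := by
      rintro _ ⟨i, rfl⟩
      by_cases hi : i = 0
      · rw [hi]
        simp only [hself]
        exact isIntegral_one
      by_cases hi' : i = Fin.last (k + 2)
      · rw [hi']
        exact hzint
      · exact (isIntegral_algebraMap (R := L) (A := FunField (Ideal.span {F}))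
          (x := ⟨_, hmem i hi hi'⟩))
    have h2 := IntermediateField.isAlgebraic_adjoin h1
    have h3 : ∀ x : FunField (Ideal.span {F}),
        x ∈ IntermediateField.adjoin L (Set.range fun i => ratio (Ideal.span {F}) i 0) := by
      have h4 : IntermediateField.adjoin ℂ (Set.range fun i => ratio (Ideal.span {F}) i 0) ≤
          (IntermediateField.adjoin L
            (Set.range fun i => ratio (Ideal.span {F}) i 0)).restrictScalars ℂ := by
        rw [IntermediateField.adjoin_le_iff]
        exact IntermediateField.subset_adjoin _ _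
      rw [hyp_top _ h0] at h4
      intro x
      exact h4 (IntermediateField.mem_top (x := x))
    refine ⟨fun x => ?_⟩
    exact (IntermediateField.isAlgebraic_iff (x := ⟨x, h3 x⟩)).1 (h2.isAlgebraic ⟨x, h3 x⟩)
  exact Algebra.IsAlgebraic.trans (Algebra.adjoin ℂ (Set.range y)) L (FunField (Ideal.span {F}))

end Pool.Agent.H66.CY
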