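import Mathlib

/-!
# CY FInt: a function which is integral over many polynomial rings is constant (helper13)

PROOF.  `k₀ = ℂ(y_0, …, y_k) ⊆ K`, `K` algebraic over `k₀`. Let `c ∈ k₀` be a coefficient of the minimal polynomial of `u` over `k₀`. For every `m` put `L_m = ℂ(y_l : l ≠ m)`; `A_m = L_m[y_m]` is a polynomial ring over a field (`y_m` is transcendental over
`L_m`), integrally closed, with fraction field `k₀`, so `c ∈ A_m` (`minpoly.isIntegrallyClosed_eq_field_fractions'`). Write `c = a(y) / b(y)` with coprime `a, b ∈ ℂ[Y_0, …, Y_k]` (UFD). `c ∈ A_m` says `q a = g b` with `q ∈ ℂ[Y_l : l ≠ m]`, `q ≠ 0`, `g ∈ ℂ[Y]`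
(common denominator), so `b ∣ q` and `Y_m` does not occur in `b` (`MvPolynomial.degreeOf`). This holds for all `m`, so `b` is a constant and `c = a(y)` with a polynomial `a`. At infinity the family `y' = (1 / y_0, y_1 / y_0, …)` satisfies the same
hypotheses, so `c` is also a polynomial in `y'`; comparison of degrees shows that `c` is constant.
So all coefficients of the minimal polynomial are in `ℂ`, `u` is algebraic over `ℂ`, and `u ∈ ℂ`.
-/

set_option autoImplicit false

noncomputable section

namespace Pool.Agent.H66.CY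

open Polynomial

private theorem FInt_mono {K : Type} [Field K] {A B : Subring K} (h : A ≤ B) {u : K} (hu : IsIntegral A u) :
    IsIntegral B u := by
  obtain ⟨p, hp, hpu⟩ := hu
  refine ⟨p.map (Subring.inclusion h), hp.map _, ?_⟩
  rw [eval₂_map]
  exact hpu

private theorem FInt_coeff {K : Type} [Field K] (A : Subring K) (E : Subfield K) (hAE : A ≤ E.toSubring)
    (hfrac : ∀ x ∈ E, ∃ a ∈ A, ∃ b ∈ A, x = a / b) (hA : IsIntegrallyClosed A) {u : K}
    (hu : IsIntegral A u) (j : ℕ) : ((minpoly E u).coeff j : K) ∈ A := by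
  let f : A →+* E := Subring.inclusion hAE
  let _ : Algebra A E := f.toAlgebra
  have hst : IsScalarTower A E K := IsScalarTower.of_algebraMap_eq (fun _ => rfl)
  have hinj : Function.Injective (algebraMap A E) := Subring.inclusion_injective hAE
  have hfs : FaithfulSMul A E := (faithfulSMul_iff_algebraMap_injective A E).mpr hinj
  have hfr : IsFractionRing A E := by
    refine IsFractionRing.of_field A E fun z => ?_
    obtain ⟨a, ha, b, hb, h⟩ := hfrac z z.2
    exact ⟨⟨a, ha⟩, ⟨b, hb⟩, Subtype.ext h⟩
  have h := minpoly.isIntegrallyClosed_eq_field_fractions' E hu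
  rw [h, coeff_map]
  exact ((minpoly A u).coeff j).2

open scoped IntermediateField.algebraAdjoinAdjoin in
private theorem FInt_trans {K : Type} [Field K] [Algebra ℂ K] {k : ℕ} {y : Fin (k + 1) → K}
    (hy : AlgebraicIndependent ℂ y) (m : Fin (k + 1)) :
    Transcendental (IntermediateField.adjoin ℂ (Set.range fun i : Fin k => y (m.succAbove i))) (y m) := by
  have hset : (Set.range fun i : Fin k => y (m.succAbove i)) = y '' {m}ᶜ := by
    ext x
    constructor
    · rintro ⟨i, rfl⟩
      exact ⟨m.succAbove i, Fin.succAbove_ne m i, rfl⟩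
    · rintro ⟨j, hj, rfl⟩
      obtain ⟨i, rfl⟩ := Fin.exists_succAbove_eq (show j ≠ m from hj)
      exact ⟨i, rfl⟩
  have h := hy.transcendental_adjoin (s := {m}ᶜ) (i := m) (by simp)
  rw [← hset] at h
  intro hal
  exact h ((IsFractionRing.isAlgebraic_iff (Algebra.adjoin ℂ (Set.range fun i : Fin k => y (m.succAbove i)))
    (IntermediateField.adjoin ℂ (Set.range fun i : Fin k => y (m.succAbove i))) K).mpr hal)

private theorem FInt_closed {K : Type} [Field K] [Algebra ℂ K] (L : IntermediateField ℂ K) {t : K}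
    (ht : Transcendental L t) : IsIntegrallyClosed (Algebra.adjoin L {t}).toSubring := by
  have e1 : L[X] ≃ₐ[L] (aeval t : L[X] →ₐ[L] K).range :=
    AlgEquiv.ofInjective _ (transcendental_iff_injective.mp ht)
  have e2 : (aeval t : L[X] →ₐ[L] K).range ≃ₐ[L] Algebra.adjoin L {t} :=
    Subalgebra.equivOfEq _ _ (Algebra.adjoin_singleton_eq_range_aeval L t).symm
  have h : IsIntegrallyClosed (Algebra.adjoin L {t}) := IsIntegrallyClosed.of_equiv (e1.trans e2).toRingEquiv
  exact h

/-- `c` becomes a polynomial in `y` if it is multiplied by a polynomial without `Y_m`. -/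
private def FInt_S {K : Type} [Field K] [Algebra ℂ K] {k : ℕ} (y : Fin (k + 1) → K) (m : Fin (k + 1)) (c : K) : Prop :=
  ∃ (s : MvPolynomial (Fin k) ℂ) (g : MvPolynomial (Fin (k + 1)) ℂ), s ≠ 0 ∧
    MvPolynomial.aeval y (MvPolynomial.rename m.succAbove s) * c = MvPolynomial.aeval y g

private theorem FInt_mem_S {K : Type} [Field K] [Algebra ℂ K] {k : ℕ} {y : Fin (k + 1) → K}
    (hy : AlgebraicIndependent ℂ y) (m : Fin (k + 1)) {c : K} (hc : c ∈ Algebra.adjoin
      (IntermediateField.adjoin ℂ (Set.range fun i : Fin k => y (m.succAbove i))) {y m}) : FInt_S y m c := by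
  have hinj : Function.Injective (MvPolynomial.aeval y : MvPolynomial (Fin (k + 1)) ℂ →ₐ[ℂ] K) := hy
  have hren : Function.Injective (MvPolynomial.rename m.succAbove : MvPolynomial (Fin k) ℂ →ₐ[ℂ] _) :=
    MvPolynomial.rename_injective _ (Fin.succAbove_right_injective)
  induction hc using Algebra.adjoin_induction with
  | mem x hx =>
    rw [Set.mem_singleton_iff] at hx
    subst hx
    exact ⟨1, MvPolynomial.X m, one_ne_zero, by simp⟩
  | algebraMap r =>
    obtain ⟨p, q, hpq⟩ := (IntermediateField.mem_adjoin_range_iff ℂ _ _).mp r.2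
    have hp : MvPolynomial.aeval (fun i : Fin k => y (m.succAbove i)) p =
      MvPolynomial.aeval y (MvPolynomial.rename m.succAbove p) := by
      rw [MvPolynomial.aeval_rename]; rfl
    have hq : MvPolynomial.aeval (fun i : Fin k => y (m.succAbove i)) q =
      MvPolynomial.aeval y (MvPolynomial.rename m.succAbove q) := by
      rw [MvPolynomial.aeval_rename]; rfl
    by_cases hq0 : q = 0
    · subst hq0
      refine ⟨1, 0, one_ne_zero, ?_⟩
      rw [map_zero, div_zero] at hpq
      have : (algebraMap (IntermediateField.adjoin ℂ (Set.range fun i : Fin k => y (m.succAbove i))) K) r = 0 := hpq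
      rw [this, mul_zero, map_zero]
    · refine ⟨q, MvPolynomial.rename m.succAbove p, hq0, ?_⟩
      have h1 : MvPolynomial.aeval y (MvPolynomial.rename m.succAbove q) ≠ 0 := by
        rw [Ne, map_eq_zero_iff _ hinj, map_eq_zero_iff _ hren]
        exact hq0
      have h2 : (algebraMap (IntermediateField.adjoin ℂ (Set.range fun i : Fin k => y (m.succAbove i))) K) r =
        MvPolynomial.aeval y (MvPolynomial.rename m.succAbove p) /
          MvPolynomial.aeval y (MvPolynomial.rename m.succAbove q) := by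
        rw [← hp, ← hq]; exact hpq
      rw [h2, mul_div_cancel₀ _ h1]
  | add a b _ _ ha hb =>
    obtain ⟨s, g, hs, h⟩ := ha
    obtain ⟨s', g', hs', h'⟩ := hb
    refine ⟨s * s', g * MvPolynomial.rename m.succAbove s' + g' * MvPolynomial.rename m.succAbove s,
      mul_ne_zero hs hs', ?_⟩
    rw [map_mul, map_mul, map_add, map_mul, map_mul, ← h, ← h']
    ring
  | mul a b _ _ ha hb =>
    obtain ⟨s, g, hs, h⟩ := ha
    obtain ⟨s', g', hs', h'⟩ := hb
    refine ⟨s * s', g * g', mul_ne_zero hs hs', ?_⟩
    rw [map_mul, map_mul, map_mul, ← h, ← h']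
    ring

private theorem FInt_degreeOf {k : ℕ} (m : Fin (k + 1)) (s : MvPolynomial (Fin k) ℂ) :
    MvPolynomial.degreeOf m (MvPolynomial.rename m.succAbove s) = 0 := by
  classical
  rw [MvPolynomial.degreeOf_def, Multiset.count_eq_zero]
  intro h
  have h1 := MvPolynomial.degrees_rename m.succAbove s h
  rw [Multiset.mem_map] at h1
  obtain ⟨i, _, hi⟩ := h1
  exact Fin.succAbove_ne m i hi

private theorem FInt_const {k : ℕ} (b : MvPolynomial (Fin (k + 1)) ℂ) (h : ∀ m, MvPolynomial.degreeOf m b = 0) :
    b = MvPolynomial.C (MvPolynomial.coeff 0 b) := by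
  classical
  rw [← MvPolynomial.totalDegree_eq_zero_iff_eq_C, MvPolynomial.totalDegree_eq_zero_iff]
  intro μ hμ i
  have h1 := MvPolynomial.monomial_le_degreeOf i hμ
  rw [h i] at h1
  omega

/-- An element which is a polynomial in each `y m` over the field generated by the other ones is a polynomial in `y`. -/
private theorem FInt_inter {K : Type} [Field K] [Algebra ℂ K] {k : ℕ} {y : Fin (k + 1) → K}
    (hy : AlgebraicIndependent ℂ y) {c : K} (hc : c ∈ IntermediateField.adjoin ℂ (Set.range y))
    (h : ∀ m : Fin (k + 1), FInt_S y m c) : ∃ a : MvPolynomial (Fin (k + 1)) ℂ, c = MvPolynomial.aeval y a := by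
  have hinj : Function.Injective (MvPolynomial.aeval y : MvPolynomial (Fin (k + 1)) ℂ →ₐ[ℂ] K) := hy
  obtain ⟨p, q, hpq⟩ := (IntermediateField.mem_adjoin_range_iff ℂ _ _).mp hc
  by_cases hq : q = 0
  · refine ⟨0, ?_⟩
    rw [hpq, hq, map_zero, div_zero]
  obtain ⟨b, a, d, hba, h1, h2⟩ := UniqueFactorizationMonoid.exists_reduced_factors q hq p
  have hd : d ≠ 0 := by
    rintro rfl
    exact hq (by rw [← h1, zero_mul])
  have hb : b ≠ 0 := by
    rintro rfl
    exact hq (by rw [← h1, mul_zero])
  have hd' : MvPolynomial.aeval y d ≠ 0 := by rwa [Ne, map_eq_zero_iff _ hinj]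
  have hb' : MvPolynomial.aeval y b ≠ 0 := by rwa [Ne, map_eq_zero_iff _ hinj]
  have hcab : c = MvPolynomial.aeval y a / MvPolynomial.aeval y b := by
    rw [hpq, ← h1, ← h2, map_mul, map_mul, mul_div_mul_left _ _ hd']
  have hdeg : ∀ m, MvPolynomial.degreeOf m b = 0 := by
    intro m
    obtain ⟨s, g, hs, hsg⟩ := h m
    have hren : MvPolynomial.rename m.succAbove s ≠ 0 := by
      rw [Ne, map_eq_zero_iff _ (MvPolynomial.rename_injective _ (Fin.succAbove_right_injective))]
      exact hs
    have e : MvPolynomial.rename m.succAbove s * a = g * b := by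
      apply hinj
      rw [map_mul, map_mul, ← hsg, hcab]
      field_simp
    have hdvd : b ∣ MvPolynomial.rename m.succAbove s :=
      hba.dvd_of_dvd_mul_right (e ▸ Dvd.intro_left g rfl)
    obtain ⟨r, hr⟩ := hdvd
    have hr0 : r ≠ 0 := by
      rintro rfl
      exact hren (by rw [hr, mul_zero])
    have := FInt_degreeOf m s
    rw [hr, MvPolynomial.degreeOf_mul_eq hb hr0] at this
    omega
  have hbC := FInt_const b hdeg
  set b₀ := MvPolynomial.coeff 0 b with hb₀
  have hb₀0 : b₀ ≠ 0 := by
    intro h0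
    exact hb (by rw [hbC, h0, map_zero])
  refine ⟨MvPolynomial.C b₀⁻¹ * a, ?_⟩
  rw [hcab, hbC, map_mul, MvPolynomial.algHom_C, MvPolynomial.algHom_C, map_inv₀, div_eq_inv_mul]

private theorem FInt_coeffs {K : Type} [Field K] [Algebra ℂ K] {k : ℕ} {y : Fin (k + 1) → K}
    (hy : AlgebraicIndependent ℂ y) {E : Subfield K} (hE : E = (IntermediateField.adjoin ℂ (Set.range y)).toSubfield)
    {u : K} (h : ∀ m : Fin (k + 1), IsIntegral (Algebra.adjoin
      (IntermediateField.adjoin ℂ (Set.range fun i : Fin k => y (m.succAbove i))) {y m}).toSubring u) :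
    IsIntegral E u ∧ ∀ j, ∃ a : MvPolynomial (Fin (k + 1)) ℂ, ((minpoly E u).coeff j : K) = MvPolynomial.aeval y a := by
  have hle : ∀ m : Fin (k + 1), (IntermediateField.adjoin ℂ (Set.range fun i : Fin k => y (m.succAbove i))) ≤
      IntermediateField.adjoin ℂ (Set.range y) := by
    intro m
    refine IntermediateField.adjoin.mono _ _ _ ?_
    rintro x ⟨i, rfl⟩
    exact ⟨m.succAbove i, rfl⟩
  have hAE : ∀ m : Fin (k + 1), (Algebra.adjoin
      (IntermediateField.adjoin ℂ (Set.range fun i : Fin k => y (m.succAbove i))) {y m}).toSubring ≤ E.toSubring := by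
    intro m x hx
    subst hE
    have hx' : x ∈ Algebra.adjoin (IntermediateField.adjoin ℂ (Set.range fun i : Fin k => y (m.succAbove i))) {y m} := hx
    show x ∈ IntermediateField.adjoin ℂ (Set.range y)
    clear hx
    induction hx' using Algebra.adjoin_induction with
    | mem z hz =>
      rw [Set.mem_singleton_iff] at hz
      rw [hz]
      exact IntermediateField.subset_adjoin _ _ ⟨m, rfl⟩
    | algebraMap r => exact hle m r.2
    | add a b _ _ ha hb => exact add_mem ha hb
    | mul a b _ _ ha hb => exact mul_mem ha hb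
  have hymem : ∀ m : Fin (k + 1), ∀ a : MvPolynomial (Fin (k + 1)) ℂ, MvPolynomial.aeval y a ∈ (Algebra.adjoin
      (IntermediateField.adjoin ℂ (Set.range fun i : Fin k => y (m.succAbove i))) {y m}).toSubring := by
    intro m a
    have hgen : ∀ i, y i ∈ (Algebra.adjoin
        (IntermediateField.adjoin ℂ (Set.range fun i : Fin k => y (m.succAbove i))) {y m}) := by
      intro i
      by_cases hi : i = m
      · subst hi
        exact Algebra.subset_adjoin rfl
      · obtain ⟨j, rfl⟩ := Fin.exists_succAbove_eq hi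
        exact Subalgebra.algebraMap_mem _ (⟨y (m.succAbove j), IntermediateField.subset_adjoin _ _ ⟨j, rfl⟩⟩ :
          IntermediateField.adjoin ℂ (Set.range fun i : Fin k => y (m.succAbove i)))
    show MvPolynomial.aeval y a ∈ (Algebra.adjoin
      (IntermediateField.adjoin ℂ (Set.range fun i : Fin k => y (m.succAbove i))) {y m})
    induction a using MvPolynomial.induction_on with
    | C r =>
      rw [MvPolynomial.algHom_C]
      exact Subalgebra.algebraMap_mem _ (algebraMap ℂ
        (IntermediateField.adjoin ℂ (Set.range fun i : Fin k => y (m.succAbove i))) r)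
    | add p q hp hq => rw [map_add]; exact add_mem hp hq
    | mul_X p i hp => rw [map_mul, MvPolynomial.aeval_X]; exact mul_mem hp (hgen i)
  refine ⟨FInt_mono (hAE 0) (h 0), fun j => ?_⟩
  refine FInt_inter hy ?_ fun m => ?_
  · have h1 : ((minpoly E u).coeff j : K) ∈ E := ((minpoly E u).coeff j).2
    have h2 : ∀ z ∈ E, z ∈ IntermediateField.adjoin ℂ (Set.range y) := by
      intro z hz
      rw [hE] at hz
      exact hz
    exact h2 _ h1
  · refine FInt_mem_S hy m ?_
    refine FInt_coeff _ E (hAE m) ?_ (FInt_closed _ (FInt_trans hy m)) (h m) j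
    intro x hx
    rw [hE] at hx
    obtain ⟨p, q, hpq⟩ := (IntermediateField.mem_adjoin_range_iff ℂ _ _).mp hx
    exact ⟨_, hymem m p, _, hymem m q, hpq⟩

/-- The coefficients are polynomials in `y`. -/
theorem integral_all {K : Type} [Field K] [Algebra ℂ K] {k : ℕ} {y : Fin (k + 1) → K} (hy : IsTranscendenceBasis ℂ y)
    {u : K} (h : ∀ m : Fin (k + 1), IsIntegral (Algebra.adjoin
      (IntermediateField.adjoin ℂ (Set.range fun i : Fin k => y (m.succAbove i))) {y m}) u) :
    IsIntegral (Algebra.adjoin ℂ (Set.range y)) u := by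
  obtain ⟨hint, hc⟩ := FInt_coeffs hy.1 (E := (IntermediateField.adjoin ℂ (Set.range y)).toSubfield) rfl (u := u)
    (fun m => h m)
  set P : K[X] := (minpoly (IntermediateField.adjoin ℂ (Set.range y)).toSubfield u).map
    (algebraMap (IntermediateField.adjoin ℂ (Set.range y)).toSubfield K) with hP
  have hPl : P ∈ Polynomial.lifts (algebraMap (Algebra.adjoin ℂ (Set.range y)) K) := by
    rw [Polynomial.lifts_iff_coeff_lifts]
    intro n
    obtain ⟨a, ha⟩ := hc n
    refine ⟨⟨MvPolynomial.aeval y a, ?_⟩, ?_⟩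
    · rw [Algebra.adjoin_range_eq_range_aeval]
      exact ⟨a, rfl⟩
    · rw [hP, coeff_map]
      exact ha.symm
  obtain ⟨q, hq, _, hqm⟩ := Polynomial.lifts_and_degree_eq_and_monic hPl ((minpoly.monic hint).map _)
  refine ⟨q, hqm, ?_⟩
  rw [← eval_map, hq, hP, eval_map]
  exact minpoly.aeval _ u

/-- The family at infinity. -/
private def FInt_inf {E : Type} [Field E] {k : ℕ} (w : Fin (k + 1) → E) : Fin (k + 1) → E :=
  Fin.cons (w 0)⁻¹ (fun i => w i.succ / w 0)

private theorem FInt_hom {k : ℕ} (a : MvPolynomial (Fin (k + 1)) ℂ) :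
    ∃ (e : ℕ) (g : MvPolynomial (Fin (k + 1)) ℂ), g.totalDegree ≤ e ∧
      ∀ (E : Type) [Field E] [Algebra ℂ E] (w : Fin (k + 1) → E), w 0 ≠ 0 →
        MvPolynomial.aeval (FInt_inf w) a * w 0 ^ e = MvPolynomial.aeval w g := by
  induction a using MvPolynomial.induction_on with
  | C r =>
    refine ⟨0, MvPolynomial.C r, by rw [MvPolynomial.totalDegree_C], ?_⟩
    intro E _ _ w _
    rw [MvPolynomial.algHom_C, MvPolynomial.algHom_C, pow_zero, mul_one]
  | add p q hp hq =>
    obtain ⟨e, g, hg, h⟩ := hp
    obtain ⟨e', g', hg', h'⟩ := hq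
    refine ⟨e + e', g * MvPolynomial.X 0 ^ e' + g' * MvPolynomial.X 0 ^ e, ?_, ?_⟩
    · refine (MvPolynomial.totalDegree_add _ _).trans (max_le ?_ ?_)
      · refine (MvPolynomial.totalDegree_mul _ _).trans ?_
        rw [MvPolynomial.totalDegree_X_pow]
        omega
      · refine (MvPolynomial.totalDegree_mul _ _).trans ?_
        rw [MvPolynomial.totalDegree_X_pow]
        omega
    · intro E _ _ w hw
      rw [map_add, map_add, map_mul, map_mul, map_pow, map_pow, MvPolynomial.aeval_X, ← h E w hw, ← h' E w hw]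
      ring
  | mul_X p i hp =>
    obtain ⟨e, g, hg, h⟩ := hp
    refine Fin.cases ?_ (fun i => ?_) i
    · refine ⟨e + 1, g, by omega, ?_⟩
      intro E _ _ w hw
      have h1 : FInt_inf w 0 * w 0 = 1 := by rw [FInt_inf, Fin.cons_zero, inv_mul_cancel₀ hw]
      rw [map_mul, MvPolynomial.aeval_X, ← h E w hw, pow_succ]
      linear_combination (MvPolynomial.aeval (FInt_inf w) p * w 0 ^ e) * h1
    · refine ⟨e + 1, g * MvPolynomial.X i.succ, ?_, ?_⟩
      · refine (MvPolynomial.totalDegree_mul _ _).trans ?_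
        rw [MvPolynomial.totalDegree_X]
        omega
      · intro E _ _ w hw
        have h1 : FInt_inf w i.succ * w 0 = w i.succ := by
          simp only [FInt_inf, Fin.cons_succ]
          rw [div_mul_cancel₀ _ hw]
        rw [map_mul, map_mul, MvPolynomial.aeval_X, MvPolynomial.aeval_X, ← h E w hw, pow_succ]
        linear_combination (MvPolynomial.aeval (FInt_inf w) p * w 0 ^ e) * h1

private theorem FInt_inf_indep {K : Type} [Field K] [Algebra ℂ K] {k : ℕ} {y : Fin (k + 1) → K}
    (hy : AlgebraicIndependent ℂ y) : AlgebraicIndependent ℂ (FInt_inf y) := by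
  have hinj : Function.Injective (MvPolynomial.aeval y : MvPolynomial (Fin (k + 1)) ℂ →ₐ[ℂ] K) := hy
  have hy0 : y 0 ≠ 0 := hy.ne_zero 0
  rw [algebraicIndependent_iff]
  intro p hp
  obtain ⟨e, g, hg, h⟩ := FInt_hom p
  have h1 := h K y hy0
  rw [hp, zero_mul] at h1
  have hg0 : g = 0 := by
    rw [← map_eq_zero_iff _ hinj, ← h1]
  have h2 : p * MvPolynomial.X 0 = 0 := by
    refine MvPolynomial.funext fun z => ?_
    rw [map_mul, MvPolynomial.eval_X, map_zero]
    by_cases hz : z 0 = 0
    · rw [hz, mul_zero]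
    · have h3 := h ℂ (FInt_inf z) (by rw [FInt_inf, Fin.cons_zero]; exact inv_ne_zero hz)
      have hzz : FInt_inf (FInt_inf z) = z := by
        funext i
        refine Fin.cases ?_ (fun i => ?_) i
        · simp [FInt_inf]
        · simp only [FInt_inf, Fin.cons_succ, Fin.cons_zero]
          field_simp
      rw [hzz, hg0, map_zero, mul_eq_zero] at h3
      rcases h3 with h3 | h3
      · rw [MvPolynomial.aeval_def, MvPolynomial.eval₂_eq_eval_map] at h3
        rw [Algebra.algebraMap_self, MvPolynomial.map_id] at h3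
        rw [h3, zero_mul]
      · exact absurd h3 (pow_ne_zero _ (by rw [FInt_inf, Fin.cons_zero]; exact inv_ne_zero hz))
  exact (mul_eq_zero.mp h2).resolve_right (MvPolynomial.X_ne_zero 0)

private theorem FInt_field {K : Type} [Field K] [Algebra ℂ K] {k : ℕ} {y : Fin (k + 1) → K} (hy0 : y 0 ≠ 0)
    (S : Set (Fin (k + 1))) (hS : 0 ∈ S) :
    IntermediateField.adjoin ℂ (FInt_inf y '' S) = IntermediateField.adjoin ℂ (y '' S) := by
  apply le_antisymm
  · rw [IntermediateField.adjoin_le_iff]
    have h0 : y 0 ∈ IntermediateField.adjoin ℂ (y '' S) := IntermediateField.subset_adjoin _ _ ⟨0, hS, rfl⟩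
    rintro x ⟨i, hi, rfl⟩
    revert hi
    refine Fin.cases ?_ (fun i => ?_) i
    · intro _
      rw [FInt_inf, Fin.cons_zero]
      exact inv_mem h0
    · intro hi
      simp only [FInt_inf, Fin.cons_succ]
      exact div_mem (IntermediateField.subset_adjoin _ _ ⟨i.succ, hi, rfl⟩) h0
  · rw [IntermediateField.adjoin_le_iff]
    have h0 : y 0 ∈ IntermediateField.adjoin ℂ (FInt_inf y '' S) := by
      have h1 : (y 0)⁻¹ ∈ IntermediateField.adjoin ℂ (FInt_inf y '' S) :=
        IntermediateField.subset_adjoin _ _ ⟨0, hS, by rw [FInt_inf, Fin.cons_zero]⟩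
      rw [← inv_inv (y 0)]
      exact inv_mem h1
    rintro x ⟨i, hi, rfl⟩
    revert hi
    refine Fin.cases ?_ (fun i => ?_) i
    · intro _
      exact h0
    · intro hi
      have h1 : y i.succ / y 0 ∈ IntermediateField.adjoin ℂ (FInt_inf y '' S) :=
        IntermediateField.subset_adjoin _ _ ⟨i.succ, hi, by simp only [FInt_inf, Fin.cons_succ]⟩
      have h2 := mul_mem h1 h0
      rwa [div_mul_cancel₀ _ hy0] at h2

theorem const_of_integral {K : Type} [Field K] [Algebra ℂ K] {k : ℕ} {y : Fin (k + 1) → K}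
    (hy : IsTranscendenceBasis ℂ y) {u : K} (h : ∀ m : Fin (k + 1), IsIntegral (Algebra.adjoin
      (IntermediateField.adjoin ℂ (Set.range fun i : Fin k => y (m.succAbove i))) {y m}) u)
    (hinf : IsIntegral (Algebra.adjoin
      (IntermediateField.adjoin ℂ (Set.range fun i : Fin k => y i.succ / y 0)) {(y 0)⁻¹}) u) :
    ∃ c : ℂ, u = algebraMap ℂ K c := by
  have hinj : Function.Injective (MvPolynomial.aeval y : MvPolynomial (Fin (k + 1)) ℂ →ₐ[ℂ] K) := hy.1
  have hy0 : y 0 ≠ 0 := hy.1.ne_zero 0
  obtain ⟨hint, hc⟩ := FInt_coeffs hy.1 (E := (IntermediateField.adjoin ℂ (Set.range y)).toSubfield) rfl (u := u)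
    (fun m => h m)
  have hrange : ∀ (w : Fin (k + 1) → K) (m : Fin (k + 1)),
      (Set.range fun i : Fin k => w (m.succAbove i)) = w '' {m}ᶜ := by
    intro w m
    ext x
    constructor
    · rintro ⟨i, rfl⟩
      exact ⟨m.succAbove i, Fin.succAbove_ne m i, rfl⟩
    · rintro ⟨j, hj, rfl⟩
      obtain ⟨i, rfl⟩ := Fin.exists_succAbove_eq (show j ≠ m from hj)
      exact ⟨i, rfl⟩
  have hE : (IntermediateField.adjoin ℂ (Set.range y)).toSubfield =
      (IntermediateField.adjoin ℂ (Set.range (FInt_inf y))).toSubfield := by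
    have := FInt_field hy0 Set.univ (Set.mem_univ 0)
    rw [Set.image_univ, Set.image_univ] at this
    rw [this]
  obtain ⟨_, hc'⟩ := FInt_coeffs (FInt_inf_indep hy.1) hE (u := u) (by
    intro m
    by_cases hm : m = 0
    · subst hm
      have e1 : (fun i : Fin k => FInt_inf y ((0 : Fin (k + 1)).succAbove i)) = fun i => y i.succ / y 0 := by
        funext i
        rw [Fin.zero_succAbove]
        simp only [FInt_inf, Fin.cons_succ]
      have e2 : FInt_inf y 0 = (y 0)⁻¹ := by rw [FInt_inf, Fin.cons_zero]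
      rw [e1, e2]
      exact hinf
    · have hL : IntermediateField.adjoin ℂ (Set.range fun i : Fin k => FInt_inf y (m.succAbove i)) =
          IntermediateField.adjoin ℂ (Set.range fun i : Fin k => y (m.succAbove i)) := by
        rw [hrange, hrange]
        exact FInt_field hy0 _ (fun h0 => hm (Set.mem_singleton_iff.mp h0).symm)
      refine FInt_mono (A := (Algebra.adjoin
        (IntermediateField.adjoin ℂ (Set.range fun i : Fin k => y (m.succAbove i))) {y m}).toSubring) ?_ (h m)
      rw [hL]
      intro x hx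
      have hx' : x ∈ Algebra.adjoin (IntermediateField.adjoin ℂ (Set.range fun i : Fin k => y (m.succAbove i))) {y m} := hx
      show x ∈ Algebra.adjoin (IntermediateField.adjoin ℂ (Set.range fun i : Fin k => y (m.succAbove i))) {FInt_inf y m}
      clear hx
      induction hx' using Algebra.adjoin_induction with
      | mem z hz =>
        rw [Set.mem_singleton_iff] at hz
        obtain ⟨j, rfl⟩ := Fin.exists_succ_eq.mpr hm
        have h0 : y 0 ∈ IntermediateField.adjoin ℂ (Set.range fun i : Fin k => y (j.succ.succAbove i)) := by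
          rw [hrange]
          exact IntermediateField.subset_adjoin _ _ ⟨0, fun h0 => hm (Set.mem_singleton_iff.mp h0).symm, rfl⟩
        have h1 : z = (algebraMap (IntermediateField.adjoin ℂ (Set.range fun i : Fin k => y (j.succ.succAbove i))) K
            ⟨y 0, h0⟩) * FInt_inf y j.succ := by
          rw [hz]
          simp only [FInt_inf, Fin.cons_succ]
          show y j.succ = y 0 * (y j.succ / y 0)
          field_simp
        rw [h1]
        exact mul_mem (Subalgebra.algebraMap_mem _ _) (Algebra.subset_adjoin rfl)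
      | algebraMap r => exact Subalgebra.algebraMap_mem _ r
      | add a b _ _ ha hb => exact add_mem ha hb
      | mul a b _ _ ha hb => exact mul_mem ha hb)
  have hconst : ∀ j, ∃ c : ℂ, ((minpoly (IntermediateField.adjoin ℂ (Set.range y)).toSubfield u).coeff j : K) =
      algebraMap ℂ K c := by
    intro j
    obtain ⟨a, ha⟩ := hc j
    obtain ⟨a', ha'⟩ := hc' j
    obtain ⟨e, g, hg, hh⟩ := FInt_hom a'
    have h1 := hh K y hy0
    rw [← ha', ha] at h1
    have h2 : a * MvPolynomial.X 0 ^ e = g := by
      apply hinj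
      rw [map_mul, map_pow, MvPolynomial.aeval_X, h1]
    by_cases ha0 : a = 0
    · exact ⟨0, by rw [ha, ha0, map_zero, map_zero]⟩
    · have h3 := congrArg MvPolynomial.totalDegree h2
      rw [MvPolynomial.totalDegree_mul_of_isDomain ha0 (pow_ne_zero _ (MvPolynomial.X_ne_zero 0)),
        MvPolynomial.totalDegree_X_pow] at h3
      have h4 : a.totalDegree = 0 := by omega
      rw [MvPolynomial.totalDegree_eq_zero_iff_eq_C] at h4
      exact ⟨MvPolynomial.coeff 0 a, by rw [ha, h4, MvPolynomial.algHom_C, ← h4]⟩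
  set P : K[X] := (minpoly (IntermediateField.adjoin ℂ (Set.range y)).toSubfield u).map
    (algebraMap (IntermediateField.adjoin ℂ (Set.range y)).toSubfield K) with hP
  have hPl : P ∈ Polynomial.lifts (algebraMap ℂ K) := by
    rw [Polynomial.lifts_iff_coeff_lifts]
    intro n
    obtain ⟨c, hc⟩ := hconst n
    exact ⟨c, by rw [hP, coeff_map]; exact hc.symm⟩
  obtain ⟨q, hq, _, hqm⟩ := Polynomial.lifts_and_degree_eq_and_monic hPl ((minpoly.monic hint).map _)
  have hu : IsIntegral ℂ u := by
    refine ⟨q, hqm, ?_⟩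
    rw [← eval_map, hq, hP, eval_map]
    exact minpoly.aeval _ u
  obtain ⟨c, hc⟩ := minpoly.mem_range_of_degree_eq_one ℂ u (IsAlgClosed.degree_eq_one_of_irreducible ℂ
    (minpoly.irreducible hu))
  exact ⟨c, hc.symm⟩

end Pool.Agent.H66.CY
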