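import Pool.Agent.H66.CY.FOrd
import Pool.Agent.H66.CY.FInt
import Pool.Agent.H66.CY.FForm
import Pool.Agent.H66.CY.FPoly
import Pool.Agent.H66.CY.FHyp
import Pool.Agent.H62.FC.Special

/-!
# CY FNGT: hypersurfaces of degree at most `n + 2` in `ℙ^(n+1)` are not of general type (helper13)

* `integral_of_regular`: suppose `u` is not integral over `L[t]`, `L = ℂ(s)`. `x i = ⟨s i, _⟩ : L` are algebraically independent over `ℂ`, `t` is transcendental over `L` (`hb`), `K = L(t, r last)` (`htop`, `hr`). `exists_poly` gives `f` with `ev2 f = 0`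
  and `ev2 f' = c⁻¹ a`, `a = ∂F/∂x_last (r) ≠ 0`. `exists_pole` gives `E, p, e` with `E.ord u < 0`, `E.ord a = E.ord (ev2 f') ≥ e - 1` (`E.ord` of constants is 0). So `E.ord a⁻¹ + (e-1) ≤ 0` and `ord_nonneg_of_regular` gives `0 ≤ E.ord u`.
* `const_of_regular`: `n = k + 1`, `y i = x_(i+1)/x_0`, `a = ∂F/∂x_last (x/x_0)`. Suppose `U (dy)^m` is regular along all `E` (`PoleAtMost 0 E m U (Form.mk 1 y)`), and let `u = U a ^ m`. For `j : Fin (k+1)`: by `mk_succAbove` and `poleAtMost_smul`
  `U ε^m (dy')^m` is regular, `dy'` = the form of `Fin.cons (y j) (y ∘ succAbove j)`, so `U ε^m a^m (a⁻¹ dy')^m` is regular and `integral_of_regular` with `r i = ratio i 0`, index `m = j.succ.castSucc` (`r 0 = 1`) gives: `± u` is integral over `L_j[y_j]`.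
  At infinity: `r i = ratio i 1 = y_i' / y_0`, `t = 1/y_0 = ratio 0 1`, index `0`; `mk_chart`: `U (-(y_0)^(k+2))^m (dy')^m` is regular; `a' = ∂F/∂x_last (x/x_1) = a / y_0 ^ (d-1)` (`hyp_deriv_chart`), so `U (-(y_0)^(k+2))^m a'^m = ± u y_0 ^ ((k+3-d) m)` is integral over
  `L_∞[1/y_0]`, and then `u` is too (multiply with a power of `1/y_0`). `const_of_integral`.
* `not_isGeneralType`: let `m, ω, f_i` be as in the definition. `ω = g • dy` (one-dimensional: `Pool.Agent.H23.eq_fc_smul` with the basis of `exists_basis_kaehler`), `g ≠ 0`, so `f_i g^m (dy)^m` is regular and `f_i g^m a^m ∈ ℂ` for all `i`. So all `f_i / f_0 ∈ ℂ`,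
  `IntermediateField.adjoin ℂ _ = ⊥` and `K` is algebraic over `ℂ`; but `y_0` is transcendental.
-/

set_option autoImplicit false

noncomputable section

namespace Pool.Agent.H66.CY

open Pool.Agent.H23.Fano (PrimeDivisorOver Form)
open Pool.Agent.H17LG.Variety (PoleAtMost FunField ratio)

private lemma transc_of_basis {K : Type} [Field K] [Algebra ℂ K] {k : ℕ} {s : Fin k → K} {t : K}
    (hb : AlgebraicIndependent ℂ (Fin.cons t s : Fin (k + 1) → K)) :
    Transcendental (IntermediateField.adjoin ℂ (Set.range s)) t := by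
  rw [IntermediateField.transcendental_adjoin_iff]
  have h1 := hb.transcendental_adjoin (s := Set.range Fin.succ) (i := 0)
    (by rintro ⟨j, hj⟩; exact Fin.succ_ne_zero j hj)
  have h2 : ((Fin.cons t s : Fin (k + 1) → K) '' Set.range Fin.succ) = Set.range s := by
    ext z
    constructor
    · rintro ⟨_, ⟨j, rfl⟩, rfl⟩
      exact ⟨j, (Fin.cons_succ (α := fun _ => K) t s j).symm⟩
    · rintro ⟨j, rfl⟩
      exact ⟨_, ⟨j, rfl⟩, Fin.cons_succ (α := fun _ => K) t s j⟩
  rw [h2, Fin.cons_zero] at h1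
  exact h1

private lemma top_lemma {K : Type} [Field K] [Algebra ℂ K] {k N : ℕ} {s : Fin k → K} {t : K} {m : Fin (N + 1)}
    {r : Fin (N + 1) → K} (hrm : r m = t)
    (hr : ∀ i, i ≠ m → i ≠ Fin.last N → r i ∈ IntermediateField.adjoin ℂ (Set.range s))
    (htop : IntermediateField.adjoin ℂ (Set.range r) = ⊤) :
    IntermediateField.adjoin (IntermediateField.adjoin ℂ (Set.range s)) {t, r (Fin.last N)} = ⊤ := by
  generalize hL : IntermediateField.adjoin ℂ (Set.range s) = L at hr ⊢
  obtain ⟨M, hM⟩ : ∃ M : Subfield K, ∀ y, y ∈ M ↔ y ∈ IntermediateField.adjoin L {t, r (Fin.last N)} :=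
    ⟨(IntermediateField.adjoin L {t, r (Fin.last N)}).toSubfield, fun y => Iff.rfl⟩
  have hLM : ∀ l : L, (l : K) ∈ M := fun l => (hM _).mpr (IntermediateField.algebraMap_mem _ l)
  have htM : t ∈ M := (hM _).mpr (IntermediateField.subset_adjoin _ _ (Or.inl rfl))
  have hrM : r (Fin.last N) ∈ M := (hM _).mpr (IntermediateField.subset_adjoin _ _ (Or.inr rfl))
  have h1 : IntermediateField.adjoin ℂ (Set.range r) ≤
      M.toIntermediateField (K := ℂ) (fun c => hLM (algebraMap ℂ L c)) := by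
    rw [IntermediateField.adjoin_le_iff]
    rintro _ ⟨i, rfl⟩
    by_cases h1 : i = m
    · subst h1
      rw [hrm]; exact htM
    by_cases h2 : i = Fin.last N
    · subst h2
      exact hrM
    · exact hLM ⟨r i, hr i h1 h2⟩
  rw [htop] at h1
  rw [eq_top_iff]
  intro y _
  exact (hM y).mp (h1 (IntermediateField.mem_top (x := y)))

private lemma alg_id {K : Type} [Field K] (U a' y : K) (hy : y ≠ 0) (m p q n : ℕ) (hn : n = p + q) :
    U * (a' * y ^ p) ^ m = (-1) ^ m * (U * (-y ^ n) ^ m * a' ^ m) * (y⁻¹ ^ q) ^ m := by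
  subst hn
  have h4 : ((-1 : K) ^ m) * (-1) ^ m = 1 := by
    rw [← mul_pow]; norm_num
  have h5 : (y ^ q) ^ m * ((y ^ q)⁻¹) ^ m = 1 := by
    rw [← mul_pow, mul_inv_cancel₀ (pow_ne_zero _ hy), one_pow]
  rw [pow_add, neg_pow (y ^ p * y ^ q), inv_pow]
  calc U * (a' * y ^ p) ^ m
      = (((-1 : K) ^ m) * (-1) ^ m) * ((y ^ q) ^ m * ((y ^ q)⁻¹) ^ m) * (U * (a' * y ^ p) ^ m) := by
        rw [h4, h5]; ring
    _ = _ := by rw [mul_pow, mul_pow]; ring

theorem integral_of_regular {K : Type} [Field K] [Algebra ℂ K] [Algebra.EssFiniteType ℂ K] {k N : ℕ}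
    {s : Fin k → K} {t : K} (hb : IsTranscendenceBasis ℂ (Fin.cons t s : Fin (k + 1) → K))
    {F : MvPolynomial (Fin (N + 1)) ℂ} {d : ℕ} (hF : F.IsHomogeneous d)
    (hc : F.coeff (Finsupp.single (Fin.last N) d) ≠ 0) {m : Fin (N + 1)} (hm : m ≠ Fin.last N)
    {r : Fin (N + 1) → K} (hrm : r m = t)
    (hr : ∀ i, i ≠ m → i ≠ Fin.last N → r i ∈ IntermediateField.adjoin ℂ (Set.range s))
    (htop : IntermediateField.adjoin ℂ (Set.range r) = ⊤) (h0 : MvPolynomial.aeval r F = 0)
    (ha : MvPolynomial.aeval r (MvPolynomial.pderiv (Fin.last N) F) ≠ 0) {μ : ℕ} {u : K}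
    (h : ∀ E : PrimeDivisorOver K (k + 1), PoleAtMost 0 E μ u
      ((MvPolynomial.aeval r (MvPolynomial.pderiv (Fin.last N) F))⁻¹ •
        Form.mk 1 (Fin.cons t s : Fin (k + 1) → K))) :
    IsIntegral (Algebra.adjoin (IntermediateField.adjoin ℂ (Set.range s)) {t}) u := by
  classical
  by_contra hu
  set a := MvPolynomial.aeval r (MvPolynomial.pderiv (Fin.last N) F) with ha'
  obtain ⟨f, hfm, hf0, hf1⟩ := exists_poly (IntermediateField.adjoin ℂ (Set.range s)) hF hc hm r hr
  rw [h0, mul_zero, hrm] at hf0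
  rw [hrm] at hf1
  have hsind : AlgebraicIndependent ℂ s := by
    have h1 := hb.1.comp Fin.succ (Fin.succ_injective k)
    have h2 : (Fin.cons t s : Fin (k + 1) → K) ∘ Fin.succ = s := by
      funext i
      rw [Function.comp_apply, Fin.cons_succ]
    rwa [h2] at h1
  let x : Fin k → IntermediateField.adjoin ℂ (Set.range s) :=
    fun i => ⟨s i, IntermediateField.subset_adjoin _ _ ⟨i, rfl⟩⟩
  have hx : AlgebraicIndependent ℂ x :=
    AlgebraicIndependent.of_comp (IntermediateField.adjoin ℂ (Set.range s)).val hsind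
  have ht : Transcendental (IntermediateField.adjoin ℂ (Set.range s)) t := transc_of_basis hb.1
  have htop' := top_lemma hrm hr htop
  obtain ⟨E, p, e, he1, hEL, hEt, hEp, hEp', hEd, hEu⟩ := exists_pole _ hx ht htop' hfm hf0 hu
  refine absurd (ord_nonneg_of_regular hb rfl E hEL he1 hEp hEp' (inv_ne_zero ha) ?_ (h E)) (not_le.mpr hEu)
  have hcc : E.ord ((algebraMap ℂ K (F.coeff (Finsupp.single (Fin.last N) d)))⁻¹) = 0 := by
    have h3 : (algebraMap ℂ K (F.coeff (Finsupp.single (Fin.last N) d)))⁻¹ =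
        ((algebraMap ℂ (IntermediateField.adjoin ℂ (Set.range s))
          (F.coeff (Finsupp.single (Fin.last N) d))⁻¹ : IntermediateField.adjoin ℂ (Set.range s)) : K) := by
      rw [← map_inv₀]
      rfl
    rw [h3]
    apply hEL
    rw [Ne, map_eq_zero]
    exact inv_ne_zero hc
  rw [hf1, E.ord.map_mul, hcc, zero_add] at hEd
  have h4 : E.ord a⁻¹ + E.ord a = 0 := by
    rw [← E.ord.map_mul, inv_mul_cancel₀ ha, E.ord.map_one]
  calc E.ord a⁻¹ + (((e : ℤ) - 1 : ℤ) : WithTop ℤ) ≤ E.ord a⁻¹ + E.ord a := by gcongr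
    _ = 0 := h4

variable {k d : ℕ} {F : MvPolynomial (Fin (k + 3)) ℂ}

/-- `n + 1` elements which generate the field of a transcendence basis are a transcendence basis. -/
private lemma basis_of_adjoin_eq {K : Type} [Field K] [Algebra ℂ K] {k : ℕ} {y y' : Fin k → K}
    (hy : IsTranscendenceBasis ℂ y)
    (h : IntermediateField.adjoin ℂ (Set.range y') = IntermediateField.adjoin ℂ (Set.range y)) :
    IsTranscendenceBasis ℂ y' := by
  have h1 : Algebra.IsAlgebraic (IntermediateField.adjoin ℂ (Set.range y)) K := hy.isAlgebraic_field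
  rw [← h, IntermediateField.isAlgebraic_adjoin_iff_top] at h1
  apply Algebra.IsAlgebraic.isTranscendenceBasis_of_le_trdeg_of_finite
  rw [← hy.cardinalMk_eq_trdeg]

private lemma isIntegral_mul_left {K A : Type} [Field K] [CommRing A] [Algebra A K] {u v w : K} (hu : IsIntegral A u)
    (hv : IsIntegral A v) (h : w = u * v) : IsIntegral A w := by
  rw [h]; exact hu.mul hv

theorem const_of_regular [(Ideal.span {F}).IsPrime] (hF : F.IsHomogeneous d)
    (hc : F.coeff (Finsupp.single (Fin.last (k + 2)) d) ≠ 0) (hd : d ≤ k + 3) {m : ℕ}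
    {U : FunField (Ideal.span {F})}
    (h : ∀ E : PrimeDivisorOver (FunField (Ideal.span {F})) (k + 1), PoleAtMost 0 E m U
      (Form.mk 1 (fun i : Fin (k + 1) => ratio (Ideal.span {F}) i.succ.castSucc 0))) :
    ∃ c : ℂ, U * (MvPolynomial.aeval (fun i => ratio (Ideal.span {F}) i 0)
      (MvPolynomial.pderiv (Fin.last (k + 2)) F)) ^ m = algebraMap ℂ _ c := by
  classical
  have hd1 : 1 ≤ d := hyp_degree hF hc
  have h00 : Pool.Agent.H17GT.coordFun (Ideal.span {F}) 0 ≠ 0 :=
    hyp_coord hF hc (by rw [Ne, Fin.ext_iff]; simp)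
  have h01 : Pool.Agent.H17GT.coordFun (Ideal.span {F}) 1 ≠ 0 :=
    hyp_coord hF hc (by rw [Ne, Fin.ext_iff]; simp)
  have hy := hyp_basis hF hc
  set P := Ideal.span {F} with hP
  set y : Fin (k + 1) → FunField P := fun i => ratio P i.succ.castSucc 0 with hyd
  set a := MvPolynomial.aeval (fun i => ratio P i 0) (MvPolynomial.pderiv (Fin.last (k + 2)) F) with ha
  have hy0 : y 0 ≠ 0 := ratio_ne h01 h00
  have ha0 : a ≠ 0 := hyp_deriv_ne hF hc h00
  have h00' : ratio P 0 0 = 1 := ratio_self h00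
  -- indices
  have hidx : ∀ i : Fin (k + 3), i = 0 ∨ i = Fin.last (k + 2) ∨ ∃ l : Fin (k + 1), i = l.succ.castSucc := by
    intro i
    by_cases h1 : i = 0
    · exact Or.inl h1
    by_cases h2 : i = Fin.last (k + 2)
    · exact Or.inr (Or.inl h2)
    · right; right
      have h3 : i.val ≠ 0 := fun h => h1 (Fin.ext h)
      have h4 : i.val ≠ k + 2 := fun h => h2 (Fin.ext h)
      refine ⟨⟨i.val - 1, by omega⟩, Fin.ext ?_⟩
      simp only [Fin.val_castSucc, Fin.val_succ]
      omega
  refine const_of_integral hy (u := U * a ^ m) ?_ ?_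
  · intro j
    obtain ⟨ε, hε, hmk⟩ := mk_succAbove y j
    have hbj : IsTranscendenceBasis ℂ (Fin.cons (y j) (fun i : Fin k => y (j.succAbove i)) : Fin (k + 1) → FunField P) := by
      apply basis_of_adjoin_eq hy
      congr 1
      ext z
      constructor
      · rintro ⟨i, rfl⟩
        refine Fin.cases ?_ (fun i => ?_) i
        · exact ⟨j, by rw [Fin.cons_zero]⟩
        · exact ⟨j.succAbove i, by rw [Fin.cons_succ]⟩
      · rintro ⟨i, rfl⟩
        by_cases hij : i = j
        · exact ⟨0, by rw [Fin.cons_zero, hij]⟩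
        · obtain ⟨i', rfl⟩ := Fin.exists_succAbove_eq hij
          exact ⟨i'.succ, by rw [Fin.cons_succ]⟩
    have h1 := integral_of_regular (u := U * ε ^ m * a ^ m) (μ := m) hbj hF hc (m := j.succ.castSucc)
      (by rw [Ne, Fin.ext_iff]; simp; omega) (r := fun i => ratio P i 0) rfl ?_ (hyp_top P h00)
      (hyp_zero hF 0 h00) ha0 ?_
    · rcases hε with rfl | rfl
      · rwa [one_pow, mul_one] at h1
      · rcases neg_one_pow_eq_or (FunField P) m with h2 | h2
        · rwa [h2, mul_one] at h1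
        · rw [h2] at h1
          have h3 := h1.neg
          have h4 : -(U * -1 * a ^ m) = U * a ^ m := by ring
          rwa [h4] at h3
    · intro i hi1 hi2
      rcases hidx i with rfl | rfl | ⟨l, rfl⟩
      · change ratio P 0 0 ∈ _
        rw [h00']; exact IntermediateField.one_mem _
      · exact absurd rfl hi2
      · have hlj : l ≠ j := fun h => hi1 (by rw [h])
        obtain ⟨l', rfl⟩ := Fin.exists_succAbove_eq hlj
        exact IntermediateField.subset_adjoin _ _ ⟨l', rfl⟩
    · intro E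
      rw [poleAtMost_smul (inv_ne_zero ha0)]
      have h2 := h E
      rw [hmk, poleAtMost_smul (by rcases hε with rfl | rfl <;> simp)] at h2
      have h3 : U * ε ^ m * a ^ m * a⁻¹ ^ m = U * ε ^ m := by
        rw [inv_pow, mul_assoc, mul_inv_cancel₀ (pow_ne_zero _ ha0), mul_one]
      rwa [h3]
  · -- the chart at infinity
    set a' := MvPolynomial.aeval (fun i => ratio P i 1) (MvPolynomial.pderiv (Fin.last (k + 2)) F) with ha'
    have ha'0 : a' ≠ 0 := hyp_deriv_ne hF hc h01
    have haa : a' * (y 0) ^ (d - 1) = a := hyp_deriv_chart hF h00 h01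
    have hr1 : ∀ i, ratio P i 1 = ratio P i 0 / y 0 := fun i => ratio_div h00 i
    have hb' : IsTranscendenceBasis ℂ (Fin.cons (y 0)⁻¹ (fun i : Fin k => y i.succ / y 0) : Fin (k + 1) → FunField P) := by
      apply basis_of_adjoin_eq hy
      apply le_antisymm
      · rw [IntermediateField.adjoin_le_iff]
        rintro _ ⟨i, rfl⟩
        have hmem : ∀ i, y i ∈ IntermediateField.adjoin ℂ (Set.range y) := fun i =>
          IntermediateField.subset_adjoin _ _ ⟨i, rfl⟩
        refine Fin.cases ?_ (fun i => ?_) i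
        · rw [Fin.cons_zero]; exact IntermediateField.inv_mem _ (hmem 0)
        · rw [Fin.cons_succ]; exact IntermediateField.div_mem _ (hmem _) (hmem 0)
      · rw [IntermediateField.adjoin_le_iff]
        rintro _ ⟨i, rfl⟩
        set L' := IntermediateField.adjoin ℂ (Set.range
          (Fin.cons (y 0)⁻¹ (fun i : Fin k => y i.succ / y 0) : Fin (k + 1) → FunField P)) with hL'
        have hm0 : y 0 ∈ L' := by
          have h1 : (y 0)⁻¹ ∈ L' := IntermediateField.subset_adjoin _ _ ⟨0, by rw [Fin.cons_zero]⟩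
          have h2 := L'.inv_mem h1
          rwa [inv_inv] at h2
        refine Fin.cases hm0 (fun i => ?_) i
        have h1 : y i.succ / y 0 ∈ L' := IntermediateField.subset_adjoin _ _ ⟨i.succ, by rw [Fin.cons_succ]⟩
        have h2 := L'.mul_mem h1 hm0
        rwa [div_mul_cancel₀ _ hy0] at h2
    have h1 := integral_of_regular (u := U * (-(y 0) ^ (k + 2)) ^ m * a' ^ m) (μ := m) hb' hF hc (m := 0)
      (by rw [Ne, Fin.ext_iff]; simp) (r := fun i => ratio P i 1) ?_ ?_ (hyp_top P h01)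
      (hyp_zero hF 1 h01) ha'0 ?_
    · obtain ⟨q, hq⟩ : ∃ q, k + 2 = d - 1 + q := ⟨k + 3 - d, by omega⟩
      have hinv : IsIntegral (Algebra.adjoin
          (IntermediateField.adjoin ℂ (Set.range fun i : Fin k => y i.succ / y 0)) {(y 0)⁻¹}) ((y 0)⁻¹) :=
        isIntegral_algebraMap (x := (⟨(y 0)⁻¹, Algebra.self_mem_adjoin_singleton _ _⟩ : Algebra.adjoin
          (IntermediateField.adjoin ℂ (Set.range fun i : Fin k => y i.succ / y 0)) {(y 0)⁻¹}))
      have h3 : U * a ^ m = (-1) ^ m * (U * (-(y 0) ^ (k + 2)) ^ m * a' ^ m) * ((y 0)⁻¹ ^ q) ^ m := by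
        rw [← haa]
        exact alg_id U a' (y 0) hy0 m (d - 1) q (k + 2) hq
      rw [h3]
      refine IsIntegral.mul (IsIntegral.mul ?_ h1) ((hinv.pow q).pow m)
      exact (isIntegral_one.neg).pow m
    · change ratio P 0 1 = _
      rw [hr1, h00', one_div]
    · intro i hi1 hi2
      rcases hidx i with rfl | rfl | ⟨l, rfl⟩
      · exact absurd rfl hi1
      · exact absurd rfl hi2
      · change ratio P l.succ.castSucc 1 ∈ _
        rw [hr1]
        refine Fin.cases ?_ (fun l => ?_) l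
        · change y 0 / y 0 ∈ _
          rw [div_self hy0]; exact IntermediateField.one_mem _
        · exact IntermediateField.subset_adjoin _ _ ⟨l, rfl⟩
    · intro E
      rw [poleAtMost_smul (inv_ne_zero ha'0)]
      have h2 := h E
      rw [mk_chart y hy0, poleAtMost_smul (neg_ne_zero.mpr (pow_ne_zero _ hy0))] at h2
      have h3 : U * (-(y 0) ^ (k + 2)) ^ m * a' ^ m * a'⁻¹ ^ m = U * (-(y 0) ^ (k + 2)) ^ m := by
        rw [inv_pow, mul_assoc, mul_inv_cancel₀ (pow_ne_zero _ ha'0), mul_one]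
      rwa [h3]

private lemma exists_smul {K : Type} [Field K] [Algebra ℂ K] {k : ℕ} {y : Fin k → K} (hy : IsTranscendenceBasis ℂ y)
    (ω : Form K k) : ∃ g : K, ω = g • Form.mk 1 y := by
  obtain ⟨b, hb⟩ := Pool.Agent.H23.exists_basis_kaehler hy
  refine ⟨Pool.Agent.H23.fc b ω, ?_⟩
  have h1 : ω = Pool.Agent.H23.fc b ω • exteriorPower.ιMulti K k (fun i => b i) := Pool.Agent.H23.eq_fc_smul b ω
  have h2 : (Form.mk 1 y : Form K k) = (1 : K) • exteriorPower.ιMulti K k (fun i => b i) := by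
    have h3 : (fun i => b i) = fun i => KaehlerDifferential.D ℂ K (y i) := funext hb
    rw [h3]
    rfl
  rw [h2, one_smul]
  exact h1

/-- An irreducible hypersurface of degree `d ≤ n + 2` in `ℙ^(n+1)`, `n = k + 1`, is not of general type. -/
theorem not_isGeneralType [(Ideal.span {F}).IsPrime] (hF : F.IsHomogeneous d)
    (hc : F.coeff (Finsupp.single (Fin.last (k + 2)) d) ≠ 0) (hd : d ≤ k + 3) :
    ¬ Pool.Agent.H62.FC.IsGeneralType (FunField (Ideal.span {F})) (k + 1) := by
  rintro ⟨m, hm, ω, hω, r, f, hf0, hreg, halg⟩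
  have hy := hyp_basis hF hc
  obtain ⟨g, rfl⟩ := exists_smul hy ω
  have h00 : Pool.Agent.H17GT.coordFun (Ideal.span {F}) 0 ≠ 0 :=
    hyp_coord hF hc (by rw [Ne, Fin.ext_iff]; simp)
  have ha0 := hyp_deriv_ne hF hc h00
  have hg0 : g ≠ 0 := by
    rintro rfl
    exact hω (zero_smul _ _)
  have h1 : ∀ i, ∃ c : ℂ, f i * g ^ m * (MvPolynomial.aeval (fun i => ratio (Ideal.span {F}) i 0)
      (MvPolynomial.pderiv (Fin.last (k + 2)) F)) ^ m = algebraMap ℂ _ c := by
    intro i
    refine const_of_regular hF hc hd fun E => ?_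
    exact (poleAtMost_smul hg0).mp (hreg i E)
  choose c hcc using h1
  have h2 : ∀ i, f i / f 0 = algebraMap ℂ _ (c i / c 0) := by
    intro i
    rw [map_div₀, ← hcc i, ← hcc 0]
    have h3 : g ^ m ≠ 0 := pow_ne_zero _ hg0
    have h4 := pow_ne_zero m ha0
    rw [mul_assoc, mul_assoc, mul_div_mul_right _ _ (mul_ne_zero h3 h4)]
  have h3 : IntermediateField.adjoin ℂ (Set.range fun i => f i / f 0) = ⊥ := by
    rw [IntermediateField.adjoin_eq_bot_iff]
    rintro _ ⟨i, rfl⟩
    change f i / f 0 ∈ _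
    rw [h2]
    exact IntermediateField.algebraMap_mem _ _
  rw [h3] at halg
  have h4 := (halg.isAlgebraic (ratio (Ideal.span {F}) (0 : Fin (k + 1)).succ.castSucc 0))
  have h5 : IsAlgebraic ℂ (ratio (Ideal.span {F}) (0 : Fin (k + 1)).succ.castSucc 0) := by
    exact h4.restrictScalars ℂ
  exact hy.1.transcendental 0 h5

end Pool.Agent.H66.CY
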