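import Pool.Agent.H66.CY.GenNear
import Pool.Agent.H66.CY.AutTr
import Pool.Agent.H66.CY.Coord
import Pool.Agent.H17.OpenHyperbolic

/-!
# CY FSmooth: very general hypersurfaces are smooth and irreducible (helper13)

* `smooth_map`: an automorphism of `ℂ` maps zeros to zeros and gradients to gradients (`MvPolynomial.pderiv` commutes with `map`, `MvPolynomial.eval_map`/`eval₂`; apply the inverse automorphism to the point).
* `generic_smooth`: `Pool.Agent.H17S.exists_smooth_near` (near any form there is a smooth one, here near the form 0), `Pool.Agent.H17.smooth_open` (openness), `exists_generic_near`: there is a smooth generic `F₁` of degree `d`; by `exists_aut` (as in `good_of_conj` of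
  `Transport.lean`) `F = map σ F₁`.
* `prime_of_smooth`: `F ≠ 0` (gradient), not a unit (`d ≥ 1`). If `F = G H` with non-units `G, H`, then `G, H` are homogeneous (`MvPolynomial.IsHomogeneous` of factors; or lowest and highest components) of degrees `a, b ≥ 1`, they have a common zero `x ≠ 0`
  (`Pool.Agent.H17.exists_ne_zero_common_zero`, 2 forms in `N + 1 ≥ 3` variables), and the gradient of `F` is zero at `x`. So `F` is irreducible, prime (UFD), `Ideal.span_singleton_prime`.
-/

set_option autoImplicit false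

noncomputable section

namespace Pool.Agent.H66.CY

open Pool.Agent.H17 (SmoothIntersection)

variable {N d : ℕ}

private theorem smooth_iff {F : MvPolynomial (Fin (N + 1)) ℂ} :
    (SmoothIntersection fun _ : Fin 1 => F) ↔ ∀ x : Fin (N + 1) → ℂ, x ≠ 0 →
      MvPolynomial.eval x F = 0 → ∃ j, MvPolynomial.eval x (MvPolynomial.pderiv j F) ≠ 0 := by
  constructor
  · intro h x hx hF
    have h1 := h x hx (fun _ => hF)
    have h2 := h1.ne_zero (0 : Fin 1)
    by_contra hcon
    push Not at hcon
    exact h2 (funext hcon)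
  · intro h x hx hF
    obtain ⟨j, hj⟩ := h x hx (hF 0)
    rw [linearIndependent_unique_iff]
    intro h0
    exact hj (congrFun h0 j)

private theorem eval_map_aut (σ : ℂ ≃+* ℂ) (F : MvPolynomial (Fin (N + 1)) ℂ)
    (x : Fin (N + 1) → ℂ) :
    MvPolynomial.eval x (MvPolynomial.map (σ : ℂ →+* ℂ) F) =
      σ (MvPolynomial.eval (fun i => σ.symm (x i)) F) := by
  induction F using MvPolynomial.induction_on with
  | C a => simp
  | add p q hp hq => rw [map_add, map_add, hp, hq, map_add, map_add]
  | mul_X p i hp => rw [map_mul, map_mul, hp, map_mul, map_mul]; simp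

theorem smooth_map (σ : ℂ ≃+* ℂ) {F : MvPolynomial (Fin (N + 1)) ℂ} (h : SmoothIntersection fun _ : Fin 1 => F) :
    SmoothIntersection fun _ : Fin 1 => MvPolynomial.map (σ : ℂ →+* ℂ) F := by
  rw [smooth_iff] at h ⊢
  intro x hx hF
  rw [eval_map_aut, EmbeddingLike.map_eq_zero_iff] at hF
  obtain ⟨j, hj⟩ := h (fun i => σ.symm (x i)) (by
    intro h0
    apply hx
    funext i
    have h1 := congrFun h0 i
    simpa using h1) hF
  refine ⟨j, ?_⟩
  rw [MvPolynomial.pderiv_map, eval_map_aut]
  intro h0
  rw [EmbeddingLike.map_eq_zero_iff] at h0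
  exact hj h0

theorem generic_smooth (hd : 1 ≤ d) {F : MvPolynomial (Fin (N + 1)) ℂ} (hF : F.IsHomogeneous d) (gF : Generic d F) :
    SmoothIntersection fun _ : Fin 1 => F := by
  obtain ⟨G, hG, -, hGs⟩ := Pool.Agent.H17S.exists_smooth_near (N := N) (c := 1) (d := fun _ => d)
    (fun _ => hd) (G₀ := fun _ => 0) (fun _ => MvPolynomial.isHomogeneous_zero _ _ _)
    (ε := 1) one_pos
  obtain ⟨ε, hε, hopen⟩ := Pool.Agent.H17.smooth_open hG hGs
  obtain ⟨F₁, hF₁, hnear, gF₁⟩ := exists_generic_near (hG 0) hε
  have hsm : SmoothIntersection fun _ : Fin 1 => F₁ := by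
    rw [smooth_iff]
    intro x hx h0
    by_contra hcon
    push Not at hcon
    have h1 := hopen (fun _ => F₁) (fun _ => hF₁) (fun l m => by
      have h2 := hnear m
      have h3 : G l = G 0 := by rw [Subsingleton.elim l 0]
      rw [h3]
      exact h2) x hx (fun _ => h0) (fun _ => 1) (fun j => by
        rw [Fin.sum_univ_one, hcon j, mul_zero])
    exact one_ne_zero (congrFun h1 0)
  have hfin : Finite {m : Fin (N + 1) →₀ ℕ // m.degree = d} := finite_Ix (N + 1) d
  obtain ⟨σ, hσ⟩ := exists_aut gF₁ gF
  have h2 : MvPolynomial.map (σ : ℂ →+* ℂ) F₁ = F := by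
    ext m
    rw [MvPolynomial.coeff_map]
    by_cases hm : m.degree = d
    · exact hσ ⟨m, hm⟩
    · rw [hF₁.coeff_eq_zero hm, hF.coeff_eq_zero hm]
      simp
  rw [← h2]
  exact smooth_map σ hsm

private theorem eval_zero_form (hd : 1 ≤ d) {F : MvPolynomial (Fin (N + 1)) ℂ}
    (hF : F.IsHomogeneous d) : MvPolynomial.eval (0 : Fin (N + 1) → ℂ) F = 0 := by
  rw [MvPolynomial.eval_zero]
  show MvPolynomial.constantCoeff F = 0
  rw [MvPolynomial.constantCoeff_eq]
  apply hF.coeff_eq_zero
  rw [map_zero]
  omega

private theorem isUnit_of_factor {F G H : MvPolynomial (Fin (N + 1)) ℂ} (hF : F.IsHomogeneous d)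
    (hF0 : F ≠ 0) (h : F = G * H) (h1 : MvPolynomial.eval (0 : Fin (N + 1) → ℂ) G ≠ 0) :
    IsUnit G := by
  have key : ∀ x : Fin (N + 1) → ℂ, MvPolynomial.eval x F ≠ 0 →
      MvPolynomial.eval x G = MvPolynomial.eval 0 G := by
    intro x hx
    set L : Fin (N + 1) → Polynomial ℂ := fun i => Polynomial.X * Polynomial.C (x i) with hL
    have hev : ∀ (P : MvPolynomial (Fin (N + 1)) ℂ) (t : ℂ),
        (MvPolynomial.aeval L P).eval t = MvPolynomial.eval (fun i => t * x i) P := by
      intro P t
      rw [eval_aeval]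
      congr 2
      funext i
      rw [hL]
      simp only [Polynomial.eval_mul, Polynomial.eval_X, Polynomial.eval_C]
    have hprod : MvPolynomial.aeval L G * MvPolynomial.aeval L H =
        Polynomial.monomial d (MvPolynomial.eval x F) := by
      rw [← map_mul, ← h]
      refine Polynomial.funext fun t => ?_
      rw [hev, Pool.Agent.H17.eval_smul_of_isHomogeneous hF, Polynomial.eval_monomial]
      ring
    have hne : Polynomial.monomial d (MvPolynomial.eval x F) ≠ 0 := by
      intro h0
      exact hx ((Polynomial.monomial_eq_zero_iff _ _).1 h0)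
    have hG0 : MvPolynomial.aeval L G ≠ 0 := by
      intro h0
      rw [h0, zero_mul] at hprod
      exact hne hprod.symm
    have hH0 : MvPolynomial.aeval L H ≠ 0 := by
      intro h0
      rw [h0, mul_zero] at hprod
      exact hne hprod.symm
    have e1 := Polynomial.natDegree_mul hG0 hH0
    have e2 := Polynomial.natTrailingDegree_mul hG0 hH0
    rw [hprod, Polynomial.natDegree_monomial_eq _ hx] at e1
    rw [hprod, Polynomial.natTrailingDegree_monomial hx] at e2
    have e3 := Polynomial.natTrailingDegree_le_natDegree (MvPolynomial.aeval L G)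
    have e4 := Polynomial.natTrailingDegree_le_natDegree (MvPolynomial.aeval L H)
    have e0 : (MvPolynomial.aeval L G).coeff 0 ≠ 0 := by
      rw [Polynomial.coeff_zero_eq_eval_zero, hev]
      have h2 : (fun i => (0 : ℂ) * x i) = 0 := by
        funext i
        simp
      rw [h2]
      exact h1
    have e5 : (MvPolynomial.aeval L G).natTrailingDegree = 0 := by
      have h2 := Polynomial.natTrailingDegree_le_of_ne_zero e0
      omega
    have e6 : (MvPolynomial.aeval L G).natDegree = 0 := by omega
    obtain ⟨c, hc⟩ := Polynomial.natDegree_eq_zero.1 e6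
    have e7 := hev G 1
    have e8 := hev G 0
    rw [← hc, Polynomial.eval_C] at e7 e8
    have h2 : (fun i => (0 : ℂ) * x i) = 0 := by
      funext i
      simp
    have h3 : (fun i => (1 : ℂ) * x i) = x := by
      funext i
      simp
    rw [h2] at e8
    rw [h3] at e7
    rw [← e7, ← e8]
  have h2 : F * (G - MvPolynomial.C (MvPolynomial.eval 0 G)) = 0 := by
    apply MvPolynomial.funext
    intro x
    rw [map_mul, map_sub, MvPolynomial.eval_C, map_zero]
    by_cases hx : MvPolynomial.eval x F = 0
    · rw [hx, zero_mul]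
    · rw [key x hx, sub_self, mul_zero]
  have h3 : G = MvPolynomial.C (MvPolynomial.eval 0 G) :=
    sub_eq_zero.1 ((mul_eq_zero.1 h2).resolve_left hF0)
  rw [h3]
  exact (IsUnit.mk0 _ h1).map MvPolynomial.C

theorem prime_of_smooth (hN : 2 ≤ N) (hd : 1 ≤ d) {F : MvPolynomial (Fin (N + 1)) ℂ} (hF : F.IsHomogeneous d)
    (h : SmoothIntersection fun _ : Fin 1 => F) : (Ideal.span {F}).IsPrime := by
  rw [smooth_iff] at h
  have hF0 : F ≠ 0 := by
    rintro rfl
    obtain ⟨j, hj⟩ := h (fun _ => 1) (fun h0 => one_ne_zero (congrFun h0 0)) (by simp)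
    apply hj
    simp
  rw [Ideal.span_singleton_prime hF0]
  apply Irreducible.prime
  refine ⟨?_, ?_⟩
  · intro hu
    have h1 := hu.map (MvPolynomial.eval (0 : Fin (N + 1) → ℂ))
    rw [eval_zero_form hd hF] at h1
    exact not_isUnit_zero h1
  · intro G H hGH
    by_contra hcon
    rw [not_or] at hcon
    have hG : MvPolynomial.eval (0 : Fin (N + 1) → ℂ) G = 0 := by
      by_contra h1
      exact hcon.1 (isUnit_of_factor hF hF0 hGH h1)
    have hH : MvPolynomial.eval (0 : Fin (N + 1) → ℂ) H = 0 := by
      by_contra h1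
      exact hcon.2 (isUnit_of_factor hF hF0 (hGH.trans (mul_comm G H)) h1)
    obtain ⟨x, hx, hx0⟩ := Pool.Agent.H17.exists_ne_zero_common_zero (Fin (N + 1)) (Fin 2)
      (by simp; omega) ![G, H] (by
        intro k
        fin_cases k
        · exact hG
        · exact hH)
    have hG1 : MvPolynomial.eval x G = 0 := hx0 0
    have hH1 : MvPolynomial.eval x H = 0 := hx0 1
    obtain ⟨j, hj⟩ := h x hx (by rw [hGH, map_mul, hG1, zero_mul])
    apply hj
    rw [hGH, MvPolynomial.pderiv_mul, map_add, map_mul, map_mul, hG1, hH1]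
    ring

theorem generic_coeff_ne {F : MvPolynomial (Fin (N + 1)) ℂ} (gF : Generic d F) (i : Fin (N + 1)) :
    F.coeff (Finsupp.single i d) ≠ 0 := by
  have h1 := AlgebraicIndependent.ne_zero gF ⟨Finsupp.single i d, by simp⟩
  exact h1

end Pool.Agent.H66.CY
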