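import Pool.Agent.H66.CY.Quint
import Pool.Agent.H66.CY.FBase
import Pool.Agent.H66.CY.FSmooth
import Pool.Agent.H66.CY.FNGT
import Pool.Agent.H66.CY.FGGL

/-!
# CY FMain: very general hypersurfaces of degree at most `n + 2` in `ℙ^(n+1)`
-/

set_option autoImplicit false

noncomputable section

namespace Pool.Agent.H66.CY

open Pool.Agent.H17 (PN VanishesAt zeroLocus SmoothIntersection PseudoBrodyHyperbolic PseudoPicardHyperbolic)
open Pool.Agent.H17LG.Variety (FunField)
open Pool.Agent.H62.FC (closureIn primeLocus Homog LogGeneralType StronglyLogGeneralType IsGeneralType)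

variable {n d : ℕ}

/-- All cases: `1 ≤ d ≤ n + 1`, or `d = n + 2` and `n ≥ 3`. -/
theorem allGood_main (hn : 1 ≤ n) (hd : 1 ≤ d) (hnd : d ≤ n + 1 ∨ (3 ≤ n ∧ d = n + 2)) : AllGood (n + 2) d := by
  rcases hnd with h | ⟨h3, rfl⟩
  · exact fun k F hF gF => good_low hn hd h k hF gF
  · have := allGood_add (N := 5) (d := 5) (by omega) (by omega) allGood_quint (n - 3)
    rwa [show 5 + (n - 3) = n + 2 by omega] at this

/-- The rational curves on a very general hypersurface of degree `d ≤ n + 2` are Zariski dense. -/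
theorem dense_main (hn : 1 ≤ n) (hd : 1 ≤ d) (hnd : d ≤ n + 1 ∨ (3 ≤ n ∧ d = n + 2))
    {F : MvPolynomial (Fin (n + 2)) ℂ} (hF : F.IsHomogeneous d) (gF : Generic d F) :
    closureIn (zeroLocus fun _ : Fin 1 => F) (rationalCurves (zeroLocus fun _ : Fin 1 => F)) =
      zeroLocus fun _ : Fin 1 => F := by
  rcases Nat.lt_or_ge d 2 with h | h
  · obtain rfl : d = 1 := by omega
    exact dense_linear (by omega) hF
  · exact dense_of_good h hF fun k => allGood_main hn hd hnd k F hF gF

/-- It is a smooth irreducible variety of dimension `n`, not of general type. -/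
theorem variety_main (hn : 1 ≤ n) (hd : 1 ≤ d) (hnd : d ≤ n + 2) {F : MvPolynomial (Fin (n + 2)) ℂ}
    (hF : F.IsHomogeneous d) (gF : Generic d F) :
    SmoothIntersection (fun _ : Fin 1 => F) ∧ ∃ _ : (Ideal.span {F}).IsPrime,
      (∃ z : Fin n → FunField (Ideal.span {F}), IsTranscendenceBasis ℂ z) ∧
      ¬ IsGeneralType (FunField (Ideal.span {F})) n := by
  have hs := generic_smooth hd hF gF
  have hP := prime_of_smooth (N := n + 1) (by omega) hd hF hs
  refine ⟨hs, hP, ?_⟩
  obtain ⟨k, rfl⟩ : ∃ k, n = k + 1 := ⟨n - 1, by omega⟩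
  have hc := generic_coeff_ne gF (Fin.last (k + 2))
  exact ⟨⟨_, hyp_basis hF hc⟩, not_isGeneralType hF hc hnd⟩

/-- Very general forms exist near every form. -/
theorem near_main {N : ℕ} (F₀ : MvPolynomial (Fin (N + 1)) ℂ) (h₀ : F₀.IsHomogeneous d) {ε : ℝ} (hε : 0 < ε) :
    ∃ F : MvPolynomial (Fin (N + 1)) ℂ, F.IsHomogeneous d ∧ Generic d F ∧ NearF ε F₀ F := by
  obtain ⟨F, h1, h2, h3⟩ := exists_generic_near h₀ hε
  exact ⟨F, h1, by assumption, by assumption⟩

/-- All four properties of Green, Griffiths and Lang fail. -/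
theorem ggl_main (hn : 1 ≤ n) (hd : 1 ≤ d) (hnd : d ≤ n + 1 ∨ (3 ≤ n ∧ d = n + 2))
    {F : MvPolynomial (Fin (n + 2)) ℂ} (hF : F.IsHomogeneous d) (gF : Generic d F) [(Ideal.span {F}).IsPrime] :
    ¬ LogGeneralType (Ideal.span {F}) ∅ n ∧
      ¬ PseudoPicardHyperbolic (zeroLocus fun _ : Fin 1 => F) ∧
      ¬ PseudoBrodyHyperbolic (zeroLocus fun _ : Fin 1 => F) ∧
      ¬ StronglyLogGeneralType (Ideal.span {F}) ∅ := by
  obtain ⟨_, _, hz, hg⟩ := variety_main hn hd (by omega) hF gF
  have hdense := dense_main hn hd hnd hF gF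
  have hl : ¬ LogGeneralType (Ideal.span {F}) ∅ n := fun h => hg (Pool.Agent.H62.FC.isGeneralType_iff.mpr h)
  exact ⟨hl, not_picard hdense, not_brody hdense, not_strongly (homog_span hF) hn hz hl⟩

end Pool.Agent.H66.CY
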