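import Pool.Agent.H23.Forms
import Pool.Agent.H23.Bridge
import Pool.Agent.H17LG.Variety

/-!
# CY FOrd: the order of a top form at a place (helper13)

`s_1, …, s_k, t` a transcendence basis of `K`, `L = ℂ(s)`, `E` a place over `L` (`E.ord = 0` on `L ∖ 0`), `p ∈ L[X]` with `E.ord p(t) = e ≥ 1`, `E.ord p'(t) = 0`.

* `exists_coordsAt`: as `Pool.Agent.H23.exists_divisorCoords`, but with a prescribed uniformizer `π` and prescribed `s` (copy the proof; `der_nonneg`, `ev_injective`, `exists_basis_kaehler`, `exists_poly_of_basis`).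
* `ord_form`: take `π` with `E.ord π = 1`, the coordinates `g = (π, s)` with basis `b` of `Ω`, and `E₀ = dualDer b 0`. `E₀` is zero on all `s i`, so on `L = ℂ(s)` (the elements killed by a derivation are a field), and `E₀ (p(t)) = p'(t) E₀ t`.
  `p(t) = π ^ e ε` with `E.ord ε = 0`, so `E₀ (p(t)) = π ^ (e-1) (e ε + π E₀ ε)` has order exactly `e - 1` (`E.ord (e : K) = 0`). So `E.ord (E₀ t) = e - 1`.
  `fc b (c • dt ∧ ds) = c * det (dualDer b i (t, s) j) = c * E₀ t` (the rows: `E_i s_j = δ_ij`, `E₀ s_j = 0`: `fc_ιMulti`, the matrix is block triangular, or use that `dt - E₀(t) dπ` is a combination of the `ds_j` and that `⋀` is alternating).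
* `ord_nonneg_of_regular`: `PoleAtMost 0 E m u ω` implies `0 ≤ E.ord (u * (fc b ω) ^ m)` (see `pole_form` in `H62/FC/NotLGT.lean`: `mem_regularForms_iff`, `ω = g • η`, `fc b ω = g * fc b η`, `0 ≤ E.ord (fc b η)`), and `E.ord (fc b ω) = E.ord c + (e - 1) ≤ 0`.
-/

set_option autoImplicit false

noncomputable section

namespace Pool.Agent.H66.CY

open Polynomial
open Pool.Agent.H23.Fano (PrimeDivisorOver Form)
open Pool.Agent.H17LG.Variety (PoleAtMost)

theorem exists_coordsAt {K : Type} [Field K] [Algebra ℂ K] [Algebra.EssFiniteType ℂ K] {k : ℕ} {y : Fin (k + 1) → K}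
    (hy : IsTranscendenceBasis ℂ y) (E : PrimeDivisorOver K (k + 1)) {π : K} (hπ : E.ord π = 1) {s : Fin k → K}
    (hs0 : ∀ i, 0 ≤ E.ord (s i)) (hs : ∀ p : MvPolynomial (Fin k) ℂ, p ≠ 0 → E.ord (MvPolynomial.aeval s p) = 0) :
    ∃ b : Module.Basis (Fin (k + 1)) K Ω[K⁄ℂ],
      (∀ i, b i = KaehlerDifferential.D ℂ K ((Fin.cons π s : Fin (k + 1) → K) i)) ∧
      ∀ i f, 0 ≤ E.ord f → 0 ≤ E.ord (Pool.Agent.H23.dualDer b i f) := by
  set g : Fin (k + 1) → K := Fin.cons π s with hg
  have hind : AlgebraicIndependent ℂ g := by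
    rw [algebraicIndependent_iff_injective_aeval]
    have h1 : (MvPolynomial.aeval g : MvPolynomial (Fin (k + 1)) ℂ → K) =
        Pool.Agent.H23.ev s π ∘ MvPolynomial.finSuccEquiv ℂ k := by
      funext p
      exact Pool.Agent.H23.aeval_cons s π p
    rw [h1]
    exact (Pool.Agent.H23.ev_injective E.ord hs hπ).comp (MvPolynomial.finSuccEquiv ℂ k).injective
  have hbasis : IsTranscendenceBasis ℂ g := by
    apply hind.isTranscendenceBasis_of_trdeg_le_of_finite
    rw [← hy.cardinalMk_eq_trdeg]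
  obtain ⟨b, hb⟩ := Pool.Agent.H23.exists_basis_kaehler hbasis
  refine ⟨b, hb, ?_⟩
  intro i
  apply Pool.Agent.H23.der_nonneg E.ord hs hπ
  · intro f
    obtain ⟨F, h1, h2⟩ := Pool.Agent.H23.exists_poly_of_basis hbasis f
    refine ⟨F.map (MvPolynomial.finSuccEquiv ℂ k).toRingEquiv.toRingHom, ?_, ?_⟩
    · rwa [Ne, Polynomial.map_eq_zero_iff]
      exact (MvPolynomial.finSuccEquiv ℂ k).injective
    · rw [Polynomial.eval₂_map]
      have h3 : (Pool.Agent.H23.ev s π).comp (MvPolynomial.finSuccEquiv ℂ k).toRingEquiv.toRingHom =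
          (MvPolynomial.aeval g).toRingHom :=
        RingHom.ext fun p => (Pool.Agent.H23.aeval_cons s π p).symm
      rw [h3]
      exact h2
  · have := Pool.Agent.H23.dualDer_coord b hb i 0
    rw [hg, Fin.cons_zero] at this
    rw [this]
    split_ifs <;> simp
  · intro j
    have := Pool.Agent.H23.dualDer_coord b hb i j.succ
    rw [hg, Fin.cons_succ] at this
    rw [this]
    split_ifs <;> simp

private lemma ford_der_zero {K : Type} [Field K] [Algebra ℂ K] {k : ℕ} {s : Fin k → K}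
    (D : Derivation ℂ K K) (hD : ∀ j, D (s j) = 0) {x : K}
    (hx : x ∈ IntermediateField.adjoin ℂ (Set.range s)) : D x = 0 := by
  induction hx using IntermediateField.adjoin_induction with
  | mem x hx =>
    obtain ⟨j, rfl⟩ := hx
    exact hD j
  | algebraMap a => exact D.map_algebraMap a
  | add x y _ _ hx hy => rw [map_add, hx, hy, add_zero]
  | inv x _ hx => rw [Derivation.leibniz_inv, hx, smul_zero]
  | mul x y _ _ hx hy => rw [D.leibniz, hx, hy, smul_zero, smul_zero, add_zero]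

private lemma ford_chain {K : Type} [Field K] [Algebra ℂ K] {L : IntermediateField ℂ K}
    (D : Derivation ℂ K K) (hD : ∀ l : L, D (l : K) = 0) (t : K) (p : L[X]) :
    D (aeval t p) = aeval t (derivative p) * D t := by
  induction p using Polynomial.induction_on' with
  | add p q hp hq => rw [map_add, map_add, hp, hq, derivative_add, map_add, add_mul]
  | monomial n a =>
    rw [aeval_monomial, derivative_monomial, aeval_monomial, D.leibniz, D.leibniz_pow]
    have h1 : D (algebraMap L K a) = 0 := hD a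
    rw [h1, smul_zero, add_zero, map_mul, map_natCast]
    simp only [nsmul_eq_mul, smul_eq_mul]
    ring

private lemma ford_det {K : Type} [Field K] [Algebra ℂ K] {k : ℕ}
    (b : Module.Basis (Fin (k + 1)) K Ω[K⁄ℂ]) (x : Ω[K⁄ℂ]) :
    b.det (Function.update (fun i => b i) 0 x) = b.repr x 0 := by
  have h : (b.det.toMultilinearMap.toLinearMap (fun i => b i) 0) = b.coord 0 := by
    apply b.ext
    intro i
    rw [MultilinearMap.toLinearMap_apply, Module.Basis.coord_apply, Module.Basis.repr_self]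
    change b.det (Function.update (fun i => b i) 0 (b i)) = _
    by_cases hi : i = 0
    · subst hi
      rw [Function.update_eq_self]
      have h2 : b.det (fun i => b i) = 1 := b.det_self
      rw [h2, Finsupp.single_eq_same]
    · rw [AlternatingMap.map_update_self b.det (fun i => b i) (Ne.symm hi),
        Finsupp.single_eq_of_ne (Ne.symm hi)]
  exact LinearMap.congr_fun h x

private lemma ford_pole {K : Type} [Field K] [Algebra ℂ K] {w : ℕ} {E : PrimeDivisorOver K w}
    {b : Module.Basis (Fin w) K Ω[K⁄ℂ]}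
    {g : Fin w → K} (hb : ∀ i, b i = KaehlerDifferential.D ℂ K (g i))
    (hg : ∀ i, 0 ≤ E.ord (g i))
    (hD : ∀ i f, 0 ≤ E.ord f → 0 ≤ E.ord (Pool.Agent.H23.dualDer b i f)) {p m : ℕ} {f : K}
    {ω : Form K w} (h : PoleAtMost p E m f ω) :
    0 ≤ E.ord (f * (Pool.Agent.H23.fc b ω) ^ m) + p := by
  obtain ⟨c, η, hη, rfl, h⟩ := h
  have h1 : 0 ≤ E.ord (Pool.Agent.H23.fc b η) := by
    have h2 := (Pool.Agent.H23.mem_regularForms_iff (Pool.Agent.H23.ofFano E).localRing b hb
      (fun i => hg i) (fun i f hf => hD i f hf) η).1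
    exact h2 hη
  have h2 : Pool.Agent.H23.fc b (c • η) = c * Pool.Agent.H23.fc b η :=
    map_smul (Pool.Agent.H23.fc b) c η
  rw [h2, mul_pow, ← mul_assoc, E.ord.map_mul, E.ord.map_pow]
  refine le_trans h ?_
  rw [add_right_comm]
  exact le_add_of_nonneg_right (nsmul_nonneg h1 _)

private lemma ford_const {K : Type} [Field K] [Algebra ℂ K] {w : ℕ} (E : PrimeDivisorOver K w)
    {a : ℂ} (ha : a ≠ 0) : E.ord (algebraMap ℂ K a) = 0 := by
  have h1 := E.ord_const a
  have h2 := E.ord_const a⁻¹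
  have h3 : E.ord (algebraMap ℂ K a) + E.ord (algebraMap ℂ K a⁻¹) = 0 := by
    rw [← E.ord.map_mul, ← map_mul, mul_inv_cancel₀ ha, map_one, E.ord.map_one]
  refine le_antisymm ?_ h1
  rw [← h3]
  exact le_add_of_nonneg_right h2

private lemma ford_ord {K : Type} [Field K] [Algebra ℂ K] {w : ℕ} (E : PrimeDivisorOver K w)
    (D : Derivation ℂ K K) (hD : ∀ f, 0 ≤ E.ord f → 0 ≤ E.ord (D f)) {π : K} (hπ : E.ord π = 1)
    (hDπ : D π = 1) {P : K} {e : ℕ} (he : 1 ≤ e) (hP : E.ord P = ((e : ℤ) : WithTop ℤ)) :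
    E.ord (D P) = (((e : ℤ) - 1 : ℤ) : WithTop ℤ) := by
  have hπ0 : π ≠ 0 := by
    rintro rfl
    rw [E.ord.map_zero] at hπ
    exact absurd hπ (by simp)
  obtain ⟨e', rfl⟩ : ∃ e', e = e' + 1 := ⟨e - 1, by omega⟩
  have hpow : ∀ n : ℕ, E.ord (π ^ n) = ((n : ℤ) : WithTop ℤ) := by
    intro n
    rw [E.ord.map_pow, hπ, nsmul_one]
    rfl
  set ε : K := P / π ^ (e' + 1) with hε
  have hPε : P = π ^ (e' + 1) * ε := by
    rw [hε, mul_div_cancel₀]
    exact pow_ne_zero _ hπ0
  have hε0 : E.ord ε = 0 := by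
    have h1 : E.ord P = E.ord (π ^ (e' + 1)) + E.ord ε := by
      conv_lhs => rw [hPε]
      rw [E.ord.map_mul]
    rw [hP, hpow] at h1
    have hne : ε ≠ 0 := by
      intro h0
      rw [h0, mul_zero] at hPε
      rw [hPε, E.ord.map_zero] at hP
      exact absurd hP.symm (WithTop.coe_ne_top)
    obtain ⟨z, hz⟩ := Pool.Agent.H23.exists_int E.ord hne
    rw [hz] at h1 ⊢
    have h2 : ((e' + 1 : ℕ) : ℤ) = ((e' + 1 : ℕ) : ℤ) + z := by exact_mod_cast h1
    have h3 : z = 0 := by omega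
    rw [h3]
    rfl
  have h4 : D P = π ^ e' * (((e' + 1 : ℕ) : K) * ε + π * D ε) := by
    rw [hPε, D.leibniz, D.leibniz_pow, hDπ]
    simp only [nsmul_eq_mul, smul_eq_mul, Nat.add_sub_cancel]
    ring
  have h5 : E.ord (((e' + 1 : ℕ) : K) * ε) = 0 := by
    rw [E.ord.map_mul, hε0, add_zero]
    have h6 := ford_const E (a := ((e' + 1 : ℕ) : ℂ)) (by exact_mod_cast Nat.succ_ne_zero e')
    rwa [map_natCast] at h6
  have h6 : 1 ≤ E.ord (π * D ε) := by
    rw [E.ord.map_mul, hπ]
    exact le_add_of_nonneg_right (hD ε hε0.ge)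
  have h7 : E.ord (((e' + 1 : ℕ) : K) * ε + π * D ε) = 0 := by
    rw [E.ord.map_add_eq_of_lt_left, h5]
    rw [h5]
    exact lt_of_lt_of_le (by norm_num) h6
  rw [h4, E.ord.map_mul, h7, add_zero, hpow]
  congr 1
  push_cast
  ring

theorem ord_nonneg_of_regular {K : Type} [Field K] [Algebra ℂ K] [Algebra.EssFiniteType ℂ K] {k : ℕ} {s : Fin k → K}
    {t : K} (hb : IsTranscendenceBasis ℂ (Fin.cons t s : Fin (k + 1) → K)) {L : IntermediateField ℂ K}
    (hL : L = IntermediateField.adjoin ℂ (Set.range s)) (E : PrimeDivisorOver K (k + 1))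
    (hEL : ∀ l : L, l ≠ 0 → E.ord (l : K) = 0) {p : L[X]} {e : ℕ} (he : 1 ≤ e)
    (hp : E.ord (aeval t p) = ((e : ℤ) : WithTop ℤ)) (hp' : E.ord (aeval t (derivative p)) = 0) {c : K} (hc0 : c ≠ 0)
    (hc : E.ord c + (((e : ℤ) - 1 : ℤ) : WithTop ℤ) ≤ 0) {m : ℕ} {u : K}
    (h : PoleAtMost 0 E m u (c • Form.mk 1 (Fin.cons t s : Fin (k + 1) → K))) : 0 ≤ E.ord u := by
  have hsL : ∀ q : MvPolynomial (Fin k) ℂ, MvPolynomial.aeval s q ∈ L := by
    intro q
    induction q using MvPolynomial.induction_on with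
    | C a =>
      rw [MvPolynomial.aeval_C]
      exact L.algebraMap_mem a
    | add p q hp hq =>
      rw [map_add]
      exact L.add_mem hp hq
    | mul_X p i hp =>
      rw [map_mul, MvPolynomial.aeval_X]
      refine L.mul_mem hp ?_
      rw [hL]
      exact IntermediateField.subset_adjoin _ _ ⟨i, rfl⟩
  have hLnn : ∀ x ∈ L, 0 ≤ E.ord x := by
    intro x hx
    by_cases h0 : (⟨x, hx⟩ : L) = 0
    · have h1 : x = 0 := congrArg Subtype.val h0
      rw [h1, E.ord.map_zero]
      exact le_top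
    · exact (hEL ⟨x, hx⟩ h0).ge
  have hind : AlgebraicIndependent ℂ s := by
    have h1 := hb.1.comp Fin.succ (Fin.succ_injective k)
    have h2 : (Fin.cons t s : Fin (k + 1) → K) ∘ Fin.succ = s := by
      funext i
      rw [Function.comp_apply, Fin.cons_succ]
    rwa [h2] at h1
  have hs : ∀ q : MvPolynomial (Fin k) ℂ, q ≠ 0 → E.ord (MvPolynomial.aeval s q) = 0 := by
    intro q hq
    refine hEL ⟨MvPolynomial.aeval s q, hsL q⟩ ?_
    intro h0
    have h1 : MvPolynomial.aeval s q = 0 := congrArg Subtype.val h0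
    exact hq (hind (by rw [h1, map_zero]))
  have hs0 : ∀ i, 0 ≤ E.ord (s i) := by
    intro i
    apply hLnn
    rw [hL]
    exact IntermediateField.subset_adjoin _ _ ⟨i, rfl⟩
  obtain ⟨π, hπ⟩ := E.exists_uniformizer
  obtain ⟨b, hbb, hD⟩ := exists_coordsAt hb E hπ hs0 hs
  set D := Pool.Agent.H23.dualDer b 0 with hDdef
  have hDπ : D π = 1 := by
    have := Pool.Agent.H23.dualDer_coord b hbb 0 0
    rw [Fin.cons_zero, if_pos rfl] at this
    exact this
  have hDs : ∀ j, D (s j) = 0 := by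
    intro j
    have := Pool.Agent.H23.dualDer_coord b hbb 0 j.succ
    rw [Fin.cons_succ, if_neg (Fin.succ_ne_zero j).symm] at this
    exact this
  have hDL : ∀ l : L, D (l : K) = 0 := by
    intro l
    apply ford_der_zero D hDs
    rw [← hL]
    exact SetLike.coe_mem l
  have h1 := ford_ord E D (hD 0) hπ hDπ he hp
  rw [ford_chain D hDL, E.ord.map_mul, hp', zero_add] at h1
  have hg : ∀ i, 0 ≤ E.ord ((Fin.cons π s : Fin (k + 1) → K) i) := by
    intro i
    refine Fin.cases ?_ (fun j => ?_) i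
    · rw [Fin.cons_zero, hπ]; norm_num
    · rw [Fin.cons_succ]; exact hs0 j
  have h2 := ford_pole hbb hg hD h
  have h3 : Pool.Agent.H23.fc b (c • Form.mk 1 (Fin.cons t s : Fin (k + 1) → K)) = c * D t := by
    have h4 : Pool.Agent.H23.fc b (c • Form.mk 1 (Fin.cons t s : Fin (k + 1) → K)) =
        c * Pool.Agent.H23.fc b (Form.mk 1 (Fin.cons t s : Fin (k + 1) → K)) :=
      map_smul (Pool.Agent.H23.fc b) c _
    have h5 : Pool.Agent.H23.fc b (Form.mk 1 (Fin.cons t s : Fin (k + 1) → K)) =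
        (1 : K) * Pool.Agent.H23.fc b (exteriorPower.ιMulti K (k + 1)
          (fun i => KaehlerDifferential.D ℂ K ((Fin.cons t s : Fin (k + 1) → K) i))) :=
      map_smul (Pool.Agent.H23.fc b) (1 : K) _
    have h6 : (fun i => KaehlerDifferential.D ℂ K ((Fin.cons t s : Fin (k + 1) → K) i)) =
        Function.update (fun i => b i) 0 (KaehlerDifferential.D ℂ K t) := by
      funext i
      refine Fin.cases ?_ (fun j => ?_) i
      · rw [Fin.cons_zero, Function.update_self]
      · rw [Function.update_of_ne (Fin.succ_ne_zero j), hbb, Fin.cons_succ, Fin.cons_succ]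
    rw [h4, h5, one_mul, h6, Pool.Agent.H23.fc_ιMulti, ford_det]
    rfl
  rw [h3, Nat.cast_zero, add_zero, E.ord.map_mul, E.ord.map_pow, E.ord.map_mul, h1] at h2
  refine le_trans h2 ?_
  have h7 : m • (E.ord c + (((e : ℤ) - 1 : ℤ) : WithTop ℤ)) ≤ 0 := nsmul_nonpos hc m
  calc E.ord u + m • (E.ord c + (((e : ℤ) - 1 : ℤ) : WithTop ℤ)) ≤ E.ord u + 0 :=
        add_le_add_right h7 _
    _ = E.ord u := add_zero _

end Pool.Agent.H66.CY
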