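import Pool.Agent.H62.FC.Place

/-!
# CY FPole: a place at which a non-integral function has a pole (helper13)

Let `K` be finite over `L(t)`, generated by `t` and `z`, `f ∈ L[t][Z]` monic with `f(t, z) = 0`, and let `u ∈ K` be not integral over `L[t]`.

PROOF of `exists_pole`.  Let `A = L[X]` act on `K` by `aeval t` (injective, `t` transcendental; `let _ : Algebra L[X] K := (aeval t).toAlgebra`), `B = integralClosure A K`, a Dedekind domain with fraction field `K`
(`integralClosure.isDedekindDomain`, `integralClosure.isFractionRing_of_finite_extension`; `K` is finite separable over `FractionRing A`: it is generated by `z`, which is integral; characteristic 0).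
`u ∉ B` (the image of `A` in `K` is `Algebra.adjoin L {t}`), so there is a height one prime `w` of `B` with `1 < w.valuation K u` (`IsDedekindDomain.HeightOneSpectrum.mem_integers_of_valuation_le_one`).
`E.ord = Place_add (w.valuation K)` (see `H62/FC/Place.lean`, theorem `exists_place`, for all these steps with `K = L(t)`); uniformizer: `valuation_exists_uniformizer`; residues: `s i = x i`, which are algebraically independent, and `E.ord = 0` on
`L ∖ 0` (units of `B`). `E.ord ≥ 0` on `B ∋ t, z`. Let `(p)` be the maximal ideal of `A` below `w` (nonzero: `Ideal.comap`/`under` of a nonzero prime of an integral extension), `p` irreducible. `E.ord (aeval t p) = e ≥ 1`: `w ^ e` is the exact power of `w`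
dividing `p B` (`w.intValuation`, or take `e` from `E.ord (aeval t p)`, a positive finite element of `WithTop ℤ`; `x ∈ w.asIdeal ^ e ↔ e ≤ E.ord x` for `x ∈ B`, `HeightOneSpectrum.intValuation_le_pow_iff_mem`).
`derivative p` is prime to `p` (characteristic 0), so it is not in `w` and `E.ord = 0`. `μ = minpoly A z`: `aeval z μ.derivative ∈ differentIdeal A B` (`aeval_derivative_mem_differentIdeal`), `w ^ (e-1) ∣ differentIdeal A B` (`pow_sub_one_dvd_differentIdeal`),
and `μ ∣ f` (`minpoly.isIntegrallyClosed_dvd`), `f'(z) = μ'(z) h(z)`.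
-/

set_option autoImplicit false

noncomputable section

namespace Pool.Agent.H66.CY

open Polynomial IsDedekindDomain WithZero
open Pool.Agent.H23.Fano (PrimeDivisorOver)

theorem dedekind_pole {A F K : Type} [CommRing A] [IsDomain A] [IsPrincipalIdealRing A] [Field F] [Field K]
    [Algebra A F] [IsFractionRing A F] [Algebra A K] [Algebra F K] [IsScalarTower A F K] [FiniteDimensional F K]
    [Algebra.IsSeparable F K] {z u : K} (hz : Algebra.adjoin F {z} = ⊤) {f : A[X]} (hf : f.Monic)
    (hfz : aeval z f = 0) (hu : ¬ IsIntegral A u) :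
    ∃ (v : Valuation K (WithZero (Multiplicative ℤ))) (p : A) (e : ℕ), Irreducible p ∧ 1 ≤ e ∧
      (∃ π, v π = exp (-1)) ∧
      (∀ b : K, IsIntegral A b → v b ≤ 1) ∧ (∀ q : A, ¬ p ∣ q → v (algebraMap A K q) = 1) ∧
      v (algebraMap A K p) = exp (-(e : ℤ)) ∧ v (aeval z (derivative f)) ≤ exp (-((e : ℤ) - 1)) ∧
      1 < v u := by
  classical
  let B := integralClosure A K
  have dB : IsDedekindDomain B := integralClosure.isDedekindDomain A F K
  have fB : IsFractionRing B K := integralClosure.isFractionRing_of_finite_extension F K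
  have : Module.Finite A B := IsIntegralClosure.finite A F K B
  have hAK : Function.Injective (algebraMap A K) := by
    rw [IsScalarTower.algebraMap_eq A F K]
    exact (algebraMap F K).injective.comp (IsFractionRing.injective A F)
  have hAB : Function.Injective (algebraMap A B) := by
    intro a b hab
    apply hAK
    rw [IsScalarTower.algebraMap_apply A B K, IsScalarTower.algebraMap_apply A B K b, hab]
  have : FaithfulSMul A B := (faithfulSMul_iff_algebraMap_injective A B).mpr hAB
  obtain ⟨w, hw⟩ : ∃ w : HeightOneSpectrum B, 1 < w.valuation K u := by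
    by_contra hcon
    push Not at hcon
    obtain ⟨b, hb⟩ := HeightOneSpectrum.mem_integers_of_valuation_le_one K u hcon
    exact hu (hb ▸ b.2)
  -- the prime below
  set P : Ideal A := w.asIdeal.comap (algebraMap A B) with hP
  have hPp : P.IsPrime := Ideal.comap_isPrime _ _
  obtain ⟨b, hbw, hb0⟩ := Submodule.exists_mem_ne_zero_of_ne_bot w.ne_bot
  have hP0 : P ≠ ⊥ := Ideal.comap_ne_bot_of_integral_mem hb0 hbw (Algebra.IsIntegral.isIntegral b)
  have hPm : P.IsMaximal := hPp.isMaximal hP0
  obtain ⟨p, hp⟩ : ∃ p, P = Ideal.span {p} := (IsPrincipalIdealRing.principal P).principal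
  have hp0 : p ≠ 0 := by
    rintro rfl
    exact hP0 (by rw [hp]; simp)
  have hprime : Prime p := (Ideal.span_singleton_prime hp0).mp (hp ▸ hPp)
  have hval : ∀ a : A, w.valuation K (algebraMap A K a) = w.intValuation (algebraMap A B a) := by
    intro a
    rw [IsScalarTower.algebraMap_apply A B K, HeightOneSpectrum.valuation_of_algebraMap]
  have hpw : algebraMap A B p ∈ w.asIdeal := by
    have : p ∈ P := by rw [hp]; exact Ideal.mem_span_singleton_self p
    exact this
  obtain ⟨e, he⟩ : ∃ e : ℕ, w.intValuation (algebraMap A B p) = exp (-(e : ℤ)) := by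
    have h0 : algebraMap A B p ≠ 0 := fun h => hp0 (hAB (h.trans (map_zero _).symm))
    exact ⟨_, w.intValuation_if_neg h0⟩
  have he1 : 1 ≤ e := by
    by_contra hlt
    have : e = 0 := by omega
    rw [this] at he
    have h1 : w.intValuation (algebraMap A B p) = 1 := by rw [he]; simp
    exact (HeightOneSpectrum.intValuation_eq_one_iff.mp h1) hpw
  have hbz : IsIntegral A z := ⟨f, hf, hfz⟩
  set z' : B := ⟨z, hbz⟩ with hz'
  refine ⟨w.valuation K, p, e, hprime.irreducible, he1, w.valuation_exists_uniformizer K, ?_, ?_, ?_, ?_, hw⟩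
  · intro b hb
    exact w.valuation_le_one (⟨b, hb⟩ : B)
  · intro q hq
    rw [hval, HeightOneSpectrum.intValuation_eq_one_iff]
    intro h
    have : q ∈ P := h
    rw [hp, Ideal.mem_span_singleton] at this
    exact hq this
  · rw [hval, he]
  · -- different
    have hmem : aeval z' (derivative (minpoly A z')) ∈ differentIdeal A B :=
      aeval_derivative_mem_differentIdeal A F K z' hz
    have hdvd : w.asIdeal ^ e ∣ P.map (algebraMap A B) := by
      rw [hp, Ideal.map_span, Set.image_singleton, ← HeightOneSpectrum.intValuation_le_pow_iff_dvd, he]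
    have h2 : w.asIdeal ^ (e - 1) ∣ differentIdeal A B :=
      pow_sub_one_dvd_differentIdeal_aux A F K w.asIdeal (by omega) hP0 hdvd
    have h3 : aeval z' (derivative (minpoly A z')) ∈ w.asIdeal ^ (e - 1) := Ideal.dvd_iff_le.mp h2 hmem
    rw [← HeightOneSpectrum.intValuation_le_pow_iff_mem] at h3
    have hfz' : aeval z' f = 0 := by
      have h6 : algebraMap B K (aeval z' f) = aeval z f := by
        rw [← aeval_algebraMap_apply]; rfl
      exact IsFractionRing.injective B K (by rw [h6, hfz, map_zero])
    obtain ⟨h, hh⟩ := minpoly.isIntegrallyClosed_dvd (Algebra.IsIntegral.isIntegral z') hfz'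
    have h4 : aeval z' (derivative f) = aeval z' (derivative (minpoly A z')) * aeval z' h := by
      conv_lhs => rw [hh]
      rw [derivative_mul, map_add, map_mul, map_mul, minpoly.aeval, zero_mul, add_zero]
    have h5 : aeval z (derivative f) = algebraMap B K (aeval z' (derivative f)) := by
      rw [← aeval_algebraMap_apply]; rfl
    rw [h5, HeightOneSpectrum.valuation_of_algebraMap, h4, map_mul]
    calc w.intValuation (aeval z' (derivative (minpoly A z'))) * w.intValuation (aeval z' h)
        ≤ exp (-((e - 1 : ℕ) : ℤ)) * 1 := mul_le_mul' h3 (w.intValuation_le_one _)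
      _ = _ := by rw [mul_one, Nat.cast_sub he1]; simp

theorem top_of_top {A F K L : Type} [CommRing A] [Field F] [Field K] [Field L] [Algebra L K]
    [Algebra A F] [Algebra A K] [Algebra F K] [IsScalarTower A F K] {t z : K} (x : A)
    (ht : algebraMap A K x = t) (hL : ∀ l : L, ∃ a : A, algebraMap L K l = algebraMap A K a)
    (hz : IsIntegral A z) (htop : IntermediateField.adjoin L {t, z} = ⊤) :
    FiniteDimensional F K ∧ Algebra.adjoin F {z} = ⊤ := by
  have hzF : IsIntegral F z := hz.tower_top
  have htopF : IntermediateField.adjoin F {z} = ⊤ := by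
    obtain ⟨M, hM⟩ : ∃ M : Subfield K, ∀ y, y ∈ M ↔ y ∈ IntermediateField.adjoin F {z} :=
      ⟨(IntermediateField.adjoin F {z}).toSubfield, fun y => Iff.rfl⟩
    have hA : ∀ a : A, algebraMap A K a ∈ M := by
      intro a
      rw [IsScalarTower.algebraMap_apply A F K, hM]
      exact IntermediateField.algebraMap_mem _ _
    have hzM : z ∈ M := (hM z).mpr (IntermediateField.mem_adjoin_simple_self F z)
    have h1 : IntermediateField.adjoin L {t, z} ≤ M.toIntermediateField (K := L) (fun l => by
          obtain ⟨a, ha⟩ := hL l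
          rw [ha]; exact hA a) := by
      rw [IntermediateField.adjoin_le_iff]
      rintro y (rfl | rfl)
      · rw [← ht]; exact hA x
      · exact hzM
    rw [htop] at h1
    rw [eq_top_iff]
    intro y _
    exact (hM y).mp (h1 (IntermediateField.mem_top (x := y)))
  constructor
  · have := IntermediateField.adjoin.finiteDimensional hzF
    rw [htopF] at this
    exact (IntermediateField.topEquiv (F := F) (E := K)).toLinearEquiv.finiteDimensional
  · rw [← IntermediateField.adjoin_simple_toSubalgebra_of_isAlgebraic hzF.isAlgebraic, htopF, IntermediateField.top_toSubalgebra]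

theorem pole_val {L K : Type} [Field L] [CharZero L] [Field K] [Algebra L K] {t z u : K} (ht : Transcendental L t)
    (htop : IntermediateField.adjoin L {t, z} = ⊤) {f : L[X][X]} (hf : f.Monic)
    (hz : f.eval₂ (Polynomial.aeval t : L[X] →ₐ[L] K).toRingHom z = 0)
    (hu : ¬ IsIntegral (Algebra.adjoin L {t}) u) :
    ∃ (v : Valuation K (WithZero (Multiplicative ℤ))) (p : L[X]) (e : ℕ), Irreducible p ∧ 1 ≤ e ∧
      (∃ π, v π = exp (-1)) ∧ (∀ l : L, v (algebraMap L K l) ≤ 1) ∧ v t ≤ 1 ∧
      (∀ q : L[X], ¬ p ∣ q → v (aeval t q) = 1) ∧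
      v (aeval t p) = exp (-(e : ℤ)) ∧
      v ((derivative f).eval₂ (Polynomial.aeval t : L[X] →ₐ[L] K).toRingHom z) ≤ exp (-((e : ℤ) - 1)) ∧
      1 < v u := by
  let alg : Algebra L[X] K := (aeval t : L[X] →ₐ[L] K).toRingHom.toAlgebra
  have halg : ∀ q : L[X], algebraMap L[X] K q = aeval t q := fun q => rfl
  have hinj : Function.Injective (algebraMap L[X] K) := (transcendental_iff_injective.mp ht)
  have hfs : FaithfulSMul L[X] K := (faithfulSMul_iff_algebraMap_injective _ _).mpr hinj
  obtain ⟨F, fF, aF, hFr, aK, sT⟩ : ∃ (F : Type) (_ : Field F) (_ : Algebra L[X] F) (_ : IsFractionRing L[X] F)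
      (_ : Algebra F K), IsScalarTower L[X] F K :=
    ⟨FractionRing L[X], inferInstance, inferInstance, inferInstance, FractionRing.liftAlgebra L[X] K,
      FractionRing.isScalarTower_liftAlgebra L[X] K⟩
  have hzf : aeval z f = 0 := hz
  have hzI : IsIntegral L[X] z := ⟨f, hf, hz⟩
  have hL : ∀ l : L, algebraMap L K l = algebraMap L[X] K (C l) := by
    intro l
    rw [halg, aeval_C]
  have hX : algebraMap L[X] K X = t := by rw [halg, aeval_X]
  obtain ⟨hfd, hadj⟩ := top_of_top (F := F) X hX (fun l => ⟨C l, hL l⟩) hzI htop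
  have hcF : CharZero F := by
    have h1 : Function.Injective (algebraMap L[X] F) := IsFractionRing.injective L[X] F
    exact charZero_of_injective_algebraMap h1
  have hu' : ¬ IsIntegral L[X] u := by
    rintro ⟨g, hg, hg0⟩
    apply hu
    let φ : L[X] →ₐ[L] Algebra.adjoin L {t} :=
      (aeval (⟨t, Algebra.self_mem_adjoin_singleton L t⟩ : Algebra.adjoin L {t}) : L[X] →ₐ[L] _)
    refine ⟨g.map (φ : L[X] →+* Algebra.adjoin L {t}), hg.map _, ?_⟩
    rw [eval₂_map]
    have h2 : (algebraMap (Algebra.adjoin L {t}) K).comp (φ : L[X] →+* Algebra.adjoin L {t}) = algebraMap L[X] K := by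
      apply Polynomial.ringHom_ext
      · intro a
        rw [← hL]
        simp [φ]
      · rw [hX]
        simp [φ]
    rw [h2]
    exact hg0
  obtain ⟨v, p, e, hpi, he1, hπ, hB, hq, hp, hd, huv⟩ := dedekind_pole (F := F) hadj hf hzf hu'
  refine ⟨v, p, e, hpi, he1, hπ, fun l => ?_, ?_, hq, hp, hd, huv⟩
  · rw [hL]; exact hB _ isIntegral_algebraMap
  · rw [← hX]; exact hB _ isIntegral_algebraMap

/-- The value of `f ∈ L[t][Z]` at `(t, z)`. -/
def ev2 {K : Type} [Field K] [Algebra ℂ K] {L : IntermediateField ℂ K} (t z : K) (f : L[X][X]) : K :=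
  f.eval₂ (Polynomial.aeval t : L[X] →ₐ[L] K).toRingHom z

/-- A place over `L` with a pole of `u`; `e` is its ramification index over `L(t)`. -/
theorem exists_pole {K : Type} [Field K] [Algebra ℂ K] {k : ℕ} (L : IntermediateField ℂ K) {x : Fin k → L}
    (hx : AlgebraicIndependent ℂ x) {t z : K} (ht : Transcendental L t)
    (htop : IntermediateField.adjoin L {t, z} = ⊤) {f : L[X][X]} (hf : f.Monic) (hz : ev2 t z f = 0) {u : K}
    (hu : ¬ IsIntegral (Algebra.adjoin L {t}) u) :
    ∃ (E : PrimeDivisorOver K (k + 1)) (p : L[X]) (e : ℕ), 1 ≤ e ∧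
      (∀ l : L, l ≠ 0 → E.ord (l : K) = 0) ∧ 0 ≤ E.ord t ∧
      E.ord (aeval t p) = ((e : ℤ) : WithTop ℤ) ∧ E.ord (aeval t (derivative p)) = 0 ∧
      (((e : ℤ) - 1 : ℤ) : WithTop ℤ) ≤ E.ord (ev2 t z (derivative f)) ∧ E.ord u < 0 := by
  obtain ⟨v, p, e, hpi, he1, ⟨π, hπ⟩, hL, htv, hq, hp, hd, huv⟩ := pole_val ht htop hf hz hu
  set V : AddValuation K (WithTop ℤ) := Pool.Agent.H62.FC.Place_add v with hV
  have hVapp : ∀ g : K, V g = Pool.Agent.H62.FC.Place_phi (v g) := fun g => rfl
  have hln : ∀ l : L, 0 ≤ V (l : K) := fun l => by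
    rw [hVapp, Pool.Agent.H62.FC.Place_phi_nonneg_iff]
    exact hL l
  have hl0 : ∀ l : L, l ≠ 0 → V (l : K) = 0 := by
    intro l hl
    have h1 : V (l : K) + V ((l⁻¹ : L) : K) = 0 := by
      have : (l : K) * ((l⁻¹ : L) : K) = 1 := by
        rw [← IntermediateField.coe_mul, mul_inv_cancel₀ hl, IntermediateField.coe_one]
      rw [← V.map_mul, this, V.map_one]
    have h2 := hln l
    have h3 := hln l⁻¹
    exact le_antisymm (by
      calc V (l : K) = V (l : K) + 0 := (add_zero _).symm
        _ ≤ V (l : K) + V ((l⁻¹ : L) : K) := by gcongr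
        _ = 0 := h1) h2
  have hres : ∀ P : MvPolynomial (Fin k) ℂ, P ≠ 0 →
      V (MvPolynomial.aeval (fun i => (x i : K)) P) = 0 := by
    intro P hP
    have h1 : MvPolynomial.aeval (fun i : Fin k => (x i : K)) P
        = ((MvPolynomial.aeval x P : L) : K) := MvPolynomial.aeval_algebraMap_apply K x P
    rw [h1]
    refine hl0 _ fun h0 => hP ?_
    have hx' : Function.Injective (MvPolynomial.aeval (R := ℂ) x) := hx
    exact hx' (h0.trans (map_zero _).symm)
  have hp' : V (aeval t (derivative p)) = 0 := by
    rw [hVapp, hq, Pool.Agent.H62.FC.Place_phi_one]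
    intro hdvd
    have hpd : 0 < p.natDegree := hpi.natDegree_pos
    have h0 : derivative p ≠ 0 := by
      intro h0
      have := derivative_eq_zero.mp h0
      omega
    have := natDegree_le_of_dvd hdvd h0
    have := natDegree_derivative_lt (p := p) (by omega)
    omega
  refine ⟨⟨V, fun c => ?_, ⟨π, ?_⟩, ⟨fun i => (x i : K), fun i => hln _, hres⟩⟩, p, e, he1, hl0, ?_, ?_, hp', ?_, ?_⟩
  · exact hln (algebraMap ℂ L c)
  · rw [hVapp, hπ, Pool.Agent.H62.FC.Place_phi_exp]; simp
  · change 0 ≤ V t
    rw [hVapp, Pool.Agent.H62.FC.Place_phi_nonneg_iff]; exact htv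
  · change V _ = _
    rw [hVapp, hp, Pool.Agent.H62.FC.Place_phi_exp]; simp
  · change _ ≤ V _
    have := Pool.Agent.H62.FC.Place_phi_anti hd
    rw [Pool.Agent.H62.FC.Place_phi_exp] at this
    rw [hVapp]
    refine le_trans (le_of_eq ?_) this
    congr 1
    ring
  · change V u < 0
    rw [← not_le, hVapp, Pool.Agent.H62.FC.Place_phi_nonneg_iff, not_le]
    exact huv

end Pool.Agent.H66.CY
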