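import Pool.Agent.H66.CY.Coord

/-!
# Algebra of the fibres

Row text. `restr t` is an algebra homomorphism (`MvPolynomial.aeval`), `aeval (lft t f)` is
`aeval f` after `restr t` (compare on variables: `MvPolynomial.algHom_ext` or
`MvPolynomial.induction_on`; `Fin.cases`). `dsub_lft`: with `Q = C t * A - B`,
`tot A B = (X 0 - C t * X 1) * A + X 1 * Q`, product rule for `pderiv`; the values of the factors at
`lft t f` are `0`, `f 0`, and `∑ i, aeval (lft t f) (pderiv i Q) * g i` is
`(g 0 - C t * g 1) * aeval (lft t f) (pderiv 0 Q) + dsub (fib t A B) f (g ∘ succ)` by the chain rule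
`dsub (restr t P) f g' = ∑ i, aeval (lft t f) (pderiv i P) * (Fin.cons (C t * g' 0) g') i`
(`dsub_restr`; prove it by induction on `P`, both sides are derivations in `P`).
-/

noncomputable section

namespace Pool.Agent.H66.CY

variable {M D k : ℕ}

theorem restr_X_zero (t : ℂ) : restr (M := M) t (MvPolynomial.X 0) =
    MvPolynomial.C t * MvPolynomial.X 0 := by
  unfold restr
  rw [MvPolynomial.aeval_X, Fin.cons_zero]

theorem restr_X_succ (t : ℂ) (i : Fin (M + 1)) :
    restr t (MvPolynomial.X i.succ) = MvPolynomial.X i := by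
  unfold restr
  rw [MvPolynomial.aeval_X, Fin.cons_succ]

theorem restr_rename (t : ℂ) (P : MvPolynomial (Fin (M + 1)) ℂ) :
    restr t (MvPolynomial.rename Fin.succ P) = P := by
  unfold restr
  rw [MvPolynomial.aeval_rename]
  have h : (Fin.cons (MvPolynomial.C t * MvPolynomial.X 0) MvPolynomial.X :
      Fin (M + 2) → MvPolynomial (Fin (M + 1)) ℂ) ∘ Fin.succ = MvPolynomial.X := by
    funext i
    simp
  rw [h, MvPolynomial.aeval_X_left_apply]

theorem restr_mul (t : ℂ) (P Q : MvPolynomial (Fin (M + 2)) ℂ) :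
    restr t (P * Q) = restr t P * restr t Q := by
  exact map_mul _ _ _

theorem restr_add (t : ℂ) (P Q : MvPolynomial (Fin (M + 2)) ℂ) :
    restr t (P + Q) = restr t P + restr t Q := by
  exact map_add _ _ _

theorem restr_sub (t : ℂ) (P Q : MvPolynomial (Fin (M + 2)) ℂ) :
    restr t (P - Q) = restr t P - restr t Q := by
  exact map_sub _ _ _

theorem restr_C (t a : ℂ) : restr (M := M) t (MvPolynomial.C a) = MvPolynomial.C a := by
  exact MvPolynomial.algHom_C _ _

theorem restr_tot (t : ℂ) (A B : MvPolynomial (Fin (M + 2)) ℂ) :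
    restr t (tot A B) = MvPolynomial.X 0 * fib t A B := by
  have h1 : (MvPolynomial.X 1 : MvPolynomial (Fin (M + 2)) ℂ) = MvPolynomial.X (Fin.succ 0) := rfl
  unfold tot fib
  rw [restr_sub, restr_mul, restr_mul, restr_X_zero, h1, restr_X_succ, restr_sub, restr_mul,
    restr_C]
  ring

theorem isHomogeneous_restr {t : ℂ} {P : MvPolynomial (Fin (M + 2)) ℂ} (hP : P.IsHomogeneous D) :
    (restr t P).IsHomogeneous D := by
  unfold restr
  have h := hP.aeval (Fin.cons (MvPolynomial.C t * MvPolynomial.X 0) MvPolynomial.X :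
    Fin (M + 2) → MvPolynomial (Fin (M + 1)) ℂ) (n := 1) (fun i => by
      refine Fin.cases ?_ (fun j => ?_) i
      · rw [Fin.cons_zero]
        have := (MvPolynomial.isHomogeneous_C (Fin (M + 1)) t).mul
          (MvPolynomial.isHomogeneous_X ℂ (0 : Fin (M + 1)))
        simpa using this
      · rw [Fin.cons_succ]
        exact MvPolynomial.isHomogeneous_X ℂ j)
  rwa [one_mul] at h

theorem isHomogeneous_fib {t : ℂ} {A B : MvPolynomial (Fin (M + 2)) ℂ} (hA : A.IsHomogeneous D)
    (hB : B.IsHomogeneous D) : (fib t A B).IsHomogeneous D := by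
  unfold fib
  refine isHomogeneous_restr (MvPolynomial.IsHomogeneous.sub ?_ hB)
  have := (MvPolynomial.isHomogeneous_C (Fin (M + 2)) t).mul hA
  rwa [zero_add] at this

theorem isHomogeneous_tot {A B : MvPolynomial (Fin (M + 2)) ℂ} (hA : A.IsHomogeneous D)
    (hB : B.IsHomogeneous D) : (tot A B).IsHomogeneous (D + 1) := by
  unfold tot
  refine MvPolynomial.IsHomogeneous.sub ?_ ?_
  · have := (MvPolynomial.isHomogeneous_X ℂ (0 : Fin (M + 2))).mul hA
    rwa [Nat.add_comm 1 D] at this
  · have := (MvPolynomial.isHomogeneous_X ℂ (1 : Fin (M + 2))).mul hB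
    rwa [Nat.add_comm 1 D] at this

theorem aeval_lft (t : ℂ) (f : Fin (M + 1) → Polynomial ℂ) (P : MvPolynomial (Fin (M + 2)) ℂ) :
    MvPolynomial.aeval (lft t f) P = MvPolynomial.aeval f (restr t P) := by
  unfold restr
  rw [← AlgHom.comp_apply, MvPolynomial.comp_aeval]
  congr 2
  funext i
  refine Fin.cases ?_ (fun j => ?_) i
  · unfold lft
    rw [Fin.cons_zero, Fin.cons_zero, map_mul, MvPolynomial.aeval_X, MvPolynomial.algHom_C]
    rfl
  · unfold lft
    rw [Fin.cons_succ, Fin.cons_succ, MvPolynomial.aeval_X]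

theorem aeval_lft_tot (t : ℂ) (f : Fin (M + 1) → Polynomial ℂ)
    (A B : MvPolynomial (Fin (M + 2)) ℂ) :
    MvPolynomial.aeval (lft t f) (tot A B) = f 0 * MvPolynomial.aeval f (fib t A B) := by
  rw [aeval_lft, restr_tot, map_mul, MvPolynomial.aeval_X]

theorem degLE_lft {t : ℂ} {e : ℕ} {f : Fin (M + 1) → Polynomial ℂ} (hf : DegLE e f) :
    DegLE e (lft t f) := by
  intro i
  refine Fin.cases ?_ (fun j => ?_) i
  · unfold lft
    rw [Fin.cons_zero]
    exact (Polynomial.natDegree_C_mul_le _ _).trans (hf 0)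
  · unfold lft
    rw [Fin.cons_succ]
    exact hf j

private theorem fa_dsub_add {N : ℕ} (P Q : MvPolynomial (Fin N) ℂ) (f g : Fin N → Polynomial ℂ) :
    dsub (P + Q) f g = dsub P f g + dsub Q f g := by
  unfold dsub
  rw [← Finset.sum_add_distrib]
  refine Finset.sum_congr rfl fun i _ => ?_
  rw [map_add, map_add, add_mul]

private theorem fa_dsub_sub {N : ℕ} (P Q : MvPolynomial (Fin N) ℂ) (f g : Fin N → Polynomial ℂ) :
    dsub (P - Q) f g = dsub P f g - dsub Q f g := by
  unfold dsub
  rw [← Finset.sum_sub_distrib]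
  refine Finset.sum_congr rfl fun i _ => ?_
  rw [map_sub, map_sub, sub_mul]

private theorem fa_dsub_mul {N : ℕ} (P Q : MvPolynomial (Fin N) ℂ) (f g : Fin N → Polynomial ℂ) :
    dsub (P * Q) f g =
      dsub P f g * MvPolynomial.aeval f Q + MvPolynomial.aeval f P * dsub Q f g := by
  unfold dsub
  rw [Finset.sum_mul, Finset.mul_sum, ← Finset.sum_add_distrib]
  refine Finset.sum_congr rfl fun i _ => ?_
  rw [MvPolynomial.pderiv_mul, map_add, map_mul, map_mul]
  ring

private theorem fa_dsub_C {N : ℕ} (a : ℂ) (f g : Fin N → Polynomial ℂ) :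
    dsub (MvPolynomial.C a) f g = 0 := by
  unfold dsub
  refine Finset.sum_eq_zero fun i _ => ?_
  rw [MvPolynomial.pderiv_C, map_zero, zero_mul]

private theorem fa_dsub_X {N : ℕ} (j : Fin N) (f g : Fin N → Polynomial ℂ) :
    dsub (MvPolynomial.X j) f g = g j := by
  unfold dsub
  rw [Finset.sum_eq_single j]
  · rw [MvPolynomial.pderiv_X_self, map_one, one_mul]
  · intro i _ hi
    rw [MvPolynomial.pderiv_X_of_ne hi.symm, map_zero, zero_mul]
  · intro h
    exact absurd (Finset.mem_univ j) h

theorem dsub_restr (t : ℂ) (P : MvPolynomial (Fin (M + 2)) ℂ) (f g : Fin (M + 1) → Polynomial ℂ) :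
    dsub (restr t P) f g = dsub P (lft t f) (lft t g) := by
  induction P using MvPolynomial.induction_on with
  | C a => rw [restr_C, fa_dsub_C, fa_dsub_C]
  | add P Q hP hQ => rw [restr_add, fa_dsub_add, fa_dsub_add, hP, hQ]
  | mul_X P i hP =>
    have hX : dsub (restr t (MvPolynomial.X i)) f g = lft t g i := by
      refine Fin.cases ?_ (fun j => ?_) i
      · rw [restr_X_zero, fa_dsub_mul, fa_dsub_C, fa_dsub_X, MvPolynomial.algHom_C]
        unfold lft
        rw [Fin.cons_zero, zero_mul, zero_add]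
        rfl
      · rw [restr_X_succ, fa_dsub_X]
        unfold lft
        rw [Fin.cons_succ]
    rw [restr_mul, fa_dsub_mul, fa_dsub_mul, hP, hX, fa_dsub_X, aeval_lft, aeval_lft]

theorem dsub_lft (t : ℂ) (A B : MvPolynomial (Fin (M + 2)) ℂ) (f : Fin (M + 1) → Polynomial ℂ)
    (g : Fin (M + 2) → Polynomial ℂ) :
    dsub (tot A B) (lft t f) g =
      (g 0 - Polynomial.C t * g 1) * (MvPolynomial.aeval (lft t f) A +
        f 0 * MvPolynomial.aeval (lft t f) (MvPolynomial.pderiv 0 (MvPolynomial.C t * A - B))) +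
      f 0 * dsub (fib t A B) f (fun i => g i.succ) +
      g 1 * MvPolynomial.aeval f (fib t A B) := by
  have h1 : (MvPolynomial.X 1 : MvPolynomial (Fin (M + 2)) ℂ) = MvPolynomial.X (Fin.succ 0) := rfl
  have l0 : lft t f 0 = Polynomial.C t * f 0 := by
    unfold lft
    rw [Fin.cons_zero]
  have l1 : lft t f 1 = f 0 := rfl
  have e1 : dsub (tot A B) (lft t f) g = g 0 * MvPolynomial.aeval (lft t f) A +
      Polynomial.C t * f 0 * dsub A (lft t f) g - (g 1 * MvPolynomial.aeval (lft t f) B +
        f 0 * dsub B (lft t f) g) := by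
    unfold tot
    rw [fa_dsub_sub, fa_dsub_mul, fa_dsub_mul, fa_dsub_X, fa_dsub_X, MvPolynomial.aeval_X,
      MvPolynomial.aeval_X, l0, l1]
  have e2 : dsub (fib t A B) f (fun i => g i.succ) =
      dsub (MvPolynomial.C t * A - B) (lft t f) (lft t fun i => g i.succ) := by
    unfold fib
    rw [dsub_restr]
  have e3 : dsub (MvPolynomial.C t * A - B) (lft t f) g =
      dsub (MvPolynomial.C t * A - B) (lft t f) (lft t fun i => g i.succ) +
      MvPolynomial.aeval (lft t f) (MvPolynomial.pderiv 0 (MvPolynomial.C t * A - B)) *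
        (g 0 - Polynomial.C t * g 1) := by
    unfold dsub
    rw [Fin.sum_univ_succ, Fin.sum_univ_succ (n := M + 1) (f := fun i =>
      MvPolynomial.aeval (lft t f) (MvPolynomial.pderiv i (MvPolynomial.C t * A - B)) *
        lft t (fun i => g i.succ) i)]
    have e4 : ∀ i : Fin (M + 1), lft t (fun i => g i.succ) i.succ = g i.succ := by
      intro i
      unfold lft
      rw [Fin.cons_succ]
    have e5 : lft t (fun i : Fin (M + 1) => g i.succ) 0 = Polynomial.C t * g 1 := by
      unfold lft
      rw [Fin.cons_zero]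
      rfl
    simp only [e4, e5]
    ring
  have e6 : dsub (MvPolynomial.C t * A - B) (lft t f) g =
      Polynomial.C t * dsub A (lft t f) g - dsub B (lft t f) g := by
    rw [fa_dsub_sub, fa_dsub_mul, fa_dsub_C, MvPolynomial.algHom_C, zero_mul, zero_add]
    rfl
  have e7 : MvPolynomial.aeval f (fib t A B) = Polynomial.C t * MvPolynomial.aeval (lft t f) A -
      MvPolynomial.aeval (lft t f) B := by
    unfold fib
    rw [← aeval_lft, map_sub, map_mul, MvPolynomial.algHom_C]
    rfl
  rw [e6] at e3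
  rw [e1, e2, e7]
  linear_combination (f 0) * e3

end Pool.Agent.H66.CY
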