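import Pool.Agent.H66.CY.Coord

/-!
# Algebraically independent tuples are dense

Row text. `exists_near`: copy of the private lemma of the same name in
`Pool/Agent/H17GT/ModNEAR.lean` (lines 13-56), with the lemma before it. `exists_generic_near`: apply
it to `coefOf d F₀` and take `formOf` (`coeff_formOf`; the coefficients in other degrees are zero for
both forms). `exists_form`: forms of degree `d` whose coefficients are algebraically independent exist
(take `F₀ = 0`). `Generic.ne_zero`: a member of an algebraically independent family is not zero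
(`AlgebraicIndependent.ne_zero`), and `Ix N d` is not empty for `N > 0` (`Finsupp.single 0 d`).
-/

noncomputable section

namespace Pool.Agent.H66.CY

private theorem GenNear_countable {α : Type} [Finite α] (b : α → ℂ) :
    Countable (Algebra.adjoin ℚ (Set.range b)) := by
  have h1 : Countable (MvPolynomial α ℚ) := by
    rw [← Cardinal.mk_le_aleph0_iff]
    refine MvPolynomial.cardinalMk_le_max.trans ?_
    rw [max_le_iff, max_le_iff]
    refine ⟨⟨?_, ?_⟩, le_refl _⟩
    · exact Cardinal.mk_le_aleph0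
    · exact Cardinal.mk_le_aleph0
  have h2 : (Algebra.adjoin ℚ (Set.range b) : Set ℂ) =
      Set.range (MvPolynomial.aeval b : MvPolynomial α ℚ →ₐ[ℚ] ℂ) := by
    rw [Algebra.adjoin_range_eq_range_aeval]
    rfl
  have h3 : (Algebra.adjoin ℚ (Set.range b) : Set ℂ).Countable := by
    rw [h2]
    exact Set.countable_range _
  exact h3.to_subtype

theorem exists_near (α : Type) [Finite α] (a : α → ℂ) (ε : ℝ) (hε : 0 < ε) :
    ∃ b : α → ℂ, (∀ i, ‖b i - a i‖ < ε) ∧ AlgebraicIndependent ℚ b := by
  revert a ε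
  refine Finite.induction_empty_option (P := fun α => ∀ (a : α → ℂ) (ε : ℝ), 0 < ε →
    ∃ b : α → ℂ, (∀ i, ‖b i - a i‖ < ε) ∧ AlgebraicIndependent ℚ b) ?_ ?_ ?_ α
  · intro α β e ih a ε hε
    obtain ⟨b, hb, hi⟩ := ih (a ∘ e) ε hε
    refine ⟨b ∘ e.symm, fun i => ?_, ?_⟩
    · have := hb (e.symm i)
      simpa using this
    · exact (algebraicIndependent_equiv e.symm).2 hi
  · intro a ε _
    exact ⟨a, fun i => i.elim, algebraicIndependent_empty_type⟩
  · intro α _ ih a ε hε
    obtain ⟨b, hb, hi⟩ := ih (fun i => a (some i)) ε hε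
    have hc : Countable (Algebra.adjoin ℚ (Set.range b)) := GenNear_countable b
    have h1 : Set.Countable {x : ℂ | IsAlgebraic (Algebra.adjoin ℚ (Set.range b)) x} :=
      Algebraic.countable _ _
    have h2 : Dense {x : ℂ | IsAlgebraic (Algebra.adjoin ℚ (Set.range b)) x}ᶜ :=
      h1.dense_compl ℝ
    obtain ⟨y, hy, hyd⟩ := h2.exists_dist_lt (a none) hε
    refine ⟨fun o => o.elim y b, fun i => ?_, ?_⟩
    · cases i with
      | none =>
        rw [dist_comm, dist_eq_norm] at hyd
        exact hyd
      | some i => exact hb i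
    · exact (hi.option_iff_transcendental y).2 hy

theorem exists_generic_near {N d : ℕ} {F₀ : MvPolynomial (Fin N) ℂ} (hF₀ : F₀.IsHomogeneous d)
    {ε : ℝ} (hε : 0 < ε) :
    ∃ F : MvPolynomial (Fin N) ℂ, F.IsHomogeneous d ∧ NearF ε F₀ F ∧ Generic d F := by
  obtain ⟨b, hb, hi⟩ := exists_near (Ix N d) (coefOf d F₀) ε hε
  refine ⟨formOf b, isHomogeneous_formOf b, fun m => ?_, ?_⟩
  · rw [coeff_formOf]
    by_cases h : m.degree = d
    · rw [dif_pos h]
      exact hb ⟨m, h⟩
    · rw [dif_neg h, hF₀.coeff_eq_zero h, sub_zero, norm_zero]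
      exact hε
  · have h1 : (fun m : {m : Fin N →₀ ℕ // m.degree = d} => (formOf b).coeff m.1) = b :=
      coefOf_formOf b
    unfold Generic
    rw [h1]
    exact hi

theorem exists_generic (N d : ℕ) :
    ∃ F : MvPolynomial (Fin N) ℂ, F.IsHomogeneous d ∧ Generic d F := by
  obtain ⟨F, h1, _, h3⟩ := exists_generic_near (MvPolynomial.isHomogeneous_zero (Fin N) ℂ d)
    one_pos
  exact ⟨F, h1, h3⟩

theorem Generic.ne_zero {N d : ℕ} {F : MvPolynomial (Fin (N + 1)) ℂ} (hF : Generic d F) :
    F ≠ 0 := by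
  intro h0
  have h1 : (Finsupp.single (0 : Fin (N + 1)) d).degree = d := by
    rw [Finsupp.degree_single]
  have h2 := AlgebraicIndependent.ne_zero hF ⟨Finsupp.single 0 d, h1⟩
  apply h2
  show F.coeff _ = 0
  rw [h0, MvPolynomial.coeff_zero]

end Pool.Agent.H66.CY
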