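import Pool.Agent.H66.CY.FibAlg
import Pool.Agent.H66.CY.GenNear

/-!
# Rational fibres of a generic pencil are generic

Row text. `algInd_subst`: if `x` is algebraically independent, `L k` are polynomials over `ℚ` in the
variables `ι` and there is a substitution `ρ` with `aeval ρ (L k) = X k`, then the values `L k (x)` are
algebraically independent: if `P(L(x)) = 0` then `P(L) = 0` (`AlgebraicIndependent` for
`bind₁ L P`), and applying `aeval ρ` gives `P = 0`.

`fib_generic`: `x` = the coefficients of `A` and `B` of degree `D` (index set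
`Ix (M + 2) D ⊕ Ix (M + 2) D`). For `m : Ix (M + 1) D` the coefficient of `fib t A B` at `m` is
`∑ n, κ n m * (t a_n - b_n)`, where `κ n m = t ^ (n 0)` if `m = (n 0 + n 1, n 2, …)` and `0` otherwise
(`restr t (monomial n 1)` is `t ^ (n 0)` times the monomial with exponent `(n 0 + n 1, n 2, …)`); these
are the values of polynomials `L m` over `ℚ`. Let `ρ` send the variables `a_n` and the `b_n` with
`n 0 ≠ 0` to `0`, and `b_n` with `n 0 = 0` to `- X (n 1, n 2, …)`; then `aeval ρ (L m) = X m`.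
-/

noncomputable section

namespace Pool.Agent.H66.CY

theorem algInd_subst {ι κ : Type} {x : ι → ℂ} (hx : AlgebraicIndependent ℚ x)
    (L : κ → MvPolynomial ι ℚ) (ρ : ι → MvPolynomial κ ℚ)
    (hρ : ∀ k, MvPolynomial.aeval ρ (L k) = MvPolynomial.X k) :
    AlgebraicIndependent ℚ (fun k => MvPolynomial.aeval x (L k)) := by
  rw [algebraicIndependent_iff]
  intro P hP
  have h1 : MvPolynomial.aeval x (MvPolynomial.bind₁ L P) = 0 := by
    rw [MvPolynomial.aeval_bind₁]
    exact hP
  have h2 := (algebraicIndependent_iff.1 hx) _ h1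
  have h3 : MvPolynomial.aeval ρ (MvPolynomial.bind₁ L P) = P := by
    rw [MvPolynomial.aeval_bind₁]
    have h4 : (fun k => MvPolynomial.aeval ρ (L k)) = (MvPolynomial.X : κ → MvPolynomial κ ℚ) :=
      funext hρ
    rw [h4, MvPolynomial.aeval_X_left_apply]
  rw [← h3, h2, map_zero]

/-- The exponent `(n 0 + n 1, n 2, …)`. -/
private def prj {M : ℕ} (n : Fin (M + 2) →₀ ℕ) : Fin (M + 1) →₀ ℕ :=
  Finsupp.single 0 (n 0) + Finsupp.tail n

private theorem degree_tail {M : ℕ} (n : Fin (M + 2) →₀ ℕ) :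
    n.degree = n 0 + (Finsupp.tail n).degree := by
  rw [Finsupp.degree_eq_sum, Finsupp.degree_eq_sum, Fin.sum_univ_succ]
  rfl

private theorem degree_cons {M : ℕ} (m : Fin (M + 1) →₀ ℕ) :
    (Finsupp.cons 0 m : Fin (M + 2) →₀ ℕ).degree = m.degree := by
  rw [degree_tail, Finsupp.cons_zero, Finsupp.tail_cons, zero_add]

private theorem restr_monomial {M : ℕ} (t c : ℂ) (n : Fin (M + 2) →₀ ℕ) :
    restr t (MvPolynomial.monomial n c) = MvPolynomial.monomial (prj n) (t ^ (n 0) * c) := by
  unfold restr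
  rw [MvPolynomial.aeval_monomial, Finsupp.prod_fintype _ _ (fun _ => pow_zero _),
    Fin.prod_univ_succ, Fin.cons_zero]
  have h1 : ∏ i : Fin (M + 1), (Fin.cons (MvPolynomial.C t * MvPolynomial.X 0) MvPolynomial.X :
      Fin (M + 2) → MvPolynomial (Fin (M + 1)) ℂ) i.succ ^ n i.succ
      = MvPolynomial.monomial (Finsupp.tail n) 1 := by
    rw [MvPolynomial.monomial_eq, Finsupp.prod_fintype _ _ (fun _ => pow_zero _), MvPolynomial.C_1,
      one_mul]
    refine Finset.prod_congr rfl fun i _ => ?_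
    rw [Fin.cons_succ]
    rfl
  rw [h1, mul_pow, ← MvPolynomial.C_pow, MvPolynomial.algebraMap_eq, MvPolynomial.X_pow_eq_monomial,
    MvPolynomial.C_mul_monomial, MvPolynomial.monomial_mul, MvPolynomial.C_mul_monomial]
  unfold prj
  congr 1
  ring

private theorem coeff_restr {M D : ℕ} (t : ℂ) {P : MvPolynomial (Fin (M + 2)) ℂ}
    (hP : P.IsHomogeneous D) (m : Fin (M + 1) →₀ ℕ) :
    (restr t P).coeff m = ∑ n : Ix (M + 2) D, if prj n.1 = m then t ^ (n.1 0) * P.coeff n.1 else 0 := by
  classical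
  conv_lhs => rw [← formOf_coefOf hP]
  unfold formOf restr
  rw [map_sum, MvPolynomial.coeff_sum]
  refine Finset.sum_congr rfl fun n _ => ?_
  have h1 := restr_monomial t (coefOf D P n) n.1
  unfold restr at h1
  rw [h1, MvPolynomial.coeff_monomial]
  rfl

theorem fib_generic {M D : ℕ} {A B : MvPolynomial (Fin (M + 2)) ℂ} (hA : A.IsHomogeneous D)
    (hB : B.IsHomogeneous D)
    (h : AlgebraicIndependent ℚ
      (Sum.elim (coefOf D A) (coefOf D B) : Ix (M + 2) D ⊕ Ix (M + 2) D → ℂ)) (t : ℚ) :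
    Generic D (fib (t : ℂ) A B) := by
  classical
  set L : Ix (M + 1) D → MvPolynomial (Ix (M + 2) D ⊕ Ix (M + 2) D) ℚ := fun m =>
    ∑ n : Ix (M + 2) D, if prj n.1 = m.1 then
      MvPolynomial.C (t ^ (n.1 0)) * (MvPolynomial.C t * MvPolynomial.X (Sum.inl n)
        - MvPolynomial.X (Sum.inr n)) else 0 with hL
  set ρ : Ix (M + 2) D ⊕ Ix (M + 2) D → MvPolynomial (Ix (M + 1) D) ℚ :=
    Sum.elim (fun _ => 0) (fun n => if h : (Finsupp.tail n.1).degree = D then
      - MvPolynomial.X ⟨Finsupp.tail n.1, h⟩ else 0) with hρdef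
  have hρ : ∀ m, MvPolynomial.aeval ρ (L m) = MvPolynomial.X m := by
    intro m
    simp only [hL]
    rw [map_sum]
    have hm : (Finsupp.cons 0 m.1 : Fin (M + 2) →₀ ℕ).degree = D := by
      rw [degree_cons, m.2]
    rw [Finset.sum_eq_single (⟨Finsupp.cons 0 m.1, hm⟩ : Ix (M + 2) D)]
    · have h1 : prj (Finsupp.cons 0 m.1 : Fin (M + 2) →₀ ℕ) = m.1 := by
        unfold prj
        rw [Finsupp.cons_zero, Finsupp.tail_cons, Finsupp.single_zero, zero_add]
      rw [if_pos h1]
      simp only [map_mul, map_sub, MvPolynomial.aeval_X, hρdef, Sum.elim_inl, Sum.elim_inr]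
      have h2 : (Finsupp.tail (Finsupp.cons 0 m.1 : Fin (M + 2) →₀ ℕ)).degree = D := by
        rw [Finsupp.tail_cons, m.2]
      rw [dif_pos h2]
      have h3 : (⟨Finsupp.tail (Finsupp.cons 0 m.1 : Fin (M + 2) →₀ ℕ), h2⟩ : Ix (M + 1) D) = m :=
        Subtype.ext (Finsupp.tail_cons _ _)
      rw [h3, Finsupp.cons_zero, pow_zero]
      simp
    · intro n _ hn
      by_cases h1 : prj n.1 = m.1
      · rw [if_pos h1]
        simp only [map_mul, map_sub, MvPolynomial.aeval_X, hρdef, Sum.elim_inl, Sum.elim_inr]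
        have h2 : ¬ (Finsupp.tail n.1).degree = D := by
          intro h2
          apply hn
          have h3 := degree_tail n.1
          rw [n.2, h2] at h3
          have h4 : n.1 0 = 0 := by omega
          apply Subtype.ext
          have h5 : Finsupp.tail n.1 = m.1 := by
            rw [← h1]
            unfold prj
            rw [h4, Finsupp.single_zero, zero_add]
          calc n.1 = Finsupp.cons (n.1 0) (Finsupp.tail n.1) := (Finsupp.cons_tail _).symm
            _ = Finsupp.cons 0 m.1 := by rw [h4, h5]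
        rw [dif_neg h2]
        simp
      · rw [if_neg h1, map_zero]
    · intro h1
      exact absurd (Finset.mem_univ _) h1
  have h0 := algInd_subst h L ρ hρ
  unfold Generic
  have hQ : (MvPolynomial.C (t : ℂ) * A - B).IsHomogeneous D := by
    have h1 : (MvPolynomial.C (t : ℂ) * A).IsHomogeneous D := by
      have := (MvPolynomial.isHomogeneous_C (Fin (M + 2)) (t : ℂ)).mul hA
      rwa [zero_add] at this
    exact h1.sub hB
  have h2 : (fun m : Ix (M + 1) D => (fib (t : ℂ) A B).coeff m.1)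
      = fun k => MvPolynomial.aeval (Sum.elim (coefOf D A) (coefOf D B) :
          Ix (M + 2) D ⊕ Ix (M + 2) D → ℂ) (L k) := by
    funext m
    unfold fib
    rw [coeff_restr (t : ℂ) hQ m.1]
    simp only [hL]
    rw [map_sum]
    refine Finset.sum_congr rfl fun n _ => ?_
    by_cases h1 : prj n.1 = m.1
    · rw [if_pos h1, if_pos h1]
      simp only [map_mul, map_sub, MvPolynomial.aeval_X, Sum.elim_inl, Sum.elim_inr,
        MvPolynomial.algHom_C, MvPolynomial.coeff_sub, MvPolynomial.coeff_C_mul, coefOf]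
      simp
    · rw [if_neg h1, if_neg h1, map_zero]
  rw [h2]
  exact h0

/-- Pairs of forms with algebraically independent coefficients are dense. -/
theorem exists_generic_pair {N D : ℕ} {A₀ B₀ : MvPolynomial (Fin N) ℂ} (hA : A₀.IsHomogeneous D)
    (hB : B₀.IsHomogeneous D) {ε : ℝ} (hε : 0 < ε) :
    ∃ A B : MvPolynomial (Fin N) ℂ, A.IsHomogeneous D ∧ B.IsHomogeneous D ∧ NearF ε A₀ A ∧
      NearF ε B₀ B ∧ AlgebraicIndependent ℚ
        (Sum.elim (coefOf D A) (coefOf D B) : Ix N D ⊕ Ix N D → ℂ) := by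
  obtain ⟨b, hb1, hb2⟩ := exists_near (Ix N D ⊕ Ix N D) (Sum.elim (coefOf D A₀) (coefOf D B₀)) ε hε
  have near : ∀ (F : MvPolynomial (Fin N) ℂ) (a : Ix N D → ℂ), F.IsHomogeneous D →
      (∀ i, ‖a i - coefOf D F i‖ < ε) → NearF ε F (formOf a) := by
    intro F a hF ha m
    rw [coeff_formOf]
    by_cases hm : m.degree = D
    · rw [dif_pos hm]
      exact ha ⟨m, hm⟩
    · rw [dif_neg hm, hF.coeff_eq_zero hm, sub_zero, norm_zero]
      exact hε
  refine ⟨formOf (b ∘ Sum.inl), formOf (b ∘ Sum.inr), isHomogeneous_formOf _, isHomogeneous_formOf _,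
    near A₀ _ hA (fun i => hb1 (Sum.inl i)), near B₀ _ hB (fun i => hb1 (Sum.inr i)), ?_⟩
  rw [coefOf_formOf, coefOf_formOf, Sum.elim_comp_inl_inr]
  exact hb2

end Pool.Agent.H66.CY
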