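import Pool.Agent.H66.CY.Repair
import Pool.Agent.H66.CY.FibGen

/-!
# `FibGood` is dense

Row text. `exists_generic_pair` within `ε / 2`, `fib_generic`: `q = fib t A B` is generic, so
`Good D (k + 1) q` with curves `f_j`. Keep the `j` with `f_j 0 ≠ 0` (index type a subtype). They still
detect in degree `k`: if `G` (degree `k`) vanishes on them, `X 0 * G` (degree `k + 1`) vanishes on all
`f_j`, so `q ∣ X 0 * G`, and `q ∣ G` because `X 0` is prime and does not divide `q` (`M ≥ 1`: the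
coefficient of `X 1 ^ D` in `q` is a member of an algebraically independent family, so `≠ 0`).
`repair` with `ε / 2`.
-/

noncomputable section

namespace Pool.Agent.H66.CY

variable {M D k : ℕ}

theorem fibGood_dense (hM : 1 ≤ M) (hD : 2 ≤ D)
    (IH : ∀ F : MvPolynomial (Fin (M + 1)) ℂ, F.IsHomogeneous D → Generic D F → Good D (k + 1) F)
    (t : ℚ) {A₀ B₀ : MvPolynomial (Fin (M + 2)) ℂ} (hA₀ : A₀.IsHomogeneous D)
    (hB₀ : B₀.IsHomogeneous D) {ε : ℝ} (hε : 0 < ε) :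
    ∃ A B : MvPolynomial (Fin (M + 2)) ℂ, A.IsHomogeneous D ∧ B.IsHomogeneous D ∧
      NearF ε A₀ A ∧ NearF ε B₀ B ∧ fib (t : ℂ) A B ≠ 0 ∧ FibGood D k (t : ℂ) A B := by
  obtain ⟨A₁, B₁, hA₁, hB₁, nA, nB, hind⟩ := exists_generic_pair hA₀ hB₀ (half_pos hε)
  have hgen := fib_generic hA₁ hB₁ hind t
  have hq : (fib (t : ℂ) A₁ B₁).IsHomogeneous D := isHomogeneous_fib hA₁ hB₁
  obtain ⟨ι, hι, e, f, hf, hdet⟩ := IH _ hq hgen
  obtain ⟨A', B', hA', hB', nA', nB', hfib, hun⟩ := repair hD hA₁ hB₁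
    (ι := {j : ι // f j 0 ≠ 0}) (f := fun j => f j.1) (fun j => hf j.1) (fun j => j.2) (half_pos hε)
  have near : ∀ {P₀ P₁ P₂ : MvPolynomial (Fin (M + 2)) ℂ}, NearF (ε / 2) P₀ P₁ →
      NearF (ε / 2) P₁ P₂ → NearF ε P₀ P₂ := by
    intro P₀ P₁ P₂ h1 h2 m
    have h3 : P₂.coeff m - P₀.coeff m = (P₂.coeff m - P₁.coeff m) + (P₁.coeff m - P₀.coeff m) := by
      ring
    rw [h3]
    refine (norm_add_le _ _).trans_lt ?_
    have h4 := h1 m
    have h5 := h2 m
    linarith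
  have hne : fib (t : ℂ) A₁ B₁ ≠ 0 := Generic.ne_zero hgen
  refine ⟨A', B', hA', hB', near nA nA', near nB nB', by rw [hfib]; exact hne,
    {j : ι // f j 0 ≠ 0}, inferInstance, fun j => e j.1, fun j => f j.1,
    fun j => ⟨by rw [hfib]; exact hf j.1, hun j⟩, ?_⟩
  intro G hG hv
  rw [hfib]
  have h1 : fib (t : ℂ) A₁ B₁ ∣ MvPolynomial.X 0 * G := by
    refine hdet _ ?_ fun j => ?_
    · have h0 := (MvPolynomial.isHomogeneous_X ℂ (0 : Fin (M + 1))).mul hG
      have h0' : 1 + k = k + 1 := Nat.add_comm _ _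
      rwa [h0'] at h0
    · rw [map_mul, MvPolynomial.aeval_X]
      by_cases hj : f j 0 = 0
      · rw [hj, zero_mul]
      · rw [hv ⟨j, hj⟩, mul_zero]
  obtain ⟨h, hh⟩ := h1
  have h2 : (MvPolynomial.X 0 : MvPolynomial (Fin (M + 1)) ℂ) ∣ fib (t : ℂ) A₁ B₁ * h :=
    ⟨G, hh.symm⟩
  have hprime : Prime (MvPolynomial.X 0 : MvPolynomial (Fin (M + 1)) ℂ) := MvPolynomial.X_prime
  rcases hprime.dvd_or_dvd h2 with h3 | h3
  · exfalso
    obtain ⟨r, hr⟩ := h3
    have hdeg : (Finsupp.single (Fin.last M) D).degree = D := by simp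
    have h4 := AlgebraicIndependent.ne_zero hgen ⟨Finsupp.single (Fin.last M) D, hdeg⟩
    refine h4 ?_
    simp only [hr]
    rw [MvPolynomial.coeff_X_mul', if_neg]
    rw [Finsupp.mem_support_iff, not_not, Finsupp.single_apply, if_neg]
    intro h5
    have := congrArg Fin.val h5
    simp at this
    omega
  · obtain ⟨r, hr⟩ := h3
    refine ⟨r, ?_⟩
    have h4 : (MvPolynomial.X 0 : MvPolynomial (Fin (M + 1)) ℂ) * G =
        MvPolynomial.X 0 * (fib (t : ℂ) A₁ B₁ * r) := by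
      rw [hh, hr]
      ring
    exact mul_left_cancel₀ (MvPolynomial.X_ne_zero 0) h4

end Pool.Agent.H66.CY
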