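import Pool.Agent.H66.CY.FibNear
import Pool.Agent.H66.CY.Deform
import Pool.Agent.H66.CY.DetOpen

/-!
# `FibGood` is open

Row text. Let the curves `f_j` (finitely many) witness `FibGood D k t A₀ B₀`. `onto_open` for
`tot A₀ B₀` and each `lft t (f_j)`, `detects_open` for `fib t A₀ B₀`: constants. `deform_all` in the
fibre with a small `δ` (so that also `nearC_lft` is small enough) gives curves for `fib t A B` near
`fib t A₀ B₀` (`near_fib`, `near_tot`). `aeval (lft t f) (tot A B) = 0` by `aeval_lft_tot`.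
-/

noncomputable section

namespace Pool.Agent.H66.CY

variable {M D k : ℕ}

theorem fibGood_open {t : ℂ} {A₀ B₀ : MvPolynomial (Fin (M + 2)) ℂ} (hA₀ : A₀.IsHomogeneous D)
    (hB₀ : B₀.IsHomogeneous D) (hq : fib t A₀ B₀ ≠ 0) (h : FibGood D k t A₀ B₀) :
    ∃ ε > 0, ∀ A B : MvPolynomial (Fin (M + 2)) ℂ, A.IsHomogeneous D → B.IsHomogeneous D →
      NearF ε A₀ A → NearF ε B₀ B → FibGood D k t A B := by
  obtain ⟨ι, hι, e, f₀, hf₀, hdet⟩ := h
  have hF₀ := isHomogeneous_fib (t := t) hA₀ hB₀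
  have hT₀ := isHomogeneous_tot hA₀ hB₀
  obtain ⟨ε₁, hε₁, H₁⟩ := detects_open hF₀ hq (fun j => (hf₀ j).1.deg) (fun j => (hf₀ j).1.zero) hdet
  choose ε₂' hε₂' H₂' using fun j =>
    onto_open hT₀ (degLE_lft (t := t) (hf₀ j).1.deg) (hf₀ j).2.onto
  obtain ⟨ε₂, hε₂, hle⟩ : ∃ ε₂ > 0, ∀ j, ε₂ < ε₂' j := by
    have h1 : ∀ᶠ x in nhdsWithin (0 : ℝ) (Set.Ioi 0), ∀ j, x < ε₂' j := by
      rw [Filter.eventually_all]
      intro j
      filter_upwards [Ioo_mem_nhdsGT (hε₂' j)] with x hx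
      exact hx.2
    obtain ⟨x, hx, hx0⟩ := (h1.and self_mem_nhdsWithin).exists
    exact ⟨x, hx0, hx⟩
  have ht : 0 < 1 + ‖t‖ := by positivity
  have hδ : 0 < min ε₁ (ε₂ / (1 + ‖t‖)) := lt_min hε₁ (div_pos hε₂ ht)
  obtain ⟨ε₃, hε₃, H₃⟩ := deform_all hF₀ (fun j => (hf₀ j).1) hδ
  obtain ⟨ε₄, hε₄, H₄⟩ := near_fib t hA₀ hB₀ (lt_min hε₁ hε₃)
  refine ⟨min ε₄ (ε₂ / 2), lt_min hε₄ (half_pos hε₂), fun A B hA hB hnA hnB => ?_⟩
  have hF := isHomogeneous_fib (t := t) hA hB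
  have hnF := H₄ A B hA hB (fun m => (hnA m).trans_le (min_le_left _ _))
    (fun m => (hnB m).trans_le (min_le_left _ _))
  obtain ⟨f, hf⟩ := H₃ _ hF (fun m => (hnF m).trans_le (min_le_right _ _))
  refine ⟨ι, hι, e, f, fun j => ⟨(hf j).2, (hf j).2.one_le, degLE_lft (hf j).2.deg, ?_, ?_⟩, ?_⟩
  · rw [aeval_lft_tot, (hf j).2.zero, mul_zero]
  · refine H₂' j _ _ (isHomogeneous_tot hA hB) (degLE_lft (hf j).2.deg) (fun m => ?_)
      (fun i n => ?_)
    · have h1 := near_tot (fun m => (hnA m).trans_le (min_le_right _ _))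
        (fun m => (hnB m).trans_le (min_le_right _ _)) m
      have h2 := hle j
      linarith
    · have h1 := nearC_lft t hδ (hf j).1 i n
      refine h1.trans_le ?_
      have h2 : (1 + ‖t‖) * min ε₁ (ε₂ / (1 + ‖t‖)) ≤ (1 + ‖t‖) * (ε₂ / (1 + ‖t‖)) :=
        mul_le_mul_of_nonneg_left (min_le_right _ _) ht.le
      rw [mul_div_cancel₀ _ ht.ne'] at h2
      exact h2.trans (hle j).le
  · exact H₁ _ f hF (fun j => (hf j).2.deg) (fun m => (hnF m).trans_le (min_le_left _ _))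
      (fun j i n => ((hf j).1 i n).trans_le (min_le_left _ _)) (fun j => (hf j).2.zero)

end Pool.Agent.H66.CY
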