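import Pool.Agent.H66.CY.Coord
import Pool.Agent.H66.CY.AutTr

/-!
# Transport by automorphisms of the complex numbers

Row text. `σ` acts on everything: `F ↦ map σ F`, `f ↦ (fun i => (f i).map σ)`.
`aeval (f^σ) (F^σ) = (aeval f F)^σ` (`MvPolynomial.map_aeval`-type lemma, or induction on `F`),
`pderiv` commutes with `map` (`MvPolynomial.pderiv_map`), `natDegree` is preserved
(`Polynomial.natDegree_map_eq_of_injective`), `map σ` has the inverse `map σ.symm`. So `DegLE`, `Onto`,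
`Unobst`, `Detects` are transported, hence `Good`. For `good_of_conj`: two forms with algebraically
independent coefficients are conjugate (`exists_aut` for the families `F.coeff m`, `m : Ix N d`; the
coefficients in degree `≠ d` are zero).
-/

noncomputable section

namespace Pool.Agent.H66.CY

variable {N d k : ℕ}

private theorem Transport_aeval (σ : ℂ ≃+* ℂ) (F : MvPolynomial (Fin N) ℂ) (f : Fin N → Polynomial ℂ) :
    (MvPolynomial.aeval f F).map (σ : ℂ →+* ℂ) =
      MvPolynomial.aeval (fun i => (f i).map (σ : ℂ →+* ℂ)) (MvPolynomial.map (σ : ℂ →+* ℂ) F) := by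
  induction F using MvPolynomial.induction_on with
  | C a => simp
  | add p q hp hq => rw [map_add, Polynomial.map_add, hp, hq, map_add, map_add]
  | mul_X p i hp => rw [map_mul, Polynomial.map_mul, hp, map_mul, map_mul]; simp

theorem map_dsub (σ : ℂ ≃+* ℂ) (F : MvPolynomial (Fin N) ℂ) (f g : Fin N → Polynomial ℂ) :
    (dsub F f g).map (σ : ℂ →+* ℂ) = dsub (MvPolynomial.map (σ : ℂ →+* ℂ) F)
      (fun i => (f i).map (σ : ℂ →+* ℂ)) (fun i => (g i).map (σ : ℂ →+* ℂ)) := by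
  unfold dsub
  rw [Polynomial.map_sum]
  refine Finset.sum_congr rfl fun i _ => ?_
  rw [Polynomial.map_mul, Transport_aeval, MvPolynomial.pderiv_map]

private theorem Transport_symm (σ : ℂ ≃+* ℂ) (p : Polynomial ℂ) :
    (p.map (σ.symm : ℂ →+* ℂ)).map (σ : ℂ →+* ℂ) = p := by
  rw [Polynomial.map_map]
  have h : (σ : ℂ →+* ℂ).comp (σ.symm : ℂ →+* ℂ) = RingHom.id ℂ := by
    ext x
    simp
  rw [h, Polynomial.map_id]

private theorem Transport_symm' (σ : ℂ ≃+* ℂ) (p : Polynomial ℂ) :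
    (p.map (σ : ℂ →+* ℂ)).map (σ.symm : ℂ →+* ℂ) = p := by
  rw [Polynomial.map_map]
  have h : (σ.symm : ℂ →+* ℂ).comp (σ : ℂ →+* ℂ) = RingHom.id ℂ := by
    ext x
    simp
  rw [h, Polynomial.map_id]

theorem unobst_map (σ : ℂ ≃+* ℂ) {e : ℕ} {F : MvPolynomial (Fin N) ℂ} {f : Fin N → Polynomial ℂ}
    (h : Unobst d e F f) :
    Unobst d e (MvPolynomial.map (σ : ℂ →+* ℂ) F) (fun i => (f i).map (σ : ℂ →+* ℂ)) := by
  refine ⟨h.one_le, fun i => (Polynomial.natDegree_map_le).trans (h.deg i), ?_, ?_⟩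
  · rw [← Transport_aeval, h.zero, Polynomial.map_zero]
  · intro p hp
    obtain ⟨g, hg, hgp⟩ := h.onto (p.map (σ.symm : ℂ →+* ℂ)) ((Polynomial.natDegree_map_le).trans hp)
    refine ⟨fun i => (g i).map (σ : ℂ →+* ℂ), fun i => (Polynomial.natDegree_map_le).trans (hg i), ?_⟩
    rw [← map_dsub, hgp, Transport_symm]

theorem good_map (σ : ℂ ≃+* ℂ) {F : MvPolynomial (Fin N) ℂ} (h : Good d k F) :
    Good d k (MvPolynomial.map (σ : ℂ →+* ℂ) F) := by
  obtain ⟨ι, hι, e, f, hf, hD⟩ := h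
  refine ⟨ι, hι, e, fun j i => (f j i).map (σ : ℂ →+* ℂ), fun j => unobst_map σ (hf j), ?_⟩
  intro G hG hG0
  have h1 : F ∣ MvPolynomial.map (σ.symm : ℂ →+* ℂ) G := by
    refine hD _ (hG.map _) fun j => ?_
    have h2 := Transport_aeval σ.symm G (fun i => (f j i).map (σ : ℂ →+* ℂ))
    rw [hG0 j, Polynomial.map_zero] at h2
    have h3 : (fun i => ((f j i).map (σ : ℂ →+* ℂ)).map (σ.symm : ℂ →+* ℂ)) = f j := by
      funext i
      exact Transport_symm' σ _
    rw [h3] at h2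
    exact h2.symm
  have h4 : MvPolynomial.map (σ : ℂ →+* ℂ) (MvPolynomial.map (σ.symm : ℂ →+* ℂ) G) = G := by
    rw [MvPolynomial.map_map]
    have h : (σ : ℂ →+* ℂ).comp (σ.symm : ℂ →+* ℂ) = RingHom.id ℂ := by
      ext x
      simp
    rw [h, MvPolynomial.map_id]
  rw [← h4]
  exact map_dvd (MvPolynomial.map (σ : ℂ →+* ℂ)) h1

theorem good_of_conj {F₁ F : MvPolynomial (Fin N) ℂ} (h₁ : F₁.IsHomogeneous d)
    (hF : F.IsHomogeneous d) (g₁ : Generic d F₁) (gF : Generic d F) (h : Good d k F₁) :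
    Good d k F := by
  have hfin : Finite {m : Fin N →₀ ℕ // m.degree = d} := finite_Ix N d
  obtain ⟨σ, hσ⟩ := exists_aut g₁ gF
  have h2 : MvPolynomial.map (σ : ℂ →+* ℂ) F₁ = F := by
    ext m
    rw [MvPolynomial.coeff_map]
    by_cases hm : m.degree = d
    · exact hσ ⟨m, hm⟩
    · rw [h₁.coeff_eq_zero hm, hF.coeff_eq_zero hm]
      simp
  rw [← h2]
  exact good_map σ h

end Pool.Agent.H66.CY
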