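import Pool.Agent.H66.CY.Deform
import Pool.Agent.H66.CY.DetOpen
import Pool.Agent.H66.CY.GenNear
import Pool.Agent.H66.CY.Transport

/-!
# `Good` is open and, if it holds once, generic

Row text. `good_open`: take `ε₁` from `detects_open` and then `ε₂` from `deform_all` with
`δ = ε₁`; `ε = min ε₁ ε₂`. `good_of_generic`: `good_open`, `exists_generic_near`, `good_of_conj`.
-/

noncomputable section

namespace Pool.Agent.H66.CY

variable {N d k : ℕ}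

theorem good_open {F₀ : MvPolynomial (Fin N) ℂ} (hF₀ : F₀.IsHomogeneous d) (hF₀' : F₀ ≠ 0)
    (h : Good d k F₀) :
    ∃ ε > 0, ∀ F : MvPolynomial (Fin N) ℂ, F.IsHomogeneous d → NearF ε F₀ F → Good d k F := by
  obtain ⟨ι, hι, e, f₀, hf₀, hdet⟩ := h
  obtain ⟨ε₁, hε₁, H₁⟩ := detects_open hF₀ hF₀' (fun j => (hf₀ j).deg) (fun j => (hf₀ j).zero) hdet
  obtain ⟨ε₂, hε₂, H₂⟩ := deform_all hF₀ hf₀ hε₁
  refine ⟨min ε₁ ε₂, lt_min hε₁ hε₂, fun F hF hnF => ?_⟩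
  obtain ⟨f, hf⟩ := H₂ F hF (fun m => (hnF m).trans_le (min_le_right _ _))
  exact ⟨ι, hι, e, f, fun j => (hf j).2, H₁ F f hF (fun j => (hf j).2.deg)
    (fun m => (hnF m).trans_le (min_le_left _ _)) (fun j => (hf j).1) (fun j => (hf j).2.zero)⟩

theorem good_of_generic {F₀ : MvPolynomial (Fin N) ℂ} (hF₀ : F₀.IsHomogeneous d) (hF₀' : F₀ ≠ 0)
    (h : Good d k F₀) {F : MvPolynomial (Fin N) ℂ} (hF : F.IsHomogeneous d) (gF : Generic d F) :
    Good d k F := by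
  obtain ⟨ε, hε, H⟩ := good_open hF₀ hF₀' h
  obtain ⟨F₁, hF₁, hn, hg⟩ := exists_generic_near hF₀ hε
  exact good_of_conj hF₁ hF hg gF (H F₁ hF₁ hn)

end Pool.Agent.H66.CY
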