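import Pool.Agent.H66.CY.FibOpen
import Pool.Agent.H66.CY.FibDense
import Pool.Agent.H66.CY.Assemble
import Pool.Agent.H66.CY.GoodGen

/-!
# The induction step

Row text. `exists_all`: for every finite set `T` of rational numbers and all `A₀`, `B₀`, `ε` there are
`(A, B)` `ε`-near with `FibGood D k t A B` for all `t ∈ T`; induction on `T` (`Finset.induction_on`):
let `(A₁, B₁)` be `ε / 2`-near and good for `T`, `FibGood` for the `t ∈ T` persists within some `ε₁`
(`fibGood_open`; to have `fib t A₁ B₁ ≠ 0` there, carry it along: it is an open condition by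
`near_fib`, or use the nondegeneracy below), and `fibGood_dense` for the new `t` with
`min (ε / 2) ε₁`.

Nondegeneracy: `M ≥ 2`, variables `2` and `3`. Start with `A₀ = X 2 ^ D`, `B₀ = X 3 ^ D`, `ε = 1/8`. If
`a, a'` are the coefficients of `X 2 ^ D`, `X 3 ^ D` in `A` and `b, b'` those in `B`, then
`‖a - 1‖, ‖a'‖, ‖b‖, ‖b' - 1‖ < 1/8`, so `a b' ≠ a' b` and `a ≠ 0`. `fib t A B = 0` would give
`t a = b`, `t a' = b'` (the coefficients of `X 1 ^ D`, `X 2 ^ D` of `fib t A B` are `t a - b`,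
`t a' - b'`). `X 1 ∣ A` would give `a = 0`.

`induct`: `T` a set of rational numbers with more than `finrank` elements, `good_of_fibGood` (the set
of the complex numbers `(t : ℂ)`, `t ∈ T`), then `good_of_generic` (`tot A B ≠ 0`).
-/

noncomputable section

namespace Pool.Agent.H66.CY

variable {M D : ℕ}

private theorem exists_min {α : Type} (T : Finset α) (P : α → ℝ → Prop)
    (hmono : ∀ a ε ε', ε' ≤ ε → P a ε → P a ε') (h : ∀ a ∈ T, ∃ ε > 0, P a ε) :
    ∃ ε > 0, ∀ a ∈ T, P a ε := by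
  classical
  induction T using Finset.induction_on with
  | empty => exact ⟨1, one_pos, fun a ha => absurd ha (Finset.notMem_empty a)⟩
  | insert a T _ ih =>
    obtain ⟨ε₁, hε₁, h₁⟩ := ih fun b hb => h b (Finset.mem_insert_of_mem hb)
    obtain ⟨ε₂, hε₂, h₂⟩ := h a (Finset.mem_insert_self a T)
    refine ⟨min ε₁ ε₂, lt_min hε₁ hε₂, fun b hb => ?_⟩
    rcases Finset.mem_insert.1 hb with rfl | hb
    · exact hmono _ _ _ (min_le_right _ _) h₂
    · exact hmono _ _ _ (min_le_left _ _) (h₁ b hb)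

private theorem nearF_mono {N : ℕ} {F₀ F : MvPolynomial (Fin N) ℂ} {ε ε' : ℝ} (h : ε' ≤ ε)
    (hF : NearF ε' F₀ F) : NearF ε F₀ F := fun m => (hF m).trans_le h

private theorem nearF_trans {N : ℕ} {ε : ℝ} {P₀ P₁ P₂ : MvPolynomial (Fin N) ℂ}
    (h1 : NearF (ε / 2) P₀ P₁) (h2 : NearF (ε / 2) P₁ P₂) : NearF ε P₀ P₂ := by
  intro m
  have h3 : P₂.coeff m - P₀.coeff m = (P₂.coeff m - P₁.coeff m) + (P₁.coeff m - P₀.coeff m) := by
    ring
  rw [h3]
  refine (norm_add_le _ _).trans_lt ?_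
  have h4 := h1 m
  have h5 := h2 m
  linarith

private theorem nearF_self {N : ℕ} {ε : ℝ} (hε : 0 < ε) (P : MvPolynomial (Fin N) ℂ) :
    NearF ε P P := by
  intro m
  rwa [sub_self, norm_zero]

private theorem fib_ne_open {t : ℂ} {A₀ B₀ : MvPolynomial (Fin (M + 2)) ℂ}
    (hA₀ : A₀.IsHomogeneous D) (hB₀ : B₀.IsHomogeneous D) (hq : fib t A₀ B₀ ≠ 0) :
    ∃ ε > 0, ∀ A B : MvPolynomial (Fin (M + 2)) ℂ, A.IsHomogeneous D → B.IsHomogeneous D →
      NearF ε A₀ A → NearF ε B₀ B → fib t A B ≠ 0 := by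
  obtain ⟨m, hm⟩ := MvPolynomial.ne_zero_iff.1 hq
  obtain ⟨ε, hε, h⟩ := near_fib t hA₀ hB₀ (norm_pos_iff.2 hm)
  refine ⟨ε, hε, fun A B hA hB nA nB h0 => ?_⟩
  have h1 := h A B hA hB nA nB m
  rw [h0, MvPolynomial.coeff_zero, zero_sub, norm_neg] at h1
  exact lt_irrefl _ h1

private theorem exists_near_all (hM : 1 ≤ M) (hD : 2 ≤ D) {k : ℕ}
    (IH : ∀ F : MvPolynomial (Fin (M + 1)) ℂ, F.IsHomogeneous D → Generic D F → Good D (k + 1) F)
    (T : Finset ℚ) :
    ∀ (A₀ B₀ : MvPolynomial (Fin (M + 2)) ℂ), A₀.IsHomogeneous D → B₀.IsHomogeneous D →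
      ∀ ε : ℝ, 0 < ε →
    ∃ A B : MvPolynomial (Fin (M + 2)) ℂ, A.IsHomogeneous D ∧ B.IsHomogeneous D ∧
      NearF ε A₀ A ∧ NearF ε B₀ B ∧ ∀ t ∈ T, fib (t : ℂ) A B ≠ 0 ∧ FibGood D k (t : ℂ) A B := by
  classical
  induction T using Finset.induction_on with
  | empty =>
    intro A₀ B₀ hA₀ hB₀ ε hε
    exact ⟨A₀, B₀, hA₀, hB₀, nearF_self hε A₀, nearF_self hε B₀,
      fun t ht => absurd ht (Finset.notMem_empty t)⟩
  | insert a T _ ih =>
    intro A₀ B₀ hA₀ hB₀ ε hε
    obtain ⟨A₁, B₁, hA₁, hB₁, nA₁, nB₁, h₁⟩ := ih A₀ B₀ hA₀ hB₀ (ε / 2) (half_pos hε)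
    obtain ⟨ε₁, hε₁, h₂⟩ := exists_min T (fun t ε => ∀ A B : MvPolynomial (Fin (M + 2)) ℂ,
      A.IsHomogeneous D → B.IsHomogeneous D → NearF ε A₁ A → NearF ε B₁ B →
        fib (t : ℂ) A B ≠ 0 ∧ FibGood D k (t : ℂ) A B)
      (fun t ε ε' hle h A B hA hB nA nB => h A B hA hB (nearF_mono hle nA) (nearF_mono hle nB))
      (fun t ht => by
        obtain ⟨ε₂, hε₂, h₂⟩ := fib_ne_open hA₁ hB₁ (h₁ t ht).1
        obtain ⟨ε₃, hε₃, h₃⟩ := fibGood_open hA₁ hB₁ (h₁ t ht).1 (h₁ t ht).2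
        refine ⟨min ε₂ ε₃, lt_min hε₂ hε₃, fun A B hA hB nA nB => ⟨?_, ?_⟩⟩
        · exact h₂ A B hA hB (nearF_mono (min_le_left _ _) nA) (nearF_mono (min_le_left _ _) nB)
        · exact h₃ A B hA hB (nearF_mono (min_le_right _ _) nA) (nearF_mono (min_le_right _ _) nB))
    obtain ⟨A, B, hA, hB, nA, nB, hq, hg⟩ := fibGood_dense hM hD IH a hA₁ hB₁
      (lt_min (half_pos hε) hε₁)
    refine ⟨A, B, hA, hB, nearF_trans nA₁ (nearF_mono (min_le_left _ _) nA),
      nearF_trans nB₁ (nearF_mono (min_le_left _ _) nB), fun t ht => ?_⟩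
    rcases Finset.mem_insert.1 ht with rfl | ht
    · exact ⟨hq, hg⟩
    · exact h₂ t ht A B hA hB (nearF_mono (min_le_right _ _) nA) (nearF_mono (min_le_right _ _) nB)

/-- Value of a form at a unit vector. -/
private theorem eval_unit {N : ℕ} {P : MvPolynomial (Fin N) ℂ} (hP : P.IsHomogeneous D)
    (i : Fin N) : MvPolynomial.eval (Pi.single i 1) P = P.coeff (Finsupp.single i D) := by
  classical
  rw [MvPolynomial.eval_eq', Finset.sum_eq_single (Finsupp.single i D)]
  · rw [Finset.prod_eq_one, mul_one]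
    intro j _
    rcases eq_or_ne j i with rfl | hj
    · rw [Pi.single_eq_same, one_pow]
    · rw [Finsupp.single_apply, if_neg (Ne.symm hj), pow_zero]
  · intro d hd hne
    have hdeg : d.degree = D := by
      by_contra hcon
      exact (MvPolynomial.mem_support_iff.1 hd) (hP.coeff_eq_zero hcon)
    have hex : ∃ j, j ≠ i ∧ d j ≠ 0 := by
      by_contra hcon
      push Not at hcon
      apply hne
      have h1 : d = Finsupp.single i (d i) := by
        ext j
        rcases eq_or_ne j i with rfl | hj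
        · rw [Finsupp.single_eq_same]
        · rw [hcon j hj, Finsupp.single_apply, if_neg (Ne.symm hj)]
      have h2 : d i = D := by
        rw [h1] at hdeg
        simpa using hdeg
      rw [h1, h2]
    obtain ⟨j, hj, hdj⟩ := hex
    rw [Finset.prod_eq_zero (Finset.mem_univ j), mul_zero]
    rw [Pi.single_eq_of_ne hj, zero_pow hdj]
  · intro h
    rw [MvPolynomial.notMem_support_iff.1 h, zero_mul]

private theorem eval_restr (t : ℂ) (P : MvPolynomial (Fin (M + 2)) ℂ) (j : Fin (M + 1))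
    (hj : j ≠ 0) : MvPolynomial.eval (Pi.single j 1) (restr t P) =
      MvPolynomial.eval (Pi.single j.succ 1) P := by
  unfold restr
  have key : (MvPolynomial.eval (Pi.single j (1 : ℂ))).comp
      ((MvPolynomial.aeval (Fin.cons (MvPolynomial.C t * MvPolynomial.X 0) MvPolynomial.X) :
        MvPolynomial (Fin (M + 2)) ℂ →ₐ[ℂ] MvPolynomial (Fin (M + 1)) ℂ) : MvPolynomial (Fin (M + 2)) ℂ →+*
          MvPolynomial (Fin (M + 1)) ℂ) = MvPolynomial.eval (Pi.single j.succ (1 : ℂ)) := by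
    refine MvPolynomial.ringHom_ext (fun r => by simp) fun i => ?_
    rw [RingHom.comp_apply, RingHom.coe_coe, MvPolynomial.aeval_X, MvPolynomial.eval_X]
    refine Fin.cases ?_ (fun i => ?_) i
    · rw [Fin.cons_zero, map_mul, MvPolynomial.eval_X, Pi.single_eq_of_ne (Ne.symm hj), mul_zero,
        Pi.single_eq_of_ne (Fin.succ_ne_zero j).symm]
    · rw [Fin.cons_succ, MvPolynomial.eval_X]
      rcases eq_or_ne i j with rfl | h
      · rw [Pi.single_eq_same, Pi.single_eq_same]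
      · rw [Pi.single_eq_of_ne h, Pi.single_eq_of_ne fun h' => h (Fin.succ_injective _ h')]
  exact congrArg (fun φ => φ P) key

/-- `fib t A B` at a unit vector. -/
private theorem eval_fib {t : ℂ} {A B : MvPolynomial (Fin (M + 2)) ℂ} (hA : A.IsHomogeneous D)
    (hB : B.IsHomogeneous D) (j : Fin (M + 1)) (hj : j ≠ 0) :
    MvPolynomial.eval (Pi.single j 1) (fib t A B) =
      t * A.coeff (Finsupp.single j.succ D) - B.coeff (Finsupp.single j.succ D) := by
  unfold fib
  rw [eval_restr t _ j hj, map_sub, map_mul, MvPolynomial.eval_C, eval_unit hA, eval_unit hB]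

theorem exists_all (hM : 2 ≤ M) (hD : 2 ≤ D) {k : ℕ}
    (IH : ∀ F : MvPolynomial (Fin (M + 1)) ℂ, F.IsHomogeneous D → Generic D F → Good D (k + 1) F)
    (T : Finset ℚ) :
    ∃ A B : MvPolynomial (Fin (M + 2)) ℂ, A.IsHomogeneous D ∧ B.IsHomogeneous D ∧
      (∀ t, fib t A B ≠ 0) ∧ ¬ MvPolynomial.X 1 ∣ A ∧ ∀ t ∈ T, FibGood D k (t : ℂ) A B := by
  classical
  let j1 : Fin (M + 1) := ⟨1, by omega⟩
  let j2 : Fin (M + 1) := ⟨2, by omega⟩
  have hj1 : j1 ≠ 0 := fun h => by simpa [j1] using congrArg Fin.val h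
  have hj2 : j2 ≠ 0 := fun h => by simpa [j2] using congrArg Fin.val h
  have h12 : j1.succ ≠ j2.succ := fun h => by
    have := congrArg Fin.val h
    simp [j1, j2] at this
  have hhom : ∀ i : Fin (M + 2), ((MvPolynomial.X i : MvPolynomial (Fin (M + 2)) ℂ) ^ D).IsHomogeneous D := by
    intro i
    have h0 := (MvPolynomial.isHomogeneous_X ℂ i).pow D
    rwa [Nat.one_mul] at h0
  obtain ⟨A, B, hA, hB, nA, nB, h⟩ := exists_near_all (k := k) (by omega) hD IH T
    (MvPolynomial.X j1.succ ^ D) (MvPolynomial.X j2.succ ^ D) (hhom _) (hhom _) (1 / 8) (by norm_num)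
  have hc : ∀ i i' : Fin (M + 2), ((MvPolynomial.X i : MvPolynomial (Fin (M + 2)) ℂ) ^ D).coeff
      (Finsupp.single i' D) = if i = i' then 1 else 0 := by
    intro i i'
    rw [MvPolynomial.coeff_X_pow]
    by_cases hi : i = i'
    · rw [if_pos hi, if_pos (by rw [hi])]
    · rw [if_neg hi, if_neg]
      intro h
      have h1 := DFunLike.congr_fun h i
      rw [Finsupp.single_eq_same, Finsupp.single_apply, if_neg (Ne.symm hi)] at h1
      omega
  have ha := nA (Finsupp.single j1.succ D)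
  have ha' := nA (Finsupp.single j2.succ D)
  have hb := nB (Finsupp.single j1.succ D)
  have hb' := nB (Finsupp.single j2.succ D)
  rw [hc, if_pos rfl] at ha hb'
  rw [hc, if_neg h12, sub_zero] at ha'
  rw [hc, if_neg (Ne.symm h12), sub_zero] at hb
  have ha1 : 7 / 8 < ‖A.coeff (Finsupp.single j1.succ D)‖ := by
    have h1 := norm_sub_norm_le (1 : ℂ) (A.coeff (Finsupp.single j1.succ D))
    rw [norm_sub_rev, norm_one] at h1
    linarith
  have hb1 : 7 / 8 < ‖B.coeff (Finsupp.single j2.succ D)‖ := by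
    have h1 := norm_sub_norm_le (1 : ℂ) (B.coeff (Finsupp.single j2.succ D))
    rw [norm_sub_rev, norm_one] at h1
    linarith
  refine ⟨A, B, hA, hB, ?_, ?_, fun t ht => (h t ht).2⟩
  · intro t h0
    have e1 := eval_fib (t := t) hA hB j1 hj1
    have e2 := eval_fib (t := t) hA hB j2 hj2
    rw [h0, map_zero] at e1 e2
    have f1 := congrArg norm (sub_eq_zero.1 e1.symm)
    have f2 := congrArg norm (sub_eq_zero.1 e2.symm)
    rw [norm_mul] at f1 f2
    have ht0 : 0 ≤ ‖t‖ := norm_nonneg t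
    have g1 : ‖t‖ * (7 / 8) ≤ ‖t‖ * ‖A.coeff (Finsupp.single j1.succ D)‖ :=
      mul_le_mul_of_nonneg_left ha1.le ht0
    have g2 : ‖t‖ * ‖A.coeff (Finsupp.single j2.succ D)‖ ≤ ‖t‖ * (1 / 8) :=
      mul_le_mul_of_nonneg_left ha'.le ht0
    linarith
  · rintro ⟨R, hR⟩
    have h1 := eval_unit hA j1.succ
    have h2 : (1 : Fin (M + 2)) ≠ j1.succ := fun h => by
      have := congrArg Fin.val h
      simp [j1] at this
    rw [hR, map_mul, MvPolynomial.eval_X, Pi.single_eq_of_ne h2, zero_mul, ← hR] at h1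
    rw [← h1, norm_zero] at ha1
    linarith

theorem induct (hM : 2 ≤ M) (hD : 2 ≤ D)
    (IH : ∀ k, ∀ F : MvPolynomial (Fin (M + 1)) ℂ, F.IsHomogeneous D → Generic D F → Good D k F) :
    ∀ k, ∀ F : MvPolynomial (Fin (M + 2)) ℂ, F.IsHomogeneous (D + 1) → Generic (D + 1) F →
      Good (D + 1) k F := by
  classical
  intro k F hF gF
  set r : ℕ := Module.finrank ℂ (MvPolynomial.homogeneousSubmodule (Fin (M + 2)) ℂ k) with hr
  let T : Finset ℚ := (Finset.range (r + 1)).image (fun n : ℕ => (n : ℚ))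
  have hTc : T.card = r + 1 := by
    rw [Finset.card_image_of_injective _ Nat.cast_injective, Finset.card_range]
  obtain ⟨A, B, hA, hB, hq, hA1, h⟩ := exists_all (k := k) hM hD (IH (k + 1)) T
  have hgood : Good (D + 1) k (tot A B) := by
    refine good_of_fibGood hA hB hq hA1 (T.image (fun t : ℚ => (t : ℂ))) ?_ ?_
    · rw [Finset.card_image_of_injective _ Rat.cast_injective, hTc, ← hr]
      exact Nat.lt_succ_self r
    · intro s hs
      obtain ⟨t, ht, rfl⟩ := Finset.mem_image.1 hs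
      exact h t ht
  refine good_of_generic (isHomogeneous_tot hA hB) ?_ hgood hF gF
  intro h0
  have h1 := restr_tot 0 A B
  rw [h0] at h1
  have h2 : restr (M := M) 0 0 = 0 := by
    unfold restr
    exact map_zero _
  rw [h2] at h1
  exact mul_ne_zero (MvPolynomial.X_ne_zero 0) (hq 0) h1.symm

end Pool.Agent.H66.CY
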