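import Pool.Agent.H66.CY.Base
import Pool.Agent.H66.CY.Induct

/-!
# Very general hypersurfaces of degree `d ≤ n + 2`, `n ≥ 3`
-/

noncomputable section

namespace Pool.Agent.H66.CY

/-- The statement that is proved by induction. -/
def AllGood (N d : ℕ) : Prop :=
  ∀ k, ∀ F : MvPolynomial (Fin N) ℂ, F.IsHomogeneous d → Generic d F → Good d k F

theorem allGood_succ {N d : ℕ} (hN : 3 ≤ N) (hd : 2 ≤ d) (h : AllGood N d) :
    AllGood (N + 1) (d + 1) := by
  obtain ⟨M, rfl⟩ : ∃ M, N = M + 1 := ⟨N - 1, by omega⟩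
  exact induct (by omega) hd h

theorem allGood_add {N d : ℕ} (hN : 3 ≤ N) (hd : 2 ≤ d) (h : AllGood N d) (j : ℕ) :
    AllGood (N + j) (d + j) := by
  induction j with
  | zero => exact h
  | succ j ih =>
    exact allGood_succ (N := N + j) (d := d + j) (hN.trans (Nat.le_add_right _ _))
      (hd.trans (Nat.le_add_right _ _)) ih

/-- From the two bases (quadrics, quintic threefolds) to all degrees `2 ≤ d ≤ n + 2`. -/
theorem allGood_of_bases (hquad : ∀ N, 3 ≤ N → AllGood N 2) (hquint : AllGood 5 5) {n d : ℕ}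
    (hn : 3 ≤ n) (hd : 2 ≤ d) (hd' : d ≤ n + 2) : AllGood (n + 2) d := by
  rcases Nat.lt_or_ge d (n + 2) with h | h
  · have := allGood_add (N := n + 4 - d) (d := 2) (by omega) le_rfl
      (hquad _ (by omega)) (d - 2)
    rwa [show n + 4 - d + (d - 2) = n + 2 by omega, show 2 + (d - 2) = d by omega] at this
  · obtain rfl : d = n + 2 := by omega
    have := allGood_add (N := 5) (d := 5) (by omega) (by omega) hquint (n - 3)
    rwa [show 5 + (n - 3) = n + 2 by omega] at this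

theorem allGood_quintic {q : MvPolynomial (Fin 4) ℂ} (hq : q.IsHomogeneous 4)
    (hw : ∃ m : Fin 4 →₀ ℕ, m 3 ≠ 0 ∧ q.coeff m ≠ 0) (f : ℕ → Fin 4 → Polynomial ℂ)
    (lam : ℕ → Polynomial ℂ →ₗ[ℂ] ℂ) (hf : ∀ r, CurveData q (1 + 6 * r ^ 2) (f r) (lam r))
    (h1 : ∀ r, ∃ A : MvPolynomial (Fin 3) ℂ, A.IsHomogeneous 4 ∧
      lam r (MvPolynomial.aeval (fun i => f r i.castSucc) A) ≠ 0)
    (h2 : ∀ r r', r ≠ r' → ∀ c : ℂ, ∃ A : MvPolynomial (Fin 3) ℂ, A.IsHomogeneous 4 ∧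
      lam r (MvPolynomial.aeval (fun i => f r i.castSucc) A) ≠
        c * lam r' (MvPolynomial.aeval (fun i => f r' i.castSucc) A)) : AllGood 5 5 := by
  intro k F hF gF
  obtain ⟨F₀, h₀, hne, hg⟩ := base_good hq hw f lam hf h1 h2 k
  exact good_of_generic h₀ hne hg hF gF

end Pool.Agent.H66.CY
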