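import Pool.Agent.H66.CY.GoodAll
import Pool.Agent.H66.CY.ESum

/-!
# Very general quintic threefolds
-/

noncomputable section

namespace Pool.Agent.H66.CY

theorem allGood_quint : AllGood 5 5 := by
  obtain ⟨q, f, lam, hq, hw, hf, h1, h2⟩ := exists_curves
  exact allGood_quintic hq hw f lam hf h1 h2

end Pool.Agent.H66.CY
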