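import Pool.Agent.H66.CY.EvD

/-!
# The difference quotient of a polynomial, and the scaled evaluation map

Row text. `exists_quotR`: by `MvPolynomial.induction_on`: for constants `R = 0`; for sums add; for
`q * X i`: `R' = R(ε, x, y) * (x i + ε * y i) + q(x) * y i`. (The functions `x ↦ eval x q` are smooth:
`hasDerivAt`-free proof as in `EvD.contDiff_phi`, or by the same induction.)
-/

noncomputable section

open Topology

namespace Pool.Agent.H66.CY

theorem contDiff_eval {N : ℕ} (q : MvPolynomial (Fin N) ℂ) :
    ContDiff ℂ 1 (fun x : Fin N → ℂ => MvPolynomial.eval x q) := by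
  induction q using MvPolynomial.induction_on with
  | C a =>
    simp only [MvPolynomial.eval_C]
    exact contDiff_const
  | add p q hp hq =>
    simp only [map_add]
    exact hp.add hq
  | mul_X p j hp =>
    simp only [map_mul, MvPolynomial.eval_X]
    exact hp.mul (contDiff_apply ℂ ℂ j)

theorem exists_quotR {N : ℕ} (q : MvPolynomial (Fin N) ℂ) :
    ∃ R : ℂ × (Fin N → ℂ) × (Fin N → ℂ) → ℂ, ContDiff ℂ 1 R ∧
      (∀ ε x y, ε * R (ε, x, y) = MvPolynomial.eval (x + ε • y) q - MvPolynomial.eval x q) ∧
      ∀ x y, R (0, x, y) = ∑ i, MvPolynomial.eval x (MvPolynomial.pderiv i q) * y i := by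
  induction q using MvPolynomial.induction_on with
  | C a =>
    refine ⟨fun _ => 0, contDiff_const, fun ε x y => ?_, fun x y => ?_⟩
    · simp
    · simp
  | add p q hp hq =>
    obtain ⟨R, h1, h2, h3⟩ := hp
    obtain ⟨S, k1, k2, k3⟩ := hq
    refine ⟨fun z => R z + S z, h1.add k1, fun ε x y => ?_, fun x y => ?_⟩
    · simp only [mul_add, h2, k2, map_add]
      ring
    · simp only [h3, k3, map_add, add_mul, Finset.sum_add_distrib]
  | mul_X p j hp =>
    obtain ⟨R, h1, h2, h3⟩ := hp
    refine ⟨fun z => R z * (z.2.1 j + z.1 * z.2.2 j) + MvPolynomial.eval z.2.1 p * z.2.2 j,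
      ?_, fun ε x y => ?_, fun x y => ?_⟩
    · have c1 : ContDiff ℂ 1 fun z : ℂ × (Fin N → ℂ) × (Fin N → ℂ) => z.2.1 j :=
        (contDiff_apply ℂ ℂ j).comp (contDiff_fst.comp contDiff_snd)
      have c2 : ContDiff ℂ 1 fun z : ℂ × (Fin N → ℂ) × (Fin N → ℂ) => z.2.2 j :=
        (contDiff_apply ℂ ℂ j).comp (contDiff_snd.comp contDiff_snd)
      have c3 : ContDiff ℂ 1 fun z : ℂ × (Fin N → ℂ) × (Fin N → ℂ) =>
          MvPolynomial.eval z.2.1 p := (contDiff_eval p).comp (contDiff_fst.comp contDiff_snd)
      exact (h1.mul (c1.add (contDiff_fst.mul c2))).add (c3.mul c2)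
    · show ε * (R (ε, x, y) * (x j + ε * y j) + MvPolynomial.eval x p * y j) = _
      rw [map_mul, map_mul, MvPolynomial.eval_X, MvPolynomial.eval_X]
      have h := h2 ε x y
      simp only [Pi.add_apply, Pi.smul_apply, smul_eq_mul]
      linear_combination (x j + ε * y j) * h
    · show R (0, x, y) * (x j + 0 * y j) + MvPolynomial.eval x p * y j = _
      have h4 : ∀ i, MvPolynomial.eval x
          (MvPolynomial.pderiv i (p * MvPolynomial.X j)) * y i =
          MvPolynomial.eval x (MvPolynomial.pderiv i p) * y i * x j +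
          (if i = j then MvPolynomial.eval x p * y j else 0) := by
        intro i
        rw [MvPolynomial.pderiv_mul, map_add, map_mul, map_mul, MvPolynomial.eval_X]
        by_cases hij : i = j
        · subst hij
          rw [MvPolynomial.pderiv_X_self, if_pos rfl, map_one]
          ring
        · rw [MvPolynomial.pderiv_X_of_ne (fun h => hij h.symm), if_neg hij, map_zero]
          ring
      rw [Finset.sum_congr rfl fun i _ => h4 i, Finset.sum_add_distrib, ← Finset.sum_mul, h3]
      simp

end Pool.Agent.H66.CY
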