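import Pool.Agent.H66.CY.FibNear
import Pool.Agent.H66.CY.CritA
import Pool.Agent.H66.CY.Avoid

/-!
# Moving `A`, `B` without moving the fibre

Row text. Finitely many unobstructed curves `f_j` in `fib t A B`, `f_j 0 ≠ 0`. For a linear form
`L = ∑ i, l i * X i.succ` put `A' = A + C η * L ^ D`, `B' = B + C (t * η) * L ^ D`; then
`fib t A' B' = fib t A B`, and `aeval (lft t f) A' = aeval (lft t f) A + C η * (∑ l i * f i) ^ D`.
Choose `l` (`exists_linear`) with `∑ l i * (f_j i)(z) ≠ 0` at the zeros `z` of `f_j 0`, and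
`∑ l i * (f_j i).coeff (e j) ≠ 0` (`no_zero`, `no_zero_infty`). Then for all `η` outside a finite set
`CoprimeForms (e j) (D * e j) (f_j 0) (aeval (lft t f_j) A')` holds: no common root `z`
(`A(z) + η (L f (z))^D ≠ 0`; over `ℂ` no common root means `IsCoprime`), and
`coeff (D * e j)` of `(∑ l i * f i) ^ D` is `(∑ l i * (f i).coeff e) ^ D ≠ 0`. The coefficients of `A'`
differ from those of `A` by `‖η‖` times a bound (`exists_small`). `critA` for `A'`, `B'`.
-/

noncomputable section

namespace Pool.Agent.H66.CY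

variable {M D : ℕ}

private theorem exists_bound {N : ℕ} (P : MvPolynomial (Fin N) ℂ) :
    ∃ K : ℝ, 0 ≤ K ∧ ∀ m, ‖P.coeff m‖ ≤ K := by
  classical
  refine ⟨∑ m ∈ P.support, ‖P.coeff m‖, Finset.sum_nonneg fun _ _ => norm_nonneg _, fun m => ?_⟩
  by_cases hm : m ∈ P.support
  · exact Finset.single_le_sum (f := fun m => ‖P.coeff m‖) (fun _ _ => norm_nonneg _) hm
  · rw [MvPolynomial.notMem_support_iff.1 hm, norm_zero]
    exact Finset.sum_nonneg fun _ _ => norm_nonneg _

theorem repair (hD : 2 ≤ D) {t : ℂ} {A B : MvPolynomial (Fin (M + 2)) ℂ} (hA : A.IsHomogeneous D)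
    (hB : B.IsHomogeneous D) {ι : Type} [Finite ι] {e : ι → ℕ}
    {f : ι → Fin (M + 1) → Polynomial ℂ} (hf : ∀ j, Unobst D (e j) (fib t A B) (f j))
    (hf0 : ∀ j, f j 0 ≠ 0) {ε : ℝ} (hε : 0 < ε) :
    ∃ A' B' : MvPolynomial (Fin (M + 2)) ℂ, A'.IsHomogeneous D ∧ B'.IsHomogeneous D ∧
      NearF ε A A' ∧ NearF ε B B' ∧ fib t A' B' = fib t A B ∧
      ∀ j, Unobst (D + 1) (e j) (tot A' B') (lft t (f j)) := by
  classical
  have hq := isHomogeneous_fib (t := t) hA hB
  -- the vectors to be avoided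
  let κ : Type := (Σ j : ι, {z : ℂ // z ∈ (f j 0).roots.toFinset}) ⊕ ι
  have hκ : Finite κ := by
    show Finite ((Σ j : ι, {z : ℂ // z ∈ (f j 0).roots.toFinset}) ⊕ ι)
    infer_instance
  let v : κ → Fin (M + 1) → ℂ := Sum.elim (fun a i => (f a.1 i).eval a.2.1)
    (fun j i => (f j i).coeff (e j))
  have hv : ∀ a, v a ≠ 0 := by
    rintro (a | j)
    · exact no_zero hD hq (hf a.1) a.2.1
    · exact no_zero_infty hD hq (hf j)
  obtain ⟨l, hl⟩ := exists_linear v hv
  set L : MvPolynomial (Fin (M + 2)) ℂ := ∑ i : Fin (M + 1),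
    MvPolynomial.C (l i) * MvPolynomial.X i.succ with hL
  have hLh : L.IsHomogeneous 1 := by
    refine MvPolynomial.IsHomogeneous.sum _ _ _ fun i _ => ?_
    have := (MvPolynomial.isHomogeneous_C (Fin (M + 2)) (l i)).mul
      (MvPolynomial.isHomogeneous_X ℂ i.succ)
    rwa [zero_add] at this
  have hLD : (L ^ D).IsHomogeneous D := by
    have := hLh.pow D
    rwa [one_mul] at this
  have hCL : ∀ c : ℂ, (MvPolynomial.C c * L ^ D).IsHomogeneous D := by
    intro c
    have := (MvPolynomial.isHomogeneous_C (Fin (M + 2)) c).mul hLD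
    rwa [zero_add] at this
  set g : ι → Polynomial ℂ := fun j => ∑ i, Polynomial.C (l i) * f j i with hg
  have hgL : ∀ j, MvPolynomial.aeval (lft t (f j)) L = g j := by
    intro j
    simp only [hL, hg]
    rw [map_sum]
    refine Finset.sum_congr rfl fun i _ => ?_
    rw [map_mul, MvPolynomial.aeval_X, MvPolynomial.aeval_C]
    rfl
  have hgdeg : ∀ j, (g j).natDegree ≤ e j := by
    intro j
    refine Polynomial.natDegree_sum_le_of_forall_le _ _ fun i _ => ?_
    exact (Polynomial.natDegree_C_mul_le _ _).trans ((hf j).deg i)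
  set a : ι → Polynomial ℂ := fun j => MvPolynomial.aeval (lft t (f j)) A with ha
  -- the bad values of `η`
  let bad : κ → ℂ := Sum.elim (fun b => - (a b.1).eval b.2.1 / (g b.1).eval b.2.1 ^ D)
    (fun j => - (a j).coeff (D * e j) / ((g j).coeff (e j)) ^ D)
  obtain ⟨K, hK0, hK⟩ := exists_bound (L ^ D)
  have hδ : 0 < ε / ((K + 1) * (1 + ‖t‖)) := by positivity
  obtain ⟨η, hη0, hηδ, hηb⟩ := exists_small (Set.range bad) (Set.finite_range bad) hδ
  have hηK : ‖η‖ * ((K + 1) * (1 + ‖t‖)) < ε := (lt_div_iff₀ (by positivity)).1 hηδ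
  have h1 : ‖η‖ * K < ε := by
    refine lt_of_le_of_lt ?_ hηK
    refine mul_le_mul_of_nonneg_left ?_ (norm_nonneg _)
    nlinarith [norm_nonneg t]
  have h2 : ‖t‖ * ‖η‖ * K < ε := by
    refine lt_of_le_of_lt ?_ hηK
    have h3 : ‖t‖ * K ≤ (K + 1) * (1 + ‖t‖) := by nlinarith [norm_nonneg t]
    calc ‖t‖ * ‖η‖ * K = ‖η‖ * (‖t‖ * K) := by ring
      _ ≤ ‖η‖ * ((K + 1) * (1 + ‖t‖)) := mul_le_mul_of_nonneg_left h3 (norm_nonneg _)
  have hA' : (A + MvPolynomial.C η * L ^ D).IsHomogeneous D := hA.add (hCL η)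
  have hB' : (B + MvPolynomial.C (t * η) * L ^ D).IsHomogeneous D := hB.add (hCL _)
  have hfib : fib t (A + MvPolynomial.C η * L ^ D) (B + MvPolynomial.C (t * η) * L ^ D)
      = fib t A B := by
    unfold fib
    congr 1
    rw [MvPolynomial.C_mul]
    ring
  refine ⟨A + MvPolynomial.C η * L ^ D, B + MvPolynomial.C (t * η) * L ^ D, hA', hB', ?_, ?_, hfib, ?_⟩
  · intro m
    rw [MvPolynomial.coeff_add, add_sub_cancel_left, MvPolynomial.coeff_C_mul, norm_mul]
    exact lt_of_le_of_lt (mul_le_mul_of_nonneg_left (hK m) (norm_nonneg _)) h1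
  · intro m
    rw [MvPolynomial.coeff_add, add_sub_cancel_left, MvPolynomial.coeff_C_mul, norm_mul, norm_mul]
    exact lt_of_le_of_lt (mul_le_mul_of_nonneg_left (hK m) (by positivity)) h2
  · intro j
    have hfj : Unobst D (e j)
        (fib t (A + MvPolynomial.C η * L ^ D) (B + MvPolynomial.C (t * η) * L ^ D)) (f j) := by
      rw [hfib]
      exact hf j
    have haev : MvPolynomial.aeval (lft t (f j)) (A + MvPolynomial.C η * L ^ D)
        = a j + Polynomial.C η * g j ^ D := by
      rw [map_add, map_mul, map_pow, hgL j, MvPolynomial.aeval_C]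
      rfl
    refine critA hA' hB' hfj ?_
    rw [haev]
    refine ⟨?_, Or.inr ?_⟩
    · rw [Polynomial.isCoprime_iff_aeval_ne_zero_of_isAlgClosed ℂ ℂ]
      intro z
      by_cases hz : (f j 0).eval z = 0
      · right
        have hzr : z ∈ (f j 0).roots.toFinset := by
          rw [Multiset.mem_toFinset, Polynomial.mem_roots (hf0 j)]
          exact hz
        have hlz := hl (Sum.inl ⟨j, z, hzr⟩)
        have hgz : (g j).eval z ≠ 0 := by
          simp only [hg]
          rw [Polynomial.eval_finsetSum]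
          simp only [Polynomial.eval_mul, Polynomial.eval_C]
          exact hlz
        intro h0
        apply hηb
        refine ⟨Sum.inl ⟨j, z, hzr⟩, ?_⟩
        show - (a j).eval z / (g j).eval z ^ D = η
        have h3 : (a j).eval z + η * (g j).eval z ^ D = 0 := by
          have := h0
          rw [Polynomial.coe_aeval_eq_eval] at this
          simpa using this
        rw [div_eq_iff (pow_ne_zero _ hgz)]
        linear_combination -h3
      · left
        intro h0
        apply hz
        rw [Polynomial.coe_aeval_eq_eval] at h0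
        exact h0
    · have hlj := hl (Sum.inr j)
      have hgj : (g j).coeff (e j) ≠ 0 := by
        simp only [hg]
        rw [Polynomial.finsetSum_coeff]
        simp only [Polynomial.coeff_C_mul]
        exact hlj
      intro h0
      apply hηb
      refine ⟨Sum.inr j, ?_⟩
      show - (a j).coeff (D * e j) / ((g j).coeff (e j)) ^ D = η
      rw [Polynomial.coeff_add, Polynomial.coeff_C_mul,
        Polynomial.coeff_pow_of_natDegree_le (hgdeg j)] at h0
      rw [div_eq_iff (pow_ne_zero _ hgj)]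
      linear_combination -h0

end Pool.Agent.H66.CY
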